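import Pool.Agent.Lib.MP_cfac74_al.Cov.Half

/-!
# MP_cfac74_al : list lemmas
-/

set_option autoImplicit false

namespace Pool.Agent.Lib.MP_cfac74_al.Cov

theorem sfcons {α : Type} {P : α → Prop} {a : α} {l : List α} (h : P a) (h' : ∀ w ∈ l, P w) :
    ∀ w ∈ a :: l, P w := by
  intro w hw
  rcases List.mem_cons.1 hw with rfl | hw
  · exact h
  · exact h' w hw

theorem sfnil {α : Type} {P : α → Prop} : ∀ w ∈ ([] : List α), P w := by
  intro w hw
  exact absurd hw List.not_mem_nil

end Pool.Agent.Lib.MP_cfac74_al.Cov
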