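import Pool.Agent.Lib.MP_cfac74_al.S.S00
import Pool.Agent.Lib.MP_cfac74_al.S.S01
import Pool.Agent.Lib.MP_cfac74_al.S.S02
import Pool.Agent.Lib.MP_cfac74_al.S.S03
import Pool.Agent.Lib.MP_cfac74_al.S.S04
import Pool.Agent.Lib.MP_cfac74_al.S.S05
import Pool.Agent.Lib.MP_cfac74_al.S.S06
import Pool.Agent.Lib.MP_cfac74_al.S.S07
import Pool.Agent.Lib.MP_cfac74_al.S.S08
import Pool.Agent.Lib.MP_cfac74_al.S.S09
import Pool.Agent.Lib.MP_cfac74_al.S.S10
import Pool.Agent.Lib.MP_cfac74_al.S.S11
import Pool.Agent.Lib.MP_cfac74_al.S.S12
import Pool.Agent.Lib.MP_cfac74_al.S.S13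
import Pool.Agent.Lib.MP_cfac74_al.S.S14
import Pool.Agent.Lib.MP_cfac74_al.S.S15
import Pool.Agent.Lib.MP_cfac74_al.S.S16
import Pool.Agent.Lib.MP_cfac74_al.S.S17
import Pool.Agent.Lib.MP_cfac74_al.S.S18
import Pool.Agent.Lib.MP_cfac74_al.S.Ls

/-!
# MP_cfac74_al : stable windows, class 1
-/

set_option autoImplicit false
set_option maxRecDepth 1000000

namespace Pool.Agent.Lib.MP_cfac74_al.Cov

theorem p1_0 : Stab 1 55655145772 58493558136 := s139_t0

theorem sw1_0 : Win 1 55655145772 58493558136 := p1_0.win (by decide +kernel)

theorem p1_1 : Stab 1 65643379999 66477113928 := s833_t0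

theorem sw1_1 : Win 1 65643379999 66477113928 := p1_1.win (by decide +kernel)

theorem p1_2 : Stab 1 66477098226 67432089096 := s742_t0

theorem sw1_2 : Win 1 66477098226 67432089096 := p1_2.win (by decide +kernel)

theorem p1_3 : Stab 1 67432071788 68278630728 := s359_t0

theorem sw1_3 : Win 1 67432071788 68278630728 := p1_3.win (by decide +kernel)

theorem p1_4 : Stab 1 68278614077 69521843400 := s580_t0

theorem sw1_4 : Win 1 68278614077 69521843400 := p1_4.win (by decide +kernel)

theorem p1_5 : Stab 1 69521820325 71018929224 := s566_t0

theorem sw1_5 : Win 1 69521820325 71018929224 := p1_5.win (by decide +kernel)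

theorem p1_6 : Stab 1 71018889919 72756879336 := s687_t0

theorem sw1_6 : Win 1 71018889919 72756879336 := p1_6.win (by decide +kernel)

theorem p1_7 : Stab 1 72756843483 73657756872 := s664_t0

theorem sw1_7 : Win 1 72756843483 73657756872 := p1_7.win (by decide +kernel)

theorem p1_8 : Stab 1 73657739837 76105704840 := s185_t0

theorem sw1_8 : Win 1 73657739837 76105704840 := p1_8.win (by decide +kernel)

theorem p1_9 : Stab 1 75869416217 77145863976 := s460_t0

theorem sw1_9 : Win 1 75869416217 77145863976 := p1_9.win (by decide +kernel)

theorem p1_10 : Stab 1 76759934162 79372886040 := s180_t0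

theorem sw1_10 : Win 1 76759934162 79372886040 := p1_10.win (by decide +kernel)

theorem p1_11 : Stab 1 79273563212 80745276552 := s689_t0

theorem sw1_11 : Win 1 79273563212 80745276552 := p1_11.win (by decide +kernel)

theorem p1_12 : Stab 1 80577287066 82914911832 := s372_t0

theorem sw1_12 : Win 1 80577287066 82914911832 := p1_12.win (by decide +kernel)

theorem p1_13 : Stab 1 82889962475 87544024536 := s345_t0

theorem sw1_13 : Win 1 82889962475 87544024536 := p1_13.win (by decide +kernel)

theorem p1_14 : Stab 1 87109677381 89417234424 := s564_t0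

theorem sw1_14 : Win 1 87109677381 89417234424 := p1_14.win (by decide +kernel)

theorem p1_15 : Stab 1 89417196871 91209068664 := s7_t0

theorem sw1_15 : Win 1 89417196871 91209068664 := p1_15.win (by decide +kernel)

theorem p1_16 : Stab 1 91209047709 93013486872 := s252_t0

theorem sw1_16 : Win 1 91209047709 93013486872 := p1_16.win (by decide +kernel)

theorem p1_17 : Stab 1 92704444796 94825281384 := s181_t0

theorem sw1_17 : Win 1 92704444796 94825281384 := p1_17.win (by decide +kernel)

theorem p1_18 : Stab 1 94825259527 96841095048 := s397_t0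

theorem sw1_18 : Win 1 94825259527 96841095048 := p1_18.win (by decide +kernel)

theorem p1_19 : Stab 1 96841072392 98118654216 := s66_t0

theorem sw1_19 : Win 1 96841072392 98118654216 := p1_19.win (by decide +kernel)

theorem p1_20 : Stab 1 98118634629 99405214920 := s740_t0

theorem sw1_20 : Win 1 98118634629 99405214920 := p1_20.win (by decide +kernel)

theorem p1_21 : Stab 1 99405193986 101479049448 := s348_t0

theorem sw1_21 : Win 1 99405193986 101479049448 := p1_21.win (by decide +kernel)

theorem p1_22 : Stab 1 101148247256 102969403992 := s762_t0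

theorem sw1_22 : Win 1 101148247256 102969403992 := p1_22.win (by decide +kernel)

theorem p1_23 : Stab 1 102628879879 106708450248 := s836_t0

theorem sw1_23 : Win 1 102628879879 106708450248 := p1_23.win (by decide +kernel)

theorem p1_24 : Stab 1 106476335262 108954621624 := s569_t0

theorem sw1_24 : Win 1 106476335262 108954621624 := p1_24.win (by decide +kernel)

theorem p1_25 : Stab 1 108954583338 110329206552 := s548_t0

theorem sw1_25 : Win 1 108954583338 110329206552 := p1_25.win (by decide +kernel)

theorem p1_26 : Stab 1 110329169807 113025195816 := s729_t0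

theorem sw1_26 : Win 1 110329169807 113025195816 := p1_26.win (by decide +kernel)

theorem p1_27 : Stab 1 113025156067 116835235608 := s704_t0

theorem sw1_27 : Win 1 113025156067 116835235608 := p1_27.win (by decide +kernel)

theorem p1_28 : Stab 1 116188769044 121096741368 := s157_t0

theorem sw1_28 : Win 1 116188769044 121096741368 := p1_28.win (by decide +kernel)

theorem p1_29 : Stab 1 121096722524 123002112120 := s508_t0

theorem sw1_29 : Win 1 121096722524 123002112120 := p1_29.win (by decide +kernel)

theorem p1_30 : Stab 1 122954936062 124014739560 := s670_t0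

theorem sw1_30 : Win 1 122954936062 124014739560 := p1_30.win (by decide +kernel)

theorem p1_31 : Stab 1 124014716648 126713132616 := s439_t0

theorem sw1_31 : Win 1 124014716648 126713132616 := p1_31.win (by decide +kernel)

theorem p1_32 : Stab 1 126616550751 127921815528 := s621_t0

theorem sw1_32 : Win 1 126616550751 127921815528 := p1_32.win (by decide +kernel)

theorem p1_33 : Stab 1 127181416523 132261635640 := s108_t0

theorem sw1_33 : Win 1 127181416523 132261635640 := p1_33.win (by decide +kernel)

theorem p1_34 : Stab 1 132261619108 135038774328 := s810_t0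

theorem sw1_34 : Win 1 132261619108 135038774328 := p1_34.win (by decide +kernel)

theorem p1_35 : Stab 1 135038751325 136946051736 := s410_t0

theorem sw1_35 : Win 1 135038751325 136946051736 := p1_35.win (by decide +kernel)

theorem p1_36 : Stab 1 136946030738 138174654504 := s725_t0

theorem sw1_36 : Win 1 136946030738 138174654504 := p1_36.win (by decide +kernel)

theorem p1_37 : Stab 1 138174616718 139738163976 := s2_t0

theorem sw1_37 : Win 1 138174616718 139738163976 := p1_37.win (by decide +kernel)

theorem p1_38 : Stab 1 139738141205 142090911048 := s45_t0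

theorem sw1_38 : Win 1 139738141205 142090911048 := p1_38.win (by decide +kernel)

theorem p1_39 : Stab 1 142090893140 143387376696 := s757_t0

theorem sw1_39 : Win 1 142090893140 143387376696 := p1_39.win (by decide +kernel)

theorem p1_40 : Stab 1 143387334990 146621723544 := s27_t0

theorem sw1_40 : Win 1 143387334990 146621723544 := p1_40.win (by decide +kernel)

theorem p1_41 : Stab 1 147981014456 149604531288 := s391_t0

theorem sw1_41 : Win 1 147981014456 149604531288 := p1_41.win (by decide +kernel)

theorem p1_42 : Stab 1 149604490697 151601503800 := s419_t0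

theorem sw1_42 : Win 1 149604490697 151601503800 := p1_42.win (by decide +kernel)

theorem p1_43 : Stab 1 151601463002 152717821368 := s611_t0

theorem sw1_43 : Win 1 151601463002 152717821368 := p1_43.win (by decide +kernel)

theorem p1_44 : Stab 1 152717776916 154308994200 := s202_t0

theorem sw1_44 : Win 1 152717776916 154308994200 := p1_44.win (by decide +kernel)

theorem p1_45 : Stab 1 154308974891 156269875512 := s651_t0

theorem sw1_45 : Win 1 154308974891 156269875512 := p1_45.win (by decide +kernel)

theorem p1_46 : Stab 1 156269859330 159324048888 := s230_t0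

theorem sw1_46 : Win 1 156269859330 159324048888 := p1_46.win (by decide +kernel)

theorem p1_47 : Stab 1 159324030970 161361190488 := s657_t0

theorem sw1_47 : Win 1 159324030970 161361190488 := p1_47.win (by decide +kernel)

theorem p1_48 : Stab 1 160833071528 163597283448 := s316_t0

theorem sw1_48 : Win 1 160833071528 163597283448 := p1_48.win (by decide +kernel)

theorem p1_49 : Stab 1 163597256630 165087570312 := s298_t0

theorem sw1_49 : Win 1 163597256630 165087570312 := p1_49.win (by decide +kernel)

theorem p1_50 : Stab 1 177410696962 180108346248 := s787_t0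

theorem sw1_50 : Win 1 177410696962 180108346248 := p1_50.win (by decide +kernel)

theorem p1_51 : Stab 1 179437752418 182947190184 := s753_t0

theorem sw1_51 : Win 1 179437752418 182947190184 := p1_51.win (by decide +kernel)

theorem p1_52 : Stab 1 182947172277 187471252680 := s125_t0

theorem p1_53 : Stab 1 187471228151 191357138280 := s445_t0

theorem p1_54 : Stab 1 191357119001 193793256360 := s71_t0

theorem p1_55 : Stab 1 193793205938 195290844168 := s638_t0

theorem p1_56 : Stab 1 195290784706 202707841320 := s770_t0

theorem p1_57 : Stab 1 202707802487 212395899432 := s74_t0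

theorem p1_58 : Stab 1 212395879001 219292643592 := s698_t0

theorem p1_59 : Stab 1 219292623122 222286840344 := s635_t0

theorem p1_60 : Stab 1 222286808658 226037786472 := s720_t0

theorem p1_61 : Stab 1 226037744448 229514418888 := s114_t0

theorem p1_62 : Stab 1 229514383570 232751167080 := s215_t0

theorem p1_63 : Stab 1 232751124421 239759063016 := s726_t0

theorem p1_64 : Stab 1 239518724882 245050484184 := s668_t0

theorem p1_65 : Stab 1 245050445661 250668831720 := s526_t0

theorem p1_66 : Stab 1 250668780906 256601381640 := s828_t0

theorem p1_67 : Stab 1 256601300153 259697657832 := s349_t0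

theorem p1_68 : Stab 1 259697584099 271461092328 := s196_t0

theorem p1_69 : Stab 1 271461057206 280373304744 := s472_t0

theorem p1_70 : Stab 1 280373232395 289001364072 := s440_t0

theorem p1_71 : Stab 1 289001332821 291446140176 := (Half.stab s565_t0 s5_t1 (by decide +kernel) : Stab 1 289001332821 291446140176)

theorem p1_72 : Stab 1 290773466311 295081805520 := (Half.stab s555_t0 s5_t1 (by decide +kernel) : Stab 1 290773466311 295081805520)

theorem p1_73 : Stab 1 294743306422 296658660438 := (Half.stab s876_t1 s5_t1 (by decide +kernel) : Stab 1 294743306422 296658660438)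

theorem p1_74 : Stab 1 296658378178 300101491020 := (Half.stab s751_t2 s5_t1 (by decide +kernel) : Stab 1 296658378178 300101491020)

theorem p1_75 : Stab 1 300100924816 301101679500 := (Half.stab s751_t2 s514_t1 (by decide +kernel) : Stab 1 300100924816 301101679500)

theorem p1_76 : Stab 1 301101132414 302295940086 := (Half.stab s751_t2 s150_t1 (by decide +kernel) : Stab 1 301101132414 302295940086)

theorem p1_77 : Stab 1 301994123023 304839192780 := (Half.stab s667_t0 s150_t1 (by decide +kernel) : Stab 1 301994123023 304839192780)

theorem p1_78 : Stab 1 304838484236 307192073616 := (Half.stab s667_t0 s831_t1 (by decide +kernel) : Stab 1 304838484236 307192073616)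

theorem p1_79 : Stab 1 306136355440 309065009310 := (Half.stab s645_t0 s831_t1 (by decide +kernel) : Stab 1 306136355440 309065009310)

theorem p1_80 : Stab 1 309064768940 313958715180 := (Half.stab s677_t0 s819_t1 (by decide +kernel) : Stab 1 309064768940 313958715180)

theorem p1_81 : Stab 1 313958502535 316507276140 := (Half.stab s392_t0 s567_t0 (by decide +kernel) : Stab 1 313958502535 316507276140)

theorem p1_82 : Stab 1 316506946919 319387405104 := (Half.stab s392_t0 s50_t1 (by decide +kernel) : Stab 1 316506946919 319387405104)

theorem p1_83 : Stab 1 319387204423 322285701420 := (Half.stab s132_t1 s50_t1 (by decide +kernel) : Stab 1 319387204423 322285701420)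

theorem p1_84 : Stab 1 322285662592 325626048888 := s154_t0

theorem p1_85 : Stab 1 325625986344 335095813464 := s525_t0

theorem p1_86 : Stab 1 335095754568 343135573848 := s849_t0

theorem p1_87 : Stab 1 343135414003 347190314760 := s376_t0

theorem p1_88 : Stab 1 347189940573 348740067156 := (Half.stab s686_t1 s874_t0 (by decide +kernel) : Stab 1 347189940573 348740067156)

theorem p1_89 : Stab 1 348739701278 353221234548 := (Half.stab s644_t1 s264_t0 (by decide +kernel) : Stab 1 348739701278 353221234548)

theorem p1_90 : Stab 1 352978433048 357371376192 := (Half.stab s644_t1 s30_t2 (by decide +kernel) : Stab 1 352978433048 357371376192)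

theorem p1_91 : Stab 1 357371079143 361222084224 := (Half.stab s153_t1 s62_t2 (by decide +kernel) : Stab 1 357371079143 361222084224)

theorem p1_92 : Stab 1 361221776710 364568081472 := (Half.stab s153_t1 s243_t2 (by decide +kernel) : Stab 1 361221776710 364568081472)

theorem p1_93 : Stab 1 364568017315 369621653400 := s330_t0

theorem p1_94 : Stab 1 369621584462 372591959400 := s805_t0

theorem p1_95 : Stab 1 372591903828 374434647444 := (Half.stab s733_t1 s699_t0 (by decide +kernel) : Stab 1 372591903828 374434647444)

theorem p1_96 : Stab 1 374434432357 380230331100 := (Half.stab s733_t1 s513_t0 (by decide +kernel) : Stab 1 374434432357 380230331100)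

theorem p1_97 : Stab 1 380230241948 387307611444 := (Half.stab s436_t1 s582_t1 (by decide +kernel) : Stab 1 380230241948 387307611444)

theorem p1_98 : Stab 1 385925484847 393526654560 := (Half.stab s436_t1 s163_t2 (by decide +kernel) : Stab 1 385925484847 393526654560)

theorem p1_99 : Stab 1 393526184629 398296630080 := (Half.stab s436_t1 s647_t1 (by decide +kernel) : Stab 1 393526184629 398296630080)

theorem p1_100 : Stab 1 398296362750 403209951270 := (Half.stab s533_t1 s46_t1 (by decide +kernel) : Stab 1 398296362750 403209951270)

theorem p1_101 : Stab 1 403209796670 408425963904 := (Half.stab s183_t1 s228_t0 (by decide +kernel) : Stab 1 403209796670 408425963904)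

theorem p1_102 : Stab 1 408425905981 415193729448 := s851_t0

theorem p1_103 : Stab 1 415193679702 417117691980 := (Half.stab s268_t1 s158_t1 (by decide +kernel) : Stab 1 415193679702 417117691980)

theorem p1_104 : Stab 1 417117638034 420435800424 := s510_t0

theorem p1_105 : Stab 1 420435758338 425036763240 := s681_t0

theorem p1_106 : Stab 1 425036721797 428979888780 := (Half.stab s512_t3 s756_t1 (by decide +kernel) : Stab 1 425036721797 428979888780)

theorem p1_107 : Stab 1 428979810269 431119257420 := (Half.stab s528_t3 s58_t1 (by decide +kernel) : Stab 1 428979810269 431119257420)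

theorem p1_108 : Stab 1 430800094441 435380287506 := (Half.stab s528_t3 s799_t2 (by decide +kernel) : Stab 1 430800094441 435380287506)

theorem p1_109 : Stab 1 435379842338 442517661522 := (Half.stab s16_t3 s265_t2 (by decide +kernel) : Stab 1 435379842338 442517661522)

theorem p1_110 : Stab 1 442517602435 456361131336 := s455_t0

theorem p1_111 : Stab 1 456361081103 461262141336 := s809_t0

theorem p1_112 : Stab 1 461262090353 466391769432 := s480_t0

theorem p1_113 : Stab 1 465390735751 467874684438 := (Half.stab s680_t1 s433_t1 (by decide +kernel) : Stab 1 465390735751 467874684438)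

theorem p1_114 : Stab 1 467874001442 473343608598 := (Half.stab s42_t1 s433_t1 (by decide +kernel) : Stab 1 467874001442 473343608598)

theorem p1_115 : Stab 1 473343523097 478794115926 := (Half.stab s204_t1 s537_t1 (by decide +kernel) : Stab 1 473343523097 478794115926)

theorem p1_116 : Stab 1 478794047331 485330340792 := s89_t0

theorem p1_117 : Stab 1 485330280439 488897054328 := s184_t0

theorem p1_118 : Stab 1 488896994897 493812562824 := s276_t0

theorem p1_119 : Stab 1 493812540961 511836475944 := s780_t0

theorem p1_120 : Stab 1 511836392562 518479970424 := s38_t0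

theorem p1_121 : Stab 1 518479928064 524636686536 := s543_t0

theorem p1_122 : Stab 1 524636638818 530526855192 := s280_t0

theorem p1_123 : Stab 1 530526799511 535798411128 := s224_t0

theorem p1_124 : Stab 1 535798344126 543079953192 := s281_t0

theorem p1_125 : Stab 1 543079911810 550392648840 := s295_t0

theorem p1_126 : Stab 1 550392602440 553155300264 := s240_t0

theorem p1_127 : Stab 1 553155246378 561581346120 := s711_t0

theorem p1_128 : Stab 1 561581295277 569597048418 := (Half.stab s682_t1 s576_t1 (by decide +kernel) : Stab 1 561581295277 569597048418)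

theorem p1_129 : Stab 1 569596648446 575720757660 := (Half.stab s643_t1 s82_t1 (by decide +kernel) : Stab 1 569596648446 575720757660)

theorem p1_130 : Stab 1 575718739216 578077623330 := (Half.stab s165_t1 s82_t1 (by decide +kernel) : Stab 1 575718739216 578077623330)

theorem p1_131 : Stab 1 578077360086 586737481980 := (Half.stab s165_t1 s377_t1 (by decide +kernel) : Stab 1 578077360086 586737481980)

theorem p1_132 : Stab 1 586737366620 592274523042 := (Half.stab s317_t1 s231_t2 (by decide +kernel) : Stab 1 586737366620 592274523042)

theorem p1_133 : Stab 1 592274301004 597216739860 := (Half.stab s350_t1 s666_t0 (by decide +kernel) : Stab 1 592274301004 597216739860)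

theorem p1_134 : Stab 1 597216357767 604506944214 := (Half.stab s318_t1 s808_t2 (by decide +kernel) : Stab 1 597216357767 604506944214)

theorem p1_135 : Stab 1 604506417465 610629917478 := (Half.stab s788_t1 s189_t1 (by decide +kernel) : Stab 1 604506417465 610629917478)

theorem p1_136 : Stab 1 610628248802 612704207580 := (Half.stab s788_t1 s258_t1 (by decide +kernel) : Stab 1 610628248802 612704207580)

theorem p1_137 : Stab 1 612702394485 618107659302 := (Half.stab s855_t1 s258_t1 (by decide +kernel) : Stab 1 612702394485 618107659302)

theorem p1_138 : Stab 1 618107156685 623625788790 := (Half.stab s855_t1 s609_t0 (by decide +kernel) : Stab 1 618107156685 623625788790)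

theorem p1_139 : Stab 1 623625269397 641328830982 := (Half.stab s781_t1 s315_t1 (by decide +kernel) : Stab 1 623625269397 641328830982)

theorem p1_140 : Stab 1 641328787162 646838440392 := s428_t0

theorem p1_141 : Stab 1 646838391367 663970123782 := (Half.stab s798_t1 s142_t1 (by decide +kernel) : Stab 1 646838391367 663970123782)

theorem p1_142 : Stab 1 662984162005 677921490780 := (Half.stab s420_t1 s131_t1 (by decide +kernel) : Stab 1 662984162005 677921490780)

theorem p1_143 : Stab 1 677920354988 681711814182 := (Half.stab s545_t1 s131_t1 (by decide +kernel) : Stab 1 677920354988 681711814182)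

theorem p1_144 : Stab 1 681710810690 689900373180 := (Half.stab s545_t1 s747_t1 (by decide +kernel) : Stab 1 681710810690 689900373180)

theorem p1_145 : Stab 1 689900264809 699037419900 := (Half.stab s175_t1 s49_t1 (by decide +kernel) : Stab 1 689900264809 699037419900)

theorem p1_146 : Stab 1 699037368141 704151095592 := s662_t0

theorem p1_147 : Stab 1 704151055682 715173086940 := (Half.stab s459_t0 s535_t1 (by decide +kernel) : Stab 1 704151055682 715173086940)

theorem p1_148 : Stab 1 715172988931 722178134994 := (Half.stab s187_t0 s253_t1 (by decide +kernel) : Stab 1 715172988931 722178134994)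

theorem p1_149 : Stab 1 722177769803 728200430322 := (Half.stab s845_t1 s253_t1 (by decide +kernel) : Stab 1 722177769803 728200430322)

theorem p1_150 : Stab 1 724965817772 733692339504 := (Half.stab s245_t2 s253_t1 (by decide +kernel) : Stab 1 724965817772 733692339504)

theorem p1_151 : Stab 1 733692181097 737918287920 := (Half.stab s416_t2 s86_t1 (by decide +kernel) : Stab 1 733692181097 737918287920)

theorem p1_152 : Stab 1 737917334221 747348172272 := (Half.stab s161_t2 s86_t1 (by decide +kernel) : Stab 1 737917334221 747348172272)

theorem p1_153 : Stab 1 747347261504 752324875974 := (Half.stab s275_t2 s86_t1 (by decide +kernel) : Stab 1 747347261504 752324875974)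

theorem p1_154 : Stab 1 751220102128 754942123152 := (Half.stab s275_t2 s773_t1 (by decide +kernel) : Stab 1 751220102128 754942123152)

theorem p1_155 : Stab 1 754941219589 763248684816 := (Half.stab s155_t1 s773_t1 (by decide +kernel) : Stab 1 754941219589 763248684816)

theorem p1_156 : Stab 1 762650420291 766946485260 := (Half.stab s141_t2 s773_t1 (by decide +kernel) : Stab 1 762650420291 766946485260)

theorem p1_157 : Stab 1 766944876514 775423100592 := (Half.stab s337_t1 s676_t1 (by decide +kernel) : Stab 1 766944876514 775423100592)

theorem p1_158 : Stab 1 774500961947 777958611348 := (Half.stab s874_t2 s676_t1 (by decide +kernel) : Stab 1 774500961947 777958611348)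

theorem p1_159 : Stab 1 777440511607 787955061684 := (Half.stab s264_t3 s676_t1 (by decide +kernel) : Stab 1 777440511607 787955061684)

theorem p1_160 : Stab 1 785767236344 794503912464 := (Half.stab s791_t2 s676_t1 (by decide +kernel) : Stab 1 785767236344 794503912464)

theorem p1_161 : Stab 1 794503730518 797019046860 := (Half.stab s63_t1 s676_t1 (by decide +kernel) : Stab 1 794503730518 797019046860)

theorem p1_162 : Stab 1 797017592231 802994816304 := (Half.stab s63_t1 s830_t1 (by decide +kernel) : Stab 1 797017592231 802994816304)

theorem p1_163 : Stab 1 800552004466 812495077260 := (Half.stab s55_t3 s830_t1 (by decide +kernel) : Stab 1 800552004466 812495077260)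

theorem p1_164 : Stab 1 812493047239 819626565030 := (Half.stab s575_t1 s486_t1 (by decide +kernel) : Stab 1 812493047239 819626565030)

theorem p1_165 : Stab 1 819626294732 828610280694 := (Half.stab s816_t2 s759_t1 (by decide +kernel) : Stab 1 819626294732 828610280694)

theorem p1_166 : Stab 1 828607559426 845286209670 := (Half.stab s340_t1 s642_t1 (by decide +kernel) : Stab 1 828607559426 845286209670)

theorem p1_167 : Stab 1 845283912578 848815207812 := (Half.stab s340_t1 s539_t1 (by decide +kernel) : Stab 1 845283912578 848815207812)

theorem p1_168 : Stab 1 848206221999 863993199174 := (Half.stab s582_t3 s539_t1 (by decide +kernel) : Stab 1 848206221999 863993199174)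

theorem p1_169 : Stab 1 863993090157 874806145524 := (Half.stab s374_t0 s623_t2 (by decide +kernel) : Stab 1 863993090157 874806145524)

theorem p1_170 : Stab 1 873264095810 877841393478 := (Half.stab s749_t1 s623_t2 (by decide +kernel) : Stab 1 873264095810 877841393478)

theorem p1_171 : Stab 1 877839125218 891314547420 := (Half.stab s749_t1 s450_t1 (by decide +kernel) : Stab 1 877839125218 891314547420)

theorem p1_172 : Stab 1 891314362230 898363214928 := (Half.stab s775_t2 s164_t2 (by decide +kernel) : Stab 1 891314362230 898363214928)

theorem p1_173 : Stab 1 898362821753 910132271622 := (Half.stab s14_t1 s164_t2 (by decide +kernel) : Stab 1 898362821753 910132271622)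

theorem p1_174 : Stab 1 909481162927 915825258780 := (Half.stab s14_t1 s600_t1 (by decide +kernel) : Stab 1 909481162927 915825258780)

theorem p1_175 : Stab 1 915821703390 936153188166 := (Half.stab s571_t1 s600_t1 (by decide +kernel) : Stab 1 915821703390 936153188166)

theorem p1_176 : Stab 1 919033299230 944111462670 := (Half.stab s571_t1 s53_t3 (by decide +kernel) : Stab 1 919033299230 944111462670)

theorem p1_177 : Stab 1 944110624048 951450531420 := (Half.stab s571_t1 s48_t3 (by decide +kernel) : Stab 1 944110624048 951450531420)

theorem p1_178 : Stab 1 946136826398 969997798350 := (Half.stab s139_t1 s48_t3 (by decide +kernel) : Stab 1 946136826398 969997798350)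

theorem p1_179 : Stab 1 963483089973 990624791790 := (Half.stab s139_t1 s99_t1 (by decide +kernel) : Stab 1 963483089973 990624791790)

theorem p1_180 : Stab 1 973296107554 994390488312 := (Half.stab s139_t1 s201_t1 (by decide +kernel) : Stab 1 973296107554 994390488312)

theorem p1_181 : Stab 1 992697994828 1000725827430 := (Half.stab s62_t4 s201_t1 (by decide +kernel) : Stab 1 992697994828 1000725827430)

theorem p1_182 : Stab 1 1000725682441 1027403264736 := (Half.stab s404_t2 s779_t1 (by decide +kernel) : Stab 1 1000725682441 1027403264736)

theorem p1_183 : Stab 1 1025017208425 1034051770710 := (Half.stab s404_t2 s105_t7 (by decide +kernel) : Stab 1 1025017208425 1034051770710)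

theorem p1_184 : Stab 1 1034049090370 1069851779946 := (Half.stab s474_t2 s105_t7 (by decide +kernel) : Stab 1 1034049090370 1069851779946)

theorem p1_185 : Stab 1 1067737835660 1083080407950 := (Half.stab s538_t1 s307_t2 (by decide +kernel) : Stab 1 1067737835660 1083080407950)

theorem p1_186 : Stab 1 1081764765583 1101070490982 := (Half.stab s538_t1 s72_t1 (by decide +kernel) : Stab 1 1081764765583 1101070490982)

theorem p1_187 : Stab 1 1101070397904 1151009187900 := (Half.stab s278_t1 s249_t5 (by decide +kernel) : Stab 1 1101070397904 1151009187900)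

theorem p1_188 : Stab 1 1151009059657 1160180060676 := (Half.stab s589_t2 s840_t2 (by decide +kernel) : Stab 1 1151009059657 1160180060676)

theorem p1_189 : Stab 1 1160178752508 1188048589572 := (Half.stab s25_t2 s840_t2 (by decide +kernel) : Stab 1 1160178752508 1188048589572)

theorem p1_190 : Stab 1 1188047015457 1207321071684 := (Half.stab s550_t1 s840_t2 (by decide +kernel) : Stab 1 1188047015457 1207321071684)

theorem p1_191 : Stab 1 1207320327356 1236866948712 := (Half.stab s815_t2 s687_t4 (by decide +kernel) : Stab 1 1207320327356 1236866948712)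

theorem p1_192 : Stab 1 1228370840688 1253912231364 := (Half.stab s815_t2 s12_t1 (by decide +kernel) : Stab 1 1228370840688 1253912231364)

theorem p1_193 : Stab 1 1252180808013 1289779988484 := (Half.stab s305_t3 s185_t5 (by decide +kernel) : Stab 1 1252180808013 1289779988484)

theorem p1_194 : Stab 1 1289779705615 1311479687592 := (Half.stab s168_t1 s460_t2 (by decide +kernel) : Stab 1 1289779705615 1311479687592)

theorem p1_195 : Stab 1 1311478718772 1327095670146 := (Half.stab s47_t1 s766_t3 (by decide +kernel) : Stab 1 1311478718772 1327095670146)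

theorem p1_196 : Stab 1 1327093786413 1351790328258 := (Half.stab s464_t3 s147_t3 (by decide +kernel) : Stab 1 1327093786413 1351790328258)

theorem p1_197 : Stab 1 1347650167638 1372669701384 := (Half.stab s495_t1 s689_t2 (by decide +kernel) : Stab 1 1347650167638 1372669701384)

theorem p1_198 : Stab 1 1372669403006 1388212173558 := (Half.stab s495_t1 s735_t1 (by decide +kernel) : Stab 1 1372669403006 1388212173558)

theorem p1_199 : Stab 1 1388212055371 1406226918726 := (Half.stab s529_t2 s709_t1 (by decide +kernel) : Stab 1 1388212055371 1406226918726)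

theorem p1_200 : Stab 1 1403813495250 1422568280706 := (Half.stab s529_t2 s284_t2 (by decide +kernel) : Stab 1 1403813495250 1422568280706)

theorem p1_201 : Stab 1 1422566582325 1446631399044 := (Half.stab s529_t2 s602_t2 (by decide +kernel) : Stab 1 1422566582325 1446631399044)

theorem p1_202 : Stab 1 1445526497996 1453696750434 := (Half.stab s557_t3 s602_t2 (by decide +kernel) : Stab 1 1445526497996 1453696750434)

theorem p1_203 : Stab 1 1453695098377 1500057836322 := (Half.stab s557_t3 s263_t2 (by decide +kernel) : Stab 1 1453695098377 1500057836322)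

theorem p1_204 : Stab 1 1497172245888 1524311470860 := (Half.stab s671_t3 s169_t1 (by decide +kernel) : Stab 1 1497172245888 1524311470860)

theorem p1_205 : Stab 1 1515629770005 1556718759630 := (Half.stab s671_t3 s454_t3 (by decide +kernel) : Stab 1 1515629770005 1556718759630)

theorem p1_206 : Stab 1 1543051186812 1588391883618 := (Half.stab s715_t2 s622_t7 (by decide +kernel) : Stab 1 1543051186812 1588391883618)

theorem p1_207 : Stab 1 1582565551287 1625055468246 := (Half.stab s715_t2 s195_t7 (by decide +kernel) : Stab 1 1582565551287 1625055468246)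

theorem p1_208 : Stab 1 1607513498978 1674979868610 := (Half.stab s661_t1 s195_t7 (by decide +kernel) : Stab 1 1607513498978 1674979868610)

theorem p1_209 : Stab 1 1653352232713 1679810246940 := (Half.stab s661_t1 s271_t2 (by decide +kernel) : Stab 1 1653352232713 1679810246940)

theorem p1_210 : Stab 1 1679803038777 1713263433126 := (Half.stab s61_t1 s271_t2 (by decide +kernel) : Stab 1 1679803038777 1713263433126)

theorem p1_211 : Stab 1 1713258216054 1745457519900 := (Half.stab s61_t1 s587_t2 (by decide +kernel) : Stab 1 1713258216054 1745457519900)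

theorem p1_212 : Stab 1 1743583989613 1784878396560 := (Half.stab s52_t2 s587_t2 (by decide +kernel) : Stab 1 1743583989613 1784878396560)

theorem p1_213 : Stab 1 1784873245316 1799180173650 := (Half.stab s865_t2 s368_t1 (by decide +kernel) : Stab 1 1784873245316 1799180173650)

theorem p1_214 : Stab 1 1799178862442 1828809342720 := (Half.stab s160_t3 s368_t1 (by decide +kernel) : Stab 1 1799178862442 1828809342720)

theorem p1_215 : Stab 1 1828809135603 1856094909894 := (Stab.scale s528_t0 (by decide +kernel) : Stab 1 (81 * 22577890563) (81 * 22914751974))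

theorem p1_216 : Stab 1 1856093448978 1886522662278 := (Stab.scale s16_t0 (by decide +kernel) : Stab 1 (81 * 22914733938) (81 * 23290403238))

theorem p1_217 : Stab 1 1883514126678 1921426211334 := (Half.stab s878_t4 s481_t1 (by decide +kernel) : Stab 1 1883514126678 1921426211334)

theorem p1_218 : Stab 1 1921425759834 1986199005336 := (Half.stab s704_t5 s29_t2 (by decide +kernel) : Stab 1 1921425759834 1986199005336)

theorem p1_219 : Stab 1 1975207585346 2008908972966 := (Half.stab s157_t6 s29_t2 (by decide +kernel) : Stab 1 1975207585346 2008908972966)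

theorem p1_220 : Stab 1 2008901809647 2058644603256 := (Half.stab s157_t6 s792_t2 (by decide +kernel) : Stab 1 2008901809647 2058644603256)

theorem p1_221 : Stab 1 2048304628920 2095597630182 := (Half.stab s315_t5 s792_t2 (by decide +kernel) : Stab 1 2048304628920 2095597630182)

theorem p1_222 : Stab 1 2095590862076 2165517041394 := (Half.stab s313_t6 s660_t2 (by decide +kernel) : Stab 1 2095590862076 2165517041394)

theorem p1_223 : Stab 1 2165516826886 2220751033548 := (Half.stab s135_t3 s5_t4 (by decide +kernel) : Stab 1 2165516826886 2220751033548)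

theorem p1_224 : Stab 1 2220750884098 2262867110244 := (Half.stab s135_t3 s850_t1 (by decide +kernel) : Stab 1 2220750884098 2262867110244)

theorem p1_225 : Stab 1 2248446939338 2292231636270 := (Half.stab s810_t4 s332_t1 (by decide +kernel) : Stab 1 2248446939338 2292231636270)

theorem p1_226 : Stab 1 2292231328552 2316072802212 := (Half.stab s393_t2 s292_t4 (by decide +kernel) : Stab 1 2292231328552 2316072802212)

theorem p1_227 : Stab 1 2316072502751 2351399629218 := (Half.stab s754_t2 s292_t4 (by decide +kernel) : Stab 1 2316072502751 2351399629218)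

theorem p1_228 : Stab 1 2351398398108 2403096132162 := (Half.stab s253_t3 s351_t4 (by decide +kernel) : Stab 1 2351398398108 2403096132162)

theorem p1_229 : Stab 1 2397270489525 2415783902790 := (Half.stab s253_t3 s389_t2 (by decide +kernel) : Stab 1 2397270489525 2415783902790)

theorem p1_230 : Stab 1 2415783774236 2437584533550 := (Half.stab s739_t1 s389_t2 (by decide +kernel) : Stab 1 2415783774236 2437584533550)

theorem p1_231 : Stab 1 2437583843789 2492569300248 := (Half.stab s27_t2 s520_t2 (by decide +kernel) : Stab 1 2437583843789 2492569300248)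

theorem p1_232 : Stab 1 2491219598229 2524959808758 := (Stab.scale s231_t0 (by decide +kernel) : Stab 1 (81 * 30755797509) (81 * 31172343318))

theorem p1_233 : Stab 1 2521053680274 2564564301780 := (Half.stab s406_t2 s121_t1 (by decide +kernel) : Stab 1 2521053680274 2564564301780)

theorem p1_234 : Stab 1 2544336802584 2583816492726 := (Stab.scale s149_t0 (by decide +kernel) : Stab 1 (81 * 31411565464) (81 * 31898969046))

theorem p1_235 : Stab 1 2578496731544 2622298423680 := (Half.stab s504_t1 s246_t1 (by decide +kernel) : Stab 1 2578496731544 2622298423680)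

theorem p1_236 : Stab 1 2605719210338 2643161096310 := (Half.stab s111_t1 s768_t2 (by decide +kernel) : Stab 1 2605719210338 2643161096310)

theorem p1_237 : Stab 1 2638416888358 2683012239630 := (Half.stab s153_t8 s768_t2 (by decide +kernel) : Stab 1 2638416888358 2683012239630)

theorem p1_238 : Stab 1 2672333872878 2736440319612 := (Half.stab s153_t8 s383_t6 (by decide +kernel) : Stab 1 2672333872878 2736440319612)

theorem p1_239 : Stab 1 2733379134456 2783478204834 := (Half.stab s733_t5 s383_t6 (by decide +kernel) : Stab 1 2733379134456 2783478204834)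

theorem p1_240 : Stab 1 2770066121979 2813704450140 := (Half.stab s733_t5 s738_t5 (by decide +kernel) : Stab 1 2770066121979 2813704450140)

theorem p1_241 : Stab 1 2796252503679 2921763374946 := (Half.stab s436_t12 s738_t5 (by decide +kernel) : Stab 1 2796252503679 2921763374946)

theorem p1_242 : Stab 1 2877179632398 2947401811836 := (Half.stab s436_t12 s829_t2 (by decide +kernel) : Stab 1 2877179632398 2947401811836)

theorem p1_243 : Stab 1 2946864457686 2996244491616 := (Half.stab s469_t1 s829_t2 (by decide +kernel) : Stab 1 2946864457686 2996244491616)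

theorem p1_244 : Stab 1 2955252805319 3030089886390 := (Half.stab s469_t1 s146_t4 (by decide +kernel) : Stab 1 2955252805319 3030089886390)

theorem p1_245 : Stab 1 3030089328273 3050438541390 := (Half.stab s223_t3 s146_t4 (by decide +kernel) : Stab 1 3030089328273 3050438541390)

theorem p1_246 : Stab 1 3050438155531 3110102233128 := (Half.stab s223_t3 s753_t3 (by decide +kernel) : Stab 1 3050438155531 3110102233128)

theorem p1_247 : Stab 1 3096784049581 3227100813252 := (Half.stab s812_t6 s529_t6 (by decide +kernel) : Stab 1 3096784049581 3227100813252)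

theorem p1_248 : Stab 1 3224638839129 3245686344000 := (Half.stab s812_t6 s557_t8 (by decide +kernel) : Stab 1 3224638839129 3245686344000)

theorem p1_249 : Stab 1 3238572477772 3385263422400 := (Half.stab s343_t4 s557_t8 (by decide +kernel) : Stab 1 3238572477772 3385263422400)

theorem p1_250 : Stab 1 3385263112010 3416426077968 := (Half.stab s846_t1 s557_t8 (by decide +kernel) : Stab 1 3385263112010 3416426077968)

theorem p1_251 : Stab 1 3412880495100 3480167074086 := (Stab.scale s55_t0 (by decide +kernel) : Stab 1 (81 * 42134327100) (81 * 42965025606))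

theorem p1_252 : Stab 1 3477602136514 3535041884868 := (Half.stab s210_t2 s249_t13 (by decide +kernel) : Stab 1 3477602136514 3535041884868)

theorem p1_253 : Stab 1 3535037746370 3585704107908 := (Half.stab s8_t2 s249_t13 (by decide +kernel) : Stab 1 3535037746370 3585704107908)

theorem p1_254 : Stab 1 3585703965471 3644799673998 := (Half.stab s586_t1 s249_t13 (by decide +kernel) : Stab 1 3585703965471 3644799673998)

theorem p1_255 : Stab 1 3632680987192 3714564306804 := (Half.stab s871_t4 s394_t3 (by decide +kernel) : Stab 1 3632680987192 3714564306804)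

theorem p1_256 : Stab 1 3714557012247 3781899155334 := (Half.stab s871_t4 s744_t3 (by decide +kernel) : Stab 1 3714557012247 3781899155334)

theorem p1_257 : Stab 1 3781895522506 3867173460852 := (Half.stab s840_t5 s744_t3 (by decide +kernel) : Stab 1 3781895522506 3867173460852)

theorem p1_258 : Stab 1 3848454838622 3999839320614 := (Half.stab s840_t5 s33_t4 (by decide +kernel) : Stab 1 3848454838622 3999839320614)

theorem p1_259 : Stab 1 3983937648301 4014903168270 := (Half.stab s844_t7 s33_t4 (by decide +kernel) : Stab 1 3983937648301 4014903168270)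

theorem p1_260 : Stab 1 4005443385026 4206129221982 := (Half.stab s844_t7 s436_t16 (by decide +kernel) : Stab 1 4005443385026 4206129221982)

theorem p1_261 : Stab 1 4206127672660 4260237121296 := (Half.stab s659_t1 s671_t8 (by decide +kernel) : Stab 1 4206127672660 4260237121296)

theorem p1_262 : Stab 1 4260235948642 4307454768510 := (Half.stab s592_t1 s671_t8 (by decide +kernel) : Stab 1 4260235948642 4307454768510)

theorem p1_263 : Stab 1 4307450018695 4362219013950 := (Half.stab s736_t1 s671_t8 (by decide +kernel) : Stab 1 4307450018695 4362219013950)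

theorem p1_264 : Stab 1 4362217687695 4414860183144 := (Half.stab s379_t2 s349_t2 (by decide +kernel) : Stab 1 4362217687695 4414860183144)

theorem p1_265 : Stab 1 4414854930642 4489875052800 := (Half.stab s170_t3 s196_t3 (by decide +kernel) : Stab 1 4414854930642 4489875052800)

theorem p1_266 : Stab 1 4489872328350 4614838569576 := (Half.stab s179_t2 s196_t3 (by decide +kernel) : Stab 1 4489872328350 4614838569576)

theorem p1_267 : Stab 1 4614837869008 4745834180124 := (Half.stab s781_t4 s472_t3 (by decide +kernel) : Stab 1 4614837869008 4745834180124)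

theorem p1_268 : Stab 1 4733910550979 4844710638660 := (Half.stab s527_t5 s456_t6 (by decide +kernel) : Stab 1 4733910550979 4844710638660)

theorem p1_269 : Stab 1 4840976752758 4945687901082 := (Half.stab s527_t5 s794_t7 (by decide +kernel) : Stab 1 4840976752758 4945687901082)

theorem p1_270 : Stab 1 4935255128865 4984916304438 := (Stab.scale s584_t0 (by decide +kernel) : Stab 1 (81 * 60929075665) (81 * 61542176598))

theorem p1_271 : Stab 1 4984913699721 5042374505910 := (Stab.scale s221_t0 (by decide +kernel) : Stab 1 (81 * 61542144441) (81 * 62251537110))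

theorem p1_272 : Stab 1 5042373929269 5094877226358 := (Half.stab s461_t4 s794_t7 (by decide +kernel) : Stab 1 5042373929269 5094877226358)

theorem p1_273 : Stab 1 5070036069728 5214632700510 := (Half.stab s461_t4 s715_t8 (by decide +kernel) : Stab 1 5070036069728 5214632700510)

theorem p1_274 : Stab 1 5206830336729 5266811335446 := (Stab.scale s288_t0 (by decide +kernel) : Stab 1 (81 * 64281856009) (81 * 65022362166))

theorem p1_275 : Stab 1 5237512332537 5339467967094 := (Half.stab s13_t3 s715_t8 (by decide +kernel) : Stab 1 5237512332537 5339467967094)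

theorem p1_276 : Stab 1 5339467446552 5406138072054 := (Stab.scale s75_t0 (by decide +kernel) : Stab 1 (81 * 65919351192) (81 * 66742445334))

theorem p1_277 : Stab 1 5382192489986 5463502785600 := (Half.stab s13_t3 s4_t6 (by decide +kernel) : Stab 1 5382192489986 5463502785600)

theorem p1_278 : Stab 1 5461216461936 5528855770326 := (Stab.scale s872_t0 (by decide +kernel) : Stab 1 (81 * 67422425456) (81 * 68257478646))

theorem p1_279 : Stab 1 5528853639297 5591051017686 := (Stab.scale s585_t0 (by decide +kernel) : Stab 1 (81 * 68257452337) (81 * 69025321206))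

theorem p1_280 : Stab 1 5591045259639 5657618383254 := (Stab.scale s766_t0 (by decide +kernel) : Stab 1 (81 * 69025250119) (81 * 69847140534))

theorem p1_281 : Stab 1 5657613483726 5762895609942 := (Stab.scale s147_t0 (by decide +kernel) : Stab 1 (81 * 69847080046) (81 * 71146859382))

theorem p1_282 : Stab 1 5720946632837 5855334223140 := (Half.stab s587_t6 s504_t2 (by decide +kernel) : Stab 1 5720946632837 5855334223140)

theorem p1_283 : Stab 1 5822795966436 5906027458278 := (Stab.scale s516_t0 (by decide +kernel) : Stab 1 (81 * 71886369956) (81 * 72913919238))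

theorem p1_284 : Stab 1 5906022653034 5984683132950 := (Stab.scale s354_t0 (by decide +kernel) : Stab 1 (81 * 72913859914) (81 * 73884976950))

theorem p1_285 : Stab 1 5984680269276 6064633196694 := (Stab.scale s284_t0 (by decide +kernel) : Stab 1 (81 * 73884941596) (81 * 74872014774))

theorem p1_286 : Stab 1 6064631761293 6197338778166 := (Stab.scale s602_t0 (by decide +kernel) : Stab 1 (81 * 74871997053) (81 * 76510355286))

theorem p1_287 : Stab 1 6197337475200 6394983407478 := (Stab.scale s263_t0 (by decide +kernel) : Stab 1 (81 * 76510339200) (81 * 78950412438))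

theorem p1_288 : Stab 1 6381873563616 6524955344292 := (Half.stab s29_t6 s87_t5 (by decide +kernel) : Stab 1 6381873563616 6524955344292)

theorem p1_289 : Stab 1 6433543148949 6535290896400 := (Half.stab s29_t6 s754_t3 (by decide +kernel) : Stab 1 6433543148949 6535290896400)

theorem p1_290 : Stab 1 6528499373538 6771565398582 := (Stab.scale s622_t0 (by decide +kernel) : Stab 1 (81 * 80598757698) (81 * 83599572822))

theorem p1_291 : Stab 1 6746733270297 7140703650390 := (Stab.scale s195_t0 (by decide +kernel) : Stab 1 (81 * 83293003337) (81 * 88156835190))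

theorem p1_292 : Stab 1 6966455946658 7317017320770 := (Half.stab s249_t19 s195_t15 (by decide +kernel) : Stab 1 6966455946658 7317017320770)

theorem p1_293 : Stab 1 7307395744518 7436860125894 := (Stab.scale s128_t0 (by decide +kernel) : Stab 1 (81 * 90214762278) (81 * 91813087974))

theorem p1_294 : Stab 1 7436857116663 7522584623910 := (Stab.scale s444_t0 (by decide +kernel) : Stab 1 (81 * 91813050823) (81 * 92871415110))

theorem p1_295 : Stab 1 7511463829188 7670189161350 := (Stab.scale s865_t0 (by decide +kernel) : Stab 1 (81 * 92734121348) (81 * 94693693350))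

theorem p1_296 : Stab 1 7670187353430 7810795773126 := (Stab.scale s160_t0 (by decide +kernel) : Stab 1 (81 * 94693671030) (81 * 96429577446))

theorem p1_297 : Stab 1 7810794283131 7955618431014 := (Stab.scale s127_t0 (by decide +kernel) : Stab 1 (81 * 96429559051) (81 * 98217511494))

theorem p1_298 : Stab 1 7955617020642 8072588409462 := (Stab.scale s148_t0 (by decide +kernel) : Stab 1 (81 * 98217494082) (81 * 99661585302))

theorem p1_299 : Stab 1 8072586552537 8170361796150 := (Stab.scale s220_t0 (by decide +kernel) : Stab 1 (81 * 99661562377) (81 * 100868664150))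

theorem p1_300 : Stab 1 8170359969924 8365903534566 := (Stab.scale s614_t0 (by decide +kernel) : Stab 1 (81 * 100868641604) (81 * 103282759686))

theorem p1_301 : Stab 1 8365901971995 8583249608550 := (Stab.scale s302_t0 (by decide +kernel) : Stab 1 (81 * 103282740395) (81 * 105966044550))

theorem p1_302 : Stab 1 8583248135889 8810477011206 := (Stab.scale s590_t0 (by decide +kernel) : Stab 1 (81 * 105966026369) (81 * 108771321126))

theorem p1_303 : Stab 1 8810473934826 9231941071206 := (Stab.scale s313_t0 (by decide +kernel) : Stab 1 (81 * 108771283146) (81 * 113974581126))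

theorem p1_304 : Stab 1 9176764917483 9490244386950 := (Stab.scale s695_t0 (by decide +kernel) : Stab 1 (81 * 113293394043) (81 * 117163510950))

theorem p1_305 : Stab 1 9484400014767 9772152221142 := (Stab.scale s421_t0 (by decide +kernel) : Stab 1 (81 * 117091358207) (81 * 120643854582))

theorem p1_306 : Stab 1 9772149060522 10024387892982 := (Stab.scale s292_t0 (by decide +kernel) : Stab 1 (81 * 120643815562) (81 * 123757875222))

theorem p1_307 : Stab 1 10024386471837 10244778247638 := (Stab.scale s351_t0 (by decide +kernel) : Stab 1 (81 * 123757857677) (81 * 126478743798))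

theorem p1_308 : Stab 1 10244776513185 10532608310646 := (Stab.scale s10_t0 (by decide +kernel) : Stab 1 (81 * 126478722385) (81 * 130032201366))

theorem p1_309 : Stab 1 10532606721669 10741233289590 := (Stab.scale s652_t0 (by decide +kernel) : Stab 1 (81 * 130032181749) (81 * 132607818390))

theorem p1_310 : Stab 1 10741230334062 10988268143238 := (Stab.scale s191_t0 (by decide +kernel) : Stab 1 (81 * 132607781902) (81 * 135657631398))

theorem p1_311 : Stab 1 10988266249377 11272537715814 := (Stab.scale s517_t0 (by decide +kernel) : Stab 1 (81 * 135657608017) (81 * 139167132294))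

theorem p1_312 : Stab 1 11272535107938 11392595166726 := (Stab.scale s494_t0 (by decide +kernel) : Stab 1 (81 * 139167100098) (81 * 140649323046))

theorem p1_313 : Stab 1 11392593663204 11866407083766 := (Stab.scale s383_t0 (by decide +kernel) : Stab 1 (81 * 140649304484) (81 * 146498852886))

theorem p1_314 : Stab 1 11809238735367 12455938598454 := (Stab.scale s738_t0 (by decide +kernel) : Stab 1 (81 * 145793070807) (81 * 153777019734))

theorem p1_315 : Stab 1 12455937282285 12857318910630 := (Stab.scale s4_t0 (by decide +kernel) : Stab 1 (81 * 153777003485) (81 * 158732332230))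

theorem p1_316 : Stab 1 12857317505928 13279633377318 := (Stab.scale s594_t0 (by decide +kernel) : Stab 1 (81 * 158732314888) (81 * 163946091078))

theorem p1_317 : Stab 1 13279628953584 13458332424150 := (Stab.scale s267_t0 (by decide +kernel) : Stab 1 (81 * 163946036464) (81 * 166152252150))

theorem p1_318 : Stab 1 13458330701766 13819601721654 := (Stab.scale s553_t0 (by decide +kernel) : Stab 1 (81 * 166152230886) (81 * 170612366934))

theorem p1_319 : Stab 1 13819599974160 14358301057782 := (Stab.scale s95_t0 (by decide +kernel) : Stab 1 (81 * 170612345360) (81 * 177262976022))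

theorem p1_320 : Stab 1 14358299449122 14609842807158 := (Stab.scale s823_t0 (by decide +kernel) : Stab 1 (81 * 177262956162) (81 * 180368429718))

def Ls1 : List (ℕ × ℕ) := [(179437752418, 182947190184), (182947172277, 187471252680), (187471228151, 191357138280), (191357119001, 193793256360), (193793205938, 195290844168), (195290784706, 202707841320), (202707802487, 212395899432), (212395879001, 219292643592), (219292623122, 222286840344), (222286808658, 226037786472), (226037744448, 229514418888), (229514383570, 232751167080), (232751124421, 239759063016), (239518724882, 245050484184), (245050445661, 250668831720), (250668780906, 256601381640), (256601300153, 259697657832), (259697584099, 271461092328), (271461057206, 280373304744), (280373232395, 289001364072), (289001332821, 291446140176), (290773466311, 295081805520), (294743306422, 296658660438), (296658378178, 300101491020), (300100924816, 301101679500), (301101132414, 302295940086), (301994123023, 304839192780), (304838484236, 307192073616), (306136355440, 309065009310), (309064768940, 313958715180), (313958502535, 316507276140), (316506946919,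 319387405104), (319387204423, 322285701420), (322285662592, 325626048888), (325625986344, 335095813464), (335095754568, 343135573848), (343135414003, 347190314760), (347189940573, 348740067156), (348739701278, 353221234548), (352978433048, 357371376192), (357371079143, 361222084224), (361221776710, 364568081472), (364568017315, 369621653400), (369621584462, 372591959400), (372591903828, 374434647444), (374434432357, 380230331100), (380230241948, 387307611444), (385925484847, 393526654560), (393526184629, 398296630080), (398296362750, 403209951270), (403209796670, 408425963904), (408425905981, 415193729448), (415193679702, 417117691980), (417117638034, 420435800424), (420435758338, 425036763240), (425036721797, 428979888780), (428979810269, 431119257420), (430800094441, 435380287506), (435379842338, 442517661522), (442517602435, 456361131336), (456361081103, 461262141336), (461262090353, 466391769432), (465390735751, 467874684438), (467874001442, 473343608598), (473343523097, 478794115926), (478794047331, 485330340792), (485330280439, 488897054328), (488896994897, 493812562824), (493812540961,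 511836475944), (511836392562, 518479970424), (518479928064, 524636686536), (524636638818, 530526855192), (530526799511, 535798411128), (535798344126, 543079953192), (543079911810, 550392648840), (550392602440, 553155300264), (553155246378, 561581346120), (561581295277, 569597048418), (569596648446, 575720757660), (575718739216, 578077623330), (578077360086, 586737481980), (586737366620, 592274523042), (592274301004, 597216739860), (597216357767, 604506944214), (604506417465, 610629917478), (610628248802, 612704207580), (612702394485, 618107659302), (618107156685, 623625788790), (623625269397, 641328830982), (641328787162, 646838440392), (646838391367, 663970123782), (662984162005, 677921490780), (677920354988, 681711814182), (681710810690, 689900373180), (689900264809, 699037419900), (699037368141, 704151095592), (704151055682, 715173086940), (715172988931, 722178134994), (722177769803, 728200430322), (724965817772, 733692339504), (733692181097, 737918287920), (737917334221, 747348172272), (747347261504, 752324875974), (751220102128, 754942123152), (754941219589, 763248684816), (762650420291,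 766946485260), (766944876514, 775423100592), (774500961947, 777958611348), (777440511607, 787955061684), (785767236344, 794503912464), (794503730518, 797019046860), (797017592231, 802994816304), (800552004466, 812495077260), (812493047239, 819626565030), (819626294732, 828610280694), (828607559426, 845286209670), (845283912578, 848815207812), (848206221999, 863993199174), (863993090157, 874806145524), (873264095810, 877841393478), (877839125218, 891314547420), (891314362230, 898363214928), (898362821753, 910132271622), (909481162927, 915825258780), (915821703390, 936153188166), (919033299230, 944111462670), (944110624048, 951450531420), (946136826398, 969997798350), (963483089973, 990624791790), (973296107554, 994390488312), (992697994828, 1000725827430), (1000725682441, 1027403264736), (1025017208425, 1034051770710), (1034049090370, 1069851779946), (1067737835660, 1083080407950), (1081764765583, 1101070490982), (1101070397904, 1151009187900), (1151009059657, 1160180060676), (1160178752508, 1188048589572), (1188047015457, 1207321071684), (1207320327356, 1236866948712), (1228370840688, 1253912231364),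 (1252180808013, 1289779988484), (1289779705615, 1311479687592), (1311478718772, 1327095670146), (1327093786413, 1351790328258), (1347650167638, 1372669701384), (1372669403006, 1388212173558), (1388212055371, 1406226918726), (1403813495250, 1422568280706), (1422566582325, 1446631399044), (1445526497996, 1453696750434), (1453695098377, 1500057836322), (1497172245888, 1524311470860), (1515629770005, 1556718759630), (1543051186812, 1588391883618), (1582565551287, 1625055468246), (1607513498978, 1674979868610), (1653352232713, 1679810246940), (1679803038777, 1713263433126), (1713258216054, 1745457519900), (1743583989613, 1784878396560), (1784873245316, 1799180173650), (1799178862442, 1828809342720), (1828809135603, 1856094909894), (1856093448978, 1886522662278), (1883514126678, 1921426211334), (1921425759834, 1986199005336), (1975207585346, 2008908972966), (2008901809647, 2058644603256), (2048304628920, 2095597630182), (2095590862076, 2165517041394), (2165516826886, 2220751033548), (2220750884098, 2262867110244), (2248446939338, 2292231636270), (2292231328552, 2316072802212), (2316072502751, 2351399629218),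 (2351398398108, 2403096132162), (2397270489525, 2415783902790), (2415783774236, 2437584533550), (2437583843789, 2492569300248), (2491219598229, 2524959808758), (2521053680274, 2564564301780), (2544336802584, 2583816492726), (2578496731544, 2622298423680), (2605719210338, 2643161096310), (2638416888358, 2683012239630), (2672333872878, 2736440319612), (2733379134456, 2783478204834), (2770066121979, 2813704450140), (2796252503679, 2921763374946), (2877179632398, 2947401811836), (2946864457686, 2996244491616), (2955252805319, 3030089886390), (3030089328273, 3050438541390), (3050438155531, 3110102233128), (3096784049581, 3227100813252), (3224638839129, 3245686344000), (3238572477772, 3385263422400), (3385263112010, 3416426077968), (3412880495100, 3480167074086), (3477602136514, 3535041884868), (3535037746370, 3585704107908), (3585703965471, 3644799673998), (3632680987192, 3714564306804), (3714557012247, 3781899155334), (3781895522506, 3867173460852), (3848454838622, 3999839320614), (3983937648301, 4014903168270), (4005443385026, 4206129221982), (4206127672660, 4260237121296), (4260235948642, 4307454768510),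 (4307450018695, 4362219013950), (4362217687695, 4414860183144), (4414854930642, 4489875052800), (4489872328350, 4614838569576), (4614837869008, 4745834180124), (4733910550979, 4844710638660), (4840976752758, 4945687901082), (4935255128865, 4984916304438), (4984913699721, 5042374505910), (5042373929269, 5094877226358), (5070036069728, 5214632700510), (5206830336729, 5266811335446), (5237512332537, 5339467967094), (5339467446552, 5406138072054), (5382192489986, 5463502785600), (5461216461936, 5528855770326), (5528853639297, 5591051017686), (5591045259639, 5657618383254), (5657613483726, 5762895609942), (5720946632837, 5855334223140), (5822795966436, 5906027458278), (5906022653034, 5984683132950), (5984680269276, 6064633196694), (6064631761293, 6197338778166), (6197337475200, 6394983407478), (6381873563616, 6524955344292), (6433543148949, 6535290896400), (6528499373538, 6771565398582), (6746733270297, 7140703650390), (6966455946658, 7317017320770), (7307395744518, 7436860125894), (7436857116663, 7522584623910), (7511463829188, 7670189161350), (7670187353430, 7810795773126), (7810794283131, 7955618431014),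 (7955617020642, 8072588409462), (8072586552537, 8170361796150), (8170359969924, 8365903534566), (8365901971995, 8583249608550), (8583248135889, 8810477011206), (8810473934826, 9231941071206), (9176764917483, 9490244386950), (9484400014767, 9772152221142), (9772149060522, 10024387892982), (10024386471837, 10244778247638), (10244776513185, 10532608310646), (10532606721669, 10741233289590), (10741230334062, 10988268143238), (10988266249377, 11272537715814), (11272535107938, 11392595166726), (11392593663204, 11866407083766), (11809238735367, 12455938598454), (12455937282285, 12857318910630), (12857317505928, 13279633377318), (13279628953584, 13458332424150), (13458330701766, 13819601721654), (13819599974160, 14358301057782), (14358299449122, 14609842807158)]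

theorem Ls1_spec : ∀ w ∈ Ls1, Stab 1 w.1 w.2 :=
  (sfcons (a := ((179437752418 : ℕ), (182947190184 : ℕ))) p1_51 (sfcons (a := ((182947172277 : ℕ), (187471252680 : ℕ))) p1_52 (sfcons (a := ((187471228151 : ℕ), (191357138280 : ℕ))) p1_53 (sfcons (a := ((191357119001 : ℕ), (193793256360 : ℕ))) p1_54 (sfcons (a := ((193793205938 : ℕ), (195290844168 : ℕ))) p1_55 (sfcons (a := ((195290784706 : ℕ), (202707841320 : ℕ))) p1_56 (sfcons (a := ((202707802487 : ℕ), (212395899432 : ℕ))) p1_57 (sfcons (a := ((212395879001 : ℕ), (219292643592 : ℕ))) p1_58 (sfcons (a := ((219292623122 : ℕ), (222286840344 : ℕ))) p1_59 (sfcons (a := ((222286808658 : ℕ), (226037786472 : ℕ))) p1_60 (sfcons (a := ((226037744448 : ℕ), (229514418888 : ℕ))) p1_61 (sfcons (a := ((229514383570 : ℕ), (232751167080 : ℕ))) p1_62 (sfcons (a := ((232751124421 : ℕ), (239759063016 : ℕ))) p1_63 (sfcons (a := ((239518724882 : ℕ), (245050484184 : ℕ))) p1_64 (sfcons (a := ((245050445661 : ℕ), (250668831720 : ℕ))) p1_65 (sfcons (a := ((250668780906 : ℕ), (256601381640 : ℕ))) p1_66 (sfcons (a := ((256601300153 : ℕ), (259697657832 : ℕ))) p1_67 (sfcons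 (a := ((259697584099 : ℕ), (271461092328 : ℕ))) p1_68 (sfcons (a := ((271461057206 : ℕ), (280373304744 : ℕ))) p1_69 (sfcons (a := ((280373232395 : ℕ), (289001364072 : ℕ))) p1_70 (sfcons (a := ((289001332821 : ℕ), (291446140176 : ℕ))) p1_71 (sfcons (a := ((290773466311 : ℕ), (295081805520 : ℕ))) p1_72 (sfcons (a := ((294743306422 : ℕ), (296658660438 : ℕ))) p1_73 (sfcons (a := ((296658378178 : ℕ), (300101491020 : ℕ))) p1_74 (sfcons (a := ((300100924816 : ℕ), (301101679500 : ℕ))) p1_75 (sfcons (a := ((301101132414 : ℕ), (302295940086 : ℕ))) p1_76 (sfcons (a := ((301994123023 : ℕ), (304839192780 : ℕ))) p1_77 (sfcons (a := ((304838484236 : ℕ), (307192073616 : ℕ))) p1_78 (sfcons (a := ((306136355440 : ℕ), (309065009310 : ℕ))) p1_79 (sfcons (a := ((309064768940 : ℕ), (313958715180 : ℕ))) p1_80 (sfcons (a := ((313958502535 : ℕ), (316507276140 : ℕ))) p1_81 (sfcons (a := ((316506946919 : ℕ), (319387405104 : ℕ))) p1_82 (sfcons (a := ((319387204423 : ℕ), (322285701420 : ℕ))) p1_83 (sfcons (a := ((322285662592 : ℕ), (325626048888 : ℕ))) p1_84 (sfcons (a := ((325625986344 : ℕ), (335095813464 : ℕ))) p1_85 (sfcons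 (a := ((335095754568 : ℕ), (343135573848 : ℕ))) p1_86 (sfcons (a := ((343135414003 : ℕ), (347190314760 : ℕ))) p1_87 (sfcons (a := ((347189940573 : ℕ), (348740067156 : ℕ))) p1_88 (sfcons (a := ((348739701278 : ℕ), (353221234548 : ℕ))) p1_89 (sfcons (a := ((352978433048 : ℕ), (357371376192 : ℕ))) p1_90 (sfcons (a := ((357371079143 : ℕ), (361222084224 : ℕ))) p1_91 (sfcons (a := ((361221776710 : ℕ), (364568081472 : ℕ))) p1_92 (sfcons (a := ((364568017315 : ℕ), (369621653400 : ℕ))) p1_93 (sfcons (a := ((369621584462 : ℕ), (372591959400 : ℕ))) p1_94 (sfcons (a := ((372591903828 : ℕ), (374434647444 : ℕ))) p1_95 (sfcons (a := ((374434432357 : ℕ), (380230331100 : ℕ))) p1_96 (sfcons (a := ((380230241948 : ℕ), (387307611444 : ℕ))) p1_97 (sfcons (a := ((385925484847 : ℕ), (393526654560 : ℕ))) p1_98 (sfcons (a := ((393526184629 : ℕ), (398296630080 : ℕ))) p1_99 (sfcons (a := ((398296362750 : ℕ), (403209951270 : ℕ))) p1_100 (sfcons (a := ((403209796670 : ℕ), (408425963904 : ℕ))) p1_101 (sfcons (a := ((408425905981 : ℕ), (415193729448 : ℕ))) p1_102 (sfcons (a := ((415193679702 : ℕ), (417117691980 : ℕ))) p1_103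 (sfcons (a := ((417117638034 : ℕ), (420435800424 : ℕ))) p1_104 (sfcons (a := ((420435758338 : ℕ), (425036763240 : ℕ))) p1_105 (sfcons (a := ((425036721797 : ℕ), (428979888780 : ℕ))) p1_106 (sfcons (a := ((428979810269 : ℕ), (431119257420 : ℕ))) p1_107 (sfcons (a := ((430800094441 : ℕ), (435380287506 : ℕ))) p1_108 (sfcons (a := ((435379842338 : ℕ), (442517661522 : ℕ))) p1_109 (sfcons (a := ((442517602435 : ℕ), (456361131336 : ℕ))) p1_110 (sfcons (a := ((456361081103 : ℕ), (461262141336 : ℕ))) p1_111 (sfcons (a := ((461262090353 : ℕ), (466391769432 : ℕ))) p1_112 (sfcons (a := ((465390735751 : ℕ), (467874684438 : ℕ))) p1_113 (sfcons (a := ((467874001442 : ℕ), (473343608598 : ℕ))) p1_114 (sfcons (a := ((473343523097 : ℕ), (478794115926 : ℕ))) p1_115 (sfcons (a := ((478794047331 : ℕ), (485330340792 : ℕ))) p1_116 (sfcons (a := ((485330280439 : ℕ), (488897054328 : ℕ))) p1_117 (sfcons (a := ((488896994897 : ℕ), (493812562824 : ℕ))) p1_118 (sfcons (a := ((493812540961 : ℕ), (511836475944 : ℕ))) p1_119 (sfcons (a := ((511836392562 : ℕ), (518479970424 : ℕ))) p1_120 (sfcons (a := ((518479928064 : ℕ), (524636686536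 : ℕ))) p1_121 (sfcons (a := ((524636638818 : ℕ), (530526855192 : ℕ))) p1_122 (sfcons (a := ((530526799511 : ℕ), (535798411128 : ℕ))) p1_123 (sfcons (a := ((535798344126 : ℕ), (543079953192 : ℕ))) p1_124 (sfcons (a := ((543079911810 : ℕ), (550392648840 : ℕ))) p1_125 (sfcons (a := ((550392602440 : ℕ), (553155300264 : ℕ))) p1_126 (sfcons (a := ((553155246378 : ℕ), (561581346120 : ℕ))) p1_127 (sfcons (a := ((561581295277 : ℕ), (569597048418 : ℕ))) p1_128 (sfcons (a := ((569596648446 : ℕ), (575720757660 : ℕ))) p1_129 (sfcons (a := ((575718739216 : ℕ), (578077623330 : ℕ))) p1_130 (sfcons (a := ((578077360086 : ℕ), (586737481980 : ℕ))) p1_131 (sfcons (a := ((586737366620 : ℕ), (592274523042 : ℕ))) p1_132 (sfcons (a := ((592274301004 : ℕ), (597216739860 : ℕ))) p1_133 (sfcons (a := ((597216357767 : ℕ), (604506944214 : ℕ))) p1_134 (sfcons (a := ((604506417465 : ℕ), (610629917478 : ℕ))) p1_135 (sfcons (a := ((610628248802 : ℕ), (612704207580 : ℕ))) p1_136 (sfcons (a := ((612702394485 : ℕ), (618107659302 : ℕ))) p1_137 (sfcons (a := ((618107156685 : ℕ), (623625788790 : ℕ))) p1_138 (sfcons (a := ((623625269397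 : ℕ), (641328830982 : ℕ))) p1_139 (sfcons (a := ((641328787162 : ℕ), (646838440392 : ℕ))) p1_140 (sfcons (a := ((646838391367 : ℕ), (663970123782 : ℕ))) p1_141 (sfcons (a := ((662984162005 : ℕ), (677921490780 : ℕ))) p1_142 (sfcons (a := ((677920354988 : ℕ), (681711814182 : ℕ))) p1_143 (sfcons (a := ((681710810690 : ℕ), (689900373180 : ℕ))) p1_144 (sfcons (a := ((689900264809 : ℕ), (699037419900 : ℕ))) p1_145 (sfcons (a := ((699037368141 : ℕ), (704151095592 : ℕ))) p1_146 (sfcons (a := ((704151055682 : ℕ), (715173086940 : ℕ))) p1_147 (sfcons (a := ((715172988931 : ℕ), (722178134994 : ℕ))) p1_148 (sfcons (a := ((722177769803 : ℕ), (728200430322 : ℕ))) p1_149 (sfcons (a := ((724965817772 : ℕ), (733692339504 : ℕ))) p1_150 (sfcons (a := ((733692181097 : ℕ), (737918287920 : ℕ))) p1_151 (sfcons (a := ((737917334221 : ℕ), (747348172272 : ℕ))) p1_152 (sfcons (a := ((747347261504 : ℕ), (752324875974 : ℕ))) p1_153 (sfcons (a := ((751220102128 : ℕ), (754942123152 : ℕ))) p1_154 (sfcons (a := ((754941219589 : ℕ), (763248684816 : ℕ))) p1_155 (sfcons (a := ((762650420291 : ℕ), (766946485260 : ℕ))) p1_156 (sfcons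 (a := ((766944876514 : ℕ), (775423100592 : ℕ))) p1_157 (sfcons (a := ((774500961947 : ℕ), (777958611348 : ℕ))) p1_158 (sfcons (a := ((777440511607 : ℕ), (787955061684 : ℕ))) p1_159 (sfcons (a := ((785767236344 : ℕ), (794503912464 : ℕ))) p1_160 (sfcons (a := ((794503730518 : ℕ), (797019046860 : ℕ))) p1_161 (sfcons (a := ((797017592231 : ℕ), (802994816304 : ℕ))) p1_162 (sfcons (a := ((800552004466 : ℕ), (812495077260 : ℕ))) p1_163 (sfcons (a := ((812493047239 : ℕ), (819626565030 : ℕ))) p1_164 (sfcons (a := ((819626294732 : ℕ), (828610280694 : ℕ))) p1_165 (sfcons (a := ((828607559426 : ℕ), (845286209670 : ℕ))) p1_166 (sfcons (a := ((845283912578 : ℕ), (848815207812 : ℕ))) p1_167 (sfcons (a := ((848206221999 : ℕ), (863993199174 : ℕ))) p1_168 (sfcons (a := ((863993090157 : ℕ), (874806145524 : ℕ))) p1_169 (sfcons (a := ((873264095810 : ℕ), (877841393478 : ℕ))) p1_170 (sfcons (a := ((877839125218 : ℕ), (891314547420 : ℕ))) p1_171 (sfcons (a := ((891314362230 : ℕ), (898363214928 : ℕ))) p1_172 (sfcons (a := ((898362821753 : ℕ), (910132271622 : ℕ))) p1_173 (sfcons (a := ((909481162927 : ℕ), (915825258780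 : ℕ))) p1_174 (sfcons (a := ((915821703390 : ℕ), (936153188166 : ℕ))) p1_175 (sfcons (a := ((919033299230 : ℕ), (944111462670 : ℕ))) p1_176 (sfcons (a := ((944110624048 : ℕ), (951450531420 : ℕ))) p1_177 (sfcons (a := ((946136826398 : ℕ), (969997798350 : ℕ))) p1_178 (sfcons (a := ((963483089973 : ℕ), (990624791790 : ℕ))) p1_179 (sfcons (a := ((973296107554 : ℕ), (994390488312 : ℕ))) p1_180 (sfcons (a := ((992697994828 : ℕ), (1000725827430 : ℕ))) p1_181 (sfcons (a := ((1000725682441 : ℕ), (1027403264736 : ℕ))) p1_182 (sfcons (a := ((1025017208425 : ℕ), (1034051770710 : ℕ))) p1_183 (sfcons (a := ((1034049090370 : ℕ), (1069851779946 : ℕ))) p1_184 (sfcons (a := ((1067737835660 : ℕ), (1083080407950 : ℕ))) p1_185 (sfcons (a := ((1081764765583 : ℕ), (1101070490982 : ℕ))) p1_186 (sfcons (a := ((1101070397904 : ℕ), (1151009187900 : ℕ))) p1_187 (sfcons (a := ((1151009059657 : ℕ), (1160180060676 : ℕ))) p1_188 (sfcons (a := ((1160178752508 : ℕ), (1188048589572 : ℕ))) p1_189 (sfcons (a := ((1188047015457 : ℕ), (1207321071684 : ℕ))) p1_190 (sfcons (a := ((1207320327356 : ℕ), (1236866948712 : ℕ))) p1_191 (sfcons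 (a := ((1228370840688 : ℕ), (1253912231364 : ℕ))) p1_192 (sfcons (a := ((1252180808013 : ℕ), (1289779988484 : ℕ))) p1_193 (sfcons (a := ((1289779705615 : ℕ), (1311479687592 : ℕ))) p1_194 (sfcons (a := ((1311478718772 : ℕ), (1327095670146 : ℕ))) p1_195 (sfcons (a := ((1327093786413 : ℕ), (1351790328258 : ℕ))) p1_196 (sfcons (a := ((1347650167638 : ℕ), (1372669701384 : ℕ))) p1_197 (sfcons (a := ((1372669403006 : ℕ), (1388212173558 : ℕ))) p1_198 (sfcons (a := ((1388212055371 : ℕ), (1406226918726 : ℕ))) p1_199 (sfcons (a := ((1403813495250 : ℕ), (1422568280706 : ℕ))) p1_200 (sfcons (a := ((1422566582325 : ℕ), (1446631399044 : ℕ))) p1_201 (sfcons (a := ((1445526497996 : ℕ), (1453696750434 : ℕ))) p1_202 (sfcons (a := ((1453695098377 : ℕ), (1500057836322 : ℕ))) p1_203 (sfcons (a := ((1497172245888 : ℕ), (1524311470860 : ℕ))) p1_204 (sfcons (a := ((1515629770005 : ℕ), (1556718759630 : ℕ))) p1_205 (sfcons (a := ((1543051186812 : ℕ), (1588391883618 : ℕ))) p1_206 (sfcons (a := ((1582565551287 : ℕ), (1625055468246 : ℕ))) p1_207 (sfcons (a := ((1607513498978 : ℕ), (1674979868610 : ℕ))) p1_208 (sfcons (a :=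 ((1653352232713 : ℕ), (1679810246940 : ℕ))) p1_209 (sfcons (a := ((1679803038777 : ℕ), (1713263433126 : ℕ))) p1_210 (sfcons (a := ((1713258216054 : ℕ), (1745457519900 : ℕ))) p1_211 (sfcons (a := ((1743583989613 : ℕ), (1784878396560 : ℕ))) p1_212 (sfcons (a := ((1784873245316 : ℕ), (1799180173650 : ℕ))) p1_213 (sfcons (a := ((1799178862442 : ℕ), (1828809342720 : ℕ))) p1_214 (sfcons (a := ((1828809135603 : ℕ), (1856094909894 : ℕ))) p1_215 (sfcons (a := ((1856093448978 : ℕ), (1886522662278 : ℕ))) p1_216 (sfcons (a := ((1883514126678 : ℕ), (1921426211334 : ℕ))) p1_217 (sfcons (a := ((1921425759834 : ℕ), (1986199005336 : ℕ))) p1_218 (sfcons (a := ((1975207585346 : ℕ), (2008908972966 : ℕ))) p1_219 (sfcons (a := ((2008901809647 : ℕ), (2058644603256 : ℕ))) p1_220 (sfcons (a := ((2048304628920 : ℕ), (2095597630182 : ℕ))) p1_221 (sfcons (a := ((2095590862076 : ℕ), (2165517041394 : ℕ))) p1_222 (sfcons (a := ((2165516826886 : ℕ), (2220751033548 : ℕ))) p1_223 (sfcons (a := ((2220750884098 : ℕ), (2262867110244 : ℕ))) p1_224 (sfcons (a := ((2248446939338 : ℕ), (2292231636270 : ℕ))) p1_225 (sfcons (a := ((2292231328552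 : ℕ), (2316072802212 : ℕ))) p1_226 (sfcons (a := ((2316072502751 : ℕ), (2351399629218 : ℕ))) p1_227 (sfcons (a := ((2351398398108 : ℕ), (2403096132162 : ℕ))) p1_228 (sfcons (a := ((2397270489525 : ℕ), (2415783902790 : ℕ))) p1_229 (sfcons (a := ((2415783774236 : ℕ), (2437584533550 : ℕ))) p1_230 (sfcons (a := ((2437583843789 : ℕ), (2492569300248 : ℕ))) p1_231 (sfcons (a := ((2491219598229 : ℕ), (2524959808758 : ℕ))) p1_232 (sfcons (a := ((2521053680274 : ℕ), (2564564301780 : ℕ))) p1_233 (sfcons (a := ((2544336802584 : ℕ), (2583816492726 : ℕ))) p1_234 (sfcons (a := ((2578496731544 : ℕ), (2622298423680 : ℕ))) p1_235 (sfcons (a := ((2605719210338 : ℕ), (2643161096310 : ℕ))) p1_236 (sfcons (a := ((2638416888358 : ℕ), (2683012239630 : ℕ))) p1_237 (sfcons (a := ((2672333872878 : ℕ), (2736440319612 : ℕ))) p1_238 (sfcons (a := ((2733379134456 : ℕ), (2783478204834 : ℕ))) p1_239 (sfcons (a := ((2770066121979 : ℕ), (2813704450140 : ℕ))) p1_240 (sfcons (a := ((2796252503679 : ℕ), (2921763374946 : ℕ))) p1_241 (sfcons (a := ((2877179632398 : ℕ), (2947401811836 : ℕ))) p1_242 (sfcons (a := ((2946864457686 : ℕ),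 (2996244491616 : ℕ))) p1_243 (sfcons (a := ((2955252805319 : ℕ), (3030089886390 : ℕ))) p1_244 (sfcons (a := ((3030089328273 : ℕ), (3050438541390 : ℕ))) p1_245 (sfcons (a := ((3050438155531 : ℕ), (3110102233128 : ℕ))) p1_246 (sfcons (a := ((3096784049581 : ℕ), (3227100813252 : ℕ))) p1_247 (sfcons (a := ((3224638839129 : ℕ), (3245686344000 : ℕ))) p1_248 (sfcons (a := ((3238572477772 : ℕ), (3385263422400 : ℕ))) p1_249 (sfcons (a := ((3385263112010 : ℕ), (3416426077968 : ℕ))) p1_250 (sfcons (a := ((3412880495100 : ℕ), (3480167074086 : ℕ))) p1_251 (sfcons (a := ((3477602136514 : ℕ), (3535041884868 : ℕ))) p1_252 (sfcons (a := ((3535037746370 : ℕ), (3585704107908 : ℕ))) p1_253 (sfcons (a := ((3585703965471 : ℕ), (3644799673998 : ℕ))) p1_254 (sfcons (a := ((3632680987192 : ℕ), (3714564306804 : ℕ))) p1_255 (sfcons (a := ((3714557012247 : ℕ), (3781899155334 : ℕ))) p1_256 (sfcons (a := ((3781895522506 : ℕ), (3867173460852 : ℕ))) p1_257 (sfcons (a := ((3848454838622 : ℕ), (3999839320614 : ℕ))) p1_258 (sfcons (a := ((3983937648301 : ℕ), (4014903168270 : ℕ))) p1_259 (sfcons (a := ((4005443385026 : ℕ), (4206129221982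 : ℕ))) p1_260 (sfcons (a := ((4206127672660 : ℕ), (4260237121296 : ℕ))) p1_261 (sfcons (a := ((4260235948642 : ℕ), (4307454768510 : ℕ))) p1_262 (sfcons (a := ((4307450018695 : ℕ), (4362219013950 : ℕ))) p1_263 (sfcons (a := ((4362217687695 : ℕ), (4414860183144 : ℕ))) p1_264 (sfcons (a := ((4414854930642 : ℕ), (4489875052800 : ℕ))) p1_265 (sfcons (a := ((4489872328350 : ℕ), (4614838569576 : ℕ))) p1_266 (sfcons (a := ((4614837869008 : ℕ), (4745834180124 : ℕ))) p1_267 (sfcons (a := ((4733910550979 : ℕ), (4844710638660 : ℕ))) p1_268 (sfcons (a := ((4840976752758 : ℕ), (4945687901082 : ℕ))) p1_269 (sfcons (a := ((4935255128865 : ℕ), (4984916304438 : ℕ))) p1_270 (sfcons (a := ((4984913699721 : ℕ), (5042374505910 : ℕ))) p1_271 (sfcons (a := ((5042373929269 : ℕ), (5094877226358 : ℕ))) p1_272 (sfcons (a := ((5070036069728 : ℕ), (5214632700510 : ℕ))) p1_273 (sfcons (a := ((5206830336729 : ℕ), (5266811335446 : ℕ))) p1_274 (sfcons (a := ((5237512332537 : ℕ), (5339467967094 : ℕ))) p1_275 (sfcons (a := ((5339467446552 : ℕ), (5406138072054 : ℕ))) p1_276 (sfcons (a := ((5382192489986 : ℕ), (5463502785600 : ℕ)))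 p1_277 (sfcons (a := ((5461216461936 : ℕ), (5528855770326 : ℕ))) p1_278 (sfcons (a := ((5528853639297 : ℕ), (5591051017686 : ℕ))) p1_279 (sfcons (a := ((5591045259639 : ℕ), (5657618383254 : ℕ))) p1_280 (sfcons (a := ((5657613483726 : ℕ), (5762895609942 : ℕ))) p1_281 (sfcons (a := ((5720946632837 : ℕ), (5855334223140 : ℕ))) p1_282 (sfcons (a := ((5822795966436 : ℕ), (5906027458278 : ℕ))) p1_283 (sfcons (a := ((5906022653034 : ℕ), (5984683132950 : ℕ))) p1_284 (sfcons (a := ((5984680269276 : ℕ), (6064633196694 : ℕ))) p1_285 (sfcons (a := ((6064631761293 : ℕ), (6197338778166 : ℕ))) p1_286 (sfcons (a := ((6197337475200 : ℕ), (6394983407478 : ℕ))) p1_287 (sfcons (a := ((6381873563616 : ℕ), (6524955344292 : ℕ))) p1_288 (sfcons (a := ((6433543148949 : ℕ), (6535290896400 : ℕ))) p1_289 (sfcons (a := ((6528499373538 : ℕ), (6771565398582 : ℕ))) p1_290 (sfcons (a := ((6746733270297 : ℕ), (7140703650390 : ℕ))) p1_291 (sfcons (a := ((6966455946658 : ℕ), (7317017320770 : ℕ))) p1_292 (sfcons (a := ((7307395744518 : ℕ), (7436860125894 : ℕ))) p1_293 (sfcons (a := ((7436857116663 : ℕ), (7522584623910 : ℕ))) p1_294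 (sfcons (a := ((7511463829188 : ℕ), (7670189161350 : ℕ))) p1_295 (sfcons (a := ((7670187353430 : ℕ), (7810795773126 : ℕ))) p1_296 (sfcons (a := ((7810794283131 : ℕ), (7955618431014 : ℕ))) p1_297 (sfcons (a := ((7955617020642 : ℕ), (8072588409462 : ℕ))) p1_298 (sfcons (a := ((8072586552537 : ℕ), (8170361796150 : ℕ))) p1_299 (sfcons (a := ((8170359969924 : ℕ), (8365903534566 : ℕ))) p1_300 (sfcons (a := ((8365901971995 : ℕ), (8583249608550 : ℕ))) p1_301 (sfcons (a := ((8583248135889 : ℕ), (8810477011206 : ℕ))) p1_302 (sfcons (a := ((8810473934826 : ℕ), (9231941071206 : ℕ))) p1_303 (sfcons (a := ((9176764917483 : ℕ), (9490244386950 : ℕ))) p1_304 (sfcons (a := ((9484400014767 : ℕ), (9772152221142 : ℕ))) p1_305 (sfcons (a := ((9772149060522 : ℕ), (10024387892982 : ℕ))) p1_306 (sfcons (a := ((10024386471837 : ℕ), (10244778247638 : ℕ))) p1_307 (sfcons (a := ((10244776513185 : ℕ), (10532608310646 : ℕ))) p1_308 (sfcons (a := ((10532606721669 : ℕ), (10741233289590 : ℕ))) p1_309 (sfcons (a := ((10741230334062 : ℕ), (10988268143238 : ℕ))) p1_310 (sfcons (a := ((10988266249377 : ℕ), (11272537715814 : ℕ)))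 p1_311 (sfcons (a := ((11272535107938 : ℕ), (11392595166726 : ℕ))) p1_312 (sfcons (a := ((11392593663204 : ℕ), (11866407083766 : ℕ))) p1_313 (sfcons (a := ((11809238735367 : ℕ), (12455938598454 : ℕ))) p1_314 (sfcons (a := ((12455937282285 : ℕ), (12857318910630 : ℕ))) p1_315 (sfcons (a := ((12857317505928 : ℕ), (13279633377318 : ℕ))) p1_316 (sfcons (a := ((13279628953584 : ℕ), (13458332424150 : ℕ))) p1_317 (sfcons (a := ((13458330701766 : ℕ), (13819601721654 : ℕ))) p1_318 (sfcons (a := ((13819599974160 : ℕ), (14358301057782 : ℕ))) p1_319 (sfcons (a := ((14358299449122 : ℕ), (14609842807158 : ℕ))) p1_320 sfnil))))))))))))))))))))))))))))))))))))))))))))))))))))))))))))))))))))))))))))))))))))))))))))))))))))))))))))))))))))))))))))))))))))))))))))))))))))))))))))))))))))))))))))))))))))))))))))))))))))))))))))))))))))))))))))))))))))))))))))))))))))))))))))))))))))))))))))))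

theorem Ls1_cover : cover 180000000000 Ls1 14580000000000 = true := by decide +kernel

end Pool.Agent.Lib.MP_cfac74_al.Cov
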