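import Pool.Agent.Lib.MP_cfac74_al.S.S00
import Pool.Agent.Lib.MP_cfac74_al.S.S01
import Pool.Agent.Lib.MP_cfac74_al.S.S02
import Pool.Agent.Lib.MP_cfac74_al.S.S03
import Pool.Agent.Lib.MP_cfac74_al.S.S04
import Pool.Agent.Lib.MP_cfac74_al.S.S05
import Pool.Agent.Lib.MP_cfac74_al.S.S06
import Pool.Agent.Lib.MP_cfac74_al.S.S07
import Pool.Agent.Lib.MP_cfac74_al.S.S08
import Pool.Agent.Lib.MP_cfac74_al.S.S09
import Pool.Agent.Lib.MP_cfac74_al.S.S10
import Pool.Agent.Lib.MP_cfac74_al.S.S11
import Pool.Agent.Lib.MP_cfac74_al.S.S12
import Pool.Agent.Lib.MP_cfac74_al.S.S13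
import Pool.Agent.Lib.MP_cfac74_al.S.S14
import Pool.Agent.Lib.MP_cfac74_al.S.S15
import Pool.Agent.Lib.MP_cfac74_al.S.S16
import Pool.Agent.Lib.MP_cfac74_al.S.S17
import Pool.Agent.Lib.MP_cfac74_al.S.S18
import Pool.Agent.Lib.MP_cfac74_al.S.Ls

/-!
# MP_cfac74_al : stable windows, class 11
-/

set_option autoImplicit false
set_option maxRecDepth 1000000

namespace Pool.Agent.Lib.MP_cfac74_al.Cov

theorem p11_0 : Stab 11 60929075665 61542176598 := s584_t0

theorem sw11_0 : Win 11 60929075665 61542176598 := p11_0.win (by decide +kernel)

theorem p11_1 : Stab 11 61542144441 62251537110 := s221_t0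

theorem sw11_1 : Win 11 61542144441 62251537110 := p11_1.win (by decide +kernel)

theorem p11_2 : Stab 11 62251499881 62617412790 := s104_t0

theorem sw11_2 : Win 11 62251499881 62617412790 := p11_2.win (by decide +kernel)

theorem p11_3 : Stab 11 64281856009 65022362166 := s288_t0

theorem sw11_3 : Win 11 64281856009 65022362166 := p11_3.win (by decide +kernel)

theorem p11_4 : Stab 11 65919351192 66742445334 := s75_t0

theorem sw11_4 : Win 11 65919351192 66742445334 := p11_4.win (by decide +kernel)

theorem p11_5 : Stab 11 67422425456 68257478646 := s872_t0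

theorem sw11_5 : Win 11 67422425456 68257478646 := p11_5.win (by decide +kernel)

theorem p11_6 : Stab 11 68257452337 69025321206 := s585_t0

theorem sw11_6 : Win 11 68257452337 69025321206 := p11_6.win (by decide +kernel)

theorem p11_7 : Stab 11 69025250119 69847140534 := s766_t0

theorem sw11_7 : Win 11 69025250119 69847140534 := p11_7.win (by decide +kernel)

theorem p11_8 : Stab 11 69847080046 71146859382 := s147_t0

theorem sw11_8 : Win 11 69847080046 71146859382 := p11_8.win (by decide +kernel)

theorem p11_9 : Stab 11 71146820322 71872805526 := s266_t0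

theorem sw11_9 : Win 11 71146820322 71872805526 := p11_9.win (by decide +kernel)

theorem p11_10 : Stab 11 71886369956 72913919238 := s516_t0

theorem sw11_10 : Win 11 71886369956 72913919238 := p11_10.win (by decide +kernel)

theorem p11_11 : Stab 11 72913859914 73884976950 := s354_t0

theorem sw11_11 : Win 11 72913859914 73884976950 := p11_11.win (by decide +kernel)

theorem p11_12 : Stab 11 73884941596 74872014774 := s284_t0

theorem sw11_12 : Win 11 73884941596 74872014774 := p11_12.win (by decide +kernel)

theorem p11_13 : Stab 11 74871997053 76510355286 := s602_t0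

theorem sw11_13 : Win 11 74871997053 76510355286 := p11_13.win (by decide +kernel)

theorem p11_14 : Stab 11 76510339200 78950412438 := s263_t0

theorem sw11_14 : Win 11 76510339200 78950412438 := p11_14.win (by decide +kernel)

theorem p11_15 : Stab 11 80598757698 83599572822 := s622_t0

theorem sw11_15 : Win 11 80598757698 83599572822 := p11_15.win (by decide +kernel)

theorem p11_16 : Stab 11 83293003337 88156835190 := s195_t0

theorem sw11_16 : Win 11 83293003337 88156835190 := p11_16.win (by decide +kernel)

theorem p11_17 : Stab 11 90214762278 91813087974 := s128_t0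

theorem sw11_17 : Win 11 90214762278 91813087974 := p11_17.win (by decide +kernel)

theorem p11_18 : Stab 11 91813050823 92871415110 := s444_t0

theorem sw11_18 : Win 11 91813050823 92871415110 := p11_18.win (by decide +kernel)

theorem p11_19 : Stab 11 92734121348 94693693350 := s865_t0

theorem sw11_19 : Win 11 92734121348 94693693350 := p11_19.win (by decide +kernel)

theorem p11_20 : Stab 11 94693671030 96429577446 := s160_t0

theorem sw11_20 : Win 11 94693671030 96429577446 := p11_20.win (by decide +kernel)

theorem p11_21 : Stab 11 96429559051 98217511494 := s127_t0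

theorem sw11_21 : Win 11 96429559051 98217511494 := p11_21.win (by decide +kernel)

theorem p11_22 : Stab 11 98217494082 99661585302 := s148_t0

theorem sw11_22 : Win 11 98217494082 99661585302 := p11_22.win (by decide +kernel)

theorem p11_23 : Stab 11 99661562377 100868664150 := s220_t0

theorem sw11_23 : Win 11 99661562377 100868664150 := p11_23.win (by decide +kernel)

theorem p11_24 : Stab 11 100868641604 103282759686 := s614_t0

theorem sw11_24 : Win 11 100868641604 103282759686 := p11_24.win (by decide +kernel)

theorem p11_25 : Stab 11 103282740395 105966044550 := s302_t0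

theorem sw11_25 : Win 11 103282740395 105966044550 := p11_25.win (by decide +kernel)

theorem p11_26 : Stab 11 105966026369 108771321126 := s590_t0

theorem sw11_26 : Win 11 105966026369 108771321126 := p11_26.win (by decide +kernel)

theorem p11_27 : Stab 11 108771283146 113974581126 := s313_t0

theorem sw11_27 : Win 11 108771283146 113974581126 := p11_27.win (by decide +kernel)

theorem p11_28 : Stab 11 113293394043 117163510950 := s695_t0

theorem sw11_28 : Win 11 113293394043 117163510950 := p11_28.win (by decide +kernel)

theorem p11_29 : Stab 11 117091358207 120643854582 := s421_t0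

theorem sw11_29 : Win 11 117091358207 120643854582 := p11_29.win (by decide +kernel)

theorem p11_30 : Stab 11 120643815562 123757875222 := s292_t0

theorem sw11_30 : Win 11 120643815562 123757875222 := p11_30.win (by decide +kernel)

theorem p11_31 : Stab 11 123757857677 126478743798 := s351_t0

theorem sw11_31 : Win 11 123757857677 126478743798 := p11_31.win (by decide +kernel)

theorem p11_32 : Stab 11 126478722385 130032201366 := s10_t0

theorem sw11_32 : Win 11 126478722385 130032201366 := p11_32.win (by decide +kernel)

theorem p11_33 : Stab 11 130032181749 132607818390 := s652_t0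

theorem sw11_33 : Win 11 130032181749 132607818390 := p11_33.win (by decide +kernel)

theorem p11_34 : Stab 11 132607781902 135657631398 := s191_t0

theorem sw11_34 : Win 11 132607781902 135657631398 := p11_34.win (by decide +kernel)

theorem p11_35 : Stab 11 135657608017 139167132294 := s517_t0

theorem sw11_35 : Win 11 135657608017 139167132294 := p11_35.win (by decide +kernel)

theorem p11_36 : Stab 11 139167100098 140649323046 := s494_t0

theorem sw11_36 : Win 11 139167100098 140649323046 := p11_36.win (by decide +kernel)

theorem p11_37 : Stab 11 140649304484 146498852886 := s383_t0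

theorem sw11_37 : Win 11 140649304484 146498852886 := p11_37.win (by decide +kernel)

theorem p11_38 : Stab 11 145793070807 153777019734 := s738_t0

theorem sw11_38 : Win 11 145793070807 153777019734 := p11_38.win (by decide +kernel)

theorem p11_39 : Stab 11 153777003485 158732332230 := s4_t0

theorem sw11_39 : Win 11 153777003485 158732332230 := p11_39.win (by decide +kernel)

theorem p11_40 : Stab 11 158732314888 163946091078 := s594_t0

theorem sw11_40 : Win 11 158732314888 163946091078 := p11_40.win (by decide +kernel)

theorem p11_41 : Stab 11 163946036464 166152252150 := s267_t0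

theorem sw11_41 : Win 11 163946036464 166152252150 := p11_41.win (by decide +kernel)

theorem p11_42 : Stab 11 166152230886 170612366934 := s553_t0

theorem sw11_42 : Win 11 166152230886 170612366934 := p11_42.win (by decide +kernel)

theorem p11_43 : Stab 11 170612345360 177262976022 := s95_t0

theorem sw11_43 : Win 11 170612345360 177262976022 := p11_43.win (by decide +kernel)

theorem p11_44 : Stab 11 177262956162 180368429718 := s823_t0

theorem sw11_44 : Win 11 177262956162 180368429718 := p11_44.win (by decide +kernel)

theorem p11_45 : Stab 11 180368410420 183708376518 := s182_t0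

theorem p11_46 : Stab 11 183708352169 186805893606 := s367_t0

theorem p11_47 : Stab 11 186805856503 188461517430 := s806_t0

theorem p11_48 : Stab 11 188461478284 191399428278 := s813_t0

theorem p11_49 : Stab 11 191399405521 194721456630 := s774_t0

theorem p11_50 : Stab 11 194721435754 198174213846 := s20_t0

theorem p11_51 : Stab 11 198174196267 203766044982 := s540_t0

theorem p11_52 : Stab 11 203468726040 207256429686 := s375_t0

theorem p11_53 : Stab 11 207256384997 213238677558 := s811_t0

theorem p11_54 : Stab 11 213238645393 218707045974 := s19_t0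

theorem p11_55 : Stab 11 218707026410 221766024678 := s80_t0

theorem p11_56 : Stab 11 221766006067 228430870518 := s817_t0

theorem p11_57 : Stab 11 228077544927 232445756694 := s396_t0

theorem p11_58 : Stab 11 232445739302 237432592902 := s639_t0

theorem p11_59 : Stab 11 237432573348 240956353350 := s479_t0

theorem p11_60 : Stab 11 240956283428 244692844518 := s451_t0

theorem p11_61 : Stab 11 244692791356 250270590822 := s750_t0

theorem p11_62 : Stab 11 250270571868 258849830070 := s665_t0

theorem p11_63 : Stab 11 258273794861 266404097622 := s685_t0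

theorem p11_64 : Stab 11 266404076179 272026506534 := s724_t0

theorem p11_65 : Stab 11 272026484081 276349050150 := s282_t0

theorem p11_66 : Stab 11 276349020642 280466586342 := s22_t0

theorem p11_67 : Stab 11 280466563919 284808456582 := s431_t0

theorem p11_68 : Stab 11 284808417048 295556283846 := s783_t0

theorem p11_69 : Stab 11 294711628209 307253871366 := s511_t0

theorem p11_70 : Stab 11 307253851602 313290634230 := s401_t0

theorem p11_71 : Stab 11 313290595400 318517950102 := s323_t0

theorem p11_72 : Stab 11 318517904511 323507519142 := s641_t0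

theorem p11_73 : Stab 11 323507475891 329109431910 := s122_t0

theorem p11_74 : Stab 11 329109389308 333386249094 := s498_t0

theorem p11_75 : Stab 11 333386203523 336377121702 := s583_t0

theorem p11_76 : Stab 11 336377084263 341677838034 := (Half.stab s808_t0 s626_t1 (by decide +kernel) : Stab 11 336377084263 341677838034)

theorem p11_77 : Stab 11 341677193756 347250910578 := (Half.stab s777_t1 s105_t1 (by decide +kernel) : Stab 11 341677193756 347250910578)

theorem p11_78 : Stab 11 343920414491 350569930410 := (Half.stab s39_t1 s105_t1 (by decide +kernel) : Stab 11 343920414491 350569930410)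

theorem p11_79 : Stab 11 348802458435 355215783972 := (Half.stab s506_t0 s105_t1 (by decide +kernel) : Stab 11 348802458435 355215783972)

theorem p11_80 : Stab 11 355215404019 360557683122 := (Half.stab s145_t0 s307_t1 (by decide +kernel) : Stab 11 355215404019 360557683122)

theorem p11_81 : Stab 11 360557646052 363499436166 := s607_t0

theorem p11_82 : Stab 11 363499399015 370182967290 := (Half.stab s825_t1 s423_t1 (by decide +kernel) : Stab 11 363499399015 370182967290)

theorem p11_83 : Stab 11 370182886877 381787007364 := (Half.stab s499_t0 s249_t1 (by decide +kernel) : Stab 11 370182886877 381787007364)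

theorem p11_84 : Stab 11 380296021590 386621018790 := (Half.stab s512_t2 s249_t1 (by decide +kernel) : Stab 11 380296021590 386621018790)

theorem p11_85 : Stab 11 386620628988 400704495366 := s656_t0

theorem p11_86 : Stab 11 400603815177 402392385180 := (Half.stab s838_t1 s874_t1 (by decide +kernel) : Stab 11 400603815177 402392385180)

theorem p11_87 : Stab 11 402124299396 407562962940 := (Half.stab s838_t1 s264_t1 (by decide +kernel) : Stab 11 402124299396 407562962940)

theorem p11_88 : Stab 11 407562929973 420457705350 := s442_t0

theorem p11_89 : Stab 11 420457679320 423823370250 := (Half.stab s873_t1 s193_t3 (by decide +kernel) : Stab 11 420457679320 423823370250)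

theorem p11_90 : Stab 11 423822362253 426946222296 := (Half.stab s844_t1 s193_t3 (by decide +kernel) : Stab 11 423822362253 426946222296)

theorem p11_91 : Stab 11 424808020751 432039934350 := (Half.stab s844_t1 s352_t1 (by decide +kernel) : Stab 11 424808020751 432039934350)

theorem p11_92 : Stab 11 432039779789 438727543740 := (Half.stab s844_t1 s513_t1 (by decide +kernel) : Stab 11 432039779789 438727543740)

theorem p11_93 : Stab 11 435792530006 443110516212 := (Half.stab s844_t1 s714_t1 (by decide +kernel) : Stab 11 435792530006 443110516212)

theorem p11_94 : Stab 11 443109591946 447460555530 := (Half.stab s844_t1 s123_t0 (by decide +kernel) : Stab 11 443109591946 447460555530)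

theorem p11_95 : Stab 11 447459227634 449259167700 := (Half.stab s561_t1 s123_t0 (by decide +kernel) : Stab 11 447459227634 449259167700)

theorem p11_96 : Stab 11 448618211178 454359587370 := (Half.stab s561_t1 s129_t1 (by decide +kernel) : Stab 11 448618211178 454359587370)

theorem p11_97 : Stab 11 454358756347 460477854228 := (Half.stab s515_t1 s90_t1 (by decide +kernel) : Stab 11 454358756347 460477854228)

theorem p11_98 : Stab 11 460476647702 463494441450 := (Half.stab s515_t1 s199_t1 (by decide +kernel) : Stab 11 460476647702 463494441450)

theorem p11_99 : Stab 11 463493590473 467925802260 := (Half.stab s41_t1 s199_t1 (by decide +kernel) : Stab 11 463493590473 467925802260)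

theorem p11_100 : Stab 11 467924599728 472594192170 := (Half.stab s41_t1 s331_t1 (by decide +kernel) : Stab 11 467924599728 472594192170)

theorem p11_101 : Stab 11 472593311442 476818144404 := (Half.stab s344_t1 s331_t1 (by decide +kernel) : Stab 11 472593311442 476818144404)

theorem p11_102 : Stab 11 476817052022 479951161290 := (Half.stab s344_t1 s551_t1 (by decide +kernel) : Stab 11 476817052022 479951161290)

theorem p11_103 : Stab 11 479951101763 488691655734 := s310_t0

theorem p11_104 : Stab 11 488691595924 499159123446 := s875_t0

theorem p11_105 : Stab 11 499159067683 501981285150 := (Half.stab s272_t1 s153_t2 (by decide +kernel) : Stab 11 499159067683 501981285150)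

theorem p11_106 : Stab 11 501688151037 519425342550 := s32_t0

theorem p11_107 : Stab 11 519425308102 527552900598 := s617_t0

theorem p11_108 : Stab 11 527552865654 540095770998 := s487_t0

theorem p11_109 : Stab 11 540095518607 547380359058 := (Half.stab s294_t1 s436_t2 (by decide +kernel) : Stab 11 540095518607 547380359058)

theorem p11_110 : Stab 11 547380178158 550937806974 := (Half.stab s432_t1 s436_t2 (by decide +kernel) : Stab 11 547380178158 550937806974)

theorem p11_111 : Stab 11 550937334358 557616558996 := (Half.stab s751_t3 s436_t2 (by decide +kernel) : Stab 11 550937334358 557616558996)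

theorem p11_112 : Stab 11 553446612996 561406745874 := (Half.stab s751_t3 s36_t1 (by decide +kernel) : Stab 11 553446612996 561406745874)

theorem p11_113 : Stab 11 560846121776 564300260766 := (Half.stab s92_t1 s36_t1 (by decide +kernel) : Stab 11 560846121776 564300260766)

theorem p11_114 : Stab 11 564300145705 568139964030 := (Half.stab s212_t1 s852_t1 (by decide +kernel) : Stab 11 564300145705 568139964030)

theorem p11_115 : Stab 11 568139192281 573613704702 := (Half.stab s37_t1 s852_t1 (by decide +kernel) : Stab 11 568139192281 573613704702)

theorem p11_116 : Stab 11 573613603414 580745794014 := (Half.stab s137_t1 s734_t1 (by decide +kernel) : Stab 11 573613603414 580745794014)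

theorem p11_117 : Stab 11 577084420637 583964768772 := (Half.stab s158_t2 s734_t1 (by decide +kernel) : Stab 11 577084420637 583964768772)

theorem p11_118 : Stab 11 582243968528 587710880250 := (Half.stab s237_t1 s734_t1 (by decide +kernel) : Stab 11 582243968528 587710880250)

theorem p11_119 : Stab 11 587710799606 593902089732 := (Half.stab s860_t1 s826_t1 (by decide +kernel) : Stab 11 587710799606 593902089732)

theorem p11_120 : Stab 11 593901169949 596663832090 := (Half.stab s756_t2 s826_t1 (by decide +kernel) : Stab 11 593901169949 596663832090)

theorem p11_121 : Stab 11 596662063780 600571844292 := (Half.stab s756_t2 s358_t1 (by decide +kernel) : Stab 11 596662063780 600571844292)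

theorem p11_122 : Stab 11 599131718661 605917226490 := (Half.stab s269_t1 s358_t1 (by decide +kernel) : Stab 11 599131718661 605917226490)

theorem p11_123 : Stab 11 605915387501 613238165316 := (Half.stab s79_t1 s478_t1 (by decide +kernel) : Stab 11 605915387501 613238165316)

theorem p11_124 : Stab 11 611382641843 616820877690 := (Half.stab s172_t0 s478_t1 (by decide +kernel) : Stab 11 611382641843 616820877690)

theorem p11_125 : Stab 11 616819766614 621702597906 := (Half.stab s172_t0 s296_t1 (by decide +kernel) : Stab 11 616819766614 621702597906)

theorem p11_126 : Stab 11 621702508726 624761665050 := (Half.stab s341_t1 s296_t1 (by decide +kernel) : Stab 11 621702508726 624761665050)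

theorem p11_127 : Stab 11 624761598146 629102130150 := s363_t0

theorem p11_128 : Stab 11 629102076649 636877349850 := (Half.stab s878_t2 s247_t1 (by decide +kernel) : Stab 11 629102076649 636877349850)

theorem p11_129 : Stab 11 634839539759 640475543934 := (Half.stab s878_t2 s636_t0 (by decide +kernel) : Stab 11 634839539759 640475543934)

theorem p11_130 : Stab 11 640474588818 648516599856 := (Half.stab s256_t1 s667_t4 (by decide +kernel) : Stab 11 640474588818 648516599856)

theorem p11_131 : Stab 11 648516009189 651547753446 := (Half.stab s845_t0 s9_t1 (by decide +kernel) : Stab 11 648516009189 651547753446)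

theorem p11_132 : Stab 11 651547407574 659843326062 := (Half.stab s433_t2 s9_t1 (by decide +kernel) : Stab 11 651547407574 659843326062)

theorem p11_133 : Stab 11 655700530363 662681670300 := (Half.stab s433_t2 s795_t0 (by decide +kernel) : Stab 11 655700530363 662681670300)

theorem p11_134 : Stab 11 662681243146 672822228036 := (Half.stab s537_t2 s518_t3 (by decide +kernel) : Stab 11 662681243146 672822228036)

theorem p11_135 : Stab 11 672822098297 678655664484 := (Half.stab s321_t1 s178_t3 (by decide +kernel) : Stab 11 672822098297 678655664484)

theorem p11_136 : Stab 11 678655268684 686797677222 := (Half.stab s700_t0 s789_t1 (by decide +kernel) : Stab 11 678655268684 686797677222)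

theorem p11_137 : Stab 11 686797372186 688510398810 := (Half.stab s669_t1 s789_t1 (by decide +kernel) : Stab 11 686797372186 688510398810)

theorem p11_138 : Stab 11 688507602537 692823913758 := (Half.stab s669_t1 s568_t1 (by decide +kernel) : Stab 11 688507602537 692823913758)

theorem p11_139 : Stab 11 692823019719 700422765210 := (Half.stab s483_t3 s568_t1 (by decide +kernel) : Stab 11 692823019719 700422765210)

theorem p11_140 : Stab 11 700422649572 709257660318 := (Half.stab s306_t3 s124_t1 (by decide +kernel) : Stab 11 700422649572 709257660318)

theorem p11_141 : Stab 11 709256827884 716721116958 := (Half.stab s91_t2 s124_t1 (by decide +kernel) : Stab 11 709256827884 716721116958)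

theorem p11_142 : Stab 11 716721019798 730405435302 := (Half.stab s55_t2 s867_t1 (by decide +kernel) : Stab 11 716721019798 730405435302)

theorem p11_143 : Stab 11 730405330706 730413731130 := (Half.stab s325_t1 s867_t1 (by decide +kernel) : Stab 11 730405330706 730413731130)

theorem p11_144 : Stab 11 730413642038 736883675370 := (Half.stab s325_t1 s841_t1 (by decide +kernel) : Stab 11 730413642038 736883675370)

theorem p11_145 : Stab 11 734987742971 744167383092 := (Half.stab s634_t2 s841_t1 (by decide +kernel) : Stab 11 734987742971 744167383092)

theorem p11_146 : Stab 11 743342357611 757013257566 := (Half.stab s745_t3 s637_t2 (by decide +kernel) : Stab 11 743342357611 757013257566)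

theorem p11_147 : Stab 11 757012899869 766800283920 := (Half.stab s319_t2 s637_t2 (by decide +kernel) : Stab 11 757012899869 766800283920)

theorem p11_148 : Stab 11 766799881828 768759463710 := (Half.stab s319_t2 s707_t1 (by decide +kernel) : Stab 11 766799881828 768759463710)

theorem p11_149 : Stab 11 768759295498 772236849438 := (Half.stab s628_t2 s707_t1 (by decide +kernel) : Stab 11 768759295498 772236849438)

theorem p11_150 : Stab 11 771074312739 776309883570 := (Half.stab s268_t2 s707_t1 (by decide +kernel) : Stab 11 771074312739 776309883570)

theorem p11_151 : Stab 11 776309817289 781483022742 := s534_t0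

theorem p11_152 : Stab 11 781482953379 787513117662 := (Half.stab s134_t1 s707_t1 (by decide +kernel) : Stab 11 781482953379 787513117662)

theorem p11_153 : Stab 11 787513074511 788171684310 := s601_t0

theorem p11_154 : Stab 11 788171631649 799088096682 := (Half.stab s132_t3 s136_t2 (by decide +kernel) : Stab 11 788171631649 799088096682)

theorem p11_155 : Stab 11 799088004210 805539967242 := (Half.stab s863_t2 s389_t1 (by decide +kernel) : Stab 11 799088004210 805539967242)

theorem p11_156 : Stab 11 805246010554 812528177850 := (Half.stab s675_t3 s389_t1 (by decide +kernel) : Stab 11 805246010554 812528177850)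

theorem p11_157 : Stab 11 812525800041 814733069568 := (Half.stab s675_t3 s520_t1 (by decide +kernel) : Stab 11 812525800041 814733069568)

theorem p11_158 : Stab 11 814732010083 830778492960 := (Half.stab s163_t4 s520_t1 (by decide +kernel) : Stab 11 814732010083 830778492960)

theorem p11_159 : Stab 11 830777906052 834220500090 := (Half.stab s647_t2 s520_t1 (by decide +kernel) : Stab 11 830777906052 834220500090)

theorem p11_160 : Stab 11 834217312420 840848441280 := (Half.stab s647_t2 s743_t1 (by decide +kernel) : Stab 11 834217312420 840848441280)

theorem p11_161 : Stab 11 837482856259 847859282490 := (Half.stab s159_t4 s743_t1 (by decide +kernel) : Stab 11 837482856259 847859282490)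

theorem p11_162 : Stab 11 847856374537 857784267210 := (Half.stab s470_t1 s788_t2 (by decide +kernel) : Stab 11 847856374537 857784267210)

theorem p11_163 : Stab 11 857784056432 868909585290 := (Half.stab s411_t1 s855_t2 (by decide +kernel) : Stab 11 857784056432 868909585290)

theorem p11_164 : Stab 11 868909342774 876963028788 := (Half.stab s42_t2 s855_t2 (by decide +kernel) : Stab 11 868909342774 876963028788)

theorem p11_165 : Stab 11 876962896630 897860520564 := (Half.stab s342_t4 s781_t2 (by decide +kernel) : Stab 11 876962896630 897860520564)

theorem p11_166 : Stab 11 897857752099 906886764420 := (Half.stab s381_t1 s270_t1 (by decide +kernel) : Stab 11 897857752099 906886764420)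

theorem p11_167 : Stab 11 906886632838 921304258290 := (Half.stab s761_t2 s798_t2 (by decide +kernel) : Stab 11 906886632838 921304258290)

theorem p11_168 : Stab 11 921303427269 931458138324 := (Half.stab s23_t2 s798_t2 (by decide +kernel) : Stab 11 921303427269 931458138324)

theorem p11_169 : Stab 11 928178353674 949090087092 := (Half.stab s110_t4 s420_t2 (by decide +kernel) : Stab 11 928178353674 949090087092)

theorem p11_170 : Stab 11 949089962230 965860522452 := (Half.stab s105_t6 s545_t2 (by decide +kernel) : Stab 11 949089962230 965860522452)

theorem p11_171 : Stab 11 965858905635 978652387860 := (Half.stab s105_t6 s175_t2 (by decide +kernel) : Stab 11 965858905635 978652387860)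

theorem p11_172 : Stab 11 977038956598 986007906072 := (Half.stab s535_t2 s236_t1 (by decide +kernel) : Stab 11 977038956598 986007906072)

theorem p11_173 : Stab 11 985082850573 1016280596100 := (Half.stab s535_t2 s146_t1 (by decide +kernel) : Stab 11 985082850573 1016280596100)

theorem p11_174 : Stab 11 1016280261238 1024501111620 := (Half.stab s650_t1 s877_t1 (by decide +kernel) : Stab 11 1016280261238 1024501111620)

theorem p11_175 : Stab 11 1024498700739 1033925784090 := (Half.stab s562_t1 s877_t1 (by decide +kernel) : Stab 11 1024498700739 1033925784090)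

theorem p11_176 : Stab 11 1033925295547 1046883657264 := (Half.stab s562_t1 s232_t3 (by decide +kernel) : Stab 11 1033925295547 1046883657264)

theorem p11_177 : Stab 11 1046882814808 1051709981700 := (Half.stab s562_t1 s291_t3 (by decide +kernel) : Stab 11 1046882814808 1051709981700)

theorem p11_178 : Stab 11 1051708640170 1060469610000 := (Half.stab s773_t2 s291_t3 (by decide +kernel) : Stab 11 1051708640170 1060469610000)

theorem p11_179 : Stab 11 1060468762201 1071159877008 := (Half.stab s530_t1 s434_t2 (by decide +kernel) : Stab 11 1060468762201 1071159877008)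

theorem p11_180 : Stab 11 1071159459166 1085753165454 := (Half.stab s530_t1 s233_t2 (by decide +kernel) : Stab 11 1071159459166 1085753165454)

theorem p11_181 : Stab 11 1085753064804 1095455958030 := (Half.stab s741_t1 s839_t2 (by decide +kernel) : Stab 11 1085753064804 1095455958030)

theorem p11_182 : Stab 11 1095454441661 1106547515694 := (Half.stab s741_t1 s604_t2 (by decide +kernel) : Stab 11 1095454441661 1106547515694)

theorem p11_183 : Stab 11 1106545971747 1118382012270 := (Half.stab s741_t1 s205_t3 (by decide +kernel) : Stab 11 1106545971747 1118382012270)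

theorem p11_184 : Stab 11 1116273384476 1134026989602 := (Half.stab s741_t1 s189_t2 (by decide +kernel) : Stab 11 1116273384476 1134026989602)

theorem p11_185 : Stab 11 1134025309266 1147540354800 := (Half.stab s555_t3 s258_t2 (by decide +kernel) : Stab 11 1134025309266 1147540354800)

theorem p11_186 : Stab 11 1147477657181 1167137294820 := (Half.stab s759_t2 s506_t4 (by decide +kernel) : Stab 11 1147477657181 1167137294820)

theorem p11_187 : Stab 11 1167137174107 1181309776170 := (Half.stab s803_t1 s315_t2 (by decide +kernel) : Stab 11 1167137174107 1181309776170)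

theorem p11_188 : Stab 11 1181309680607 1200110928750 := (Half.stab s352_t4 s142_t3 (by decide +kernel) : Stab 11 1181309680607 1200110928750)

theorem p11_189 : Stab 11 1196039970013 1222574309796 := (Half.stab s842_t1 s142_t3 (by decide +kernel) : Stab 11 1196039970013 1222574309796)

theorem p11_190 : Stab 11 1222574185266 1239536627046 := (Half.stab s516_t3 s131_t2 (by decide +kernel) : Stab 11 1222574185266 1239536627046)

theorem p11_191 : Stab 11 1239535979776 1263062334060 := (Half.stab s59_t2 s380_t1 (by decide +kernel) : Stab 11 1239535979776 1263062334060)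

theorem p11_192 : Stab 11 1261466234185 1282819709850 := (Half.stab s437_t3 s380_t1 (by decide +kernel) : Stab 11 1261466234185 1282819709850)

theorem p11_193 : Stab 11 1282814980160 1290434562540 := (Half.stab s437_t3 s33_t1 (by decide +kernel) : Stab 11 1282814980160 1290434562540)

theorem p11_194 : Stab 11 1290432757485 1319978604780 := (Half.stab s192_t3 s33_t1 (by decide +kernel) : Stab 11 1290432757485 1319978604780)

theorem p11_195 : Stab 11 1319977605508 1338301056090 := (Half.stab s589_t3 s33_t1 (by decide +kernel) : Stab 11 1319977605508 1338301056090)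

theorem p11_196 : Stab 11 1338294924896 1338669300780 := (Half.stab s589_t3 s395_t1 (by decide +kernel) : Stab 11 1338294924896 1338669300780)

theorem p11_197 : Stab 11 1338667957366 1370825295660 := (Half.stab s25_t3 s395_t1 (by decide +kernel) : Stab 11 1338667957366 1370825295660)

theorem p11_198 : Stab 11 1370823600530 1393062775020 := (Half.stab s550_t2 s622_t6 (by decide +kernel) : Stab 11 1370823600530 1393062775020)

theorem p11_199 : Stab 11 1393060794285 1421192737974 := (Half.stab s815_t3 s622_t6 (by decide +kernel) : Stab 11 1393060794285 1421192737974)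

theorem p11_200 : Stab 11 1415979468741 1446821805420 := (Half.stab s815_t3 s195_t6 (by decide +kernel) : Stab 11 1415979468741 1446821805420)

theorem p11_201 : Stab 11 1446821471661 1498666198230 := (Half.stab s869_t2 s195_t6 (by decide +kernel) : Stab 11 1446821471661 1498666198230)

theorem p11_202 : Stab 11 1494834860624 1515893575950 := (Half.stab s869_t2 s538_t2 (by decide +kernel) : Stab 11 1494834860624 1515893575950)

theorem p11_203 : Stab 11 1502688565037 1541504962452 := (Half.stab s139_t2 s538_t2 (by decide +kernel) : Stab 11 1502688565037 1541504962452)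

theorem p11_204 : Stab 11 1541500408560 1579326069672 := (Half.stab s139_t2 s278_t2 (by decide +kernel) : Stab 11 1541500408560 1579326069672)

theorem p11_205 : Stab 11 1577966927937 1611412863060 := (Half.stab s527_t2 s278_t2 (by decide +kernel) : Stab 11 1577966927937 1611412863060)

theorem p11_206 : Stab 11 1604555955918 1630276873602 := (Half.stab s527_t2 s623_t4 (by decide +kernel) : Stab 11 1604555955918 1630276873602)

theorem p11_207 : Stab 11 1630274447908 1648562633694 := (Half.stab s527_t2 s450_t3 (by decide +kernel) : Stab 11 1630274447908 1648562633694)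

theorem p11_208 : Stab 11 1633108402139 1655301789570 := (Half.stab s484_t1 s450_t3 (by decide +kernel) : Stab 11 1633108402139 1655301789570)

theorem p11_209 : Stab 11 1655299638380 1680794082090 := (Half.stab s484_t1 s164_t4 (by decide +kernel) : Stab 11 1655299638380 1680794082090)

theorem p11_210 : Stab 11 1680786148946 1690245647298 := (Half.stab s461_t1 s164_t4 (by decide +kernel) : Stab 11 1680786148946 1690245647298)

theorem p11_211 : Stab 11 1689037751822 1738210900170 := (Half.stab s461_t1 s600_t3 (by decide +kernel) : Stab 11 1689037751822 1738210900170)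

theorem p11_212 : Stab 11 1738210668908 1751368386090 := (Half.stab s436_t8 s645_t2 (by decide +kernel) : Stab 11 1738210668908 1751368386090)

theorem p11_213 : Stab 11 1743994603798 1779098733150 := (Half.stab s436_t8 s878_t3 (by decide +kernel) : Stab 11 1743994603798 1779098733150)

theorem p11_214 : Stab 11 1769065062907 1801428234300 := (Half.stab s436_t8 s861_t1 (by decide +kernel) : Stab 11 1769065062907 1801428234300)

theorem p11_215 : Stab 11 1801421050841 1849110621876 := (Half.stab s590_t3 s168_t2 (by decide +kernel) : Stab 11 1801421050841 1849110621876)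

theorem p11_216 : Stab 11 1849110298525 1854474979662 := (Half.stab s313_t5 s818_t1 (by decide +kernel) : Stab 11 1849110298525 1854474979662)

theorem p11_217 : Stab 11 1854474251858 1925987209020 := (Half.stab s313_t5 s619_t2 (by decide +kernel) : Stab 11 1854474251858 1925987209020)

theorem p11_218 : Stab 11 1925986634412 1968134032782 := (Half.stab s695_t4 s674_t2 (by decide +kernel) : Stab 11 1925986634412 1968134032782)

theorem p11_219 : Stab 11 1968133858830 1989349406100 := (Half.stab s524_t5 s206_t1 (by decide +kernel) : Stab 11 1968133858830 1989349406100)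

theorem p11_220 : Stab 11 1988758374022 2048873664000 := (Half.stab s524_t5 s185_t7 (by decide +kernel) : Stab 11 1988758374022 2048873664000)

theorem p11_221 : Stab 11 2048650768489 2072517723198 := (Half.stab s26_t1 s871_t1 (by decide +kernel) : Stab 11 2048650768489 2072517723198)

theorem p11_222 : Stab 11 2072517256150 2137595174754 := (Half.stab s180_t2 s871_t1 (by decide +kernel) : Stab 11 2072517256150 2137595174754)

theorem p11_223 : Stab 11 2119514834835 2168962447776 := (Half.stab s779_t3 s603_t2 (by decide +kernel) : Stab 11 2119514834835 2168962447776)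

theorem p11_224 : Stab 11 2165284071133 2250530501940 := (Half.stab s105_t9 s225_t1 (by decide +kernel) : Stab 11 2165284071133 2250530501940)

theorem p11_225 : Stab 11 2250522176432 2351734345716 := (Half.stab s345_t8 s661_t2 (by decide +kernel) : Stab 11 2250522176432 2351734345716)

theorem p11_226 : Stab 11 2341006231525 2415818831130 := (Half.stab s812_t4 s430_t1 (by decide +kernel) : Stab 11 2341006231525 2415818831130)

theorem p11_227 : Stab 11 2391035131336 2466721621440 := (Half.stab s812_t4 s383_t5 (by decide +kernel) : Stab 11 2391035131336 2466721621440)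

theorem p11_228 : Stab 11 2461314413004 2490480499062 := (Half.stab s343_t2 s383_t5 (by decide +kernel) : Stab 11 2461314413004 2490480499062)

theorem p11_229 : Stab 11 2478479846510 2572800201024 := (Half.stab s343_t2 s738_t4 (by decide +kernel) : Stab 11 2478479846510 2572800201024)

theorem p11_230 : Stab 11 2554932787914 2614209335478 := (Half.stab s688_t1 s738_t4 (by decide +kernel) : Stab 11 2554932787914 2614209335478)

theorem p11_231 : Stab 11 2601478343397 2644946926020 := (Half.stab s688_t1 s338_t4 (by decide +kernel) : Stab 11 2601478343397 2644946926020)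

theorem p11_232 : Stab 11 2635231265985 2671625092848 := (Half.stab s142_t8 s338_t4 (by decide +kernel) : Stab 11 2635231265985 2671625092848)

theorem p11_233 : Stab 11 2671622332784 2713250221104 := (Half.stab s142_t8 s690_t3 (by decide +kernel) : Stab 11 2671622332784 2713250221104)

theorem p11_234 : Stab 11 2713249822717 2750733369954 := (Half.stab s142_t8 s249_t12 (by decide +kernel) : Stab 11 2713249822717 2750733369954)

theorem p11_235 : Stab 11 2736201911082 2869310381658 := (Half.stab s794_t3 s249_t12 (by decide +kernel) : Stab 11 2736201911082 2869310381658)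

theorem p11_236 : Stab 11 2865670448577 2893327983900 := (Half.stab s715_t4 s598_t1 (by decide +kernel) : Stab 11 2865670448577 2893327983900)

theorem p11_237 : Stab 11 2893323184192 2959112655900 := (Half.stab s715_t4 s121_t2 (by decide +kernel) : Stab 11 2893323184192 2959112655900)

theorem p11_238 : Stab 11 2947401490031 3017960155314 := (Half.stab s715_t4 s436_t13 (by decide +kernel) : Stab 11 2947401490031 3017960155314)

theorem p11_239 : Stab 11 2986663901906 3106720828692 := (Half.stab s820_t3 s436_t13 (by decide +kernel) : Stab 11 2986663901906 3106720828692)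

theorem p11_240 : Stab 11 3070516198572 3137095874430 := (Half.stab s820_t3 s271_t3 (by decide +kernel) : Stab 11 3070516198572 3137095874430)

theorem p11_241 : Stab 11 3137095688296 3181774947234 := (Half.stab s157_t9 s271_t3 (by decide +kernel) : Stab 11 3137095688296 3181774947234)

theorem p11_242 : Stab 11 3181769699683 3269612016936 := (Half.stab s157_t9 s587_t3 (by decide +kernel) : Stab 11 3181769699683 3269612016936)

theorem p11_243 : Stab 11 3268994405706 3322242543888 := (Stab.scale s15_t0 (by decide +kernel) : Stab 11 (81 * 40357955626) (81 * 41015340048))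

theorem p11_244 : Stab 11 3300967596077 3333978829506 := (Half.stab s87_t3 s587_t3 (by decide +kernel) : Stab 11 3300967596077 3333978829506)

theorem p11_245 : Stab 11 3333975872238 3374976902220 := (Half.stab s87_t3 s144_t1 (by decide +kernel) : Stab 11 3333975872238 3374976902220)

theorem p11_246 : Stab 11 3374972357330 3387613034754 := (Half.stab s297_t3 s144_t1 (by decide +kernel) : Stab 11 3374972357330 3387613034754)

theorem p11_247 : Stab 11 3387608012883 3432894126402 := (Half.stab s297_t3 s336_t1 (by decide +kernel) : Stab 11 3387608012883 3432894126402)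

theorem p11_248 : Stab 11 3432892331610 3473335717632 := (Stab.scale s675_t0 (by decide +kernel) : Stab 11 (81 * 42381386810) (81 * 42880687872))

theorem p11_249 : Stab 11 3473332339446 3541739891040 := (Stab.scale s163_t0 (by decide +kernel) : Stab 11 (81 * 42880646166) (81 * 43725183840))

theorem p11_250 : Stab 11 3541738590828 3584669670720 := (Stab.scale s647_t0 (by decide +kernel) : Stab 11 (81 * 43725167788) (81 * 44255181120))

theorem p11_251 : Stab 11 3568356002779 3608710857630 := (Half.stab s56_t1 s29_t4 (by decide +kernel) : Stab 11 3568356002779 3608710857630)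

theorem p11_252 : Stab 11 3607420753170 3659540162250 := (Half.stab s574_t1 s29_t4 (by decide +kernel) : Stab 11 3607420753170 3659540162250)

theorem p11_253 : Stab 11 3659264027628 3695917106142 := (Half.stab s424_t1 s29_t4 (by decide +kernel) : Stab 11 3659264027628 3695917106142)

theorem p11_254 : Stab 11 3692593779156 3730830949794 := (Half.stab s164_t6 s29_t4 (by decide +kernel) : Stab 11 3692593779156 3730830949794)

theorem p11_255 : Stab 11 3730824174277 3770547982434 := (Half.stab s164_t6 s792_t4 (by decide +kernel) : Stab 11 3730824174277 3770547982434)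

theorem p11_256 : Stab 11 3768072141313 3860819723520 := (Half.stab s368_t3 s792_t4 (by decide +kernel) : Stab 11 3768072141313 3860819723520)

theorem p11_257 : Stab 11 3853417183867 3891824170338 := (Half.stab s821_t1 s792_t4 (by decide +kernel) : Stab 11 3853417183867 3891824170338)

theorem p11_258 : Stab 11 3891817505199 4033443066978 := (Half.stab s249_t15 s660_t4 (by decide +kernel) : Stab 11 3891817505199 4033443066978)

theorem p11_259 : Stab 11 4028012019995 4110093249402 := (Half.stab s249_t15 s379_t1 (by decide +kernel) : Stab 11 4028012019995 4110093249402)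

theorem p11_260 : Stab 11 4110092331136 4194766624734 := (Half.stab s760_t2 s362_t1 (by decide +kernel) : Stab 11 4110092331136 4194766624734)

theorem p11_261 : Stab 11 4194753183076 4213758750750 := (Half.stab s463_t3 s362_t1 (by decide +kernel) : Stab 11 4194753183076 4213758750750)

theorem p11_262 : Stab 11 4213756032242 4338597933150 := (Half.stab s463_t3 s482_t3 (by decide +kernel) : Stab 11 4213756032242 4338597933150)

theorem p11_263 : Stab 11 4338596156364 4417223093010 := (Half.stab s314_t2 s578_t2 (by decide +kernel) : Stab 11 4338596156364 4417223093010)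

theorem p11_264 : Stab 11 4407788986704 4463030328336 := (Stab.scale s232_t0 (by decide +kernel) : Stab 11 (81 * 54417147984) (81 * 55099139856))

theorem p11_265 : Stab 11 4463028438606 4520949390000 := (Stab.scale s291_t0 (by decide +kernel) : Stab 11 (81 * 55099116526) (81 * 55814190000))

theorem p11_266 : Stab 11 4520947626468 4566523686192 := (Stab.scale s434_t0 (by decide +kernel) : Stab 11 (81 * 55814168228) (81 * 56376835632))

theorem p11_267 : Stab 11 4559518206468 4604766225264 := (Stab.scale s117_t0 (by decide +kernel) : Stab 11 (81 * 56290348228) (81 * 56848965744))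

theorem p11_268 : Stab 11 4601875053708 4660758891792 := (Stab.scale s301_t0 (by decide +kernel) : Stab 11 (81 * 56813272268) (81 * 57540233232))

theorem p11_269 : Stab 11 4660757037621 4722960733200 := (Stab.scale s64_t0 (by decide +kernel) : Stab 11 (81 * 57540210341) (81 * 58308157200))

theorem p11_270 : Stab 11 4707836764400 4794420182688 := (Half.stab s558_t1 s241_t5 (by decide +kernel) : Stab 11 4707836764400 4794420182688)

theorem p11_271 : Stab 11 4784298646692 4939563744540 := (Half.stab s840_t6 s364_t2 (by decide +kernel) : Stab 11 4784298646692 4939563744540)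

theorem p11_272 : Stab 11 4924937968798 5043275665122 := (Half.stab s840_t6 s101_t1 (by decide +kernel) : Stab 11 4924937968798 5043275665122)

theorem p11_273 : Stab 11 5043275207361 5139456823440 := (Stab.scale s682_t0 (by decide +kernel) : Stab 11 (81 * 62262656881) (81 * 63450084240))

theorem p11_274 : Stab 11 5123126557053 5199030361296 := (Stab.scale s54_t0 (by decide +kernel) : Stab 11 (81 * 63248476013) (81 * 64185560016))

theorem p11_275 : Stab 11 5199028941285 5234559846192 := (Stab.scale s176_t0 (by decide +kernel) : Stab 11 (81 * 64185542485) (81 * 64624195632))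

theorem p11_276 : Stab 11 5226140607721 5308943129946 := (Half.stab s557_t12 s124_t5 (by decide +kernel) : Stab 11 5226140607721 5308943129946)

theorem p11_277 : Stab 11 5294635989516 5513622025572 := (Half.stab s557_t12 s653_t2 (by decide +kernel) : Stab 11 5294635989516 5513622025572)

theorem p11_278 : Stab 11 5473107934514 5543075823372 := (Half.stab s557_t12 s74_t6 (by decide +kernel) : Stab 11 5473107934514 5543075823372)

theorem p11_279 : Stab 11 5543075033287 5734689284664 := (Half.stab s142_t10 s74_t6 (by decide +kernel) : Stab 11 5543075033287 5734689284664)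

theorem p11_280 : Stab 11 5734687496739 5872990546098 := (Half.stab s523_t2 s698_t4 (by decide +kernel) : Stab 11 5734687496739 5872990546098)

theorem p11_281 : Stab 11 5872981049142 5920901376984 := (Half.stab s591_t2 s698_t4 (by decide +kernel) : Stab 11 5872981049142 5920901376984)

theorem p11_282 : Stab 11 5920900159243 6074980993458 := (Half.stab s591_t2 s198_t3 (by decide +kernel) : Stab 11 5920900159243 6074980993458)

theorem p11_283 : Stab 11 6039898139030 6103845739410 := (Half.stab s633_t2 s198_t3 (by decide +kernel) : Stab 11 6039898139030 6103845739410)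

theorem p11_284 : Stab 11 6103842024528 6250267099980 := (Half.stab s633_t2 s794_t9 (by decide +kernel) : Stab 11 6103842024528 6250267099980)

theorem p11_285 : Stab 11 6233143741654 6423975633234 := (Half.stab s249_t18 s794_t9 (by decide +kernel) : Stab 11 6233143741654 6423975633234)

theorem p11_286 : Stab 11 6423974507457 6591658984890 := (Half.stab s249_t18 s768_t3 (by decide +kernel) : Stab 11 6423974507457 6591658984890)

theorem p11_287 : Stab 11 6591657455829 6641264591280 := (Stab.scale s416_t0 (by decide +kernel) : Stab 11 (81 * 81378487109) (81 * 81990920880))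

theorem p11_288 : Stab 11 6641262807579 6726133550448 := (Stab.scale s161_t0 (by decide +kernel) : Stab 11 (81 * 81990898859) (81 * 83038685808))

theorem p11_289 : Stab 11 6726132231768 6794479108368 := (Stab.scale s275_t0 (by decide +kernel) : Stab 11 (81 * 83038669528) (81 * 83882458128))

theorem p11_290 : Stab 11 6794477622909 6869238163344 := (Stab.scale s155_t0 (by decide +kernel) : Stab 11 (81 * 83882439789) (81 * 84805409424))

theorem p11_291 : Stab 11 6849620483400 7011832765956 := (Half.stab s271_t5 s169_t4 (by decide +kernel) : Stab 11 6849620483400 7011832765956)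

theorem p11_292 : Stab 11 7011831689967 7097805651522 := (Half.stab s271_t5 s196_t5 (by decide +kernel) : Stab 11 7011831689967 7097805651522)

theorem p11_293 : Stab 11 7068006643518 7150553668512 := (Stab.scale s868_t0 (by decide +kernel) : Stab 11 (81 * 87259341278) (81 * 88278440352))

theorem p11_294 : Stab 11 7150546963170 7226955815616 := (Stab.scale s369_t0 (by decide +kernel) : Stab 11 (81 * 88278357570) (81 * 89221676736))

theorem p11_295 : Stab 11 7189610852448 7265060074080 := (Stab.scale s505_t0 (by decide +kernel) : Stab 11 (81 * 88760627808) (81 * 89692099680))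

theorem p11_296 : Stab 11 7265055094686 7333685466912 := (Stab.scale s693_t0 (by decide +kernel) : Stab 11 (81 * 89692038206) (81 * 90539326752))

theorem p11_297 : Stab 11 7333683171129 7425436652640 := (Stab.scale s1_t0 (by decide +kernel) : Stab 11 (81 * 90539298409) (81 * 91672057440))

theorem p11_298 : Stab 11 7425434440692 7475691820896 := (Stab.scale s407_t0 (by decide +kernel) : Stab 11 (81 * 91672030132) (81 * 92292491616))

theorem p11_299 : Stab 11 7432613440317 7507316260800 := (Stab.scale s610_t0 (by decide +kernel) : Stab 11 (81 * 91760659757) (81 * 92682916800))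

theorem p11_300 : Stab 11 7507314014427 7646945464368 := (Stab.scale s814_t0 (by decide +kernel) : Stab 11 (81 * 92682889067) (81 * 94406734128))

theorem p11_301 : Stab 11 7646943945375 7757486281008 := (Stab.scale s713_t0 (by decide +kernel) : Stab 11 (81 * 94406715375) (81 * 95771435568))

theorem p11_302 : Stab 11 7757484793605 7866873065376 := (Stab.scale s465_t0 (by decide +kernel) : Stab 11 (81 * 95771417205) (81 * 97121889696))

theorem p11_303 : Stab 11 7866870715890 7967843115120 := (Stab.scale s3_t0 (by decide +kernel) : Stab 11 (81 * 97121860690) (81 * 98368433520))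

theorem p11_304 : Stab 11 7967841786072 8021828570544 := (Stab.scale s414_t0 (by decide +kernel) : Stab 11 (81 * 98368417112) (81 * 99034920624))

theorem p11_305 : Stab 11 8020947064149 8138719016064 := (Stab.scale s361_t0 (by decide +kernel) : Stab 11 (81 * 99024037829) (81 * 100478012544))

theorem p11_306 : Stab 11 8138717157924 8246623302144 := (Stab.scale s443_t0 (by decide +kernel) : Stab 11 (81 * 100477989604) (81 * 101810164224))

theorem p11_307 : Stab 11 8246617251687 8390472295968 := (Stab.scale s521_t0 (by decide +kernel) : Stab 11 (81 * 101810089527) (81 * 103586077728))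

theorem p11_308 : Stab 11 8390468057805 8734671936000 := (Stab.scale s524_t0 (by decide +kernel) : Stab 11 (81 * 103586025405) (81 * 107835456000))

theorem p11_309 : Stab 11 8656288276581 8787264884784 := (Stab.scale s570_t0 (by decide +kernel) : Stab 11 (81 * 106867756501) (81 * 108484751664))

theorem p11_310 : Stab 11 8787261646080 8941826453904 := (Stab.scale s250_t0 (by decide +kernel) : Stab 11 (81 * 108484711680) (81 * 110392919184))

theorem p11_311 : Stab 11 8916783090984 9052045359696 := (Stab.scale s347_t0 (by decide +kernel) : Stab 11 (81 * 110083741864) (81 * 111753646416))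

theorem p11_312 : Stab 11 9006541494300 9246629382624 := (Stab.scale s779_t0 (by decide +kernel) : Stab 11 (81 * 111191870300) (81 * 114155918304))

theorem p11_313 : Stab 11 9246627739134 9475257546144 := (Stab.scale s716_t0 (by decide +kernel) : Stab 11 (81 * 114155898014) (81 * 116978488224))

theorem p11_314 : Stab 11 9460013985153 9581470999344 := (Stab.scale s188_t0 (by decide +kernel) : Stab 11 (81 * 116790296113) (81 * 118289765424))

theorem p11_315 : Stab 11 9581468038956 9664368252624 := (Stab.scale s17_t0 (by decide +kernel) : Stab 11 (81 * 118289728876) (81 * 119313188304))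

theorem p11_316 : Stab 11 9664365291588 9760646819952 := (Stab.scale s234_t0 (by decide +kernel) : Stab 11 (81 * 119313151748) (81 * 120501812592))

theorem p11_317 : Stab 11 9760644288864 9834052648752 := (Stab.scale s684_t0 (by decide +kernel) : Stab 11 (81 * 120501781344) (81 * 121408057392))

theorem p11_318 : Stab 11 9834047483787 9939742096752 := (Stab.scale s385_t0 (by decide +kernel) : Stab 11 (81 * 121407993627) (81 * 122712865392))

theorem p11_319 : Stab 11 9939739578705 10027946936592 := (Stab.scale s771_t0 (by decide +kernel) : Stab 11 (81 * 122712834305) (81 * 123801814032))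

theorem p11_320 : Stab 11 9980088554610 10516023754560 := (Stab.scale s812_t0 (by decide +kernel) : Stab 11 (81 * 123210969810) (81 * 129827453760))

theorem p11_321 : Stab 11 10492980524235 10968253488576 := (Stab.scale s343_t0 (by decide +kernel) : Stab 11 (81 * 129542969435) (81 * 135410536896))

theorem p11_322 : Stab 11 10968250743648 11105367552720 := (Stab.scale s519_t0 (by decide +kernel) : Stab 11 (81 * 135410503008) (81 * 137103303120))

theorem p11_323 : Stab 11 11090518201314 11389559606352 := (Stab.scale s338_t0 (by decide +kernel) : Stab 11 (81 * 136919977794) (81 * 140611846992))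

theorem p11_324 : Stab 11 11389558097241 11567014100496 := (Stab.scale s690_t0 (by decide +kernel) : Stab 11 (81 * 140611828361) (81 * 142802643216))

theorem p11_325 : Stab 11 11563917016329 11910605431824 := (Stab.scale s107_t0 (by decide +kernel) : Stab 11 (81 * 142764407609) (81 * 147044511504))

theorem p11_326 : Stab 11 11910603475431 12208363347312 := (Stab.scale s464_t0 (by decide +kernel) : Stab 11 (81 * 147044487351) (81 * 150720535152))

theorem p11_327 : Stab 11 12208362027903 12511342520208 := (Stab.scale s0_t0 (by decide +kernel) : Stab 11 (81 * 150720518863) (81 * 154461018768))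

theorem p11_328 : Stab 11 12511341049005 12830247446544 := (Stab.scale s706_t0 (by decide +kernel) : Stab 11 (81 * 154461000605) (81 * 158398116624))

theorem p11_329 : Stab 11 12830244583032 13474579652496 := (Stab.scale s438_t0 (by decide +kernel) : Stab 11 (81 * 158398081272) (81 * 166352835216))

theorem p11_330 : Stab 11 13474576400184 14186592723888 := (Stab.scale s671_t0 (by decide +kernel) : Stab 11 (81 * 166352795064) (81 * 175143120048))

theorem p11_331 : Stab 11 14186588706693 14547195171072 := (Stab.scale s170_t0 (by decide +kernel) : Stab 11 (81 * 175143070453) (81 * 179595002112))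

theorem p11_332 : Stab 11 14547193581609 14982009705504 := (Stab.scale s179_t0 (by decide +kernel) : Stab 11 (81 * 179594982489) (81 * 184963082784))

def Ls11 : List (ℕ × ℕ) := [(177262956162, 180368429718), (180368410420, 183708376518), (183708352169, 186805893606), (186805856503, 188461517430), (188461478284, 191399428278), (191399405521, 194721456630), (194721435754, 198174213846), (198174196267, 203766044982), (203468726040, 207256429686), (207256384997, 213238677558), (213238645393, 218707045974), (218707026410, 221766024678), (221766006067, 228430870518), (228077544927, 232445756694), (232445739302, 237432592902), (237432573348, 240956353350), (240956283428, 244692844518), (244692791356, 250270590822), (250270571868, 258849830070), (258273794861, 266404097622), (266404076179, 272026506534), (272026484081, 276349050150), (276349020642, 280466586342), (280466563919, 284808456582), (284808417048, 295556283846), (294711628209, 307253871366), (307253851602, 313290634230), (313290595400, 318517950102), (318517904511, 323507519142), (323507475891, 329109431910), (329109389308, 333386249094), (333386203523, 336377121702),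 (336377084263, 341677838034), (341677193756, 347250910578), (343920414491, 350569930410), (348802458435, 355215783972), (355215404019, 360557683122), (360557646052, 363499436166), (363499399015, 370182967290), (370182886877, 381787007364), (380296021590, 386621018790), (386620628988, 400704495366), (400603815177, 402392385180), (402124299396, 407562962940), (407562929973, 420457705350), (420457679320, 423823370250), (423822362253, 426946222296), (424808020751, 432039934350), (432039779789, 438727543740), (435792530006, 443110516212), (443109591946, 447460555530), (447459227634, 449259167700), (448618211178, 454359587370), (454358756347, 460477854228), (460476647702, 463494441450), (463493590473, 467925802260), (467924599728, 472594192170), (472593311442, 476818144404), (476817052022, 479951161290), (479951101763, 488691655734), (488691595924, 499159123446), (499159067683, 501981285150), (501688151037, 519425342550), (519425308102, 527552900598), (527552865654, 540095770998), (540095518607, 547380359058), (547380178158, 550937806974), (550937334358, 557616558996), (553446612996, 561406745874), (560846121776, 564300260766),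 (564300145705, 568139964030), (568139192281, 573613704702), (573613603414, 580745794014), (577084420637, 583964768772), (582243968528, 587710880250), (587710799606, 593902089732), (593901169949, 596663832090), (596662063780, 600571844292), (599131718661, 605917226490), (605915387501, 613238165316), (611382641843, 616820877690), (616819766614, 621702597906), (621702508726, 624761665050), (624761598146, 629102130150), (629102076649, 636877349850), (634839539759, 640475543934), (640474588818, 648516599856), (648516009189, 651547753446), (651547407574, 659843326062), (655700530363, 662681670300), (662681243146, 672822228036), (672822098297, 678655664484), (678655268684, 686797677222), (686797372186, 688510398810), (688507602537, 692823913758), (692823019719, 700422765210), (700422649572, 709257660318), (709256827884, 716721116958), (716721019798, 730405435302), (730405330706, 730413731130), (730413642038, 736883675370), (734987742971, 744167383092), (743342357611, 757013257566), (757012899869, 766800283920), (766799881828, 768759463710), (768759295498, 772236849438), (771074312739, 776309883570), (776309817289, 781483022742),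 (781482953379, 787513117662), (787513074511, 788171684310), (788171631649, 799088096682), (799088004210, 805539967242), (805246010554, 812528177850), (812525800041, 814733069568), (814732010083, 830778492960), (830777906052, 834220500090), (834217312420, 840848441280), (837482856259, 847859282490), (847856374537, 857784267210), (857784056432, 868909585290), (868909342774, 876963028788), (876962896630, 897860520564), (897857752099, 906886764420), (906886632838, 921304258290), (921303427269, 931458138324), (928178353674, 949090087092), (949089962230, 965860522452), (965858905635, 978652387860), (977038956598, 986007906072), (985082850573, 1016280596100), (1016280261238, 1024501111620), (1024498700739, 1033925784090), (1033925295547, 1046883657264), (1046882814808, 1051709981700), (1051708640170, 1060469610000), (1060468762201, 1071159877008), (1071159459166, 1085753165454), (1085753064804, 1095455958030), (1095454441661, 1106547515694), (1106545971747, 1118382012270), (1116273384476, 1134026989602), (1134025309266, 1147540354800), (1147477657181, 1167137294820), (1167137174107, 1181309776170), (1181309680607, 1200110928750),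 (1196039970013, 1222574309796), (1222574185266, 1239536627046), (1239535979776, 1263062334060), (1261466234185, 1282819709850), (1282814980160, 1290434562540), (1290432757485, 1319978604780), (1319977605508, 1338301056090), (1338294924896, 1338669300780), (1338667957366, 1370825295660), (1370823600530, 1393062775020), (1393060794285, 1421192737974), (1415979468741, 1446821805420), (1446821471661, 1498666198230), (1494834860624, 1515893575950), (1502688565037, 1541504962452), (1541500408560, 1579326069672), (1577966927937, 1611412863060), (1604555955918, 1630276873602), (1630274447908, 1648562633694), (1633108402139, 1655301789570), (1655299638380, 1680794082090), (1680786148946, 1690245647298), (1689037751822, 1738210900170), (1738210668908, 1751368386090), (1743994603798, 1779098733150), (1769065062907, 1801428234300), (1801421050841, 1849110621876), (1849110298525, 1854474979662), (1854474251858, 1925987209020), (1925986634412, 1968134032782), (1968133858830, 1989349406100), (1988758374022, 2048873664000), (2048650768489, 2072517723198), (2072517256150, 2137595174754), (2119514834835, 2168962447776), (2165284071133,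 2250530501940), (2250522176432, 2351734345716), (2341006231525, 2415818831130), (2391035131336, 2466721621440), (2461314413004, 2490480499062), (2478479846510, 2572800201024), (2554932787914, 2614209335478), (2601478343397, 2644946926020), (2635231265985, 2671625092848), (2671622332784, 2713250221104), (2713249822717, 2750733369954), (2736201911082, 2869310381658), (2865670448577, 2893327983900), (2893323184192, 2959112655900), (2947401490031, 3017960155314), (2986663901906, 3106720828692), (3070516198572, 3137095874430), (3137095688296, 3181774947234), (3181769699683, 3269612016936), (3268994405706, 3322242543888), (3300967596077, 3333978829506), (3333975872238, 3374976902220), (3374972357330, 3387613034754), (3387608012883, 3432894126402), (3432892331610, 3473335717632), (3473332339446, 3541739891040), (3541738590828, 3584669670720), (3568356002779, 3608710857630), (3607420753170, 3659540162250), (3659264027628, 3695917106142), (3692593779156, 3730830949794), (3730824174277, 3770547982434), (3768072141313, 3860819723520), (3853417183867, 3891824170338), (3891817505199, 4033443066978), (4028012019995, 4110093249402),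 (4110092331136, 4194766624734), (4194753183076, 4213758750750), (4213756032242, 4338597933150), (4338596156364, 4417223093010), (4407788986704, 4463030328336), (4463028438606, 4520949390000), (4520947626468, 4566523686192), (4559518206468, 4604766225264), (4601875053708, 4660758891792), (4660757037621, 4722960733200), (4707836764400, 4794420182688), (4784298646692, 4939563744540), (4924937968798, 5043275665122), (5043275207361, 5139456823440), (5123126557053, 5199030361296), (5199028941285, 5234559846192), (5226140607721, 5308943129946), (5294635989516, 5513622025572), (5473107934514, 5543075823372), (5543075033287, 5734689284664), (5734687496739, 5872990546098), (5872981049142, 5920901376984), (5920900159243, 6074980993458), (6039898139030, 6103845739410), (6103842024528, 6250267099980), (6233143741654, 6423975633234), (6423974507457, 6591658984890), (6591657455829, 6641264591280), (6641262807579, 6726133550448), (6726132231768, 6794479108368), (6794477622909, 6869238163344), (6849620483400, 7011832765956), (7011831689967, 7097805651522), (7068006643518, 7150553668512), (7150546963170, 7226955815616), (7189610852448,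 7265060074080), (7265055094686, 7333685466912), (7333683171129, 7425436652640), (7425434440692, 7475691820896), (7432613440317, 7507316260800), (7507314014427, 7646945464368), (7646943945375, 7757486281008), (7757484793605, 7866873065376), (7866870715890, 7967843115120), (7967841786072, 8021828570544), (8020947064149, 8138719016064), (8138717157924, 8246623302144), (8246617251687, 8390472295968), (8390468057805, 8734671936000), (8656288276581, 8787264884784), (8787261646080, 8941826453904), (8916783090984, 9052045359696), (9006541494300, 9246629382624), (9246627739134, 9475257546144), (9460013985153, 9581470999344), (9581468038956, 9664368252624), (9664365291588, 9760646819952), (9760644288864, 9834052648752), (9834047483787, 9939742096752), (9939739578705, 10027946936592), (9980088554610, 10516023754560), (10492980524235, 10968253488576), (10968250743648, 11105367552720), (11090518201314, 11389559606352), (11389558097241, 11567014100496), (11563917016329, 11910605431824), (11910603475431, 12208363347312), (12208362027903, 12511342520208), (12511341049005, 12830247446544), (12830244583032, 13474579652496), (13474576400184,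 14186592723888), (14186588706693, 14547195171072), (14547193581609, 14982009705504)]

theorem Ls11_spec : ∀ w ∈ Ls11, Stab 11 w.1 w.2 :=
  (sfcons (a := ((177262956162 : ℕ), (180368429718 : ℕ))) p11_44 (sfcons (a := ((180368410420 : ℕ), (183708376518 : ℕ))) p11_45 (sfcons (a := ((183708352169 : ℕ), (186805893606 : ℕ))) p11_46 (sfcons (a := ((186805856503 : ℕ), (188461517430 : ℕ))) p11_47 (sfcons (a := ((188461478284 : ℕ), (191399428278 : ℕ))) p11_48 (sfcons (a := ((191399405521 : ℕ), (194721456630 : ℕ))) p11_49 (sfcons (a := ((194721435754 : ℕ), (198174213846 : ℕ))) p11_50 (sfcons (a := ((198174196267 : ℕ), (203766044982 : ℕ))) p11_51 (sfcons (a := ((203468726040 : ℕ), (207256429686 : ℕ))) p11_52 (sfcons (a := ((207256384997 : ℕ), (213238677558 : ℕ))) p11_53 (sfcons (a := ((213238645393 : ℕ), (218707045974 : ℕ))) p11_54 (sfcons (a := ((218707026410 : ℕ), (221766024678 : ℕ))) p11_55 (sfcons (a := ((221766006067 : ℕ), (228430870518 : ℕ))) p11_56 (sfcons (a := ((228077544927 : ℕ), (232445756694 : ℕ))) p11_57 (sfcons (a := ((232445739302 : ℕ), (237432592902 : ℕ))) p11_58 (sfcons (a := ((237432573348 : ℕ), (240956353350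 : ℕ))) p11_59 (sfcons (a := ((240956283428 : ℕ), (244692844518 : ℕ))) p11_60 (sfcons (a := ((244692791356 : ℕ), (250270590822 : ℕ))) p11_61 (sfcons (a := ((250270571868 : ℕ), (258849830070 : ℕ))) p11_62 (sfcons (a := ((258273794861 : ℕ), (266404097622 : ℕ))) p11_63 (sfcons (a := ((266404076179 : ℕ), (272026506534 : ℕ))) p11_64 (sfcons (a := ((272026484081 : ℕ), (276349050150 : ℕ))) p11_65 (sfcons (a := ((276349020642 : ℕ), (280466586342 : ℕ))) p11_66 (sfcons (a := ((280466563919 : ℕ), (284808456582 : ℕ))) p11_67 (sfcons (a := ((284808417048 : ℕ), (295556283846 : ℕ))) p11_68 (sfcons (a := ((294711628209 : ℕ), (307253871366 : ℕ))) p11_69 (sfcons (a := ((307253851602 : ℕ), (313290634230 : ℕ))) p11_70 (sfcons (a := ((313290595400 : ℕ), (318517950102 : ℕ))) p11_71 (sfcons (a := ((318517904511 : ℕ), (323507519142 : ℕ))) p11_72 (sfcons (a := ((323507475891 : ℕ), (329109431910 : ℕ))) p11_73 (sfcons (a := ((329109389308 : ℕ), (333386249094 : ℕ))) p11_74 (sfcons (a := ((333386203523 : ℕ), (336377121702 : ℕ))) p11_75 (sfcons (a := ((336377084263 : ℕ), (341677838034 : ℕ))) p11_76 (sfcons (a := ((341677193756 : ℕ), (347250910578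 : ℕ))) p11_77 (sfcons (a := ((343920414491 : ℕ), (350569930410 : ℕ))) p11_78 (sfcons (a := ((348802458435 : ℕ), (355215783972 : ℕ))) p11_79 (sfcons (a := ((355215404019 : ℕ), (360557683122 : ℕ))) p11_80 (sfcons (a := ((360557646052 : ℕ), (363499436166 : ℕ))) p11_81 (sfcons (a := ((363499399015 : ℕ), (370182967290 : ℕ))) p11_82 (sfcons (a := ((370182886877 : ℕ), (381787007364 : ℕ))) p11_83 (sfcons (a := ((380296021590 : ℕ), (386621018790 : ℕ))) p11_84 (sfcons (a := ((386620628988 : ℕ), (400704495366 : ℕ))) p11_85 (sfcons (a := ((400603815177 : ℕ), (402392385180 : ℕ))) p11_86 (sfcons (a := ((402124299396 : ℕ), (407562962940 : ℕ))) p11_87 (sfcons (a := ((407562929973 : ℕ), (420457705350 : ℕ))) p11_88 (sfcons (a := ((420457679320 : ℕ), (423823370250 : ℕ))) p11_89 (sfcons (a := ((423822362253 : ℕ), (426946222296 : ℕ))) p11_90 (sfcons (a := ((424808020751 : ℕ), (432039934350 : ℕ))) p11_91 (sfcons (a := ((432039779789 : ℕ), (438727543740 : ℕ))) p11_92 (sfcons (a := ((435792530006 : ℕ), (443110516212 : ℕ))) p11_93 (sfcons (a := ((443109591946 : ℕ), (447460555530 : ℕ))) p11_94 (sfcons (a := ((447459227634 : ℕ), (449259167700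 : ℕ))) p11_95 (sfcons (a := ((448618211178 : ℕ), (454359587370 : ℕ))) p11_96 (sfcons (a := ((454358756347 : ℕ), (460477854228 : ℕ))) p11_97 (sfcons (a := ((460476647702 : ℕ), (463494441450 : ℕ))) p11_98 (sfcons (a := ((463493590473 : ℕ), (467925802260 : ℕ))) p11_99 (sfcons (a := ((467924599728 : ℕ), (472594192170 : ℕ))) p11_100 (sfcons (a := ((472593311442 : ℕ), (476818144404 : ℕ))) p11_101 (sfcons (a := ((476817052022 : ℕ), (479951161290 : ℕ))) p11_102 (sfcons (a := ((479951101763 : ℕ), (488691655734 : ℕ))) p11_103 (sfcons (a := ((488691595924 : ℕ), (499159123446 : ℕ))) p11_104 (sfcons (a := ((499159067683 : ℕ), (501981285150 : ℕ))) p11_105 (sfcons (a := ((501688151037 : ℕ), (519425342550 : ℕ))) p11_106 (sfcons (a := ((519425308102 : ℕ), (527552900598 : ℕ))) p11_107 (sfcons (a := ((527552865654 : ℕ), (540095770998 : ℕ))) p11_108 (sfcons (a := ((540095518607 : ℕ), (547380359058 : ℕ))) p11_109 (sfcons (a := ((547380178158 : ℕ), (550937806974 : ℕ))) p11_110 (sfcons (a := ((550937334358 : ℕ), (557616558996 : ℕ))) p11_111 (sfcons (a := ((553446612996 : ℕ), (561406745874 : ℕ))) p11_112 (sfcons (a := ((560846121776 :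 ℕ), (564300260766 : ℕ))) p11_113 (sfcons (a := ((564300145705 : ℕ), (568139964030 : ℕ))) p11_114 (sfcons (a := ((568139192281 : ℕ), (573613704702 : ℕ))) p11_115 (sfcons (a := ((573613603414 : ℕ), (580745794014 : ℕ))) p11_116 (sfcons (a := ((577084420637 : ℕ), (583964768772 : ℕ))) p11_117 (sfcons (a := ((582243968528 : ℕ), (587710880250 : ℕ))) p11_118 (sfcons (a := ((587710799606 : ℕ), (593902089732 : ℕ))) p11_119 (sfcons (a := ((593901169949 : ℕ), (596663832090 : ℕ))) p11_120 (sfcons (a := ((596662063780 : ℕ), (600571844292 : ℕ))) p11_121 (sfcons (a := ((599131718661 : ℕ), (605917226490 : ℕ))) p11_122 (sfcons (a := ((605915387501 : ℕ), (613238165316 : ℕ))) p11_123 (sfcons (a := ((611382641843 : ℕ), (616820877690 : ℕ))) p11_124 (sfcons (a := ((616819766614 : ℕ), (621702597906 : ℕ))) p11_125 (sfcons (a := ((621702508726 : ℕ), (624761665050 : ℕ))) p11_126 (sfcons (a := ((624761598146 : ℕ), (629102130150 : ℕ))) p11_127 (sfcons (a := ((629102076649 : ℕ), (636877349850 : ℕ))) p11_128 (sfcons (a := ((634839539759 : ℕ), (640475543934 : ℕ))) p11_129 (sfcons (a := ((640474588818 : ℕ), (648516599856 : ℕ))) p11_130 (sfcons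 (a := ((648516009189 : ℕ), (651547753446 : ℕ))) p11_131 (sfcons (a := ((651547407574 : ℕ), (659843326062 : ℕ))) p11_132 (sfcons (a := ((655700530363 : ℕ), (662681670300 : ℕ))) p11_133 (sfcons (a := ((662681243146 : ℕ), (672822228036 : ℕ))) p11_134 (sfcons (a := ((672822098297 : ℕ), (678655664484 : ℕ))) p11_135 (sfcons (a := ((678655268684 : ℕ), (686797677222 : ℕ))) p11_136 (sfcons (a := ((686797372186 : ℕ), (688510398810 : ℕ))) p11_137 (sfcons (a := ((688507602537 : ℕ), (692823913758 : ℕ))) p11_138 (sfcons (a := ((692823019719 : ℕ), (700422765210 : ℕ))) p11_139 (sfcons (a := ((700422649572 : ℕ), (709257660318 : ℕ))) p11_140 (sfcons (a := ((709256827884 : ℕ), (716721116958 : ℕ))) p11_141 (sfcons (a := ((716721019798 : ℕ), (730405435302 : ℕ))) p11_142 (sfcons (a := ((730405330706 : ℕ), (730413731130 : ℕ))) p11_143 (sfcons (a := ((730413642038 : ℕ), (736883675370 : ℕ))) p11_144 (sfcons (a := ((734987742971 : ℕ), (744167383092 : ℕ))) p11_145 (sfcons (a := ((743342357611 : ℕ), (757013257566 : ℕ))) p11_146 (sfcons (a := ((757012899869 : ℕ), (766800283920 : ℕ))) p11_147 (sfcons (a := ((766799881828 : ℕ), (768759463710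 : ℕ))) p11_148 (sfcons (a := ((768759295498 : ℕ), (772236849438 : ℕ))) p11_149 (sfcons (a := ((771074312739 : ℕ), (776309883570 : ℕ))) p11_150 (sfcons (a := ((776309817289 : ℕ), (781483022742 : ℕ))) p11_151 (sfcons (a := ((781482953379 : ℕ), (787513117662 : ℕ))) p11_152 (sfcons (a := ((787513074511 : ℕ), (788171684310 : ℕ))) p11_153 (sfcons (a := ((788171631649 : ℕ), (799088096682 : ℕ))) p11_154 (sfcons (a := ((799088004210 : ℕ), (805539967242 : ℕ))) p11_155 (sfcons (a := ((805246010554 : ℕ), (812528177850 : ℕ))) p11_156 (sfcons (a := ((812525800041 : ℕ), (814733069568 : ℕ))) p11_157 (sfcons (a := ((814732010083 : ℕ), (830778492960 : ℕ))) p11_158 (sfcons (a := ((830777906052 : ℕ), (834220500090 : ℕ))) p11_159 (sfcons (a := ((834217312420 : ℕ), (840848441280 : ℕ))) p11_160 (sfcons (a := ((837482856259 : ℕ), (847859282490 : ℕ))) p11_161 (sfcons (a := ((847856374537 : ℕ), (857784267210 : ℕ))) p11_162 (sfcons (a := ((857784056432 : ℕ), (868909585290 : ℕ))) p11_163 (sfcons (a := ((868909342774 : ℕ), (876963028788 : ℕ))) p11_164 (sfcons (a := ((876962896630 : ℕ), (897860520564 : ℕ))) p11_165 (sfcons (a := ((897857752099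 : ℕ), (906886764420 : ℕ))) p11_166 (sfcons (a := ((906886632838 : ℕ), (921304258290 : ℕ))) p11_167 (sfcons (a := ((921303427269 : ℕ), (931458138324 : ℕ))) p11_168 (sfcons (a := ((928178353674 : ℕ), (949090087092 : ℕ))) p11_169 (sfcons (a := ((949089962230 : ℕ), (965860522452 : ℕ))) p11_170 (sfcons (a := ((965858905635 : ℕ), (978652387860 : ℕ))) p11_171 (sfcons (a := ((977038956598 : ℕ), (986007906072 : ℕ))) p11_172 (sfcons (a := ((985082850573 : ℕ), (1016280596100 : ℕ))) p11_173 (sfcons (a := ((1016280261238 : ℕ), (1024501111620 : ℕ))) p11_174 (sfcons (a := ((1024498700739 : ℕ), (1033925784090 : ℕ))) p11_175 (sfcons (a := ((1033925295547 : ℕ), (1046883657264 : ℕ))) p11_176 (sfcons (a := ((1046882814808 : ℕ), (1051709981700 : ℕ))) p11_177 (sfcons (a := ((1051708640170 : ℕ), (1060469610000 : ℕ))) p11_178 (sfcons (a := ((1060468762201 : ℕ), (1071159877008 : ℕ))) p11_179 (sfcons (a := ((1071159459166 : ℕ), (1085753165454 : ℕ))) p11_180 (sfcons (a := ((1085753064804 : ℕ), (1095455958030 : ℕ))) p11_181 (sfcons (a := ((1095454441661 : ℕ), (1106547515694 : ℕ))) p11_182 (sfcons (a := ((1106545971747 : ℕ), (1118382012270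 : ℕ))) p11_183 (sfcons (a := ((1116273384476 : ℕ), (1134026989602 : ℕ))) p11_184 (sfcons (a := ((1134025309266 : ℕ), (1147540354800 : ℕ))) p11_185 (sfcons (a := ((1147477657181 : ℕ), (1167137294820 : ℕ))) p11_186 (sfcons (a := ((1167137174107 : ℕ), (1181309776170 : ℕ))) p11_187 (sfcons (a := ((1181309680607 : ℕ), (1200110928750 : ℕ))) p11_188 (sfcons (a := ((1196039970013 : ℕ), (1222574309796 : ℕ))) p11_189 (sfcons (a := ((1222574185266 : ℕ), (1239536627046 : ℕ))) p11_190 (sfcons (a := ((1239535979776 : ℕ), (1263062334060 : ℕ))) p11_191 (sfcons (a := ((1261466234185 : ℕ), (1282819709850 : ℕ))) p11_192 (sfcons (a := ((1282814980160 : ℕ), (1290434562540 : ℕ))) p11_193 (sfcons (a := ((1290432757485 : ℕ), (1319978604780 : ℕ))) p11_194 (sfcons (a := ((1319977605508 : ℕ), (1338301056090 : ℕ))) p11_195 (sfcons (a := ((1338294924896 : ℕ), (1338669300780 : ℕ))) p11_196 (sfcons (a := ((1338667957366 : ℕ), (1370825295660 : ℕ))) p11_197 (sfcons (a := ((1370823600530 : ℕ), (1393062775020 : ℕ))) p11_198 (sfcons (a := ((1393060794285 : ℕ), (1421192737974 : ℕ))) p11_199 (sfcons (a := ((1415979468741 : ℕ), (1446821805420 : ℕ)))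 p11_200 (sfcons (a := ((1446821471661 : ℕ), (1498666198230 : ℕ))) p11_201 (sfcons (a := ((1494834860624 : ℕ), (1515893575950 : ℕ))) p11_202 (sfcons (a := ((1502688565037 : ℕ), (1541504962452 : ℕ))) p11_203 (sfcons (a := ((1541500408560 : ℕ), (1579326069672 : ℕ))) p11_204 (sfcons (a := ((1577966927937 : ℕ), (1611412863060 : ℕ))) p11_205 (sfcons (a := ((1604555955918 : ℕ), (1630276873602 : ℕ))) p11_206 (sfcons (a := ((1630274447908 : ℕ), (1648562633694 : ℕ))) p11_207 (sfcons (a := ((1633108402139 : ℕ), (1655301789570 : ℕ))) p11_208 (sfcons (a := ((1655299638380 : ℕ), (1680794082090 : ℕ))) p11_209 (sfcons (a := ((1680786148946 : ℕ), (1690245647298 : ℕ))) p11_210 (sfcons (a := ((1689037751822 : ℕ), (1738210900170 : ℕ))) p11_211 (sfcons (a := ((1738210668908 : ℕ), (1751368386090 : ℕ))) p11_212 (sfcons (a := ((1743994603798 : ℕ), (1779098733150 : ℕ))) p11_213 (sfcons (a := ((1769065062907 : ℕ), (1801428234300 : ℕ))) p11_214 (sfcons (a := ((1801421050841 : ℕ), (1849110621876 : ℕ))) p11_215 (sfcons (a := ((1849110298525 : ℕ), (1854474979662 : ℕ))) p11_216 (sfcons (a := ((1854474251858 : ℕ), (1925987209020 : ℕ))) p11_217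 (sfcons (a := ((1925986634412 : ℕ), (1968134032782 : ℕ))) p11_218 (sfcons (a := ((1968133858830 : ℕ), (1989349406100 : ℕ))) p11_219 (sfcons (a := ((1988758374022 : ℕ), (2048873664000 : ℕ))) p11_220 (sfcons (a := ((2048650768489 : ℕ), (2072517723198 : ℕ))) p11_221 (sfcons (a := ((2072517256150 : ℕ), (2137595174754 : ℕ))) p11_222 (sfcons (a := ((2119514834835 : ℕ), (2168962447776 : ℕ))) p11_223 (sfcons (a := ((2165284071133 : ℕ), (2250530501940 : ℕ))) p11_224 (sfcons (a := ((2250522176432 : ℕ), (2351734345716 : ℕ))) p11_225 (sfcons (a := ((2341006231525 : ℕ), (2415818831130 : ℕ))) p11_226 (sfcons (a := ((2391035131336 : ℕ), (2466721621440 : ℕ))) p11_227 (sfcons (a := ((2461314413004 : ℕ), (2490480499062 : ℕ))) p11_228 (sfcons (a := ((2478479846510 : ℕ), (2572800201024 : ℕ))) p11_229 (sfcons (a := ((2554932787914 : ℕ), (2614209335478 : ℕ))) p11_230 (sfcons (a := ((2601478343397 : ℕ), (2644946926020 : ℕ))) p11_231 (sfcons (a := ((2635231265985 : ℕ), (2671625092848 : ℕ))) p11_232 (sfcons (a := ((2671622332784 : ℕ), (2713250221104 : ℕ))) p11_233 (sfcons (a := ((2713249822717 : ℕ), (2750733369954 : ℕ))) p11_234 (sfcons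 (a := ((2736201911082 : ℕ), (2869310381658 : ℕ))) p11_235 (sfcons (a := ((2865670448577 : ℕ), (2893327983900 : ℕ))) p11_236 (sfcons (a := ((2893323184192 : ℕ), (2959112655900 : ℕ))) p11_237 (sfcons (a := ((2947401490031 : ℕ), (3017960155314 : ℕ))) p11_238 (sfcons (a := ((2986663901906 : ℕ), (3106720828692 : ℕ))) p11_239 (sfcons (a := ((3070516198572 : ℕ), (3137095874430 : ℕ))) p11_240 (sfcons (a := ((3137095688296 : ℕ), (3181774947234 : ℕ))) p11_241 (sfcons (a := ((3181769699683 : ℕ), (3269612016936 : ℕ))) p11_242 (sfcons (a := ((3268994405706 : ℕ), (3322242543888 : ℕ))) p11_243 (sfcons (a := ((3300967596077 : ℕ), (3333978829506 : ℕ))) p11_244 (sfcons (a := ((3333975872238 : ℕ), (3374976902220 : ℕ))) p11_245 (sfcons (a := ((3374972357330 : ℕ), (3387613034754 : ℕ))) p11_246 (sfcons (a := ((3387608012883 : ℕ), (3432894126402 : ℕ))) p11_247 (sfcons (a := ((3432892331610 : ℕ), (3473335717632 : ℕ))) p11_248 (sfcons (a := ((3473332339446 : ℕ), (3541739891040 : ℕ))) p11_249 (sfcons (a := ((3541738590828 : ℕ), (3584669670720 : ℕ))) p11_250 (sfcons (a := ((3568356002779 : ℕ), (3608710857630 : ℕ))) p11_251 (sfcons (a :=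 ((3607420753170 : ℕ), (3659540162250 : ℕ))) p11_252 (sfcons (a := ((3659264027628 : ℕ), (3695917106142 : ℕ))) p11_253 (sfcons (a := ((3692593779156 : ℕ), (3730830949794 : ℕ))) p11_254 (sfcons (a := ((3730824174277 : ℕ), (3770547982434 : ℕ))) p11_255 (sfcons (a := ((3768072141313 : ℕ), (3860819723520 : ℕ))) p11_256 (sfcons (a := ((3853417183867 : ℕ), (3891824170338 : ℕ))) p11_257 (sfcons (a := ((3891817505199 : ℕ), (4033443066978 : ℕ))) p11_258 (sfcons (a := ((4028012019995 : ℕ), (4110093249402 : ℕ))) p11_259 (sfcons (a := ((4110092331136 : ℕ), (4194766624734 : ℕ))) p11_260 (sfcons (a := ((4194753183076 : ℕ), (4213758750750 : ℕ))) p11_261 (sfcons (a := ((4213756032242 : ℕ), (4338597933150 : ℕ))) p11_262 (sfcons (a := ((4338596156364 : ℕ), (4417223093010 : ℕ))) p11_263 (sfcons (a := ((4407788986704 : ℕ), (4463030328336 : ℕ))) p11_264 (sfcons (a := ((4463028438606 : ℕ), (4520949390000 : ℕ))) p11_265 (sfcons (a := ((4520947626468 : ℕ), (4566523686192 : ℕ))) p11_266 (sfcons (a := ((4559518206468 : ℕ), (4604766225264 : ℕ))) p11_267 (sfcons (a := ((4601875053708 : ℕ), (4660758891792 : ℕ))) p11_268 (sfcons (a := ((4660757037621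 : ℕ), (4722960733200 : ℕ))) p11_269 (sfcons (a := ((4707836764400 : ℕ), (4794420182688 : ℕ))) p11_270 (sfcons (a := ((4784298646692 : ℕ), (4939563744540 : ℕ))) p11_271 (sfcons (a := ((4924937968798 : ℕ), (5043275665122 : ℕ))) p11_272 (sfcons (a := ((5043275207361 : ℕ), (5139456823440 : ℕ))) p11_273 (sfcons (a := ((5123126557053 : ℕ), (5199030361296 : ℕ))) p11_274 (sfcons (a := ((5199028941285 : ℕ), (5234559846192 : ℕ))) p11_275 (sfcons (a := ((5226140607721 : ℕ), (5308943129946 : ℕ))) p11_276 (sfcons (a := ((5294635989516 : ℕ), (5513622025572 : ℕ))) p11_277 (sfcons (a := ((5473107934514 : ℕ), (5543075823372 : ℕ))) p11_278 (sfcons (a := ((5543075033287 : ℕ), (5734689284664 : ℕ))) p11_279 (sfcons (a := ((5734687496739 : ℕ), (5872990546098 : ℕ))) p11_280 (sfcons (a := ((5872981049142 : ℕ), (5920901376984 : ℕ))) p11_281 (sfcons (a := ((5920900159243 : ℕ), (6074980993458 : ℕ))) p11_282 (sfcons (a := ((6039898139030 : ℕ), (6103845739410 : ℕ))) p11_283 (sfcons (a := ((6103842024528 : ℕ), (6250267099980 : ℕ))) p11_284 (sfcons (a := ((6233143741654 : ℕ), (6423975633234 : ℕ))) p11_285 (sfcons (a := ((6423974507457 : ℕ),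 (6591658984890 : ℕ))) p11_286 (sfcons (a := ((6591657455829 : ℕ), (6641264591280 : ℕ))) p11_287 (sfcons (a := ((6641262807579 : ℕ), (6726133550448 : ℕ))) p11_288 (sfcons (a := ((6726132231768 : ℕ), (6794479108368 : ℕ))) p11_289 (sfcons (a := ((6794477622909 : ℕ), (6869238163344 : ℕ))) p11_290 (sfcons (a := ((6849620483400 : ℕ), (7011832765956 : ℕ))) p11_291 (sfcons (a := ((7011831689967 : ℕ), (7097805651522 : ℕ))) p11_292 (sfcons (a := ((7068006643518 : ℕ), (7150553668512 : ℕ))) p11_293 (sfcons (a := ((7150546963170 : ℕ), (7226955815616 : ℕ))) p11_294 (sfcons (a := ((7189610852448 : ℕ), (7265060074080 : ℕ))) p11_295 (sfcons (a := ((7265055094686 : ℕ), (7333685466912 : ℕ))) p11_296 (sfcons (a := ((7333683171129 : ℕ), (7425436652640 : ℕ))) p11_297 (sfcons (a := ((7425434440692 : ℕ), (7475691820896 : ℕ))) p11_298 (sfcons (a := ((7432613440317 : ℕ), (7507316260800 : ℕ))) p11_299 (sfcons (a := ((7507314014427 : ℕ), (7646945464368 : ℕ))) p11_300 (sfcons (a := ((7646943945375 : ℕ), (7757486281008 : ℕ))) p11_301 (sfcons (a := ((7757484793605 : ℕ), (7866873065376 : ℕ))) p11_302 (sfcons (a := ((7866870715890 : ℕ), (7967843115120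 : ℕ))) p11_303 (sfcons (a := ((7967841786072 : ℕ), (8021828570544 : ℕ))) p11_304 (sfcons (a := ((8020947064149 : ℕ), (8138719016064 : ℕ))) p11_305 (sfcons (a := ((8138717157924 : ℕ), (8246623302144 : ℕ))) p11_306 (sfcons (a := ((8246617251687 : ℕ), (8390472295968 : ℕ))) p11_307 (sfcons (a := ((8390468057805 : ℕ), (8734671936000 : ℕ))) p11_308 (sfcons (a := ((8656288276581 : ℕ), (8787264884784 : ℕ))) p11_309 (sfcons (a := ((8787261646080 : ℕ), (8941826453904 : ℕ))) p11_310 (sfcons (a := ((8916783090984 : ℕ), (9052045359696 : ℕ))) p11_311 (sfcons (a := ((9006541494300 : ℕ), (9246629382624 : ℕ))) p11_312 (sfcons (a := ((9246627739134 : ℕ), (9475257546144 : ℕ))) p11_313 (sfcons (a := ((9460013985153 : ℕ), (9581470999344 : ℕ))) p11_314 (sfcons (a := ((9581468038956 : ℕ), (9664368252624 : ℕ))) p11_315 (sfcons (a := ((9664365291588 : ℕ), (9760646819952 : ℕ))) p11_316 (sfcons (a := ((9760644288864 : ℕ), (9834052648752 : ℕ))) p11_317 (sfcons (a := ((9834047483787 : ℕ), (9939742096752 : ℕ))) p11_318 (sfcons (a := ((9939739578705 : ℕ), (10027946936592 : ℕ))) p11_319 (sfcons (a := ((9980088554610 : ℕ), (10516023754560 : ℕ)))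 p11_320 (sfcons (a := ((10492980524235 : ℕ), (10968253488576 : ℕ))) p11_321 (sfcons (a := ((10968250743648 : ℕ), (11105367552720 : ℕ))) p11_322 (sfcons (a := ((11090518201314 : ℕ), (11389559606352 : ℕ))) p11_323 (sfcons (a := ((11389558097241 : ℕ), (11567014100496 : ℕ))) p11_324 (sfcons (a := ((11563917016329 : ℕ), (11910605431824 : ℕ))) p11_325 (sfcons (a := ((11910603475431 : ℕ), (12208363347312 : ℕ))) p11_326 (sfcons (a := ((12208362027903 : ℕ), (12511342520208 : ℕ))) p11_327 (sfcons (a := ((12511341049005 : ℕ), (12830247446544 : ℕ))) p11_328 (sfcons (a := ((12830244583032 : ℕ), (13474579652496 : ℕ))) p11_329 (sfcons (a := ((13474576400184 : ℕ), (14186592723888 : ℕ))) p11_330 (sfcons (a := ((14186588706693 : ℕ), (14547195171072 : ℕ))) p11_331 (sfcons (a := ((14547193581609 : ℕ), (14982009705504 : ℕ))) p11_332 sfnil)))))))))))))))))))))))))))))))))))))))))))))))))))))))))))))))))))))))))))))))))))))))))))))))))))))))))))))))))))))))))))))))))))))))))))))))))))))))))))))))))))))))))))))))))))))))))))))))))))))))))))))))))))))))))))))))))))))))))))))))))))))))))))))))))))))))))))))))))))))))))))))))))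

theorem Ls11_cover : cover 180000000000 Ls11 14580000000000 = true := by decide +kernel

end Pool.Agent.Lib.MP_cfac74_al.Cov
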