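import Pool.Agent.Lib.MP_cfac74_al.S.S00
import Pool.Agent.Lib.MP_cfac74_al.S.S01
import Pool.Agent.Lib.MP_cfac74_al.S.S02
import Pool.Agent.Lib.MP_cfac74_al.S.S03
import Pool.Agent.Lib.MP_cfac74_al.S.S04
import Pool.Agent.Lib.MP_cfac74_al.S.S05
import Pool.Agent.Lib.MP_cfac74_al.S.S06
import Pool.Agent.Lib.MP_cfac74_al.S.S07
import Pool.Agent.Lib.MP_cfac74_al.S.S08
import Pool.Agent.Lib.MP_cfac74_al.S.S09
import Pool.Agent.Lib.MP_cfac74_al.S.S10
import Pool.Agent.Lib.MP_cfac74_al.S.S11
import Pool.Agent.Lib.MP_cfac74_al.S.S12
import Pool.Agent.Lib.MP_cfac74_al.S.S13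
import Pool.Agent.Lib.MP_cfac74_al.S.S14
import Pool.Agent.Lib.MP_cfac74_al.S.S15
import Pool.Agent.Lib.MP_cfac74_al.S.S16
import Pool.Agent.Lib.MP_cfac74_al.S.S17
import Pool.Agent.Lib.MP_cfac74_al.S.S18
import Pool.Agent.Lib.MP_cfac74_al.S.Ls

/-!
# MP_cfac74_al : stable windows, class 13
-/

set_option autoImplicit false
set_option maxRecDepth 1000000

namespace Pool.Agent.Lib.MP_cfac74_al.Cov

theorem p13_0 : Stab 13 55235595157 56655303228 := s334_t0

theorem sw13_0 : Win 13 55235595157 56655303228 := p13_0.win (by decide +kernel)

theorem p13_1 : Stab 13 56655286274 58145109084 := s763_t0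

theorem sw13_1 : Win 13 56655286274 58145109084 := p13_1.win (by decide +kernel)

theorem p13_2 : Stab 13 57800364296 60020298204 := s5_t0

theorem sw13_2 : Win 13 57800364296 60020298204 := p13_2.win (by decide +kernel)

theorem p13_3 : Stab 13 60020278292 60220335900 := s514_t0

theorem sw13_3 : Win 13 60020278292 60220335900 := p13_3.win (by decide +kernel)

theorem p13_4 : Stab 13 60220319677 60967838556 := s150_t0

theorem sw13_4 : Win 13 60220319677 60967838556 := p13_4.win (by decide +kernel)

theorem p13_5 : Stab 13 60967821196 61813067868 := s831_t0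

theorem sw13_5 : Win 13 60967821196 61813067868 := p13_5.win (by decide +kernel)

theorem p13_6 : Stab 13 61813046169 62791743036 := s819_t0

theorem sw13_6 : Win 13 61813046169 62791743036 := p13_6.win (by decide +kernel)

theorem p13_7 : Stab 13 62256241505 63301502316 := s714_t0

theorem sw13_7 : Win 13 62256241505 63301502316 := p13_7.win (by decide +kernel)

theorem p13_8 : Stab 13 63301483499 64457140284 := s50_t0

theorem sw13_8 : Win 13 63301483499 64457140284 := p13_8.win (by decide +kernel)

theorem p13_9 : Stab 13 64457123882 65782550604 := s90_t0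

theorem sw13_9 : Win 13 64457123882 65782550604 := p13_9.win (by decide +kernel)

theorem p13_10 : Stab 13 65782532897 66846543180 := s199_t0

theorem sw13_10 : Win 13 65782532897 66846543180 := p13_10.win (by decide +kernel)

theorem p13_11 : Stab 13 66846522858 68116877772 := s331_t0

theorem sw13_11 : Win 13 66846522858 68116877772 := p13_11.win (by decide +kernel)

theorem p13_12 : Stab 13 68116855320 68915778156 := s551_t0

theorem sw13_12 : Win 13 68116855320 68915778156 := p13_12.win (by decide +kernel)

theorem p13_13 : Stab 13 68915757361 69748187916 := s686_t0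

theorem sw13_13 : Win 13 68915757361 69748187916 := p13_13.win (by decide +kernel)

theorem p13_14 : Stab 13 69748147562 71478353964 := s644_t0

theorem sw13_14 : Win 13 69748147562 71478353964 := p13_14.win (by decide +kernel)

theorem p13_15 : Stab 13 71308574956 73957846476 := s153_t0

theorem sw13_15 : Win 13 71308574956 73957846476 := p13_15.win (by decide +kernel)

theorem p13_16 : Stab 13 73875119637 76046066220 := s733_t0

theorem sw13_16 : Win 13 73875119637 76046066220 := p13_16.win (by decide +kernel)

theorem p13_17 : Stab 13 75574398665 79659508428 := s436_t0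

theorem sw13_17 : Win 13 75574398665 79659508428 := p13_17.win (by decide +kernel)

theorem p13_18 : Stab 13 79659469322 80885934540 := s533_t0

theorem sw13_18 : Win 13 79659469322 80885934540 := p13_18.win (by decide +kernel)

theorem p13_19 : Stab 13 80620594902 82063593804 := s183_t0

theorem sw13_19 : Win 13 80620594902 82063593804 := p13_19.win (by decide +kernel)

theorem p13_20 : Stab 13 82063571718 82440767820 := s696_t0

theorem sw13_20 : Win 13 82063571718 82440767820 := p13_20.win (by decide +kernel)

theorem p13_21 : Stab 13 82440751285 83423538396 := s158_t0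

theorem sw13_21 : Win 13 82440751285 83423538396 := p13_21.win (by decide +kernel)

theorem p13_22 : Stab 13 83423517781 83958817596 := s541_t0

theorem sw13_22 : Win 13 83423517781 83958817596 := p13_22.win (by decide +kernel)

theorem p13_23 : Stab 13 83958797414 84843155676 := s860_t0

theorem sw13_23 : Win 13 83958797414 84843155676 := p13_23.win (by decide +kernel)

theorem p13_24 : Stab 13 84843139847 85795977756 := s756_t0

theorem sw13_24 : Win 13 84843139847 85795977756 := p13_24.win (by decide +kernel)

theorem p13_25 : Stab 13 85795940073 86223851484 := s58_t0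

theorem sw13_25 : Win 13 85795940073 86223851484 := p13_25.win (by decide +kernel)

theorem p13_26 : Stab 13 86545580432 87605452188 := s79_t0

theorem sw13_26 : Win 13 86545580432 87605452188 := p13_26.win (by decide +kernel)

theorem p13_27 : Stab 13 93078307896 94668906972 := s433_t0

theorem sw13_27 : Win 13 93078307896 94668906972 := p13_27.win (by decide +kernel)

theorem p13_28 : Stab 13 94668870441 96117461148 := s537_t0

theorem sw13_28 : Win 13 94668870441 96117461148 := p13_28.win (by decide +kernel)

theorem p13_29 : Stab 13 96117420918 96950809212 := s321_t0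

theorem sw13_29 : Win 13 96117420918 96950809212 := p13_29.win (by decide +kernel)

theorem p13_30 : Stab 13 104344957368 106309626156 := s841_t0

theorem sw13_30 : Win 13 104344957368 106309626156 := p13_30.win (by decide +kernel)

theorem p13_31 : Stab 13 106309586364 107822388108 := s222_t0

theorem sw13_31 : Win 13 106309586364 107822388108 := p13_31.win (by decide +kernel)

theorem p13_32 : Stab 13 110235129227 112255363404 := s261_t0

theorem sw13_32 : Win 13 110235129227 112255363404 := p13_32.win (by decide +kernel)

theorem p13_33 : Stab 13 113919524022 115144151532 := s643_t0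

theorem sw13_33 : Win 13 113919524022 115144151532 := p13_33.win (by decide +kernel)

theorem p13_34 : Stab 13 115144112020 117347496396 := s165_t0

theorem sw13_34 : Win 13 115144112020 117347496396 := p13_34.win (by decide +kernel)

theorem p13_35 : Stab 13 117774444486 119757228396 := s350_t0

theorem sw13_35 : Win 13 117774444486 119757228396 := p13_35.win (by decide +kernel)

theorem p13_36 : Stab 13 119443608395 120901528908 := s318_t0

theorem sw13_36 : Win 13 119443608395 120901528908 := p13_36.win (by decide +kernel)

theorem p13_37 : Stab 13 120901507797 122540841516 := s788_t0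

theorem sw13_37 : Win 13 120901507797 122540841516 := p13_37.win (by decide +kernel)

theorem p13_38 : Stab 13 122540825582 125280432684 := s855_t0

theorem sw13_38 : Win 13 122540825582 125280432684 := p13_38.win (by decide +kernel)

theorem p13_39 : Stab 13 124725381089 128265788652 := s781_t0

theorem sw13_39 : Win 13 124725381089 128265788652 := p13_39.win (by decide +kernel)

theorem p13_40 : Stab 13 128265742280 129555252060 := s381_t0

theorem sw13_40 : Win 13 128265742280 129555252060 := p13_40.win (by decide +kernel)

theorem p13_41 : Stab 13 129367971679 133065448332 := s798_t0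

theorem sw13_41 : Win 13 129367971679 133065448332 := p13_41.win (by decide +kernel)

theorem p13_42 : Stab 13 132597060507 135584298156 := s420_t0

theorem sw13_42 : Win 13 132597060507 135584298156 := p13_42.win (by decide +kernel)

theorem p13_43 : Stab 13 135584261689 137980074636 := s545_t0

theorem sw13_43 : Win 13 135584261689 137980074636 := p13_43.win (by decide +kernel)

theorem p13_44 : Stab 13 137980034504 139807483980 := s175_t0

theorem sw13_44 : Win 13 137980034504 139807483980 := p13_44.win (by decide +kernel)

theorem p13_45 : Stab 13 139577328017 145182942300 := s535_t0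

theorem sw13_45 : Win 13 139577328017 145182942300 := p13_45.win (by decide +kernel)

theorem p13_46 : Stab 13 145182878307 146357301660 := s650_t0

theorem sw13_46 : Win 13 145182878307 146357301660 := p13_46.win (by decide +kernel)

theorem p13_47 : Stab 13 146357249137 150244283100 := s562_t0

theorem sw13_47 : Win 13 146357249137 150244283100 := p13_47.win (by decide +kernel)

theorem p13_48 : Stab 13 150244261453 153389297052 := s773_t0

theorem sw13_48 : Win 13 150244261453 153389297052 := p13_48.win (by decide +kernel)

theorem p13_49 : Stab 13 153389262324 159403809372 := s676_t0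

theorem sw13_49 : Win 13 153389262324 159403809372 := p13_49.win (by decide +kernel)

theorem p13_50 : Stab 13 159403765893 162499015452 := s830_t0

theorem sw13_50 : Win 13 159403765893 162499015452 := p13_50.win (by decide +kernel)

theorem p13_51 : Stab 13 162498998987 163925739276 := s575_t0

theorem sw13_51 : Win 13 162498998987 163925739276 := p13_51.win (by decide +kernel)

theorem p13_52 : Stab 13 163925661849 166733899260 := s759_t0

theorem sw13_52 : Win 13 163925661849 166733899260 := p13_52.win (by decide +kernel)

theorem p13_53 : Stab 13 166733844142 168696932796 := s485_t0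

theorem sw13_53 : Win 13 166733844142 168696932796 := p13_53.win (by decide +kernel)

theorem p13_54 : Stab 13 168696874486 170863481004 := s767_t0

theorem sw13_54 : Win 13 168696874486 170863481004 := p13_54.win (by decide +kernel)

theorem p13_55 : Stab 13 170863429333 174653472828 := s842_t0

theorem sw13_55 : Win 13 170863429333 174653472828 := p13_55.win (by decide +kernel)

theorem p13_56 : Stab 13 174653424382 178262909484 := s749_t0

theorem sw13_56 : Win 13 174653424382 178262909484 := p13_56.win (by decide +kernel)

theorem p13_57 : Stab 13 178262831647 179672904540 := s197_t0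

theorem sw13_57 : Win 13 178262831647 179672904540 := p13_57.win (by decide +kernel)

theorem p13_58 : Stab 13 179672858601 183165051756 := s14_t0

theorem sw13_58 : Win 13 179672858601 183165051756 := p13_58.win (by decide +kernel)

theorem p13_59 : Stab 13 183165016726 190290106284 := s571_t0

theorem p13_60 : Stab 13 190290041769 191908567164 := s68_t0

theorem p13_61 : Stab 13 191908521386 195272344764 := s427_t0

theorem p13_62 : Stab 13 195272297284 196099289760 := (Half.stab s453_t0 s637_t0 (by decide +kernel) : Stab 13 195272297284 196099289760)

theorem p13_63 : Stab 13 196099000305 198539653440 := (Half.stab s30_t0 s637_t0 (by decide +kernel) : Stab 13 196099000305 198539653440)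

theorem p13_64 : Stab 13 198539362518 200678935680 := (Half.stab s62_t0 s637_t0 (by decide +kernel) : Stab 13 198539362518 200678935680)

theorem p13_65 : Stab 13 200678644036 201789548400 := (Half.stab s243_t0 s637_t0 (by decide +kernel) : Stab 13 200678644036 201789548400)

theorem p13_66 : Stab 13 201789347711 202537823040 := (Half.stab s243_t0 s15_t1 (by decide +kernel) : Stab 13 201789347711 202537823040)

theorem p13_67 : Stab 13 202442505328 205076700240 := (Half.stab s193_t0 s15_t1 (by decide +kernel) : Stab 13 202442505328 205076700240)

theorem p13_68 : Stab 13 205076679230 210033871932 := s203_t0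

theorem p13_69 : Stab 13 210033853242 213548524476 := s279_t0

theorem p13_70 : Stab 13 213548507123 220214994636 := s538_t0

theorem p13_71 : Stab 13 220214957712 230201837580 := s278_t0

theorem p13_72 : Stab 13 230201818601 239722696764 := s653_t0

theorem p13_73 : Stab 13 239722681143 245675241420 := s624_t0

theorem p13_74 : Stab 13 245675160384 253739782428 := s12_t0

theorem p13_75 : Stab 13 253739743318 256781997180 := s755_t0

theorem p13_76 : Stab 13 256781957946 264158660268 := s168_t0

theorem p13_77 : Stab 13 264158624480 267817052268 := s112_t0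

theorem p13_78 : Stab 13 267817019149 270987985452 := s83_t0

theorem p13_79 : Stab 13 270987966481 274534870764 := s560_t0

theorem p13_80 : Stab 13 274534853878 279766145052 := s735_t0

theorem p13_81 : Stab 13 279766101309 284192772300 := s206_t0

theorem p13_82 : Stab 13 284192733622 287972693196 := s353_t0

theorem p13_83 : Stab 13 287972657245 293302465692 := s731_t0

theorem p13_84 : Stab 13 293302413830 297658327500 := s293_t0

theorem p13_85 : Stab 13 297658277858 304862294172 := s169_t0

theorem p13_86 : Stab 13 304862261925 309327592236 := s119_t0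

theorem p13_87 : Stab 13 309327572779 321504357420 := s225_t0

theorem p13_88 : Stab 13 321504336439 335962049388 := s661_t0

theorem p13_89 : Stab 13 335962029705 349091503980 := s61_t0

theorem p13_90 : Stab 13 349091482237 364991685276 := s648_t0

theorem p13_91 : Stab 13 364991647593 377849560860 := s688_t0

theorem p13_92 : Stab 13 377849542099 383611952220 := s116_t0

theorem p13_93 : Stab 13 383611929622 389660445852 := s843_t0

theorem p13_94 : Stab 13 389660429440 397012961628 := s703_t0

theorem p13_95 : Stab 13 397012911185 402719481276 := s672_t0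

theorem p13_96 : Stab 13 402719443320 407193746364 := s67_t0

theorem p13_97 : Stab 13 407193709161 410597982972 := s678_t0

theorem p13_98 : Stab 13 410597946577 414824709372 := s102_t0

theorem p13_99 : Stab 13 414824674398 423285001884 := s339_t0

theorem p13_100 : Stab 13 423284980534 436537012092 := s536_t0

theorem p13_101 : Stab 13 436536996177 441391062480 := (Half.stab s868_t1 s791_t0 (by decide +kernel) : Stab 13 436536996177 441391062480)

theorem p13_102 : Stab 13 441390610426 446108231280 := (Half.stab s369_t1 s63_t0 (by decide +kernel) : Stab 13 441390610426 446108231280)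

theorem p13_103 : Stab 13 446108208855 452695338396 := s882_t0

theorem p13_104 : Stab 13 452695318586 458360287200 := (Half.stab s1_t1 s193_t4 (by decide +kernel) : Stab 13 452695318586 458360287200)

theorem p13_105 : Stab 13 458360221039 458802157692 := s409_t0

theorem p13_106 : Stab 13 458802103021 463413775920 := (Half.stab s610_t1 s618_t0 (by decide +kernel) : Stab 13 458802103021 463413775920)

theorem p13_107 : Stab 13 463413682084 467197117338 := (Half.stab s75_t1 s814_t1 (by decide +kernel) : Stab 13 463413682084 467197117338)

theorem p13_108 : Stab 13 467196963428 472032987840 := (Half.stab s418_t0 s814_t1 (by decide +kernel) : Stab 13 467196963428 472032987840)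

theorem p13_109 : Stab 13 472032841114 477802350522 := (Half.stab s872_t1 s713_t1 (by decide +kernel) : Stab 13 472032841114 477802350522)

theorem p13_110 : Stab 13 477801690913 481849811112 := (Half.stab s585_t1 s93_t1 (by decide +kernel) : Stab 13 477801690913 481849811112)

theorem p13_111 : Stab 13 481849176097 483177248442 := (Half.stab s585_t1 s129_t2 (by decide +kernel) : Stab 13 481849176097 483177248442)

theorem p13_112 : Stab 13 483175730465 488928944040 := (Half.stab s766_t1 s129_t2 (by decide +kernel) : Stab 13 483175730465 488928944040)

theorem p13_113 : Stab 13 488928712270 491842167600 := (Half.stab s147_t1 s3_t1 (by decide +kernel) : Stab 13 488928712270 491842167600)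

theorem p13_114 : Stab 13 491841275400 495174603120 := (Half.stab s147_t1 s414_t1 (by decide +kernel) : Stab 13 491841275400 495174603120)

theorem p13_115 : Stab 13 495174160241 498028015674 := (Half.stab s147_t1 s775_t0 (by decide +kernel) : Stab 13 495174160241 498028015674)

theorem p13_116 : Stab 13 498027985456 503204068908 := s708_t0

theorem p13_117 : Stab 13 503204042151 509050821120 := (Half.stab s443_t1 s516_t2 (by decide +kernel) : Stab 13 503204042151 509050821120)

theorem p13_118 : Stab 13 509049711044 515346849360 := (Half.stab s521_t1 s322_t0 (by decide +kernel) : Stab 13 509049711044 515346849360)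

theorem p13_119 : Stab 13 513551276993 517930388640 := (Half.stab s521_t1 s143_t1 (by decide +kernel) : Stab 13 513551276993 517930388640)

theorem p13_120 : Stab 13 517929263071 521145514890 := (Half.stab s524_t1 s143_t1 (by decide +kernel) : Stab 13 517929263071 521145514890)

theorem p13_121 : Stab 13 521145497880 527127660588 := s563_t0

theorem p13_122 : Stab 13 527127641686 534337953804 := s856_t0

theorem p13_123 : Stab 13 534337932054 539177280000 := (Half.stab s524_t1 s570_t1 (by decide +kernel) : Stab 13 534337932054 539177280000)

theorem p13_124 : Stab 13 535570857166 542423758320 := (Half.stab s263_t1 s570_t1 (by decide +kernel) : Stab 13 535570857166 542423758320)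

theorem p13_125 : Stab 13 542422774125 551964595920 := (Half.stab s263_t1 s250_t1 (by decide +kernel) : Stab 13 542422774125 551964595920)

theorem p13_126 : Stab 13 550510885571 558768232080 := (Half.stab s835_t1 s347_t1 (by decide +kernel) : Stab 13 550510885571 558768232080)

theorem p13_127 : Stab 13 558768189100 563342475420 := s370_t0

theorem p13_128 : Stab 13 563342421331 572025144252 := s355_t0

theorem p13_129 : Stab 13 572025090036 578296102986 := (Half.stab s622_t2 s103_t1 (by decide +kernel) : Stab 13 572025090036 578296102986)

theorem p13_130 : Stab 13 578296056061 583949724684 := s552_t0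

theorem p13_131 : Stab 13 583949680996 591448827120 := (Half.stab s195_t2 s188_t1 (by decide +kernel) : Stab 13 583949680996 591448827120)

theorem p13_132 : Stab 13 591446431144 596565941520 := (Half.stab s195_t2 s17_t1 (by decide +kernel) : Stab 13 591446431144 596565941520)

theorem p13_133 : Stab 13 596563553924 602509062960 := (Half.stab s195_t2 s234_t1 (by decide +kernel) : Stab 13 596563553924 602509062960)

theorem p13_134 : Stab 13 602506740781 607040286960 := (Half.stab s195_t2 s684_t1 (by decide +kernel) : Stab 13 602506740781 607040286960)

theorem p13_135 : Stab 13 607038027542 613564326960 := (Half.stab s195_t2 s385_t1 (by decide +kernel) : Stab 13 607038027542 613564326960)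

theorem p13_136 : Stab 13 613562090129 617097846330 := (Half.stab s195_t2 s771_t1 (by decide +kernel) : Stab 13 613562090129 617097846330)

theorem p13_137 : Stab 13 616052334966 619009070160 := (Half.stab s812_t1 s771_t1 (by decide +kernel) : Stab 13 616052334966 619009070160)

theorem p13_138 : Stab 13 619008933070 629639687628 := (Half.stab s812_t1 s159_t2 (by decide +kernel) : Stab 13 619008933070 629639687628)

theorem p13_139 : Stab 13 629639312594 634965318156 := (Half.stab s812_t1 s717_t1 (by decide +kernel) : Stab 13 629639312594 634965318156)

theorem p13_140 : Stab 13 631502027124 642691615818 := (Half.stab s812_t1 s128_t1 (by decide +kernel) : Stab 13 631502027124 642691615818)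

theorem p13_141 : Stab 13 641812552148 649137268800 := (Half.stab s812_t1 s710_t1 (by decide +kernel) : Stab 13 641812552148 649137268800)

theorem p13_142 : Stab 13 649137159207 662855853450 := (Half.stab s343_t1 s865_t1 (by decide +kernel) : Stab 13 649137159207 662855853450)

theorem p13_143 : Stab 13 662854665511 675007042122 := (Half.stab s343_t1 s160_t2 (by decide +kernel) : Stab 13 662854665511 675007042122)

theorem p13_144 : Stab 13 675005285338 677052684480 := (Half.stab s343_t1 s127_t2 (by decide +kernel) : Stab 13 675005285338 677052684480)

theorem p13_145 : Stab 13 677052583625 684598232412 := s769_t0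

theorem p13_146 : Stab 13 684598147574 698780674548 := (Half.stab s242_t1 s338_t1 (by decide +kernel) : Stab 13 684598147574 698780674548)

theorem p13_147 : Stab 13 698778796935 703059234960 := (Half.stab s785_t1 s338_t1 (by decide +kernel) : Stab 13 698778796935 703059234960)

theorem p13_148 : Stab 13 703056669338 708014080980 := (Half.stab s785_t1 s690_t1 (by decide +kernel) : Stab 13 703056669338 708014080980)

theorem p13_149 : Stab 13 708013938628 714013216080 := (Half.stab s352_t3 s690_t1 (by decide +kernel) : Stab 13 708013938628 714013216080)

theorem p13_150 : Stab 13 713820650701 723488880852 := (Half.stab s429_t1 s107_t1 (by decide +kernel) : Stab 13 713820650701 723488880852)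

theorem p13_151 : Stab 13 723487497823 733622742036 := (Half.stab s200_t1 s107_t1 (by decide +kernel) : Stab 13 723487497823 733622742036)

theorem p13_152 : Stab 13 733621157073 735222557520 := (Half.stab s752_t2 s107_t1 (by decide +kernel) : Stab 13 733621157073 735222557520)

theorem p13_153 : Stab 13 735219562751 743722821684 := (Half.stab s752_t2 s464_t1 (by decide +kernel) : Stab 13 735219562751 743722821684)

theorem p13_154 : Stab 13 743720970714 753602675760 := (Half.stab s59_t1 s464_t1 (by decide +kernel) : Stab 13 743720970714 753602675760)

theorem p13_155 : Stab 13 753599644058 757837400436 := (Half.stab s59_t1 s0_t1 (by decide +kernel) : Stab 13 753599644058 757837400436)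

theorem p13_156 : Stab 13 756879104466 772305093840 := (Half.stab s437_t2 s0_t1 (by decide +kernel) : Stab 13 756879104466 772305093840)

theorem p13_157 : Stab 13 761396988737 774260737524 := (Half.stab s437_t2 s313_t2 (by decide +kernel) : Stab 13 761396988737 774260737524)

theorem p13_158 : Stab 13 774259129307 791987162868 := (Half.stab s192_t2 s313_t2 (by decide +kernel) : Stab 13 774259129307 791987162868)

theorem p13_159 : Stab 13 791987068168 803201580468 := (Half.stab s589_t1 s438_t1 (by decide +kernel) : Stab 13 791987068168 803201580468)

theorem p13_160 : Stab 13 803200212039 822495177396 := (Half.stab s25_t1 s438_t1 (by decide +kernel) : Stab 13 803200212039 822495177396)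

theorem p13_161 : Stab 13 819637436199 831764176080 := (Half.stab s421_t1 s438_t1 (by decide +kernel) : Stab 13 819637436199 831764176080)

theorem p13_162 : Stab 13 831760891876 844506982074 := (Half.stab s421_t1 s671_t1 (by decide +kernel) : Stab 13 831760891876 844506982074)

theorem p13_163 : Stab 13 844505343668 866305126554 := (Half.stab s292_t1 s671_t1 (by decide +kernel) : Stab 13 844505343668 866305126554)

theorem p13_164 : Stab 13 866303944519 875715600240 := (Half.stab s351_t2 s671_t1 (by decide +kernel) : Stab 13 866303944519 875715600240)

theorem p13_165 : Stab 13 875712474678 886954101930 := (Half.stab s170_t1 s512_t5 (by decide +kernel) : Stab 13 875712474678 886954101930)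

theorem p13_166 : Stab 13 880537764684 893675326986 := (Half.stab s170_t1 s528_t5 (by decide +kernel) : Stab 13 880537764684 893675326986)

theorem p13_167 : Stab 13 893674690570 897975010560 := (Half.stab s170_t1 s16_t6 (by decide +kernel) : Stab 13 893674690570 897975010560)

theorem p13_168 : Stab 13 897971768173 908325726282 := (Half.stab s179_t1 s16_t6 (by decide +kernel) : Stab 13 897971768173 908325726282)

theorem p13_169 : Stab 13 906098295101 923306276568 := (Half.stab s179_t1 s300_t3 (by decide +kernel) : Stab 13 906098295101 923306276568)

theorem p13_170 : Stab 13 923244661505 928251986130 := (Half.stab s687_t3 s772_t2 (by decide +kernel) : Stab 13 923244661505 928251986130)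

theorem p13_171 : Stab 13 928251570318 945839431368 := (Half.stab s687_t3 s191_t2 (by decide +kernel) : Stab 13 928251570318 945839431368)

theorem p13_172 : Stab 13 945839191711 949603419786 := (Half.stab s366_t1 s191_t2 (by decide +kernel) : Stab 13 945839191711 949603419786)

theorem p13_173 : Stab 13 949600318625 968660643840 := (Half.stab s366_t1 s517_t2 (by decide +kernel) : Stab 13 949600318625 968660643840)

theorem p13_174 : Stab 13 968655471222 989374162920 := (Half.stab s185_t4 s52_t1 (by decide +kernel) : Stab 13 968655471222 989374162920)

theorem p13_175 : Stab 13 984541903623 991599109200 := (Half.stab s383_t2 s52_t1 (by decide +kernel) : Stab 13 984541903623 991599109200)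

theorem p13_176 : Stab 13 990225462326 998428621032 := (Half.stab s383_t2 s531_t3 (by decide +kernel) : Stab 13 990225462326 998428621032)

theorem p13_177 : Stab 13 997877850490 1025491970202 := (Half.stab s383_t2 s180_t1 (by decide +kernel) : Stab 13 997877850490 1025491970202)

theorem p13_178 : Stab 13 1020548676654 1031847518520 := (Half.stab s738_t2 s180_t1 (by decide +kernel) : Stab 13 1020548676654 1031847518520)

theorem p13_179 : Stab 13 1031847422152 1047503598960 := (Half.stab s738_t2 s477_t1 (by decide +kernel) : Stab 13 1031847422152 1047503598960)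

theorem p13_180 : Stab 13 1047503504442 1077893853816 := (Half.stab s13_t1 s372_t1 (by decide +kernel) : Stab 13 1047503504442 1077893853816)

theorem p13_181 : Stab 13 1077568950139 1092700557120 := (Half.stab s13_t1 s345_t4 (by decide +kernel) : Stab 13 1077568950139 1092700557120)

theorem p13_182 : Stab 13 1092695484072 1138072318968 := (Half.stab s28_t1 s345_t4 (by decide +kernel) : Stab 13 1092695484072 1138072318968)

theorem p13_183 : Stab 13 1138071894611 1162424047512 := (Half.stab s579_t3 s564_t4 (by decide +kernel) : Stab 13 1138071894611 1162424047512)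

theorem p13_184 : Stab 13 1162422382048 1164110190486 := (Half.stab s579_t3 s7_t2 (by decide +kernel) : Stab 13 1162422382048 1164110190486)

theorem p13_185 : Stab 13 1164109136183 1185717892632 := (Half.stab s53_t4 s7_t2 (by decide +kernel) : Stab 13 1164109136183 1185717892632)

theorem p13_186 : Stab 13 1185717597259 1195874519382 := (Half.stab s53_t4 s644_t3 (by decide +kernel) : Stab 13 1185717597259 1195874519382)

theorem p13_187 : Stab 13 1194283478522 1215132017388 := (Half.stab s95_t2 s644_t3 (by decide +kernel) : Stab 13 1194283478522 1215132017388)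

theorem p13_188 : Stab 13 1212244922234 1240840832154 := (Half.stab s95_t2 s153_t4 (by decide +kernel) : Stab 13 1212244922234 1240840832154)

theorem p13_189 : Stab 13 1240839004666 1257283390092 := (Half.stab s823_t1 s153_t4 (by decide +kernel) : Stab 13 1240839004666 1257283390092)

theorem p13_190 : Stab 13 1255876188309 1262579008026 := (Half.stab s823_t1 s733_t3 (by decide +kernel) : Stab 13 1255876188309 1262579008026)

theorem p13_191 : Stab 13 1259027172854 1292267199330 := (Half.stab s746_t2 s733_t3 (by decide +kernel) : Stab 13 1259027172854 1292267199330)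

theorem p13_192 : Stab 13 1292266964261 1319227642824 := (Half.stab s348_t3 s436_t6 (by decide +kernel) : Stab 13 1292266964261 1319227642824)

theorem p13_193 : Stab 13 1319227507169 1339795997946 := (Half.stab s813_t1 s436_t6 (by decide +kernel) : Stab 13 1319227507169 1339795997946)

theorem p13_194 : Stab 13 1334173699520 1354211643276 := (Half.stab s836_t3 s436_t6 (by decide +kernel) : Stab 13 1334173699520 1354211643276)

theorem p13_195 : Stab 13 1349130705434 1372441753680 := (Half.stab s836_t3 s260_t1 (by decide +kernel) : Stab 13 1349130705434 1372441753680)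

theorem p13_196 : Stab 13 1372438117398 1395081094668 := (Half.stab s274_t1 s183_t3 (by decide +kernel) : Stab 13 1372438117398 1395081094668)

theorem p13_197 : Stab 13 1393289537799 1406949551172 := (Half.stab s249_t7 s151_t2 (by decide +kernel) : Stab 13 1393289537799 1406949551172)

theorem p13_198 : Stab 13 1400583826961 1432502301840 := (Half.stab s249_t7 s406_t1 (by decide +kernel) : Stab 13 1400583826961 1432502301840)

theorem p13_199 : Stab 13 1421197987397 1444522478148 := (Half.stab s249_t7 s732_t2 (by decide +kernel) : Stab 13 1421197987397 1444522478148)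

theorem p13_200 : Stab 13 1444521692990 1493242658160 := (Half.stab s456_t2 s637_t4 (by decide +kernel) : Stab 13 1444521692990 1493242658160)

theorem p13_201 : Stab 13 1469325106736 1503530887860 := (Half.stab s456_t2 s704_t4 (by decide +kernel) : Stab 13 1469325106736 1503530887860)

theorem p13_202 : Stab 13 1499203063379 1518858062904 := (Half.stab s135_t2 s704_t4 (by decide +kernel) : Stab 13 1499203063379 1518858062904)

theorem p13_203 : Stab 13 1510452341970 1566600307092 := (Half.stab s135_t2 s157_t4 (by decide +kernel) : Stab 13 1510452341970 1566600307092)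

theorem p13_204 : Stab 13 1564286695969 1599016093626 := (Half.stab s817_t2 s873_t4 (by decide +kernel) : Stab 13 1564286695969 1599016093626)

theorem p13_205 : Stab 13 1596540738375 1610528806950 := (Half.stab s396_t2 s873_t4 (by decide +kernel) : Stab 13 1596540738375 1610528806950)

theorem p13_206 : Stab 13 1610527492760 1627120296858 := (Half.stab s396_t2 s844_t4 (by decide +kernel) : Stab 13 1610527492760 1627120296858)

theorem p13_207 : Stab 13 1613998955908 1696313185944 := (Half.stab s139_t3 s844_t4 (by decide +kernel) : Stab 13 1613998955908 1696313185944)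

theorem p13_208 : Stab 13 1687384096349 1712335263210 := (Half.stab s143_t2 s223_t1 (by decide +kernel) : Stab 13 1687384096349 1712335263210)

theorem p13_209 : Stab 13 1712334279620 1734631842960 := (Half.stab s555_t5 s223_t1 (by decide +kernel) : Stab 13 1712334279620 1734631842960)

theorem p13_210 : Stab 13 1724691503133 1749355022466 := (Stab.scale s132_t0 (by decide +kernel) : Stab 13 (81 * 21292487693) (81 * 21596975586))

theorem p13_211 : Stab 13 1749353082273 1763479387746 := (Stab.scale s863_t0 (by decide +kernel) : Stab 13 (81 * 21596951633) (81 * 21771350466))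

theorem p13_212 : Stab 13 1759736495175 1811948810490 := (Half.stab s665_t1 s263_t3 (by decide +kernel) : Stab 13 1759736495175 1811948810490)

theorem p13_213 : Stab 13 1811948682705 1862738183280 := (Half.stab s685_t2 s702_t1 (by decide +kernel) : Stab 13 1811948682705 1862738183280)

theorem p13_214 : Stab 13 1853988130780 1892735016948 := (Half.stab s365_t1 s622_t8 (by decide +kernel) : Stab 13 1853988130780 1892735016948)

theorem p13_215 : Stab 13 1892734525828 1919800184886 := (Half.stab s426_t2 s622_t8 (by decide +kernel) : Stab 13 1892734525828 1919800184886)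

theorem p13_216 : Stab 13 1919798345046 1971843762198 := (Half.stab s454_t4 s195_t8 (by decide +kernel) : Stab 13 1919798345046 1971843762198)

theorem p13_217 : Stab 13 1935398290304 1980582045876 := (Half.stab s167_t1 s195_t8 (by decide +kernel) : Stab 13 1935398290304 1980582045876)

theorem p13_218 : Stab 13 1980579390351 2024986141332 := (Half.stab s87_t2 s195_t8 (by decide +kernel) : Stab 13 1980579390351 2024986141332)

theorem p13_219 : Stab 13 2024986057892 2062975270932 := (Half.stab s297_t2 s386_t1 (by decide +kernel) : Stab 13 2024986057892 2062975270932)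

theorem p13_220 : Stab 13 2062975127655 2124273702708 := (Half.stab s441_t1 s511_t2 (by decide +kernel) : Stab 13 2062975127655 2124273702708)

theorem p13_221 : Stab 13 2124270906150 2150777099562 := (Half.stab s599_t1 s511_t2 (by decide +kernel) : Stab 13 2124270906150 2150777099562)

theorem p13_222 : Stab 13 2150770065582 2193034439610 := (Half.stab s401_t1 s192_t5 (by decide +kernel) : Stab 13 2150770065582 2193034439610)

theorem p13_223 : Stab 13 2184629563807 2199964341300 := (Half.stab s723_t1 s192_t5 (by decide +kernel) : Stab 13 2184629563807 2199964341300)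

theorem p13_224 : Stab 13 2199254516336 2254149425760 := (Half.stab s723_t1 s798_t5 (by decide +kernel) : Stab 13 2199254516336 2254149425760)

theorem p13_225 : Stab 13 2254149241458 2297353281600 := (Half.stab s251_t1 s420_t3 (by decide +kernel) : Stab 13 2254149241458 2297353281600)

theorem p13_226 : Stab 13 2297341624598 2304933068652 := (Half.stab s471_t1 s420_t3 (by decide +kernel) : Stab 13 2297341624598 2304933068652)

theorem p13_227 : Stab 13 2304931858899 2336740368000 := (Half.stab s471_t1 s545_t4 (by decide +kernel) : Stab 13 2304931858899 2336740368000)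

theorem p13_228 : Stab 13 2336740096015 2404532443128 := (Half.stab s372_t4 s815_t4 (by decide +kernel) : Stab 13 2336740096015 2404532443128)

theorem p13_229 : Stab 13 2404531960297 2473696919502 := (Half.stab s345_t9 s315_t7 (by decide +kernel) : Stab 13 2404531960297 2473696919502)

theorem p13_230 : Stab 13 2473696450633 2514936494916 := (Half.stab s345_t9 s255_t1 (by decide +kernel) : Stab 13 2473696450633 2514936494916)

theorem p13_231 : Stab 13 2514931417328 2538776711544 := (Half.stab s345_t9 s394_t2 (by decide +kernel) : Stab 13 2514931417328 2538776711544)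

theorem p13_232 : Stab 13 2538776440613 2571621443172 := (Half.stab s770_t4 s394_t2 (by decide +kernel) : Stab 13 2538776440613 2571621443172)

theorem p13_233 : Stab 13 2566587463450 2635201937160 := (Half.stab s770_t4 s249_t11 (by decide +kernel) : Stab 13 2566587463450 2635201937160)

theorem p13_234 : Stab 13 2635198120598 2714212523190 := (Half.stab s74_t4 s249_t11 (by decide +kernel) : Stab 13 2635198120598 2714212523190)

theorem p13_235 : Stab 13 2706334018638 2761146692616 := (Half.stab s74_t4 s656_t2 (by decide +kernel) : Stab 13 2706334018638 2761146692616)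

theorem p13_236 : Stab 13 2761143248430 2804931467562 := (Half.stab s698_t3 s656_t2 (by decide +kernel) : Stab 13 2761143248430 2804931467562)

theorem p13_237 : Stab 13 2779860794198 2850804366696 := (Half.stab s698_t3 s557_t7 (by decide +kernel) : Stab 13 2779860794198 2850804366696)

theorem p13_238 : Stab 13 2832218014772 2940994611996 := (Half.stab s5_t5 s557_t7 (by decide +kernel) : Stab 13 2832218014772 2940994611996)

theorem p13_239 : Stab 13 2938974950865 2983687445544 := (Half.stab s114_t1 s697_t1 (by decide +kernel) : Stab 13 2938974950865 2983687445544)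

theorem p13_240 : Stab 13 2976236217250 3094545057192 := (Half.stab s844_t6 s836_t7 (by decide +kernel) : Stab 13 2976236217250 3094545057192)

theorem p13_241 : Stab 13 3054437730587 3113805879852 := (Half.stab s844_t6 s14_t2 (by decide +kernel) : Stab 13 3054437730587 3113805879852)

theorem p13_242 : Stab 13 3113802667237 3132223888710 := (Half.stab s844_t6 s571_t2 (by decide +kernel) : Stab 13 3113802667237 3132223888710)

theorem p13_243 : Stab 13 3120122671138 3200844042762 := (Half.stab s517_t4 s571_t2 (by decide +kernel) : Stab 13 3120122671138 3200844042762)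

theorem p13_244 : Stab 13 3185651290377 3234931806828 := (Half.stab s526_t1 s571_t2 (by decide +kernel) : Stab 13 3185651290377 3234931806828)

theorem p13_245 : Stab 13 3234931303355 3258694812360 := (Half.stab s526_t1 s383_t7 (by decide +kernel) : Stab 13 3234931303355 3258694812360)

theorem p13_246 : Stab 13 3248425903909 3369473616378 := (Half.stab s195_t12 s383_t7 (by decide +kernel) : Stab 13 3248425903909 3369473616378)

theorem p13_247 : Stab 13 3369473237040 3511805499672 := (Half.stab s157_t10 s738_t6 (by decide +kernel) : Stab 13 3369473237040 3511805499672)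

theorem p13_248 : Stab 13 3511805158586 3623934477324 := (Half.stab s32_t1 s153_t10 (by decide +kernel) : Stab 13 3511805158586 3623934477324)

theorem p13_249 : Stab 13 3623934158599 3674680845864 := (Half.stab s633_t1 s439_t4 (by decide +kernel) : Stab 13 3623934158599 3674680845864)

theorem p13_250 : Stab 13 3674679592831 3743321789970 := (Half.stab s633_t1 s581_t1 (by decide +kernel) : Stab 13 3674679592831 3743321789970)

theorem p13_251 : Stab 13 3743320652011 3863888819094 := (Half.stab s146_t6 s436_t15 (by decide +kernel) : Stab 13 3743320652011 3863888819094)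

theorem p13_252 : Stab 13 3832682894512 3903315912972 := (Half.stab s524_t6 s436_t15 (by decide +kernel) : Stab 13 3832682894512 3903315912972)

theorem p13_253 : Stab 13 3903314246341 3989911872000 := (Half.stab s524_t6 s796_t2 (by decide +kernel) : Stab 13 3903314246341 3989911872000)

theorem p13_254 : Stab 13 3988482991432 4019493597894 := (Half.stab s474_t6 s796_t2 (by decide +kernel) : Stab 13 3988482991432 4019493597894)

theorem p13_255 : Stab 13 4012558952986 4176474688500 := (Half.stab s474_t6 s456_t5 (by decide +kernel) : Stab 13 4012558952986 4176474688500)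

theorem p13_256 : Stab 13 4176473625040 4313576301276 := (Half.stab s12_t2 s135_t7 (by decide +kernel) : Stab 13 4176473625040 4313576301276)

theorem p13_257 : Stab 13 4313574918135 4391087458194 := (Stab.scale s152_t0 (by decide +kernel) : Stab 13 (81 * 53254011335) (81 * 54210956274))

theorem p13_258 : Stab 13 4391086169079 4453763262354 := (Stab.scale s382_t0 (by decide +kernel) : Stab 13 (81 * 54210940359) (81 * 54984731634))

theorem p13_259 : Stab 13 4451889071475 4522601305458 := (Stab.scale s758_t0 (by decide +kernel) : Stab 13 (81 * 54961593475) (81 * 55834584018))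

theorem p13_260 : Stab 13 4522599767916 4582252712178 := (Stab.scale s76_t0 (by decide +kernel) : Stab 13 (81 * 55834565036) (81 * 56571021138))

theorem p13_261 : Stab 13 4582251360369 4640431414482 := (Stab.scale s501_t0 (by decide +kernel) : Stab 13 (81 * 56571004449) (81 * 57289276722))

theorem p13_262 : Stab 13 4640427732303 4698066636594 := (Stab.scale s177_t0 (by decide +kernel) : Stab 13 (81 * 57289231263) (81 * 58000822674))

theorem p13_263 : Stab 13 4698065222172 4786819832178 := (Stab.scale s468_t0 (by decide +kernel) : Stab 13 (81 * 58000805212) (81 * 59096541138))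

theorem p13_264 : Stab 13 4786818418161 4851789175314 := (Stab.scale s500_t0 (by decide +kernel) : Stab 13 (81 * 59096523681) (81 * 59898631794))

theorem p13_265 : Stab 13 4851785011023 4962785548914 := (Stab.scale s579_t0 (by decide +kernel) : Stab 13 (81 * 59898580383) (81 * 61268957394))

theorem p13_266 : Stab 13 4962783934503 5098201898418 := (Stab.scale s53_t0 (by decide +kernel) : Stab 13 (81 * 61268937463) (81 * 62940764178))

theorem p13_267 : Stab 13 5098200206652 5237988111090 := (Stab.scale s48_t0 (by decide +kernel) : Stab 13 (81 * 62940743292) (81 * 64666519890))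

theorem p13_268 : Stab 13 5202811782225 5349373875666 := (Stab.scale s99_t0 (by decide +kernel) : Stab 13 (81 * 64232244225) (81 * 66041652786))

theorem p13_269 : Stab 13 5349372444963 5449319480178 := (Stab.scale s593_t0 (by decide +kernel) : Stab 13 (81 * 66041635123) (81 * 67275549138))

theorem p13_270 : Stab 13 5449316335920 5571533239218 := (Stab.scale s626_t0 (by decide +kernel) : Stab 13 (81 * 67275510320) (81 * 68784360978))

theorem p13_271 : Stab 13 5571530188758 5679232872642 := (Stab.scale s39_t0 (by decide +kernel) : Stab 13 (81 * 68784323318) (81 * 70113986082))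

theorem p13_272 : Stab 13 5679231488480 5878527398280 := (Half.stab s844_t8 s770_t5 (by decide +kernel) : Stab 13 5679231488480 5878527398280)

theorem p13_273 : Stab 13 5876749115982 5996964070098 := (Stab.scale s423_t0 (by decide +kernel) : Stab 13 (81 * 72552458222) (81 * 74036593458))

theorem p13_274 : Stab 13 5939817357042 6281463267954 := (Stab.scale s249_t0 (by decide +kernel) : Stab 13 (81 * 73331078482) (81 * 77548929234))

theorem p13_275 : Stab 13 6281461954377 6366315831426 := (Stab.scale s413_t0 (by decide +kernel) : Stab 13 (81 * 77548913017) (81 * 78596491746))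

theorem p13_276 : Stab 13 6366313132263 6602521815810 := (Stab.scale s838_t0 (by decide +kernel) : Stab 13 (81 * 78596458423) (81 * 81512615010))

theorem p13_277 : Stab 13 6602518231479 6668805792834 := (Stab.scale s77_t0 (by decide +kernel) : Stab 13 (81 * 81512570759) (81 * 82330935714))

theorem p13_278 : Stab 13 6668804416968 6865938598050 := (Stab.scale s873_t0 (by decide +kernel) : Stab 13 (81 * 82330918728) (81 * 84764674050))

theorem p13_279 : Stab 13 6865935161949 7248860999586 := (Stab.scale s844_t0 (by decide +kernel) : Stab 13 (81 * 84764631629) (81 * 89492111106))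

theorem p13_280 : Stab 13 7248857261841 7360625315394 := (Stab.scale s561_t0 (by decide +kernel) : Stab 13 (81 * 89492064961) (81 * 90871917474))

theorem p13_281 : Stab 13 7360622176563 7508609951490 := (Stab.scale s515_t0 (by decide +kernel) : Stab 13 (81 * 90871878723) (81 * 92698888290))

theorem p13_282 : Stab 13 7508608665615 7656025913154 := (Stab.scale s41_t0 (by decide +kernel) : Stab 13 (81 * 92698872415) (81 * 94518838434))

theorem p13_283 : Stab 13 7656024423726 7775208812898 := (Stab.scale s344_t0 (by decide +kernel) : Stab 13 (81 * 94518820046) (81 * 95990232258))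

theorem p13_284 : Stab 13 7775207153937 7911948517074 := (Stab.scale s544_t0 (by decide +kernel) : Stab 13 (81 * 95990211777) (81 * 97678376754))

theorem p13_285 : Stab 13 7911947073249 8069030731026 := (Stab.scale s572_t0 (by decide +kernel) : Stab 13 (81 * 97678358929) (81 * 99617663346))

theorem p13_286 : Stab 13 8069027855850 8184411314514 := (Stab.scale s426_t0 (by decide +kernel) : Stab 13 (81 * 99617627850) (81 * 101042114994))

theorem p13_287 : Stab 13 8184410009361 8406281302002 := (Stab.scale s454_t0 (by decide +kernel) : Stab 13 (81 * 101042098881) (81 * 103781250642))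

theorem p13_288 : Stab 13 8406279935046 8704992827250 := (Stab.scale s11_t0 (by decide +kernel) : Stab 13 (81 * 103781233766) (81 * 107469047250))

theorem p13_289 : Stab 13 8704991092068 8965851663186 := (Stab.scale s458_t0 (by decide +kernel) : Stab 13 (81 * 107469025828) (81 * 110689526706))

theorem p13_290 : Stab 13 8965847989188 9156067957458 := (Stab.scale s36_t0 (by decide +kernel) : Stab 13 (81 * 110689481348) (81 * 113037876018))

theorem p13_291 : Stab 13 9141687728082 9292561531794 := (Stab.scale s852_t0 (by decide +kernel) : Stab 13 (81 * 112860342322) (81 * 114722981874))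

theorem p13_292 : Stab 13 9292558317957 9520916260050 := (Stab.scale s734_t0 (by decide +kernel) : Stab 13 (81 * 114722942197) (81 * 117542176050))

theorem p13_293 : Stab 13 9520913507022 9665954079858 := (Stab.scale s826_t0 (by decide +kernel) : Stab 13 (81 * 117542142062) (81 * 119332766418))

theorem p13_294 : Stab 13 9665952457185 9815859069138 := (Stab.scale s358_t0 (by decide +kernel) : Stab 13 (81 * 119332746385) (81 * 121183445298))

theorem p13_295 : Stab 13 9815856307200 9992498218578 := (Stab.scale s478_t0 (by decide +kernel) : Stab 13 (81 * 121183411200) (81 * 123364175538))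

theorem p13_296 : Stab 13 9992496558402 10121138973810 := (Stab.scale s296_t0 (by decide +kernel) : Stab 13 (81 * 123364155042) (81 * 124952333010))

theorem p13_297 : Stab 13 10071602656011 10161024601122 := (Stab.scale s341_t0 (by decide +kernel) : Stab 13 (81 * 124340773531) (81 * 125444748162))

theorem p13_298 : Stab 13 10156338533849 10496462729364 := (Half.stab s271_t6 s557_t15 (by decide +kernel) : Stab 13 10156338533849 10496462729364)

theorem p13_299 : Stab 13 10472937089037 10524332517774 := (Half.stab s271_t6 s812_t10 (by decide +kernel) : Stab 13 10472937089037 10524332517774)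

theorem p13_300 : Stab 13 10524328465287 11027776128366 := (Half.stab s587_t8 s812_t10 (by decide +kernel) : Stab 13 10524328465287 11027776128366)

theorem p13_301 : Stab 13 10950049256004 11153868460722 := (Stab.scale s789_t0 (by decide +kernel) : Stab 13 (81 * 135185793284) (81 * 137702079762))

theorem p13_302 : Stab 13 11153866741740 11346848796402 := (Stab.scale s568_t0 (by decide +kernel) : Stab 13 (81 * 137702058540) (81 * 140084553042))

theorem p13_303 : Stab 13 11346845316480 11622280906098 := (Stab.scale s124_t0 (by decide +kernel) : Stab 13 (81 * 140084510080) (81 * 143484949458))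

theorem p13_304 : Stab 13 11610923933358 11832702444306 := (Stab.scale s867_t0 (by decide +kernel) : Stab 13 (81 * 143344739918) (81 * 146082746226))

theorem p13_305 : Stab 13 11832590946996 11937515540994 := (Stab.scale s325_t0 (by decide +kernel) : Stab 13 (81 * 146081369716) (81 * 147376735074))

theorem p13_306 : Stab 13 11937514057155 12125482911090 := (Stab.scale s503_t0 (by decide +kernel) : Stab 13 (81 * 147376716755) (81 * 149697319890))

theorem p13_307 : Stab 13 12125481414453 12378050835858 := (Stab.scale s332_t0 (by decide +kernel) : Stab 13 (81 * 149697301413) (81 * 152815442418))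

theorem p13_308 : Stab 13 12340437255282 12422202732954 := (Half.stab s792_t7 s487_t1 (by decide +kernel) : Stab 13 12340437255282 12422202732954)

theorem p13_309 : Stab 13 12422202090840 12768763148658 := (Stab.scale s707_t0 (by decide +kernel) : Stab 13 (81 * 153360519640) (81 * 157639051218))

theorem p13_310 : Stab 13 12768761850876 12945278931858 := (Stab.scale s493_t0 (by decide +kernel) : Stab 13 (81 * 157639035196) (81 * 159818258418))

theorem p13_311 : Stab 13 12945274214580 13162956481170 := (Stab.scale s389_t0 (by decide +kernel) : Stab 13 (81 * 159818200180) (81 * 162505635570))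

theorem p13_312 : Stab 13 13162953151017 13514372101458 := (Stab.scale s520_t0 (by decide +kernel) : Stab 13 (81 * 162505594457) (81 * 166844100018))

theorem p13_313 : Stab 13 13514368892481 13735320376338 := (Stab.scale s743_t0 (by decide +kernel) : Stab 13 (81 * 166844060401) (81 * 169571856498))

theorem p13_314 : Stab 13 13735318604463 13896105128802 := (Stab.scale s470_t0 (by decide +kernel) : Stab 13 (81 * 169571834623) (81 * 171556853442))

theorem p13_315 : Stab 13 13896097888779 14076335281698 := (Stab.scale s411_t0 (by decide +kernel) : Stab 13 (81 * 171556764059) (81 * 173781917058))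

theorem p13_316 : Stab 13 14063297587956 14488266094002 := (Stab.scale s768_t0 (by decide +kernel) : Stab 13 (81 * 173620957876) (81 * 178867482642))

theorem p13_317 : Stab 13 14488264813311 14741812146258 := (Stab.scale s270_t0 (by decide +kernel) : Stab 13 (81 * 178867466831) (81 * 181997680818))

def Ls13 : List (ℕ × ℕ) := [(179672858601, 183165051756), (183165016726, 190290106284), (190290041769, 191908567164), (191908521386, 195272344764), (195272297284, 196099289760), (196099000305, 198539653440), (198539362518, 200678935680), (200678644036, 201789548400), (201789347711, 202537823040), (202442505328, 205076700240), (205076679230, 210033871932), (210033853242, 213548524476), (213548507123, 220214994636), (220214957712, 230201837580), (230201818601, 239722696764), (239722681143, 245675241420), (245675160384, 253739782428), (253739743318, 256781997180), (256781957946, 264158660268), (264158624480, 267817052268), (267817019149, 270987985452), (270987966481, 274534870764), (274534853878, 279766145052), (279766101309, 284192772300), (284192733622, 287972693196), (287972657245, 293302465692), (293302413830, 297658327500),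 (297658277858, 304862294172), (304862261925, 309327592236), (309327572779, 321504357420), (321504336439, 335962049388), (335962029705, 349091503980), (349091482237, 364991685276), (364991647593, 377849560860), (377849542099, 383611952220), (383611929622, 389660445852), (389660429440, 397012961628), (397012911185, 402719481276), (402719443320, 407193746364), (407193709161, 410597982972), (410597946577, 414824709372), (414824674398, 423285001884), (423284980534, 436537012092), (436536996177, 441391062480), (441390610426, 446108231280), (446108208855, 452695338396), (452695318586, 458360287200), (458360221039, 458802157692), (458802103021, 463413775920), (463413682084, 467197117338), (467196963428, 472032987840), (472032841114, 477802350522), (477801690913, 481849811112), (481849176097, 483177248442), (483175730465, 488928944040), (488928712270, 491842167600), (491841275400, 495174603120), (495174160241, 498028015674), (498027985456, 503204068908), (503204042151, 509050821120), (509049711044, 515346849360), (513551276993, 517930388640), (517929263071, 521145514890), (521145497880, 527127660588), (527127641686, 534337953804),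 (534337932054, 539177280000), (535570857166, 542423758320), (542422774125, 551964595920), (550510885571, 558768232080), (558768189100, 563342475420), (563342421331, 572025144252), (572025090036, 578296102986), (578296056061, 583949724684), (583949680996, 591448827120), (591446431144, 596565941520), (596563553924, 602509062960), (602506740781, 607040286960), (607038027542, 613564326960), (613562090129, 617097846330), (616052334966, 619009070160), (619008933070, 629639687628), (629639312594, 634965318156), (631502027124, 642691615818), (641812552148, 649137268800), (649137159207, 662855853450), (662854665511, 675007042122), (675005285338, 677052684480), (677052583625, 684598232412), (684598147574, 698780674548), (698778796935, 703059234960), (703056669338, 708014080980), (708013938628, 714013216080), (713820650701, 723488880852), (723487497823, 733622742036), (733621157073, 735222557520), (735219562751, 743722821684), (743720970714, 753602675760), (753599644058, 757837400436), (756879104466, 772305093840), (761396988737, 774260737524), (774259129307, 791987162868), (791987068168, 803201580468), (803200212039, 822495177396),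 (819637436199, 831764176080), (831760891876, 844506982074), (844505343668, 866305126554), (866303944519, 875715600240), (875712474678, 886954101930), (880537764684, 893675326986), (893674690570, 897975010560), (897971768173, 908325726282), (906098295101, 923306276568), (923244661505, 928251986130), (928251570318, 945839431368), (945839191711, 949603419786), (949600318625, 968660643840), (968655471222, 989374162920), (984541903623, 991599109200), (990225462326, 998428621032), (997877850490, 1025491970202), (1020548676654, 1031847518520), (1031847422152, 1047503598960), (1047503504442, 1077893853816), (1077568950139, 1092700557120), (1092695484072, 1138072318968), (1138071894611, 1162424047512), (1162422382048, 1164110190486), (1164109136183, 1185717892632), (1185717597259, 1195874519382), (1194283478522, 1215132017388), (1212244922234, 1240840832154), (1240839004666, 1257283390092), (1255876188309, 1262579008026), (1259027172854, 1292267199330), (1292266964261, 1319227642824), (1319227507169, 1339795997946), (1334173699520, 1354211643276), (1349130705434, 1372441753680), (1372438117398, 1395081094668), (1393289537799,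 1406949551172), (1400583826961, 1432502301840), (1421197987397, 1444522478148), (1444521692990, 1493242658160), (1469325106736, 1503530887860), (1499203063379, 1518858062904), (1510452341970, 1566600307092), (1564286695969, 1599016093626), (1596540738375, 1610528806950), (1610527492760, 1627120296858), (1613998955908, 1696313185944), (1687384096349, 1712335263210), (1712334279620, 1734631842960), (1724691503133, 1749355022466), (1749353082273, 1763479387746), (1759736495175, 1811948810490), (1811948682705, 1862738183280), (1853988130780, 1892735016948), (1892734525828, 1919800184886), (1919798345046, 1971843762198), (1935398290304, 1980582045876), (1980579390351, 2024986141332), (2024986057892, 2062975270932), (2062975127655, 2124273702708), (2124270906150, 2150777099562), (2150770065582, 2193034439610), (2184629563807, 2199964341300), (2199254516336, 2254149425760), (2254149241458, 2297353281600), (2297341624598, 2304933068652), (2304931858899, 2336740368000), (2336740096015, 2404532443128), (2404531960297, 2473696919502), (2473696450633, 2514936494916), (2514931417328, 2538776711544), (2538776440613, 2571621443172),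 (2566587463450, 2635201937160), (2635198120598, 2714212523190), (2706334018638, 2761146692616), (2761143248430, 2804931467562), (2779860794198, 2850804366696), (2832218014772, 2940994611996), (2938974950865, 2983687445544), (2976236217250, 3094545057192), (3054437730587, 3113805879852), (3113802667237, 3132223888710), (3120122671138, 3200844042762), (3185651290377, 3234931806828), (3234931303355, 3258694812360), (3248425903909, 3369473616378), (3369473237040, 3511805499672), (3511805158586, 3623934477324), (3623934158599, 3674680845864), (3674679592831, 3743321789970), (3743320652011, 3863888819094), (3832682894512, 3903315912972), (3903314246341, 3989911872000), (3988482991432, 4019493597894), (4012558952986, 4176474688500), (4176473625040, 4313576301276), (4313574918135, 4391087458194), (4391086169079, 4453763262354), (4451889071475, 4522601305458), (4522599767916, 4582252712178), (4582251360369, 4640431414482), (4640427732303, 4698066636594), (4698065222172, 4786819832178), (4786818418161, 4851789175314), (4851785011023, 4962785548914), (4962783934503, 5098201898418), (5098200206652, 5237988111090), (5202811782225,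 5349373875666), (5349372444963, 5449319480178), (5449316335920, 5571533239218), (5571530188758, 5679232872642), (5679231488480, 5878527398280), (5876749115982, 5996964070098), (5939817357042, 6281463267954), (6281461954377, 6366315831426), (6366313132263, 6602521815810), (6602518231479, 6668805792834), (6668804416968, 6865938598050), (6865935161949, 7248860999586), (7248857261841, 7360625315394), (7360622176563, 7508609951490), (7508608665615, 7656025913154), (7656024423726, 7775208812898), (7775207153937, 7911948517074), (7911947073249, 8069030731026), (8069027855850, 8184411314514), (8184410009361, 8406281302002), (8406279935046, 8704992827250), (8704991092068, 8965851663186), (8965847989188, 9156067957458), (9141687728082, 9292561531794), (9292558317957, 9520916260050), (9520913507022, 9665954079858), (9665952457185, 9815859069138), (9815856307200, 9992498218578), (9992496558402, 10121138973810), (10071602656011, 10161024601122), (10156338533849, 10496462729364), (10472937089037, 10524332517774), (10524328465287, 11027776128366), (10950049256004, 11153868460722), (11153866741740, 11346848796402), (11346845316480,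 11622280906098), (11610923933358, 11832702444306), (11832590946996, 11937515540994), (11937514057155, 12125482911090), (12125481414453, 12378050835858), (12340437255282, 12422202732954), (12422202090840, 12768763148658), (12768761850876, 12945278931858), (12945274214580, 13162956481170), (13162953151017, 13514372101458), (13514368892481, 13735320376338), (13735318604463, 13896105128802), (13896097888779, 14076335281698), (14063297587956, 14488266094002), (14488264813311, 14741812146258)]

theorem Ls13_spec : ∀ w ∈ Ls13, Stab 13 w.1 w.2 :=
  (sfcons (a := ((179672858601 : ℕ), (183165051756 : ℕ))) p13_58 (sfcons (a := ((183165016726 : ℕ), (190290106284 : ℕ))) p13_59 (sfcons (a := ((190290041769 : ℕ), (191908567164 : ℕ))) p13_60 (sfcons (a := ((191908521386 : ℕ), (195272344764 : ℕ))) p13_61 (sfcons (a := ((195272297284 : ℕ), (196099289760 : ℕ))) p13_62 (sfcons (a := ((196099000305 : ℕ), (198539653440 : ℕ))) p13_63 (sfcons (a := ((198539362518 : ℕ), (200678935680 : ℕ))) p13_64 (sfcons (a := ((200678644036 : ℕ), (201789548400 : ℕ))) p13_65 (sfcons (a := ((201789347711 : ℕ), (202537823040 : ℕ))) p13_66 (sfcons (a := ((202442505328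 : ℕ), (205076700240 : ℕ))) p13_67 (sfcons (a := ((205076679230 : ℕ), (210033871932 : ℕ))) p13_68 (sfcons (a := ((210033853242 : ℕ), (213548524476 : ℕ))) p13_69 (sfcons (a := ((213548507123 : ℕ), (220214994636 : ℕ))) p13_70 (sfcons (a := ((220214957712 : ℕ), (230201837580 : ℕ))) p13_71 (sfcons (a := ((230201818601 : ℕ), (239722696764 : ℕ))) p13_72 (sfcons (a := ((239722681143 : ℕ), (245675241420 : ℕ))) p13_73 (sfcons (a := ((245675160384 : ℕ), (253739782428 : ℕ))) p13_74 (sfcons (a := ((253739743318 : ℕ), (256781997180 : ℕ))) p13_75 (sfcons (a := ((256781957946 : ℕ), (264158660268 : ℕ))) p13_76 (sfcons (a := ((264158624480 : ℕ), (267817052268 : ℕ))) p13_77 (sfcons (a := ((267817019149 : ℕ), (270987985452 : ℕ))) p13_78 (sfcons (a := ((270987966481 : ℕ), (274534870764 : ℕ))) p13_79 (sfcons (a := ((274534853878 : ℕ), (279766145052 : ℕ))) p13_80 (sfcons (a := ((279766101309 : ℕ), (284192772300 : ℕ))) p13_81 (sfcons (a := ((284192733622 : ℕ), (287972693196 : ℕ))) p13_82 (sfcons (a := ((287972657245 : ℕ), (293302465692 : ℕ))) p13_83 (sfcons (a := ((293302413830 : ℕ), (297658327500 : ℕ))) p13_84 (sfcons (a := ((297658277858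 : ℕ), (304862294172 : ℕ))) p13_85 (sfcons (a := ((304862261925 : ℕ), (309327592236 : ℕ))) p13_86 (sfcons (a := ((309327572779 : ℕ), (321504357420 : ℕ))) p13_87 (sfcons (a := ((321504336439 : ℕ), (335962049388 : ℕ))) p13_88 (sfcons (a := ((335962029705 : ℕ), (349091503980 : ℕ))) p13_89 (sfcons (a := ((349091482237 : ℕ), (364991685276 : ℕ))) p13_90 (sfcons (a := ((364991647593 : ℕ), (377849560860 : ℕ))) p13_91 (sfcons (a := ((377849542099 : ℕ), (383611952220 : ℕ))) p13_92 (sfcons (a := ((383611929622 : ℕ), (389660445852 : ℕ))) p13_93 (sfcons (a := ((389660429440 : ℕ), (397012961628 : ℕ))) p13_94 (sfcons (a := ((397012911185 : ℕ), (402719481276 : ℕ))) p13_95 (sfcons (a := ((402719443320 : ℕ), (407193746364 : ℕ))) p13_96 (sfcons (a := ((407193709161 : ℕ), (410597982972 : ℕ))) p13_97 (sfcons (a := ((410597946577 : ℕ), (414824709372 : ℕ))) p13_98 (sfcons (a := ((414824674398 : ℕ), (423285001884 : ℕ))) p13_99 (sfcons (a := ((423284980534 : ℕ), (436537012092 : ℕ))) p13_100 (sfcons (a := ((436536996177 : ℕ), (441391062480 : ℕ))) p13_101 (sfcons (a := ((441390610426 : ℕ), (446108231280 : ℕ))) p13_102 (sfcons (a := ((446108208855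 : ℕ), (452695338396 : ℕ))) p13_103 (sfcons (a := ((452695318586 : ℕ), (458360287200 : ℕ))) p13_104 (sfcons (a := ((458360221039 : ℕ), (458802157692 : ℕ))) p13_105 (sfcons (a := ((458802103021 : ℕ), (463413775920 : ℕ))) p13_106 (sfcons (a := ((463413682084 : ℕ), (467197117338 : ℕ))) p13_107 (sfcons (a := ((467196963428 : ℕ), (472032987840 : ℕ))) p13_108 (sfcons (a := ((472032841114 : ℕ), (477802350522 : ℕ))) p13_109 (sfcons (a := ((477801690913 : ℕ), (481849811112 : ℕ))) p13_110 (sfcons (a := ((481849176097 : ℕ), (483177248442 : ℕ))) p13_111 (sfcons (a := ((483175730465 : ℕ), (488928944040 : ℕ))) p13_112 (sfcons (a := ((488928712270 : ℕ), (491842167600 : ℕ))) p13_113 (sfcons (a := ((491841275400 : ℕ), (495174603120 : ℕ))) p13_114 (sfcons (a := ((495174160241 : ℕ), (498028015674 : ℕ))) p13_115 (sfcons (a := ((498027985456 : ℕ), (503204068908 : ℕ))) p13_116 (sfcons (a := ((503204042151 : ℕ), (509050821120 : ℕ))) p13_117 (sfcons (a := ((509049711044 : ℕ), (515346849360 : ℕ))) p13_118 (sfcons (a := ((513551276993 : ℕ), (517930388640 : ℕ))) p13_119 (sfcons (a := ((517929263071 : ℕ), (521145514890 : ℕ))) p13_120 (sfcons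 (a := ((521145497880 : ℕ), (527127660588 : ℕ))) p13_121 (sfcons (a := ((527127641686 : ℕ), (534337953804 : ℕ))) p13_122 (sfcons (a := ((534337932054 : ℕ), (539177280000 : ℕ))) p13_123 (sfcons (a := ((535570857166 : ℕ), (542423758320 : ℕ))) p13_124 (sfcons (a := ((542422774125 : ℕ), (551964595920 : ℕ))) p13_125 (sfcons (a := ((550510885571 : ℕ), (558768232080 : ℕ))) p13_126 (sfcons (a := ((558768189100 : ℕ), (563342475420 : ℕ))) p13_127 (sfcons (a := ((563342421331 : ℕ), (572025144252 : ℕ))) p13_128 (sfcons (a := ((572025090036 : ℕ), (578296102986 : ℕ))) p13_129 (sfcons (a := ((578296056061 : ℕ), (583949724684 : ℕ))) p13_130 (sfcons (a := ((583949680996 : ℕ), (591448827120 : ℕ))) p13_131 (sfcons (a := ((591446431144 : ℕ), (596565941520 : ℕ))) p13_132 (sfcons (a := ((596563553924 : ℕ), (602509062960 : ℕ))) p13_133 (sfcons (a := ((602506740781 : ℕ), (607040286960 : ℕ))) p13_134 (sfcons (a := ((607038027542 : ℕ), (613564326960 : ℕ))) p13_135 (sfcons (a := ((613562090129 : ℕ), (617097846330 : ℕ))) p13_136 (sfcons (a := ((616052334966 : ℕ), (619009070160 : ℕ))) p13_137 (sfcons (a := ((619008933070 : ℕ), (629639687628 :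 ℕ))) p13_138 (sfcons (a := ((629639312594 : ℕ), (634965318156 : ℕ))) p13_139 (sfcons (a := ((631502027124 : ℕ), (642691615818 : ℕ))) p13_140 (sfcons (a := ((641812552148 : ℕ), (649137268800 : ℕ))) p13_141 (sfcons (a := ((649137159207 : ℕ), (662855853450 : ℕ))) p13_142 (sfcons (a := ((662854665511 : ℕ), (675007042122 : ℕ))) p13_143 (sfcons (a := ((675005285338 : ℕ), (677052684480 : ℕ))) p13_144 (sfcons (a := ((677052583625 : ℕ), (684598232412 : ℕ))) p13_145 (sfcons (a := ((684598147574 : ℕ), (698780674548 : ℕ))) p13_146 (sfcons (a := ((698778796935 : ℕ), (703059234960 : ℕ))) p13_147 (sfcons (a := ((703056669338 : ℕ), (708014080980 : ℕ))) p13_148 (sfcons (a := ((708013938628 : ℕ), (714013216080 : ℕ))) p13_149 (sfcons (a := ((713820650701 : ℕ), (723488880852 : ℕ))) p13_150 (sfcons (a := ((723487497823 : ℕ), (733622742036 : ℕ))) p13_151 (sfcons (a := ((733621157073 : ℕ), (735222557520 : ℕ))) p13_152 (sfcons (a := ((735219562751 : ℕ), (743722821684 : ℕ))) p13_153 (sfcons (a := ((743720970714 : ℕ), (753602675760 : ℕ))) p13_154 (sfcons (a := ((753599644058 : ℕ), (757837400436 : ℕ))) p13_155 (sfcons (a := ((756879104466 :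 ℕ), (772305093840 : ℕ))) p13_156 (sfcons (a := ((761396988737 : ℕ), (774260737524 : ℕ))) p13_157 (sfcons (a := ((774259129307 : ℕ), (791987162868 : ℕ))) p13_158 (sfcons (a := ((791987068168 : ℕ), (803201580468 : ℕ))) p13_159 (sfcons (a := ((803200212039 : ℕ), (822495177396 : ℕ))) p13_160 (sfcons (a := ((819637436199 : ℕ), (831764176080 : ℕ))) p13_161 (sfcons (a := ((831760891876 : ℕ), (844506982074 : ℕ))) p13_162 (sfcons (a := ((844505343668 : ℕ), (866305126554 : ℕ))) p13_163 (sfcons (a := ((866303944519 : ℕ), (875715600240 : ℕ))) p13_164 (sfcons (a := ((875712474678 : ℕ), (886954101930 : ℕ))) p13_165 (sfcons (a := ((880537764684 : ℕ), (893675326986 : ℕ))) p13_166 (sfcons (a := ((893674690570 : ℕ), (897975010560 : ℕ))) p13_167 (sfcons (a := ((897971768173 : ℕ), (908325726282 : ℕ))) p13_168 (sfcons (a := ((906098295101 : ℕ), (923306276568 : ℕ))) p13_169 (sfcons (a := ((923244661505 : ℕ), (928251986130 : ℕ))) p13_170 (sfcons (a := ((928251570318 : ℕ), (945839431368 : ℕ))) p13_171 (sfcons (a := ((945839191711 : ℕ), (949603419786 : ℕ))) p13_172 (sfcons (a := ((949600318625 : ℕ), (968660643840 : ℕ))) p13_173 (sfcons (a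 := ((968655471222 : ℕ), (989374162920 : ℕ))) p13_174 (sfcons (a := ((984541903623 : ℕ), (991599109200 : ℕ))) p13_175 (sfcons (a := ((990225462326 : ℕ), (998428621032 : ℕ))) p13_176 (sfcons (a := ((997877850490 : ℕ), (1025491970202 : ℕ))) p13_177 (sfcons (a := ((1020548676654 : ℕ), (1031847518520 : ℕ))) p13_178 (sfcons (a := ((1031847422152 : ℕ), (1047503598960 : ℕ))) p13_179 (sfcons (a := ((1047503504442 : ℕ), (1077893853816 : ℕ))) p13_180 (sfcons (a := ((1077568950139 : ℕ), (1092700557120 : ℕ))) p13_181 (sfcons (a := ((1092695484072 : ℕ), (1138072318968 : ℕ))) p13_182 (sfcons (a := ((1138071894611 : ℕ), (1162424047512 : ℕ))) p13_183 (sfcons (a := ((1162422382048 : ℕ), (1164110190486 : ℕ))) p13_184 (sfcons (a := ((1164109136183 : ℕ), (1185717892632 : ℕ))) p13_185 (sfcons (a := ((1185717597259 : ℕ), (1195874519382 : ℕ))) p13_186 (sfcons (a := ((1194283478522 : ℕ), (1215132017388 : ℕ))) p13_187 (sfcons (a := ((1212244922234 : ℕ), (1240840832154 : ℕ))) p13_188 (sfcons (a := ((1240839004666 : ℕ), (1257283390092 : ℕ))) p13_189 (sfcons (a := ((1255876188309 : ℕ), (1262579008026 : ℕ))) p13_190 (sfcons (a := ((1259027172854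 : ℕ), (1292267199330 : ℕ))) p13_191 (sfcons (a := ((1292266964261 : ℕ), (1319227642824 : ℕ))) p13_192 (sfcons (a := ((1319227507169 : ℕ), (1339795997946 : ℕ))) p13_193 (sfcons (a := ((1334173699520 : ℕ), (1354211643276 : ℕ))) p13_194 (sfcons (a := ((1349130705434 : ℕ), (1372441753680 : ℕ))) p13_195 (sfcons (a := ((1372438117398 : ℕ), (1395081094668 : ℕ))) p13_196 (sfcons (a := ((1393289537799 : ℕ), (1406949551172 : ℕ))) p13_197 (sfcons (a := ((1400583826961 : ℕ), (1432502301840 : ℕ))) p13_198 (sfcons (a := ((1421197987397 : ℕ), (1444522478148 : ℕ))) p13_199 (sfcons (a := ((1444521692990 : ℕ), (1493242658160 : ℕ))) p13_200 (sfcons (a := ((1469325106736 : ℕ), (1503530887860 : ℕ))) p13_201 (sfcons (a := ((1499203063379 : ℕ), (1518858062904 : ℕ))) p13_202 (sfcons (a := ((1510452341970 : ℕ), (1566600307092 : ℕ))) p13_203 (sfcons (a := ((1564286695969 : ℕ), (1599016093626 : ℕ))) p13_204 (sfcons (a := ((1596540738375 : ℕ), (1610528806950 : ℕ))) p13_205 (sfcons (a := ((1610527492760 : ℕ), (1627120296858 : ℕ))) p13_206 (sfcons (a := ((1613998955908 : ℕ), (1696313185944 : ℕ))) p13_207 (sfcons (a := ((1687384096349 : ℕ), (1712335263210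 : ℕ))) p13_208 (sfcons (a := ((1712334279620 : ℕ), (1734631842960 : ℕ))) p13_209 (sfcons (a := ((1724691503133 : ℕ), (1749355022466 : ℕ))) p13_210 (sfcons (a := ((1749353082273 : ℕ), (1763479387746 : ℕ))) p13_211 (sfcons (a := ((1759736495175 : ℕ), (1811948810490 : ℕ))) p13_212 (sfcons (a := ((1811948682705 : ℕ), (1862738183280 : ℕ))) p13_213 (sfcons (a := ((1853988130780 : ℕ), (1892735016948 : ℕ))) p13_214 (sfcons (a := ((1892734525828 : ℕ), (1919800184886 : ℕ))) p13_215 (sfcons (a := ((1919798345046 : ℕ), (1971843762198 : ℕ))) p13_216 (sfcons (a := ((1935398290304 : ℕ), (1980582045876 : ℕ))) p13_217 (sfcons (a := ((1980579390351 : ℕ), (2024986141332 : ℕ))) p13_218 (sfcons (a := ((2024986057892 : ℕ), (2062975270932 : ℕ))) p13_219 (sfcons (a := ((2062975127655 : ℕ), (2124273702708 : ℕ))) p13_220 (sfcons (a := ((2124270906150 : ℕ), (2150777099562 : ℕ))) p13_221 (sfcons (a := ((2150770065582 : ℕ), (2193034439610 : ℕ))) p13_222 (sfcons (a := ((2184629563807 : ℕ), (2199964341300 : ℕ))) p13_223 (sfcons (a := ((2199254516336 : ℕ), (2254149425760 : ℕ))) p13_224 (sfcons (a := ((2254149241458 : ℕ), (2297353281600 : ℕ))) p13_225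 (sfcons (a := ((2297341624598 : ℕ), (2304933068652 : ℕ))) p13_226 (sfcons (a := ((2304931858899 : ℕ), (2336740368000 : ℕ))) p13_227 (sfcons (a := ((2336740096015 : ℕ), (2404532443128 : ℕ))) p13_228 (sfcons (a := ((2404531960297 : ℕ), (2473696919502 : ℕ))) p13_229 (sfcons (a := ((2473696450633 : ℕ), (2514936494916 : ℕ))) p13_230 (sfcons (a := ((2514931417328 : ℕ), (2538776711544 : ℕ))) p13_231 (sfcons (a := ((2538776440613 : ℕ), (2571621443172 : ℕ))) p13_232 (sfcons (a := ((2566587463450 : ℕ), (2635201937160 : ℕ))) p13_233 (sfcons (a := ((2635198120598 : ℕ), (2714212523190 : ℕ))) p13_234 (sfcons (a := ((2706334018638 : ℕ), (2761146692616 : ℕ))) p13_235 (sfcons (a := ((2761143248430 : ℕ), (2804931467562 : ℕ))) p13_236 (sfcons (a := ((2779860794198 : ℕ), (2850804366696 : ℕ))) p13_237 (sfcons (a := ((2832218014772 : ℕ), (2940994611996 : ℕ))) p13_238 (sfcons (a := ((2938974950865 : ℕ), (2983687445544 : ℕ))) p13_239 (sfcons (a := ((2976236217250 : ℕ), (3094545057192 : ℕ))) p13_240 (sfcons (a := ((3054437730587 : ℕ), (3113805879852 : ℕ))) p13_241 (sfcons (a := ((3113802667237 : ℕ), (3132223888710 : ℕ))) p13_242 (sfcons (a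 := ((3120122671138 : ℕ), (3200844042762 : ℕ))) p13_243 (sfcons (a := ((3185651290377 : ℕ), (3234931806828 : ℕ))) p13_244 (sfcons (a := ((3234931303355 : ℕ), (3258694812360 : ℕ))) p13_245 (sfcons (a := ((3248425903909 : ℕ), (3369473616378 : ℕ))) p13_246 (sfcons (a := ((3369473237040 : ℕ), (3511805499672 : ℕ))) p13_247 (sfcons (a := ((3511805158586 : ℕ), (3623934477324 : ℕ))) p13_248 (sfcons (a := ((3623934158599 : ℕ), (3674680845864 : ℕ))) p13_249 (sfcons (a := ((3674679592831 : ℕ), (3743321789970 : ℕ))) p13_250 (sfcons (a := ((3743320652011 : ℕ), (3863888819094 : ℕ))) p13_251 (sfcons (a := ((3832682894512 : ℕ), (3903315912972 : ℕ))) p13_252 (sfcons (a := ((3903314246341 : ℕ), (3989911872000 : ℕ))) p13_253 (sfcons (a := ((3988482991432 : ℕ), (4019493597894 : ℕ))) p13_254 (sfcons (a := ((4012558952986 : ℕ), (4176474688500 : ℕ))) p13_255 (sfcons (a := ((4176473625040 : ℕ), (4313576301276 : ℕ))) p13_256 (sfcons (a := ((4313574918135 : ℕ), (4391087458194 : ℕ))) p13_257 (sfcons (a := ((4391086169079 : ℕ), (4453763262354 : ℕ))) p13_258 (sfcons (a := ((4451889071475 : ℕ), (4522601305458 : ℕ))) p13_259 (sfcons (a := ((4522599767916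 : ℕ), (4582252712178 : ℕ))) p13_260 (sfcons (a := ((4582251360369 : ℕ), (4640431414482 : ℕ))) p13_261 (sfcons (a := ((4640427732303 : ℕ), (4698066636594 : ℕ))) p13_262 (sfcons (a := ((4698065222172 : ℕ), (4786819832178 : ℕ))) p13_263 (sfcons (a := ((4786818418161 : ℕ), (4851789175314 : ℕ))) p13_264 (sfcons (a := ((4851785011023 : ℕ), (4962785548914 : ℕ))) p13_265 (sfcons (a := ((4962783934503 : ℕ), (5098201898418 : ℕ))) p13_266 (sfcons (a := ((5098200206652 : ℕ), (5237988111090 : ℕ))) p13_267 (sfcons (a := ((5202811782225 : ℕ), (5349373875666 : ℕ))) p13_268 (sfcons (a := ((5349372444963 : ℕ), (5449319480178 : ℕ))) p13_269 (sfcons (a := ((5449316335920 : ℕ), (5571533239218 : ℕ))) p13_270 (sfcons (a := ((5571530188758 : ℕ), (5679232872642 : ℕ))) p13_271 (sfcons (a := ((5679231488480 : ℕ), (5878527398280 : ℕ))) p13_272 (sfcons (a := ((5876749115982 : ℕ), (5996964070098 : ℕ))) p13_273 (sfcons (a := ((5939817357042 : ℕ), (6281463267954 : ℕ))) p13_274 (sfcons (a := ((6281461954377 : ℕ), (6366315831426 : ℕ))) p13_275 (sfcons (a := ((6366313132263 : ℕ), (6602521815810 : ℕ))) p13_276 (sfcons (a := ((6602518231479 : ℕ), (6668805792834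 : ℕ))) p13_277 (sfcons (a := ((6668804416968 : ℕ), (6865938598050 : ℕ))) p13_278 (sfcons (a := ((6865935161949 : ℕ), (7248860999586 : ℕ))) p13_279 (sfcons (a := ((7248857261841 : ℕ), (7360625315394 : ℕ))) p13_280 (sfcons (a := ((7360622176563 : ℕ), (7508609951490 : ℕ))) p13_281 (sfcons (a := ((7508608665615 : ℕ), (7656025913154 : ℕ))) p13_282 (sfcons (a := ((7656024423726 : ℕ), (7775208812898 : ℕ))) p13_283 (sfcons (a := ((7775207153937 : ℕ), (7911948517074 : ℕ))) p13_284 (sfcons (a := ((7911947073249 : ℕ), (8069030731026 : ℕ))) p13_285 (sfcons (a := ((8069027855850 : ℕ), (8184411314514 : ℕ))) p13_286 (sfcons (a := ((8184410009361 : ℕ), (8406281302002 : ℕ))) p13_287 (sfcons (a := ((8406279935046 : ℕ), (8704992827250 : ℕ))) p13_288 (sfcons (a := ((8704991092068 : ℕ), (8965851663186 : ℕ))) p13_289 (sfcons (a := ((8965847989188 : ℕ), (9156067957458 : ℕ))) p13_290 (sfcons (a := ((9141687728082 : ℕ), (9292561531794 : ℕ))) p13_291 (sfcons (a := ((9292558317957 : ℕ), (9520916260050 : ℕ))) p13_292 (sfcons (a := ((9520913507022 : ℕ), (9665954079858 : ℕ))) p13_293 (sfcons (a := ((9665952457185 : ℕ), (9815859069138 : ℕ))) p13_294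 (sfcons (a := ((9815856307200 : ℕ), (9992498218578 : ℕ))) p13_295 (sfcons (a := ((9992496558402 : ℕ), (10121138973810 : ℕ))) p13_296 (sfcons (a := ((10071602656011 : ℕ), (10161024601122 : ℕ))) p13_297 (sfcons (a := ((10156338533849 : ℕ), (10496462729364 : ℕ))) p13_298 (sfcons (a := ((10472937089037 : ℕ), (10524332517774 : ℕ))) p13_299 (sfcons (a := ((10524328465287 : ℕ), (11027776128366 : ℕ))) p13_300 (sfcons (a := ((10950049256004 : ℕ), (11153868460722 : ℕ))) p13_301 (sfcons (a := ((11153866741740 : ℕ), (11346848796402 : ℕ))) p13_302 (sfcons (a := ((11346845316480 : ℕ), (11622280906098 : ℕ))) p13_303 (sfcons (a := ((11610923933358 : ℕ), (11832702444306 : ℕ))) p13_304 (sfcons (a := ((11832590946996 : ℕ), (11937515540994 : ℕ))) p13_305 (sfcons (a := ((11937514057155 : ℕ), (12125482911090 : ℕ))) p13_306 (sfcons (a := ((12125481414453 : ℕ), (12378050835858 : ℕ))) p13_307 (sfcons (a := ((12340437255282 : ℕ), (12422202732954 : ℕ))) p13_308 (sfcons (a := ((12422202090840 : ℕ), (12768763148658 : ℕ))) p13_309 (sfcons (a := ((12768761850876 : ℕ), (12945278931858 : ℕ))) p13_310 (sfcons (a := ((12945274214580 : ℕ), (13162956481170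 : ℕ))) p13_311 (sfcons (a := ((13162953151017 : ℕ), (13514372101458 : ℕ))) p13_312 (sfcons (a := ((13514368892481 : ℕ), (13735320376338 : ℕ))) p13_313 (sfcons (a := ((13735318604463 : ℕ), (13896105128802 : ℕ))) p13_314 (sfcons (a := ((13896097888779 : ℕ), (14076335281698 : ℕ))) p13_315 (sfcons (a := ((14063297587956 : ℕ), (14488266094002 : ℕ))) p13_316 (sfcons (a := ((14488264813311 : ℕ), (14741812146258 : ℕ))) p13_317 sfnil))))))))))))))))))))))))))))))))))))))))))))))))))))))))))))))))))))))))))))))))))))))))))))))))))))))))))))))))))))))))))))))))))))))))))))))))))))))))))))))))))))))))))))))))))))))))))))))))))))))))))))))))))))))))))))))))))))))))))))))))))))))))))))))))))))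

theorem Ls13_cover : cover 180000000000 Ls13 14580000000000 = true := by decide +kernel

end Pool.Agent.Lib.MP_cfac74_al.Cov
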