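import Pool.Agent.Lib.MP_cfac74_al.S.S00
import Pool.Agent.Lib.MP_cfac74_al.S.S01
import Pool.Agent.Lib.MP_cfac74_al.S.S02
import Pool.Agent.Lib.MP_cfac74_al.S.S03
import Pool.Agent.Lib.MP_cfac74_al.S.S04
import Pool.Agent.Lib.MP_cfac74_al.S.S05
import Pool.Agent.Lib.MP_cfac74_al.S.S06
import Pool.Agent.Lib.MP_cfac74_al.S.S07
import Pool.Agent.Lib.MP_cfac74_al.S.S08
import Pool.Agent.Lib.MP_cfac74_al.S.S09
import Pool.Agent.Lib.MP_cfac74_al.S.S10
import Pool.Agent.Lib.MP_cfac74_al.S.S11
import Pool.Agent.Lib.MP_cfac74_al.S.S12
import Pool.Agent.Lib.MP_cfac74_al.S.S13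
import Pool.Agent.Lib.MP_cfac74_al.S.S14
import Pool.Agent.Lib.MP_cfac74_al.S.S15
import Pool.Agent.Lib.MP_cfac74_al.S.S16
import Pool.Agent.Lib.MP_cfac74_al.S.S17
import Pool.Agent.Lib.MP_cfac74_al.S.S18
import Pool.Agent.Lib.MP_cfac74_al.S.Ls

/-!
# MP_cfac74_al : stable windows, class 15
-/

set_option autoImplicit false
set_option maxRecDepth 1000000

namespace Pool.Agent.Lib.MP_cfac74_al.Cov

theorem p15_0 : Stab 15 54961593475 55834584018 := s758_t0

theorem sw15_0 : Win 15 54961593475 55834584018 := p15_0.win (by decide +kernel)

theorem p15_1 : Stab 15 55834565036 56571021138 := s76_t0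

theorem sw15_1 : Win 15 55834565036 56571021138 := p15_1.win (by decide +kernel)

theorem p15_2 : Stab 15 56571004449 57289276722 := s501_t0

theorem sw15_2 : Win 15 56571004449 57289276722 := p15_2.win (by decide +kernel)

theorem p15_3 : Stab 15 57289231263 58000822674 := s177_t0

theorem sw15_3 : Win 15 57289231263 58000822674 := p15_3.win (by decide +kernel)

theorem p15_4 : Stab 15 58000805212 59096541138 := s468_t0

theorem sw15_4 : Win 15 58000805212 59096541138 := p15_4.win (by decide +kernel)

theorem p15_5 : Stab 15 59096523681 59898631794 := s500_t0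

theorem sw15_5 : Win 15 59096523681 59898631794 := p15_5.win (by decide +kernel)

theorem p15_6 : Stab 15 59898580383 61268957394 := s579_t0

theorem sw15_6 : Win 15 59898580383 61268957394 := p15_6.win (by decide +kernel)

theorem p15_7 : Stab 15 61268937463 62940764178 := s53_t0

theorem sw15_7 : Win 15 61268937463 62940764178 := p15_7.win (by decide +kernel)

theorem p15_8 : Stab 15 62940743292 64666519890 := s48_t0

theorem sw15_8 : Win 15 62940743292 64666519890 := p15_8.win (by decide +kernel)

theorem p15_9 : Stab 15 64232244225 66041652786 := s99_t0

theorem sw15_9 : Win 15 64232244225 66041652786 := p15_9.win (by decide +kernel)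

theorem p15_10 : Stab 15 66041635123 67275549138 := s593_t0

theorem sw15_10 : Win 15 66041635123 67275549138 := p15_10.win (by decide +kernel)

theorem p15_11 : Stab 15 67275510320 68784360978 := s626_t0

theorem sw15_11 : Win 15 67275510320 68784360978 := p15_11.win (by decide +kernel)

theorem p15_12 : Stab 15 68784323318 70113986082 := s39_t0

theorem sw15_12 : Win 15 68784323318 70113986082 := p15_12.win (by decide +kernel)

theorem p15_13 : Stab 15 70811900730 72205360530 := s307_t0

theorem sw15_13 : Win 15 70811900730 72205360530 := p15_13.win (by decide +kernel)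

theorem p15_14 : Stab 15 72552458222 74036593458 := s423_t0

theorem sw15_14 : Win 15 72552458222 74036593458 := p15_14.win (by decide +kernel)

theorem p15_15 : Stab 15 73331078482 77548929234 := s249_t0

theorem sw15_15 : Win 15 73331078482 77548929234 := p15_15.win (by decide +kernel)

theorem p15_16 : Stab 15 77548913017 78596491746 := s413_t0

theorem sw15_16 : Win 15 77548913017 78596491746 := p15_16.win (by decide +kernel)

theorem p15_17 : Stab 15 78596458423 81512615010 := s838_t0

theorem sw15_17 : Win 15 78596458423 81512615010 := p15_17.win (by decide +kernel)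

theorem p15_18 : Stab 15 81512570759 82330935714 := s77_t0

theorem sw15_18 : Win 15 81512570759 82330935714 := p15_18.win (by decide +kernel)

theorem p15_19 : Stab 15 82330918728 84764674050 := s873_t0

theorem sw15_19 : Win 15 82330918728 84764674050 := p15_19.win (by decide +kernel)

theorem p15_20 : Stab 15 84764631629 89492111106 := s844_t0

theorem sw15_20 : Win 15 84764631629 89492111106 := p15_20.win (by decide +kernel)

theorem p15_21 : Stab 15 89492064961 90871917474 := s561_t0

theorem sw15_21 : Win 15 89492064961 90871917474 := p15_21.win (by decide +kernel)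

theorem p15_22 : Stab 15 90871878723 92698888290 := s515_t0

theorem sw15_22 : Win 15 90871878723 92698888290 := p15_22.win (by decide +kernel)

theorem p15_23 : Stab 15 92698872415 94518838434 := s41_t0

theorem sw15_23 : Win 15 92698872415 94518838434 := p15_23.win (by decide +kernel)

theorem p15_24 : Stab 15 94518820046 95990232258 := s344_t0

theorem sw15_24 : Win 15 94518820046 95990232258 := p15_24.win (by decide +kernel)

theorem p15_25 : Stab 15 95990211777 97678376754 := s544_t0

theorem sw15_25 : Win 15 95990211777 97678376754 := p15_25.win (by decide +kernel)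

theorem p15_26 : Stab 15 97678358929 99617663346 := s572_t0

theorem sw15_26 : Win 15 97678358929 99617663346 := p15_26.win (by decide +kernel)

theorem p15_27 : Stab 15 99617627850 101042114994 := s426_t0

theorem sw15_27 : Win 15 99617627850 101042114994 := p15_27.win (by decide +kernel)

theorem p15_28 : Stab 15 101042098881 103781250642 := s454_t0

theorem sw15_28 : Win 15 101042098881 103781250642 := p15_28.win (by decide +kernel)

theorem p15_29 : Stab 15 103781233766 107469047250 := s11_t0

theorem sw15_29 : Win 15 103781233766 107469047250 := p15_29.win (by decide +kernel)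

theorem p15_30 : Stab 15 107469025828 110689526706 := s458_t0

theorem sw15_30 : Win 15 107469025828 110689526706 := p15_30.win (by decide +kernel)

theorem p15_31 : Stab 15 110689481348 113037876018 := s36_t0

theorem sw15_31 : Win 15 110689481348 113037876018 := p15_31.win (by decide +kernel)

theorem p15_32 : Stab 15 112860342322 114722981874 := s852_t0

theorem sw15_32 : Win 15 112860342322 114722981874 := p15_32.win (by decide +kernel)

theorem p15_33 : Stab 15 114722942197 117542176050 := s734_t0

theorem sw15_33 : Win 15 114722942197 117542176050 := p15_33.win (by decide +kernel)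

theorem p15_34 : Stab 15 117542142062 119332766418 := s826_t0

theorem sw15_34 : Win 15 117542142062 119332766418 := p15_34.win (by decide +kernel)

theorem p15_35 : Stab 15 119332746385 121183445298 := s358_t0

theorem sw15_35 : Win 15 119332746385 121183445298 := p15_35.win (by decide +kernel)

theorem p15_36 : Stab 15 121183411200 123364175538 := s478_t0

theorem sw15_36 : Win 15 121183411200 123364175538 := p15_36.win (by decide +kernel)

theorem p15_37 : Stab 15 123364155042 124952333010 := s296_t0

theorem sw15_37 : Win 15 123364155042 124952333010 := p15_37.win (by decide +kernel)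

theorem p15_38 : Stab 15 124340773531 125444748162 := s341_t0

theorem sw15_38 : Win 15 124340773531 125444748162 := p15_38.win (by decide +kernel)

theorem p15_39 : Stab 15 125820609701 127375469970 := s247_t0

theorem sw15_39 : Win 15 125820609701 127375469970 := p15_39.win (by decide +kernel)

theorem p15_40 : Stab 15 135185793284 137702079762 := s789_t0

theorem sw15_40 : Win 15 135185793284 137702079762 := p15_40.win (by decide +kernel)

theorem p15_41 : Stab 15 137702058540 140084553042 := s568_t0

theorem sw15_41 : Win 15 137702058540 140084553042 := p15_41.win (by decide +kernel)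

theorem p15_42 : Stab 15 140084510080 143484949458 := s124_t0

theorem sw15_42 : Win 15 140084510080 143484949458 := p15_42.win (by decide +kernel)

theorem p15_43 : Stab 15 143344739918 146082746226 := s867_t0

theorem sw15_43 : Win 15 143344739918 146082746226 := p15_43.win (by decide +kernel)

theorem p15_44 : Stab 15 146081369716 147376735074 := s325_t0

theorem sw15_44 : Win 15 146081369716 147376735074 := p15_44.win (by decide +kernel)

theorem p15_45 : Stab 15 147376716755 149697319890 := s503_t0

theorem sw15_45 : Win 15 147376716755 149697319890 := p15_45.win (by decide +kernel)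

theorem p15_46 : Stab 15 149697301413 152815442418 := s332_t0

theorem sw15_46 : Win 15 149697301413 152815442418 := p15_46.win (by decide +kernel)

theorem p15_47 : Stab 15 153360519640 157639051218 := s707_t0

theorem sw15_47 : Win 15 153360519640 157639051218 := p15_47.win (by decide +kernel)

theorem p15_48 : Stab 15 157639035196 159818258418 := s493_t0

theorem sw15_48 : Win 15 157639035196 159818258418 := p15_48.win (by decide +kernel)

theorem p15_49 : Stab 15 159818200180 162505635570 := s389_t0

theorem sw15_49 : Win 15 159818200180 162505635570 := p15_49.win (by decide +kernel)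

theorem p15_50 : Stab 15 162505594457 166844100018 := s520_t0

theorem sw15_50 : Win 15 162505594457 166844100018 := p15_50.win (by decide +kernel)

theorem p15_51 : Stab 15 166844060401 169571856498 := s743_t0

theorem sw15_51 : Win 15 166844060401 169571856498 := p15_51.win (by decide +kernel)

theorem p15_52 : Stab 15 169571834623 171556853442 := s470_t0

theorem sw15_52 : Win 15 169571834623 171556853442 := p15_52.win (by decide +kernel)

theorem p15_53 : Stab 15 171556764059 173781917058 := s411_t0

theorem sw15_53 : Win 15 171556764059 173781917058 := p15_53.win (by decide +kernel)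

theorem p15_54 : Stab 15 173620957876 178867482642 := s768_t0

theorem sw15_54 : Win 15 173620957876 178867482642 := p15_54.win (by decide +kernel)

theorem p15_55 : Stab 15 178867466831 181997680818 := s270_t0

theorem sw15_55 : Win 15 178867466831 181997680818 := p15_55.win (by decide +kernel)

theorem p15_56 : Stab 15 181997659812 186855583122 := s509_t0

theorem p15_57 : Stab 15 186855560076 191076698226 := s387_t0

theorem p15_58 : Stab 15 191076676741 198309301890 := s608_t0

theorem p15_59 : Stab 15 197016960985 203362569426 := s146_t0

theorem p15_60 : Stab 15 203256365870 206785156818 := s877_t0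

theorem p15_61 : Stab 15 205437745238 211552294626 := s796_t0

theorem p15_62 : Stab 15 211552226693 217237647234 := s530_t0

theorem p15_63 : Stab 15 217151424699 226897401282 := s741_t0

theorem p15_64 : Stab 15 226897379481 229776754866 := s94_t0

theorem p15_65 : Stab 15 229776735150 233428149186 := s691_t0

theorem p15_66 : Stab 15 233428129583 236261955234 := s803_t0

theorem p15_67 : Stab 15 236261897053 240665713170 := s324_t0

theorem p15_68 : Stab 15 240665660083 243852145074 := s827_t0

theorem p15_69 : Stab 15 243852006545 247907959026 := s289_t0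

theorem p15_70 : Stab 15 247907934958 256563941970 := s380_t0

theorem p15_71 : Stab 15 256563926269 267660211218 := s33_t0

theorem p15_72 : Stab 15 267660182119 274538754546 := s395_t0

theorem p15_73 : Stab 15 274538716229 277955514816 := (Half.stab s637_t1 s30_t1 (by decide +kernel) : Stab 15 274538716229 277955514816)

theorem p15_74 : Stab 15 277955212286 280950509952 := (Half.stab s637_t1 s62_t1 (by decide +kernel) : Stab 15 277955212286 280950509952)

theorem p15_75 : Stab 15 280950212677 283552952256 := (Half.stab s597_t1 s243_t1 (by decide +kernel) : Stab 15 280950212677 283552952256)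

theorem p15_76 : Stab 15 283552838059 284016079872 := (Half.stab s597_t1 s489_t0 (by decide +kernel) : Stab 15 283552838059 284016079872)

theorem p15_77 : Stab 15 284015890798 287163651234 := s592_t0

theorem p15_78 : Stab 15 287163620925 290814600930 := s736_t0

theorem p15_79 : Stab 15 290814549174 295651367310 := (Half.stab s869_t1 s512_t0 (by decide +kernel) : Stab 15 290814549174 295651367310)

theorem p15_80 : Stab 15 293512431727 297891775662 := (Half.stab s869_t1 s528_t1 (by decide +kernel) : Stab 15 293512431727 297891775662)

theorem p15_81 : Stab 15 297891382937 302775242094 := (Half.stab s869_t1 s16_t1 (by decide +kernel) : Stab 15 297891382937 302775242094)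

theorem p15_82 : Stab 15 300164184613 303178715190 := (Half.stab s869_t1 s163_t1 (by decide +kernel) : Stab 15 300164184613 303178715190)

theorem p15_83 : Stab 15 303178192442 306076286880 := (Half.stab s287_t1 s163_t1 (by decide +kernel) : Stab 15 303178192442 306076286880)

theorem p15_84 : Stab 15 306076202412 309417231030 := (Half.stab s287_t1 s772_t0 (by decide +kernel) : Stab 15 306076202412 309417231030)

theorem p15_85 : Stab 15 309417201644 314164008354 := s412_t0

theorem p15_86 : Stab 15 314163972952 315874149570 := s722_t0

theorem p15_87 : Stab 15 315874052962 321679025826 := s162_t0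

theorem p15_88 : Stab 15 321679004045 326623023906 := s866_t0

theorem p15_89 : Stab 15 326623007273 336158816418 := s484_t0

theorem p15_90 : Stab 15 336158725511 347642180034 := s461_t0

theorem p15_91 : Stab 15 346957770149 357865467330 := s329_t0

theorem p15_92 : Stab 15 357865438366 369099292386 := s879_t0

theorem p15_93 : Stab 15 367718115052 370112957922 := (Half.stab s518_t1 s863_t1 (by decide +kernel) : Stab 15 367718115052 370112957922)

theorem p15_94 : Stab 15 370112528903 373790736150 := (Half.stab s518_t1 s371_t1 (by decide +kernel) : Stab 15 370112528903 373790736150)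

theorem p15_95 : Stab 15 373789559285 379508221242 := (Half.stab s178_t1 s462_t2 (by decide +kernel) : Stab 15 373789559285 379508221242)

theorem p15_96 : Stab 15 379507760740 381418277706 := (Half.stab s876_t2 s655_t2 (by decide +kernel) : Stab 15 379507760740 381418277706)

theorem p15_97 : Stab 15 380919493246 384901514010 := (Half.stab s232_t1 s655_t2 (by decide +kernel) : Stab 15 380919493246 384901514010)

theorem p15_98 : Stab 15 384901359592 385693978992 := (Half.stab s232_t1 s483_t1 (by decide +kernel) : Stab 15 384901359592 385693978992)

theorem p15_99 : Stab 15 385693292850 389124165510 := (Half.stab s291_t1 s483_t1 (by decide +kernel) : Stab 15 385693292850 389124165510)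

theorem p15_100 : Stab 15 389123773703 394032033510 := (Half.stab s82_t0 s306_t1 (by decide +kernel) : Stab 15 389123773703 394032033510)

theorem p15_101 : Stab 15 394031897995 397942760208 := (Half.stab s117_t1 s91_t1 (by decide +kernel) : Stab 15 394031897995 397942760208)

theorem p15_102 : Stab 15 397942674481 401146157670 := (Half.stab s301_t1 s239_t0 (by decide +kernel) : Stab 15 397942674481 401146157670)

theorem p15_103 : Stab 15 401146119543 404261598738 := s405_t0

theorem p15_104 : Stab 15 404261549776 408350207250 := s475_t0

theorem p15_105 : Stab 15 408350151712 414128618310 := (Half.stab s149_t1 s634_t1 (by decide +kernel) : Stab 15 408350151712 414128618310)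

theorem p15_106 : Stab 15 413770894488 420022475376 := (Half.stab s96_t1 s745_t1 (by decide +kernel) : Stab 15 413770894488 420022475376)

theorem p15_107 : Stab 15 419675022056 420562920870 := (Half.stab s746_t1 s745_t1 (by decide +kernel) : Stab 15 419675022056 420562920870)

theorem p15_108 : Stab 15 420562420958 427088590950 := (Half.stab s746_t1 s319_t0 (by decide +kernel) : Stab 15 420562420958 427088590950)

theorem p15_109 : Stab 15 427088193086 429020471910 := (Half.stab s746_t1 s628_t0 (by decide +kernel) : Stab 15 427088193086 429020471910)

theorem p15_110 : Stab 15 428904325128 431526732882 := s425_t0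

theorem p15_111 : Stab 15 431526695006 434156986470 := (Half.stab s473_t1 s649_t0 (by decide +kernel) : Stab 15 431526695006 434156986470)

theorem p15_112 : Stab 15 434156886046 437507287590 := (Half.stab s473_t1 s134_t0 (by decide +kernel) : Stab 15 434156886046 437507287590)

theorem p15_113 : Stab 15 437507249261 440974047474 := s596_t0

theorem p15_114 : Stab 15 440974019852 447195454962 := s235_t0

theorem p15_115 : Stab 15 447195387437 453244487778 := s532_t0

theorem p15_116 : Stab 15 453244440993 458393938818 := s285_t0

theorem p15_117 : Stab 15 458393903197 464735243586 := s244_t0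

theorem p15_118 : Stab 15 464735223193 483163766226 := s430_t0

theorem p15_119 : Stab 15 483163748165 497120411778 := s848_t0

theorem p15_120 : Stab 15 497120305191 502156365858 := s226_t0

theorem p15_121 : Stab 15 502156349125 509357529810 := s694_t0

theorem p15_122 : Stab 15 509357510793 511827982650 := (Half.stab s264_t2 s824_t1 (by decide +kernel) : Stab 15 509357510793 511827982650)

theorem p15_123 : Stab 15 511827377128 516246419724 := (Half.stab s264_t2 s46_t2 (by decide +kernel) : Stab 15 511827377128 516246419724)

theorem p15_124 : Stab 15 516246341749 521367513906 := s70_t0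

theorem p15_125 : Stab 15 521367480543 526392589074 := s417_t0

theorem p15_126 : Stab 15 526392552034 532138427682 := s209_t0

theorem p15_127 : Stab 15 532138397691 535875877314 := s335_t0

theorem p15_128 : Stab 15 535875844257 547746039234 := s784_t0

theorem p15_129 : Stab 15 547746003696 555721555404 := (Half.stab s513_t2 s55_t1 (by decide +kernel) : Stab 15 547746003696 555721555404)

theorem p15_130 : Stab 15 555721226379 559775037114 := (Half.stab s582_t2 s799_t3 (by decide +kernel) : Stab 15 555721226379 559775037114)

theorem p15_131 : Stab 15 559774220908 566064970572 := (Half.stab s582_t2 s265_t3 (by decide +kernel) : Stab 15 559774220908 566064970572)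

theorem p15_132 : Stab 15 563862115646 569949133914 := (Half.stab s245_t1 s265_t3 (by decide +kernel) : Stab 15 563862115646 569949133914)

theorem p15_133 : Stab 15 569948541599 573936446160 := (Half.stab s416_t1 s65_t2 (by decide +kernel) : Stab 15 569948541599 573936446160)

theorem p15_134 : Stab 15 573935529944 578025157050 := (Half.stab s161_t1 s65_t2 (by decide +kernel) : Stab 15 573935529944 578025157050)

theorem p15_135 : Stab 15 577509691221 581270800656 := (Half.stab s161_t1 s309_t1 (by decide +kernel) : Stab 15 577509691221 581270800656)

theorem p15_136 : Stab 15 581269920786 584981147910 := (Half.stab s275_t1 s309_t1 (by decide +kernel) : Stab 15 581269920786 584981147910)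

theorem p15_137 : Stab 15 584981085435 589380621234 := s6_t0

theorem p15_138 : Stab 15 589380581658 599251456002 := s881_t0

theorem p15_139 : Stab 15 599251404950 605849437266 := s227_t0

theorem p15_140 : Stab 15 605849419678 611152133538 := s718_t0

theorem p15_141 : Stab 15 611152113253 617947487472 := (Half.stab s791_t1 s868_t2 (by decide +kernel) : Stab 15 611152113253 617947487472)

theorem p15_142 : Stab 15 617947131608 621323340150 := (Half.stab s205_t1 s369_t2 (by decide +kernel) : Stab 15 617947131608 621323340150)

theorem p15_143 : Stab 15 621323108427 627844697760 := (Half.stab s106_t1 s505_t1 (by decide +kernel) : Stab 15 621323108427 627844697760)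

theorem p15_144 : Stab 15 627844470047 633775287264 := (Half.stab s761_t1 s693_t1 (by decide +kernel) : Stab 15 627844470047 633775287264)

theorem p15_145 : Stab 15 633773918635 637826024970 := (Half.stab s761_t1 s1_t2 (by decide +kernel) : Stab 15 633773918635 637826024970)

theorem p15_146 : Stab 15 637825279265 641704402080 := (Half.stab s23_t1 s1_t2 (by decide +kernel) : Stab 15 637825279265 641704402080)

theorem p15_147 : Stab 15 641703085368 646047441312 := (Half.stab s23_t1 s407_t1 (by decide +kernel) : Stab 15 641703085368 646047441312)

theorem p15_148 : Stab 15 646047235390 648780417600 := (Half.stab s588_t1 s610_t2 (by decide +kernel) : Stab 15 646047235390 648780417600)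

theorem p15_149 : Stab 15 648779456216 657072765450 := (Half.stab s814_t2 s808_t3 (by decide +kernel) : Stab 15 648779456216 657072765450)

theorem p15_150 : Stab 15 657071845301 660847138896 := (Half.stab s814_t2 s777_t3 (by decide +kernel) : Stab 15 657071845301 660847138896)

theorem p15_151 : Stab 15 660846272472 667790212650 := (Half.stab s713_t2 s777_t3 (by decide +kernel) : Stab 15 660846272472 667790212650)

theorem p15_152 : Stab 15 665276394837 673653988710 := (Half.stab s16_t5 s303_t1 (by decide +kernel) : Stab 15 665276394837 673653988710)

theorem p15_153 : Stab 15 673653972291 679852221186 := s630_t0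

theorem p15_154 : Stab 15 679852200907 688579034640 := (Half.stab s3_t2 s490_t1 (by decide +kernel) : Stab 15 679852200907 688579034640)

theorem p15_155 : Stab 15 688578846376 693244444368 := (Half.stab s414_t2 s832_t1 (by decide +kernel) : Stab 15 688578846376 693244444368)

theorem p15_156 : Stab 15 693244161509 698726944944 := (Half.stab s775_t1 s361_t1 (by decide +kernel) : Stab 15 693244161509 698726944944)

theorem p15_157 : Stab 15 698726713324 703346087808 := (Half.stab s286_t1 s361_t1 (by decide +kernel) : Stab 15 698726713324 703346087808)

theorem p15_158 : Stab 15 703344965611 712670117910 := (Half.stab s286_t1 s443_t2 (by decide +kernel) : Stab 15 703344965611 712670117910)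

theorem p15_159 : Stab 15 712669959262 721485589104 := (Half.stab s322_t1 s521_t2 (by decide +kernel) : Stab 15 712669959262 721485589104)

theorem p15_160 : Stab 15 721485521908 731908032450 := s574_t0

theorem p15_161 : Stab 15 731907971804 743202683256 := (Half.stab s193_t6 s524_t2 (by decide +kernel) : Stab 15 731907971804 743202683256)

theorem p15_162 : Stab 15 738048352884 749695542282 := (Half.stab s730_t2 s524_t2 (by decide +kernel) : Stab 15 738048352884 749695542282)

theorem p15_163 : Stab 15 748073485054 759393261648 := (Half.stab s570_t2 s546_t1 (by decide +kernel) : Stab 15 748073485054 759393261648)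

theorem p15_164 : Stab 15 759392182699 770585615430 := (Half.stab s250_t2 s546_t1 (by decide +kernel) : Stab 15 759392182699 770585615430)

theorem p15_165 : Stab 15 770585363333 782275524912 := (Half.stab s347_t2 s620_t1 (by decide +kernel) : Stab 15 770585363333 782275524912)

theorem p15_166 : Stab 15 780928094482 787761384390 := (Half.stab s129_t3 s620_t1 (by decide +kernel) : Stab 15 780928094482 787761384390)

theorem p15_167 : Stab 15 787759565905 792402081720 := (Half.stab s129_t3 s34_t1 (by decide +kernel) : Stab 15 787759565905 792402081720)

theorem p15_168 : Stab 15 792077263309 800048295774 := (Half.stab s584_t1 s34_t1 (by decide +kernel) : Stab 15 792077263309 800048295774)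

theorem p15_169 : Stab 15 800047132012 809269982430 := (Half.stab s221_t1 s716_t1 (by decide +kernel) : Stab 15 800047132012 809269982430)

theorem p15_170 : Stab 15 809268677890 814026366270 := (Half.stab s104_t1 s716_t1 (by decide +kernel) : Stab 15 809268677890 814026366270)

theorem p15_171 : Stab 15 810309777670 818849417568 := (Half.stab s217_t1 s716_t1 (by decide +kernel) : Stab 15 810309777670 818849417568)

theorem p15_172 : Stab 15 817829351310 828028357968 := (Half.stab s188_t2 s142_t2 (by decide +kernel) : Stab 15 817829351310 828028357968)

theorem p15_173 : Stab 15 828025885342 835192318128 := (Half.stab s17_t2 s142_t2 (by decide +kernel) : Stab 15 828025885342 835192318128)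

theorem p15_174 : Stab 15 835189882987 843512688144 := (Half.stab s234_t2 s142_t2 (by decide +kernel) : Stab 15 835189882987 843512688144)

theorem p15_175 : Stab 15 843510260875 849856401744 := (Half.stab s684_t2 s482_t1 (by decide +kernel) : Stab 15 843510260875 849856401744)

theorem p15_176 : Stab 15 849854071723 858990057744 := (Half.stab s385_t2 s482_t1 (by decide +kernel) : Stab 15 849854071723 858990057744)

theorem p15_177 : Stab 15 856951201696 867651789342 := (Half.stab s75_t2 s482_t1 (by decide +kernel) : Stab 15 856951201696 867651789342)

theorem p15_178 : Stab 15 867651521320 876651070230 := (Half.stab s402_t1 s812_t2 (by decide +kernel) : Stab 15 867651521320 876651070230)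

theorem p15_179 : Stab 15 876646179002 887347222398 := (Half.stab s872_t2 s527_t1 (by decide +kernel) : Stab 15 876646179002 887347222398)

theorem p15_180 : Stab 15 887346500449 897329175678 := (Half.stab s585_t2 s527_t1 (by decide +kernel) : Stab 15 887346500449 897329175678)

theorem p15_181 : Stab 15 897327237034 908012826942 := (Half.stab s766_t2 s527_t1 (by decide +kernel) : Stab 15 897327237034 908012826942)

theorem p15_182 : Stab 15 908011222526 915868129830 := (Half.stab s147_t2 s527_t1 (by decide +kernel) : Stab 15 908011222526 915868129830)

theorem p15_183 : Stab 15 915864404364 924909171966 := (Half.stab s147_t2 s241_t1 (by decide +kernel) : Stab 15 915864404364 924909171966)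

theorem p15_184 : Stab 15 924907238937 934346471838 := (Half.stab s266_t1 s241_t1 (by decide +kernel) : Stab 15 924907238937 934346471838)

theorem p15_185 : Stab 15 934346163092 949187928306 := (Half.stab s758_t1 s241_t1 (by decide +kernel) : Stab 15 934346163092 949187928306)

theorem p15_186 : Stab 15 947872476139 959723121840 := (Half.stab s519_t1 s241_t1 (by decide +kernel) : Stab 15 947872476139 959723121840)

theorem p15_187 : Stab 15 959722818193 984282928944 := (Half.stab s338_t2 s399_t1 (by decide +kernel) : Stab 15 959722818193 984282928944)

theorem p15_188 : Stab 15 984280293451 999349812390 := (Half.stab s690_t2 s399_t1 (by decide +kernel) : Stab 15 984280293451 999349812390)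

theorem p15_189 : Stab 15 999349448734 1013344899930 := (Half.stab s107_t2 s701_t1 (by decide +kernel) : Stab 15 999349448734 1013344899930)

theorem p15_190 : Stab 15 1013342371847 1021671864954 := (Half.stab s107_t2 s186_t1 (by decide +kernel) : Stab 15 1013342371847 1021671864954)

theorem p15_191 : Stab 15 1021669659339 1029311580528 := (Half.stab s107_t2 s554_t1 (by decide +kernel) : Stab 15 1021669659339 1029311580528)

theorem p15_192 : Stab 15 1029308536779 1031163586650 := (Half.stab s464_t2 s554_t1 (by decide +kernel) : Stab 15 1029308536779 1031163586650)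

theorem p15_193 : Stab 15 1031163141269 1048068145710 := (Half.stab s464_t2 s16_t7 (by decide +kernel) : Stab 15 1031163141269 1048068145710)

theorem p15_194 : Stab 15 1047782424825 1065353396040 := (Half.stab s622_t4 s300_t4 (by decide +kernel) : Stab 15 1047782424825 1065353396040)

theorem p15_195 : Stab 15 1065353239541 1086794446686 := (Half.stab s622_t4 s642_t2 (by decide +kernel) : Stab 15 1065353239541 1086794446686)

theorem p15_196 : Stab 15 1086794220172 1110848398938 := (Half.stab s195_t4 s539_t2 (by decide +kernel) : Stab 15 1086794220172 1110848398938)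

theorem p15_197 : Stab 15 1110845863887 1128653220186 := (Half.stab s195_t4 s623_t3 (by decide +kernel) : Stab 15 1110845863887 1128653220186)

theorem p15_198 : Stab 15 1128650887555 1145978162010 := (Half.stab s195_t4 s450_t2 (by decide +kernel) : Stab 15 1128650887555 1145978162010)

theorem p15_199 : Stab 15 1145976072627 1169334136626 := (Half.stab s626_t3 s164_t3 (by decide +kernel) : Stab 15 1145976072627 1169334136626)

theorem p15_200 : Stab 15 1169333349903 1203625527642 := (Half.stab s671_t2 s600_t2 (by decide +kernel) : Stab 15 1169333349903 1203625527642)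

theorem p15_201 : Stab 15 1193569100586 1207328396430 := (Half.stab s671_t2 s444_t1 (by decide +kernel) : Stab 15 1193569100586 1207328396430)

theorem p15_202 : Stab 15 1207328042260 1226001840336 := (Half.stab s671_t2 s340_t3 (by decide +kernel) : Stab 15 1207328042260 1226001840336)

theorem p15_203 : Stab 15 1225998686654 1245985742574 := (Half.stab s55_t4 s170_t2 (by decide +kernel) : Stab 15 1225998686654 1245985742574)

theorem p15_204 : Stab 15 1243348944177 1258622088786 := (Half.stab s423_t2 s345_t5 (by decide +kernel) : Stab 15 1243348944177 1258622088786)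

theorem p15_205 : Stab 15 1246627414885 1313160368040 := (Half.stab s249_t6 s345_t5 (by decide +kernel) : Stab 15 1246627414885 1313160368040)

theorem p15_206 : Stab 15 1306644714993 1334302670358 := (Half.stab s342_t5 s564_t5 (by decide +kernel) : Stab 15 1306644714993 1334302670358)

theorem p15_207 : Stab 15 1329492461699 1356124901376 := (Half.stab s474_t3 s366_t2 (by decide +kernel) : Stab 15 1329492461699 1356124901376)

theorem p15_208 : Stab 15 1353962913004 1392165589770 := (Half.stab s474_t3 s60_t1 (by decide +kernel) : Stab 15 1353962913004 1392165589770)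

theorem p15_209 : Stab 15 1390565064712 1414027174638 := (Half.stab s181_t3 s590_t2 (by decide +kernel) : Stab 15 1390565064712 1414027174638)

theorem p15_210 : Stab 15 1414024832504 1422379220760 := (Half.stab s181_t3 s313_t4 (by decide +kernel) : Stab 15 1414024832504 1422379220760)

theorem p15_211 : Stab 15 1422379140158 1472327583990 := (Half.stab s834_t1 s313_t4 (by decide +kernel) : Stab 15 1422379140158 1472327583990)

theorem p15_212 : Stab 15 1471778011825 1481669554638 := (Half.stab s740_t2 s313_t4 (by decide +kernel) : Stab 15 1471778011825 1481669554638)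

theorem p15_213 : Stab 15 1479869861561 1491078223800 := (Half.stab s740_t2 s840_t3 (by decide +kernel) : Stab 15 1479869861561 1491078223800)

theorem p15_214 : Stab 15 1491077284552 1522185741720 := (Half.stab s348_t4 s840_t3 (by decide +kernel) : Stab 15 1491077284552 1522185741720)

theorem p15_215 : Stab 15 1522185469951 1565154516762 := (Half.stab s421_t3 s840_t3 (by decide +kernel) : Stab 15 1522185469951 1565154516762)

theorem p15_216 : Stab 15 1539431433388 1600626470016 := (Half.stab s836_t4 s28_t2 (by decide +kernel) : Stab 15 1539431433388 1600626470016)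

theorem p15_217 : Stab 15 1600626355934 1632330776496 := (Half.stab s304_t1 s100_t1 (by decide +kernel) : Stab 15 1600626355934 1632330776496)

theorem p15_218 : Stab 15 1632326448670 1659262316550 := (Half.stab s721_t1 s100_t1 (by decide +kernel) : Stab 15 1632326448670 1659262316550)

theorem p15_219 : Stab 15 1659253954531 1690418617758 := (Half.stab s10_t2 s820_t1 (by decide +kernel) : Stab 15 1659253954531 1690418617758)

theorem p15_220 : Stab 15 1690418465912 1734467215152 := (Half.stab s786_t1 s820_t1 (by decide +kernel) : Stab 15 1690418465912 1734467215152)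

theorem p15_221 : Stab 15 1730400673666 1742831041350 := (Half.stab s495_t2 s820_t1 (by decide +kernel) : Stab 15 1730400673666 1742831041350)

theorem p15_222 : Stab 15 1742829908538 1784844223146 := (Half.stab s495_t2 s157_t5 (by decide +kernel) : Stab 15 1742829908538 1784844223146)

theorem p15_223 : Stab 15 1766361919378 1801393299216 := (Half.stab s612_t1 s157_t5 (by decide +kernel) : Stab 15 1766361919378 1801393299216)

theorem p15_224 : Stab 15 1801388886680 1816451120520 := (Half.stab s754_t1 s157_t5 (by decide +kernel) : Stab 15 1801388886680 1816451120520)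

theorem p15_225 : Stab 15 1816448093128 1829881450992 := (Half.stab s754_t1 s508_t4 (by decide +kernel) : Stab 15 1816448093128 1829881450992)

theorem p15_226 : Stab 15 1828437918651 1845031681800 := (Half.stab s383_t4 s508_t4 (by decide +kernel) : Stab 15 1828437918651 1845031681800)

theorem p15_227 : Stab 15 1845031226330 1875895976550 := (Half.stab s383_t4 s629_t1 (by decide +kernel) : Stab 15 1845031226330 1875895976550)

theorem p15_228 : Stab 15 1875887546394 1901549895270 := (Half.stab s383_t4 s98_t1 (by decide +kernel) : Stab 15 1875887546394 1901549895270)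

theorem p15_229 : Stab 15 1901542514604 1927349277990 := (Half.stab s794_t2 s625_t1 (by decide +kernel) : Stab 15 1901542514604 1927349277990)

theorem p15_230 : Stab 15 1907720085297 1983924534600 := (Half.stab s794_t2 s108_t4 (by decide +kernel) : Stab 15 1907720085297 1983924534600)

theorem p15_231 : Stab 15 1983924334697 2025581614920 := (Half.stab s715_t3 s810_t3 (by decide +kernel) : Stab 15 1983924334697 2025581614920)

theorem p15_232 : Stab 15 1999098037864 2063520318990 := (Half.stab s715_t3 s4_t2 (by decide +kernel) : Stab 15 1999098037864 2063520318990)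

theorem p15_233 : Stab 15 2060116490150 2097190984146 := (Half.stab s478_t3 s436_t10 (by decide +kernel) : Stab 15 2060116490150 2097190984146)

theorem p15_234 : Stab 15 2096071262440 2131363665720 := (Half.stab s45_t3 s436_t10 (by decide +kernel) : Stab 15 2096071262440 2131363665720)

theorem p15_235 : Stab 15 2127571274512 2159031418830 := (Half.stab s143_t3 s557_t5 (by decide +kernel) : Stab 15 2127571274512 2159031418830)

theorem p15_236 : Stab 15 2149675498718 2240584678230 := (Half.stab s559_t1 s557_t5 (by decide +kernel) : Stab 15 2149675498718 2240584678230)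

theorem p15_237 : Stab 15 2237804668587 2290460110650 := (Half.stab s315_t6 s829_t1 (by decide +kernel) : Stab 15 2237804668587 2290460110650)

theorem p15_238 : Stab 15 2271750680337 2330412382368 := (Half.stab s142_t7 s829_t1 (by decide +kernel) : Stab 15 2271750680337 2330412382368)

theorem p15_239 : Stab 15 2330412250897 2371321870650 := (Half.stab s142_t7 s463_t1 (by decide +kernel) : Stab 15 2330412250897 2371321870650)

theorem p15_240 : Stab 15 2356734850104 2410334865510 := (Half.stab s223_t2 s463_t1 (by decide +kernel) : Stab 15 2356734850104 2410334865510)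

theorem p15_241 : Stab 15 2410334751797 2470405128858 := (Half.stab s578_t1 s481_t2 (by decide +kernel) : Stab 15 2410334751797 2470405128858)

theorem p15_242 : Stab 15 2470404959560 2539667587350 := (Half.stab s400_t1 s29_t3 (by decide +kernel) : Stab 15 2470404959560 2539667587350)

theorem p15_243 : Stab 15 2539657766750 2582882965242 := (Half.stab s299_t1 s29_t3 (by decide +kernel) : Stab 15 2539657766750 2582882965242)

theorem p15_244 : Stab 15 2582875744801 2617029758550 := (Half.stab s299_t1 s792_t3 (by decide +kernel) : Stab 15 2582875744801 2617029758550)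

theorem p15_245 : Stab 15 2617016154302 2667256099350 := (Half.stab s78_t1 s792_t3 (by decide +kernel) : Stab 15 2617016154302 2667256099350)

theorem p15_246 : Stab 15 2645090946016 2694333585918 := (Half.stab s375_t3 s792_t3 (by decide +kernel) : Stab 15 2645090946016 2694333585918)

theorem p15_247 : Stab 15 2694333130861 2772102808254 := (Half.stab s811_t3 s660_t3 (by decide +kernel) : Stab 15 2694333130861 2772102808254)

theorem p15_248 : Stab 15 2762593268361 2792383661754 := (Half.stab s520_t3 s660_t3 (by decide +kernel) : Stab 15 2762593268361 2792383661754)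

theorem p15_249 : Stab 15 2792382815574 2822395904016 := (Half.stab s520_t3 s385_t3 (by decide +kernel) : Stab 15 2792382815574 2822395904016)

theorem p15_250 : Stab 15 2817312870993 2836349700306 := (Half.stab s520_t3 s841_t3 (by decide +kernel) : Stab 15 2817312870993 2836349700306)

theorem p15_251 : Stab 15 2833850347177 2870359906212 := (Half.stab s812_t5 s841_t3 (by decide +kernel) : Stab 15 2833850347177 2870359906212)

theorem p15_252 : Stab 15 2855253354280 2909606841882 := (Half.stab s812_t5 s850_t2 (by decide +kernel) : Stab 15 2855253354280 2909606841882)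

theorem p15_253 : Stab 15 2881148609945 2979487777878 := (Half.stab s812_t5 s862_t2 (by decide +kernel) : Stab 15 2881148609945 2979487777878)

theorem p15_254 : Stab 15 2979486451830 3030894811908 := (Half.stab s343_t3 s261_t3 (by decide +kernel) : Stab 15 2979486451830 3030894811908)

theorem p15_255 : Stab 15 3021792683870 3086623707726 := (Half.stab s343_t3 s639_t2 (by decide +kernel) : Stab 15 3021792683870 3086623707726)

theorem p15_256 : Stab 15 3049543596306 3174120763260 := (Half.stab s74_t5 s456_t4 (by decide +kernel) : Stab 15 3049543596306 3174120763260)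

theorem p15_257 : Stab 15 3164987674899 3305262852654 := (Half.stab s313_t9 s135_t5 (by decide +kernel) : Stab 15 3164987674899 3305262852654)

theorem p15_258 : Stab 15 3285507758182 3382023764592 := (Half.stab s695_t6 s107_t3 (by decide +kernel) : Stab 15 3285507758182 3382023764592)

theorem p15_259 : Stab 15 3382023407258 3446802353724 := (Half.stab s146_t5 s156_t2 (by decide +kernel) : Stab 15 3382023407258 3446802353724)

theorem p15_260 : Stab 15 3398341037380 3454480029114 := (Half.stab s146_t5 s497_t1 (by decide +kernel) : Stab 15 3398341037380 3454480029114)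

theorem p15_261 : Stab 15 3454479846378 3492439105284 := (Stab.scale s217_t0 (by decide +kernel) : Stab 15 (81 * 42647899338) (81 * 43116532164))

theorem p15_262 : Stab 15 3492438455931 3596385945240 := (Half.stab s726_t3 s796_t1 (by decide +kernel) : Stab 15 3492438455931 3596385945240)

theorem p15_263 : Stab 15 3596384570731 3693040002978 := (Half.stab s249_t14 s530_t2 (by decide +kernel) : Stab 15 3596384570731 3693040002978)

theorem p15_264 : Stab 15 3693039519752 3799897532466 := (Half.stab s249_t14 s474_t5 (by decide +kernel) : Stab 15 3693039519752 3799897532466)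

theorem p15_265 : Stab 15 3788829077340 3867126638250 := (Half.stab s469_t2 s474_t5 (by decide +kernel) : Stab 15 3788829077340 3867126638250)

theorem p15_266 : Stab 15 3826112229410 3895829853930 := (Half.stab s469_t2 s671_t7 (by decide +kernel) : Stab 15 3826112229410 3895829853930)

theorem p15_267 : Stab 15 3895828699079 4114569153192 := (Half.stab s557_t9 s345_t12 (by decide +kernel) : Stab 15 3895828699079 4114569153192)

theorem p15_268 : Stab 15 4114568966155 4227998018832 := (Half.stab s697_t2 s383_t10 (by decide +kernel) : Stab 15 4114568966155 4227998018832)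

theorem p15_269 : Stab 15 4227997260860 4361587013490 := (Half.stab s380_t5 s738_t9 (by decide +kernel) : Stab 15 4227997260860 4361587013490)

theorem p15_270 : Stab 15 4361583104951 4459533572286 := (Half.stab s33_t5 s738_t9 (by decide +kernel) : Stab 15 4361583104951 4459533572286)

theorem p15_271 : Stab 15 4459530261365 4603237634670 := (Half.stab s4_t5 s436_t17 (by decide +kernel) : Stab 15 4459530261365 4603237634670)

theorem p15_272 : Stab 15 4603234678228 4699910997252 := (Half.stab s594_t6 s436_t17 (by decide +kernel) : Stab 15 4603234678228 4699910997252)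

theorem p15_273 : Stab 15 4640437945400 4754436641262 := (Half.stab s594_t6 s185_t10 (by decide +kernel) : Stab 15 4640437945400 4754436641262)

theorem p15_274 : Stab 15 4751902904355 4819470172884 := (Stab.scale s141_t0 (by decide +kernel) : Stab 15 (81 * 58665467955) (81 * 59499631764))

theorem p15_275 : Stab 15 4818510441492 5026422562752 := (Half.stab s13_t2 s812_t9 (by decide +kernel) : Stab 15 4818510441492 5026422562752)

theorem p15_276 : Stab 15 5026418154903 5063270696640 := (Half.stab s28_t4 s812_t9 (by decide +kernel) : Stab 15 5026418154903 5063270696640)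

theorem p15_277 : Stab 15 5026430848986 5147033607720 := (Half.stab s28_t4 s849_t1 (by decide +kernel) : Stab 15 5026430848986 5147033607720)

theorem p15_278 : Stab 15 5147032568355 5288771679444 := (Stab.scale s340_t0 (by decide +kernel) : Stab 15 (81 * 63543611955) (81 * 65293477524))

theorem p15_279 : Stab 15 5269110043925 5428973456190 := (Half.stab s421_t4 s794_t8 (by decide +kernel) : Stab 15 5269110043925 5428973456190)

theorem p15_280 : Stab 15 5428971481293 5537910028650 := (Half.stab s744_t5 s794_t8 (by decide +kernel) : Stab 15 5428971481293 5537910028650)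

theorem p15_281 : Stab 15 5510908943820 5652022750476 := (Half.stab s744_t5 s715_t9 (by decide +kernel) : Stab 15 5510908943820 5652022750476)

theorem p15_282 : Stab 15 5652016497607 5803769529450 := (Half.stab s858_t2 s715_t9 (by decide +kernel) : Stab 15 5652016497607 5803769529450)

theorem p15_283 : Stab 15 5803768494091 5844897004812 := (Half.stab s858_t2 s612_t3 (by decide +kernel) : Stab 15 5803768494091 5844897004812)

theorem p15_284 : Stab 15 5830243146206 5918863697424 := (Half.stab s135_t8 s612_t3 (by decide +kernel) : Stab 15 5830243146206 5918863697424)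

theorem p15_285 : Stab 15 5898271879235 6083712944610 := (Half.stab s135_t8 s329_t3 (by decide +kernel) : Stab 15 5898271879235 6083712944610)

theorem p15_286 : Stab 15 6060113738333 6183921649182 := (Half.stab s364_t3 s811_t6 (by decide +kernel) : Stab 15 6060113738333 6183921649182)

theorem p15_287 : Stab 15 6161288095125 6289026070932 := (Stab.scale s242_t0 (by decide +kernel) : Stab 15 (81 * 76065285125) (81 * 77642297172))

theorem p15_288 : Stab 15 6289024655214 6372126728820 := (Stab.scale s785_t0 (by decide +kernel) : Stab 15 (81 * 77642279694) (81 * 78668231220))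

theorem p15_289 : Stab 15 6372121167765 6417937345428 := (Stab.scale s547_t0 (by decide +kernel) : Stab 15 (81 * 78668162565) (81 * 79233794388))

theorem p15_290 : Stab 15 6417932118741 6511399927668 := (Stab.scale s429_t0 (by decide +kernel) : Stab 15 (81 * 79233729861) (81 * 80387653428))

theorem p15_291 : Stab 15 6511398174909 6602604678324 := (Stab.scale s200_t0 (by decide +kernel) : Stab 15 (81 * 80387631789) (81 * 81513638004))

theorem p15_292 : Stab 15 6602603302134 6693505395156 := (Stab.scale s752_t0 (by decide +kernel) : Stab 15 (81 * 81513621014) (81 * 82635869076))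

theorem p15_293 : Stab 15 6693502108743 6820536603924 := (Stab.scale s59_t0 (by decide +kernel) : Stab 15 (81 * 82635828503) (81 * 84204155604))

theorem p15_294 : Stab 15 6811924088250 6968346637716 := (Stab.scale s437_t0 (by decide +kernel) : Stab 15 (81 * 84097828250) (81 * 86028970836))

theorem p15_295 : Stab 15 6968343618846 7127884465812 := (Stab.scale s192_t0 (by decide +kernel) : Stab 15 (81 * 86028933566) (81 * 87998573652))

theorem p15_296 : Stab 15 7127882732898 7228814224212 := (Stab.scale s589_t0 (by decide +kernel) : Stab 15 (81 * 87998552258) (81 * 89244620052))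

theorem p15_297 : Stab 15 7228812948462 7402456596564 := (Stab.scale s25_t0 (by decide +kernel) : Stab 15 (81 * 89244604302) (81 * 91388353044))

theorem p15_298 : Stab 15 7402453959609 7522538985108 := (Stab.scale s550_t0 (by decide +kernel) : Stab 15 (81 * 91388320489) (81 * 92870851668))

theorem p15_299 : Stab 15 7522535017566 7812837749268 := (Stab.scale s815_t0 (by decide +kernel) : Stab 15 (81 * 92870802686) (81 * 96454787028))

theorem p15_300 : Stab 15 7794641275605 8036321466708 := (Stab.scale s305_t0 (by decide +kernel) : Stab 15 (81 * 96230139205) (81 * 99213845268))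

theorem p15_301 : Stab 15 8031548507607 8393769031284 := (Stab.scale s790_t0 (by decide +kernel) : Stab 15 (81 * 99154919847) (81 * 103626778164))

theorem p15_302 : Stab 15 8393765824899 8550002234340 := (Stab.scale s870_t0 (by decide +kernel) : Stab 15 (81 * 103626738579) (81 * 105555583140))

theorem p15_303 : Stab 15 8550000773424 8649644516532 := (Stab.scale s615_t0 (by decide +kernel) : Stab 15 (81 * 105555565104) (81 * 106785734772))

theorem p15_304 : Stab 15 8649643114665 9013626409428 := (Stab.scale s529_t0 (by decide +kernel) : Stab 15 (81 * 106785717465) (81 * 111279338388))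

theorem p15_305 : Stab 15 9006753438657 9552960461556 := (Stab.scale s557_t0 (by decide +kernel) : Stab 15 (81 * 111194486897) (81 * 117937783476))

theorem p15_306 : Stab 15 9552957237999 9727712465220 := (Stab.scale s861_t0 (by decide +kernel) : Stab 15 (81 * 117937743679) (81 * 120095215620))

theorem p15_307 : Stab 15 9727709187636 10014168664548 := (Stab.scale s776_t0 (by decide +kernel) : Stab 15 (81 * 120095175156) (81 * 123631711908))

theorem p15_308 : Stab 15 10014165785241 10400330928708 := (Stab.scale s619_t0 (by decide +kernel) : Stab 15 (81 * 123631676361) (81 * 128399147268))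

theorem p15_309 : Stab 15 10400328070947 10582171810020 := (Stab.scale s194_t0 (by decide +kernel) : Stab 15 (81 * 128399111987) (81 * 130644096420))

theorem p15_310 : Stab 15 10582170054993 10805894705556 := (Stab.scale s492_t0 (by decide +kernel) : Stab 15 (81 * 130644074753) (81 * 133406107476))

theorem p15_311 : Stab 15 10805893340706 10926619010676 := (Stab.scale s327_t0 (by decide +kernel) : Stab 15 (81 * 133406090626) (81 * 134896530996))

theorem p15_312 : Stab 15 10926617564907 11093405431572 := (Stab.scale s467_t0 (by decide +kernel) : Stab 15 (81 * 134896513147) (81 * 136955622612))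

theorem p15_313 : Stab 15 11093403650382 11296679313348 := (Stab.scale s360_t0 (by decide +kernel) : Stab 15 (81 * 136955600622) (81 * 139465176708))

theorem p15_314 : Stab 15 11296677543660 11660359940676 := (Stab.scale s35_t0 (by decide +kernel) : Stab 15 (81 * 139465154860) (81 * 143955060996))

theorem p15_315 : Stab 15 11660358414960 11854218482244 := (Stab.scale s542_t0 (by decide +kernel) : Stab 15 (81 * 143955042160) (81 * 146348376324))

theorem p15_316 : Stab 15 11854217165994 12108957886116 := (Stab.scale s800_t0 (by decide +kernel) : Stab 15 (81 * 146348360074) (81 * 149493307236))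

theorem p15_317 : Stab 15 12108956297220 12287355344676 := (Stab.scale s311_t0 (by decide +kernel) : Stab 15 (81 * 149493287620) (81 * 151695744996))

theorem p15_318 : Stab 15 12287353622292 12463880466852 := (Stab.scale s211_t0 (by decide +kernel) : Stab 15 (81 * 151695723732) (81 * 153875067492))

theorem p15_319 : Stab 15 12463878607416 12662545960548 := (Stab.scale s151_t0 (by decide +kernel) : Stab 15 (81 * 153875044536) (81 * 156327727908))

theorem p15_320 : Stab 15 12662544336741 12790800676260 := (Stab.scale s356_t0 (by decide +kernel) : Stab 15 (81 * 156327707861) (81 * 157911119460))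

theorem p15_321 : Stab 15 12790799294643 13000702303332 := (Stab.scale s732_t0 (by decide +kernel) : Stab 15 (81 * 157911102403) (81 * 160502497572))

theorem p15_322 : Stab 15 13000699006551 13531777990740 := (Stab.scale s456_t0 (by decide +kernel) : Stab 15 (81 * 160502456871) (81 * 167058987540))

theorem p15_323 : Stab 15 13492852732557 14099402763828 := (Stab.scale s135_t0 (by decide +kernel) : Stab 15 (81 * 166578428797) (81 * 174066700788))

theorem p15_324 : Stab 15 14099400687879 14200300718388 := (Stab.scale s21_t0 (by decide +kernel) : Stab 15 (81 * 174066675159) (81 * 175312354548))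

theorem p15_325 : Stab 15 14200298865675 14430915152244 := (Stab.scale s393_t0 (by decide +kernel) : Stab 15 (81 * 175312331675) (81 * 178159446324))

theorem p15_326 : Stab 15 14418109873341 14694262665876 := (Stab.scale s156_t0 (by decide +kernel) : Stab 15 (81 * 178001356461) (81 * 181410650196))

def Ls15 : List (ℕ × ℕ) := [(178867466831, 181997680818), (181997659812, 186855583122), (186855560076, 191076698226), (191076676741, 198309301890), (197016960985, 203362569426), (203256365870, 206785156818), (205437745238, 211552294626), (211552226693, 217237647234), (217151424699, 226897401282), (226897379481, 229776754866), (229776735150, 233428149186), (233428129583, 236261955234), (236261897053, 240665713170), (240665660083, 243852145074), (243852006545, 247907959026), (247907934958, 256563941970), (256563926269, 267660211218), (267660182119, 274538754546), (274538716229, 277955514816), (277955212286, 280950509952), (280950212677, 283552952256), (283552838059, 284016079872), (284015890798, 287163651234), (287163620925, 290814600930), (290814549174, 295651367310), (293512431727, 297891775662), (297891382937, 302775242094),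 (300164184613, 303178715190), (303178192442, 306076286880), (306076202412, 309417231030), (309417201644, 314164008354), (314163972952, 315874149570), (315874052962, 321679025826), (321679004045, 326623023906), (326623007273, 336158816418), (336158725511, 347642180034), (346957770149, 357865467330), (357865438366, 369099292386), (367718115052, 370112957922), (370112528903, 373790736150), (373789559285, 379508221242), (379507760740, 381418277706), (380919493246, 384901514010), (384901359592, 385693978992), (385693292850, 389124165510), (389123773703, 394032033510), (394031897995, 397942760208), (397942674481, 401146157670), (401146119543, 404261598738), (404261549776, 408350207250), (408350151712, 414128618310), (413770894488, 420022475376), (419675022056, 420562920870), (420562420958, 427088590950), (427088193086, 429020471910), (428904325128, 431526732882), (431526695006, 434156986470), (434156886046, 437507287590), (437507249261, 440974047474), (440974019852, 447195454962), (447195387437, 453244487778), (453244440993, 458393938818), (458393903197, 464735243586), (464735223193, 483163766226), (483163748165, 497120411778),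 (497120305191, 502156365858), (502156349125, 509357529810), (509357510793, 511827982650), (511827377128, 516246419724), (516246341749, 521367513906), (521367480543, 526392589074), (526392552034, 532138427682), (532138397691, 535875877314), (535875844257, 547746039234), (547746003696, 555721555404), (555721226379, 559775037114), (559774220908, 566064970572), (563862115646, 569949133914), (569948541599, 573936446160), (573935529944, 578025157050), (577509691221, 581270800656), (581269920786, 584981147910), (584981085435, 589380621234), (589380581658, 599251456002), (599251404950, 605849437266), (605849419678, 611152133538), (611152113253, 617947487472), (617947131608, 621323340150), (621323108427, 627844697760), (627844470047, 633775287264), (633773918635, 637826024970), (637825279265, 641704402080), (641703085368, 646047441312), (646047235390, 648780417600), (648779456216, 657072765450), (657071845301, 660847138896), (660846272472, 667790212650), (665276394837, 673653988710), (673653972291, 679852221186), (679852200907, 688579034640), (688578846376, 693244444368), (693244161509, 698726944944), (698726713324, 703346087808),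 (703344965611, 712670117910), (712669959262, 721485589104), (721485521908, 731908032450), (731907971804, 743202683256), (738048352884, 749695542282), (748073485054, 759393261648), (759392182699, 770585615430), (770585363333, 782275524912), (780928094482, 787761384390), (787759565905, 792402081720), (792077263309, 800048295774), (800047132012, 809269982430), (809268677890, 814026366270), (810309777670, 818849417568), (817829351310, 828028357968), (828025885342, 835192318128), (835189882987, 843512688144), (843510260875, 849856401744), (849854071723, 858990057744), (856951201696, 867651789342), (867651521320, 876651070230), (876646179002, 887347222398), (887346500449, 897329175678), (897327237034, 908012826942), (908011222526, 915868129830), (915864404364, 924909171966), (924907238937, 934346471838), (934346163092, 949187928306), (947872476139, 959723121840), (959722818193, 984282928944), (984280293451, 999349812390), (999349448734, 1013344899930), (1013342371847, 1021671864954), (1021669659339, 1029311580528), (1029308536779, 1031163586650), (1031163141269, 1048068145710), (1047782424825, 1065353396040), (1065353239541,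 1086794446686), (1086794220172, 1110848398938), (1110845863887, 1128653220186), (1128650887555, 1145978162010), (1145976072627, 1169334136626), (1169333349903, 1203625527642), (1193569100586, 1207328396430), (1207328042260, 1226001840336), (1225998686654, 1245985742574), (1243348944177, 1258622088786), (1246627414885, 1313160368040), (1306644714993, 1334302670358), (1329492461699, 1356124901376), (1353962913004, 1392165589770), (1390565064712, 1414027174638), (1414024832504, 1422379220760), (1422379140158, 1472327583990), (1471778011825, 1481669554638), (1479869861561, 1491078223800), (1491077284552, 1522185741720), (1522185469951, 1565154516762), (1539431433388, 1600626470016), (1600626355934, 1632330776496), (1632326448670, 1659262316550), (1659253954531, 1690418617758), (1690418465912, 1734467215152), (1730400673666, 1742831041350), (1742829908538, 1784844223146), (1766361919378, 1801393299216), (1801388886680, 1816451120520), (1816448093128, 1829881450992), (1828437918651, 1845031681800), (1845031226330, 1875895976550), (1875887546394, 1901549895270), (1901542514604, 1927349277990), (1907720085297, 1983924534600),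 (1983924334697, 2025581614920), (1999098037864, 2063520318990), (2060116490150, 2097190984146), (2096071262440, 2131363665720), (2127571274512, 2159031418830), (2149675498718, 2240584678230), (2237804668587, 2290460110650), (2271750680337, 2330412382368), (2330412250897, 2371321870650), (2356734850104, 2410334865510), (2410334751797, 2470405128858), (2470404959560, 2539667587350), (2539657766750, 2582882965242), (2582875744801, 2617029758550), (2617016154302, 2667256099350), (2645090946016, 2694333585918), (2694333130861, 2772102808254), (2762593268361, 2792383661754), (2792382815574, 2822395904016), (2817312870993, 2836349700306), (2833850347177, 2870359906212), (2855253354280, 2909606841882), (2881148609945, 2979487777878), (2979486451830, 3030894811908), (3021792683870, 3086623707726), (3049543596306, 3174120763260), (3164987674899, 3305262852654), (3285507758182, 3382023764592), (3382023407258, 3446802353724), (3398341037380, 3454480029114), (3454479846378, 3492439105284), (3492438455931, 3596385945240), (3596384570731, 3693040002978), (3693039519752, 3799897532466), (3788829077340, 3867126638250), (3826112229410,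 3895829853930), (3895828699079, 4114569153192), (4114568966155, 4227998018832), (4227997260860, 4361587013490), (4361583104951, 4459533572286), (4459530261365, 4603237634670), (4603234678228, 4699910997252), (4640437945400, 4754436641262), (4751902904355, 4819470172884), (4818510441492, 5026422562752), (5026418154903, 5063270696640), (5026430848986, 5147033607720), (5147032568355, 5288771679444), (5269110043925, 5428973456190), (5428971481293, 5537910028650), (5510908943820, 5652022750476), (5652016497607, 5803769529450), (5803768494091, 5844897004812), (5830243146206, 5918863697424), (5898271879235, 6083712944610), (6060113738333, 6183921649182), (6161288095125, 6289026070932), (6289024655214, 6372126728820), (6372121167765, 6417937345428), (6417932118741, 6511399927668), (6511398174909, 6602604678324), (6602603302134, 6693505395156), (6693502108743, 6820536603924), (6811924088250, 6968346637716), (6968343618846, 7127884465812), (7127882732898, 7228814224212), (7228812948462, 7402456596564), (7402453959609, 7522538985108), (7522535017566, 7812837749268), (7794641275605, 8036321466708), (8031548507607, 8393769031284),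 (8393765824899, 8550002234340), (8550000773424, 8649644516532), (8649643114665, 9013626409428), (9006753438657, 9552960461556), (9552957237999, 9727712465220), (9727709187636, 10014168664548), (10014165785241, 10400330928708), (10400328070947, 10582171810020), (10582170054993, 10805894705556), (10805893340706, 10926619010676), (10926617564907, 11093405431572), (11093403650382, 11296679313348), (11296677543660, 11660359940676), (11660358414960, 11854218482244), (11854217165994, 12108957886116), (12108956297220, 12287355344676), (12287353622292, 12463880466852), (12463878607416, 12662545960548), (12662544336741, 12790800676260), (12790799294643, 13000702303332), (13000699006551, 13531777990740), (13492852732557, 14099402763828), (14099400687879, 14200300718388), (14200298865675, 14430915152244), (14418109873341, 14694262665876)]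

theorem Ls15_spec : ∀ w ∈ Ls15, Stab 15 w.1 w.2 :=
  (sfcons (a := ((178867466831 : ℕ), (181997680818 : ℕ))) p15_55 (sfcons (a := ((181997659812 : ℕ), (186855583122 : ℕ))) p15_56 (sfcons (a := ((186855560076 : ℕ), (191076698226 : ℕ))) p15_57 (sfcons (a := ((191076676741 : ℕ), (198309301890 : ℕ))) p15_58 (sfcons (a := ((197016960985 : ℕ), (203362569426 : ℕ))) p15_59 (sfcons (a := ((203256365870 : ℕ), (206785156818 : ℕ))) p15_60 (sfcons (a := ((205437745238 : ℕ), (211552294626 : ℕ))) p15_61 (sfcons (a := ((211552226693 : ℕ), (217237647234 : ℕ))) p15_62 (sfcons (a := ((217151424699 : ℕ), (226897401282 : ℕ))) p15_63 (sfcons (a := ((226897379481 : ℕ), (229776754866 : ℕ))) p15_64 (sfcons (a := ((229776735150 : ℕ), (233428149186 : ℕ))) p15_65 (sfcons (a := ((233428129583 : ℕ), (236261955234 : ℕ))) p15_66 (sfcons (a := ((236261897053 : ℕ), (240665713170 : ℕ))) p15_67 (sfcons (a := ((240665660083 : ℕ), (243852145074 : ℕ))) p15_68 (sfcons (a := ((243852006545 : ℕ), (247907959026 : ℕ))) p15_69 (sfcons (a := ((247907934958 : ℕ), (256563941970 : ℕ))) p15_70 (sfcons (a := ((256563926269 : ℕ), (267660211218 : ℕ))) p15_71 (sfcons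 (a := ((267660182119 : ℕ), (274538754546 : ℕ))) p15_72 (sfcons (a := ((274538716229 : ℕ), (277955514816 : ℕ))) p15_73 (sfcons (a := ((277955212286 : ℕ), (280950509952 : ℕ))) p15_74 (sfcons (a := ((280950212677 : ℕ), (283552952256 : ℕ))) p15_75 (sfcons (a := ((283552838059 : ℕ), (284016079872 : ℕ))) p15_76 (sfcons (a := ((284015890798 : ℕ), (287163651234 : ℕ))) p15_77 (sfcons (a := ((287163620925 : ℕ), (290814600930 : ℕ))) p15_78 (sfcons (a := ((290814549174 : ℕ), (295651367310 : ℕ))) p15_79 (sfcons (a := ((293512431727 : ℕ), (297891775662 : ℕ))) p15_80 (sfcons (a := ((297891382937 : ℕ), (302775242094 : ℕ))) p15_81 (sfcons (a := ((300164184613 : ℕ), (303178715190 : ℕ))) p15_82 (sfcons (a := ((303178192442 : ℕ), (306076286880 : ℕ))) p15_83 (sfcons (a := ((306076202412 : ℕ), (309417231030 : ℕ))) p15_84 (sfcons (a := ((309417201644 : ℕ), (314164008354 : ℕ))) p15_85 (sfcons (a := ((314163972952 : ℕ), (315874149570 : ℕ))) p15_86 (sfcons (a := ((315874052962 : ℕ), (321679025826 : ℕ))) p15_87 (sfcons (a := ((321679004045 : ℕ), (326623023906 : ℕ))) p15_88 (sfcons (a := ((326623007273 : ℕ), (336158816418 : ℕ))) p15_89 (sfcons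 (a := ((336158725511 : ℕ), (347642180034 : ℕ))) p15_90 (sfcons (a := ((346957770149 : ℕ), (357865467330 : ℕ))) p15_91 (sfcons (a := ((357865438366 : ℕ), (369099292386 : ℕ))) p15_92 (sfcons (a := ((367718115052 : ℕ), (370112957922 : ℕ))) p15_93 (sfcons (a := ((370112528903 : ℕ), (373790736150 : ℕ))) p15_94 (sfcons (a := ((373789559285 : ℕ), (379508221242 : ℕ))) p15_95 (sfcons (a := ((379507760740 : ℕ), (381418277706 : ℕ))) p15_96 (sfcons (a := ((380919493246 : ℕ), (384901514010 : ℕ))) p15_97 (sfcons (a := ((384901359592 : ℕ), (385693978992 : ℕ))) p15_98 (sfcons (a := ((385693292850 : ℕ), (389124165510 : ℕ))) p15_99 (sfcons (a := ((389123773703 : ℕ), (394032033510 : ℕ))) p15_100 (sfcons (a := ((394031897995 : ℕ), (397942760208 : ℕ))) p15_101 (sfcons (a := ((397942674481 : ℕ), (401146157670 : ℕ))) p15_102 (sfcons (a := ((401146119543 : ℕ), (404261598738 : ℕ))) p15_103 (sfcons (a := ((404261549776 : ℕ), (408350207250 : ℕ))) p15_104 (sfcons (a := ((408350151712 : ℕ), (414128618310 : ℕ))) p15_105 (sfcons (a := ((413770894488 : ℕ), (420022475376 : ℕ))) p15_106 (sfcons (a := ((419675022056 : ℕ), (420562920870 : ℕ))) p15_107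 (sfcons (a := ((420562420958 : ℕ), (427088590950 : ℕ))) p15_108 (sfcons (a := ((427088193086 : ℕ), (429020471910 : ℕ))) p15_109 (sfcons (a := ((428904325128 : ℕ), (431526732882 : ℕ))) p15_110 (sfcons (a := ((431526695006 : ℕ), (434156986470 : ℕ))) p15_111 (sfcons (a := ((434156886046 : ℕ), (437507287590 : ℕ))) p15_112 (sfcons (a := ((437507249261 : ℕ), (440974047474 : ℕ))) p15_113 (sfcons (a := ((440974019852 : ℕ), (447195454962 : ℕ))) p15_114 (sfcons (a := ((447195387437 : ℕ), (453244487778 : ℕ))) p15_115 (sfcons (a := ((453244440993 : ℕ), (458393938818 : ℕ))) p15_116 (sfcons (a := ((458393903197 : ℕ), (464735243586 : ℕ))) p15_117 (sfcons (a := ((464735223193 : ℕ), (483163766226 : ℕ))) p15_118 (sfcons (a := ((483163748165 : ℕ), (497120411778 : ℕ))) p15_119 (sfcons (a := ((497120305191 : ℕ), (502156365858 : ℕ))) p15_120 (sfcons (a := ((502156349125 : ℕ), (509357529810 : ℕ))) p15_121 (sfcons (a := ((509357510793 : ℕ), (511827982650 : ℕ))) p15_122 (sfcons (a := ((511827377128 : ℕ), (516246419724 : ℕ))) p15_123 (sfcons (a := ((516246341749 : ℕ), (521367513906 : ℕ))) p15_124 (sfcons (a := ((521367480543 : ℕ), (526392589074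 : ℕ))) p15_125 (sfcons (a := ((526392552034 : ℕ), (532138427682 : ℕ))) p15_126 (sfcons (a := ((532138397691 : ℕ), (535875877314 : ℕ))) p15_127 (sfcons (a := ((535875844257 : ℕ), (547746039234 : ℕ))) p15_128 (sfcons (a := ((547746003696 : ℕ), (555721555404 : ℕ))) p15_129 (sfcons (a := ((555721226379 : ℕ), (559775037114 : ℕ))) p15_130 (sfcons (a := ((559774220908 : ℕ), (566064970572 : ℕ))) p15_131 (sfcons (a := ((563862115646 : ℕ), (569949133914 : ℕ))) p15_132 (sfcons (a := ((569948541599 : ℕ), (573936446160 : ℕ))) p15_133 (sfcons (a := ((573935529944 : ℕ), (578025157050 : ℕ))) p15_134 (sfcons (a := ((577509691221 : ℕ), (581270800656 : ℕ))) p15_135 (sfcons (a := ((581269920786 : ℕ), (584981147910 : ℕ))) p15_136 (sfcons (a := ((584981085435 : ℕ), (589380621234 : ℕ))) p15_137 (sfcons (a := ((589380581658 : ℕ), (599251456002 : ℕ))) p15_138 (sfcons (a := ((599251404950 : ℕ), (605849437266 : ℕ))) p15_139 (sfcons (a := ((605849419678 : ℕ), (611152133538 : ℕ))) p15_140 (sfcons (a := ((611152113253 : ℕ), (617947487472 : ℕ))) p15_141 (sfcons (a := ((617947131608 : ℕ), (621323340150 : ℕ))) p15_142 (sfcons (a := ((621323108427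 : ℕ), (627844697760 : ℕ))) p15_143 (sfcons (a := ((627844470047 : ℕ), (633775287264 : ℕ))) p15_144 (sfcons (a := ((633773918635 : ℕ), (637826024970 : ℕ))) p15_145 (sfcons (a := ((637825279265 : ℕ), (641704402080 : ℕ))) p15_146 (sfcons (a := ((641703085368 : ℕ), (646047441312 : ℕ))) p15_147 (sfcons (a := ((646047235390 : ℕ), (648780417600 : ℕ))) p15_148 (sfcons (a := ((648779456216 : ℕ), (657072765450 : ℕ))) p15_149 (sfcons (a := ((657071845301 : ℕ), (660847138896 : ℕ))) p15_150 (sfcons (a := ((660846272472 : ℕ), (667790212650 : ℕ))) p15_151 (sfcons (a := ((665276394837 : ℕ), (673653988710 : ℕ))) p15_152 (sfcons (a := ((673653972291 : ℕ), (679852221186 : ℕ))) p15_153 (sfcons (a := ((679852200907 : ℕ), (688579034640 : ℕ))) p15_154 (sfcons (a := ((688578846376 : ℕ), (693244444368 : ℕ))) p15_155 (sfcons (a := ((693244161509 : ℕ), (698726944944 : ℕ))) p15_156 (sfcons (a := ((698726713324 : ℕ), (703346087808 : ℕ))) p15_157 (sfcons (a := ((703344965611 : ℕ), (712670117910 : ℕ))) p15_158 (sfcons (a := ((712669959262 : ℕ), (721485589104 : ℕ))) p15_159 (sfcons (a := ((721485521908 : ℕ), (731908032450 : ℕ))) p15_160 (sfcons (a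 := ((731907971804 : ℕ), (743202683256 : ℕ))) p15_161 (sfcons (a := ((738048352884 : ℕ), (749695542282 : ℕ))) p15_162 (sfcons (a := ((748073485054 : ℕ), (759393261648 : ℕ))) p15_163 (sfcons (a := ((759392182699 : ℕ), (770585615430 : ℕ))) p15_164 (sfcons (a := ((770585363333 : ℕ), (782275524912 : ℕ))) p15_165 (sfcons (a := ((780928094482 : ℕ), (787761384390 : ℕ))) p15_166 (sfcons (a := ((787759565905 : ℕ), (792402081720 : ℕ))) p15_167 (sfcons (a := ((792077263309 : ℕ), (800048295774 : ℕ))) p15_168 (sfcons (a := ((800047132012 : ℕ), (809269982430 : ℕ))) p15_169 (sfcons (a := ((809268677890 : ℕ), (814026366270 : ℕ))) p15_170 (sfcons (a := ((810309777670 : ℕ), (818849417568 : ℕ))) p15_171 (sfcons (a := ((817829351310 : ℕ), (828028357968 : ℕ))) p15_172 (sfcons (a := ((828025885342 : ℕ), (835192318128 : ℕ))) p15_173 (sfcons (a := ((835189882987 : ℕ), (843512688144 : ℕ))) p15_174 (sfcons (a := ((843510260875 : ℕ), (849856401744 : ℕ))) p15_175 (sfcons (a := ((849854071723 : ℕ), (858990057744 : ℕ))) p15_176 (sfcons (a := ((856951201696 : ℕ), (867651789342 : ℕ))) p15_177 (sfcons (a := ((867651521320 : ℕ), (876651070230 : ℕ)))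 p15_178 (sfcons (a := ((876646179002 : ℕ), (887347222398 : ℕ))) p15_179 (sfcons (a := ((887346500449 : ℕ), (897329175678 : ℕ))) p15_180 (sfcons (a := ((897327237034 : ℕ), (908012826942 : ℕ))) p15_181 (sfcons (a := ((908011222526 : ℕ), (915868129830 : ℕ))) p15_182 (sfcons (a := ((915864404364 : ℕ), (924909171966 : ℕ))) p15_183 (sfcons (a := ((924907238937 : ℕ), (934346471838 : ℕ))) p15_184 (sfcons (a := ((934346163092 : ℕ), (949187928306 : ℕ))) p15_185 (sfcons (a := ((947872476139 : ℕ), (959723121840 : ℕ))) p15_186 (sfcons (a := ((959722818193 : ℕ), (984282928944 : ℕ))) p15_187 (sfcons (a := ((984280293451 : ℕ), (999349812390 : ℕ))) p15_188 (sfcons (a := ((999349448734 : ℕ), (1013344899930 : ℕ))) p15_189 (sfcons (a := ((1013342371847 : ℕ), (1021671864954 : ℕ))) p15_190 (sfcons (a := ((1021669659339 : ℕ), (1029311580528 : ℕ))) p15_191 (sfcons (a := ((1029308536779 : ℕ), (1031163586650 : ℕ))) p15_192 (sfcons (a := ((1031163141269 : ℕ), (1048068145710 : ℕ))) p15_193 (sfcons (a := ((1047782424825 : ℕ), (1065353396040 : ℕ))) p15_194 (sfcons (a := ((1065353239541 : ℕ), (1086794446686 : ℕ))) p15_195 (sfcons (a := ((1086794220172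 : ℕ), (1110848398938 : ℕ))) p15_196 (sfcons (a := ((1110845863887 : ℕ), (1128653220186 : ℕ))) p15_197 (sfcons (a := ((1128650887555 : ℕ), (1145978162010 : ℕ))) p15_198 (sfcons (a := ((1145976072627 : ℕ), (1169334136626 : ℕ))) p15_199 (sfcons (a := ((1169333349903 : ℕ), (1203625527642 : ℕ))) p15_200 (sfcons (a := ((1193569100586 : ℕ), (1207328396430 : ℕ))) p15_201 (sfcons (a := ((1207328042260 : ℕ), (1226001840336 : ℕ))) p15_202 (sfcons (a := ((1225998686654 : ℕ), (1245985742574 : ℕ))) p15_203 (sfcons (a := ((1243348944177 : ℕ), (1258622088786 : ℕ))) p15_204 (sfcons (a := ((1246627414885 : ℕ), (1313160368040 : ℕ))) p15_205 (sfcons (a := ((1306644714993 : ℕ), (1334302670358 : ℕ))) p15_206 (sfcons (a := ((1329492461699 : ℕ), (1356124901376 : ℕ))) p15_207 (sfcons (a := ((1353962913004 : ℕ), (1392165589770 : ℕ))) p15_208 (sfcons (a := ((1390565064712 : ℕ), (1414027174638 : ℕ))) p15_209 (sfcons (a := ((1414024832504 : ℕ), (1422379220760 : ℕ))) p15_210 (sfcons (a := ((1422379140158 : ℕ), (1472327583990 : ℕ))) p15_211 (sfcons (a := ((1471778011825 : ℕ), (1481669554638 : ℕ))) p15_212 (sfcons (a := ((1479869861561 : ℕ), (1491078223800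 : ℕ))) p15_213 (sfcons (a := ((1491077284552 : ℕ), (1522185741720 : ℕ))) p15_214 (sfcons (a := ((1522185469951 : ℕ), (1565154516762 : ℕ))) p15_215 (sfcons (a := ((1539431433388 : ℕ), (1600626470016 : ℕ))) p15_216 (sfcons (a := ((1600626355934 : ℕ), (1632330776496 : ℕ))) p15_217 (sfcons (a := ((1632326448670 : ℕ), (1659262316550 : ℕ))) p15_218 (sfcons (a := ((1659253954531 : ℕ), (1690418617758 : ℕ))) p15_219 (sfcons (a := ((1690418465912 : ℕ), (1734467215152 : ℕ))) p15_220 (sfcons (a := ((1730400673666 : ℕ), (1742831041350 : ℕ))) p15_221 (sfcons (a := ((1742829908538 : ℕ), (1784844223146 : ℕ))) p15_222 (sfcons (a := ((1766361919378 : ℕ), (1801393299216 : ℕ))) p15_223 (sfcons (a := ((1801388886680 : ℕ), (1816451120520 : ℕ))) p15_224 (sfcons (a := ((1816448093128 : ℕ), (1829881450992 : ℕ))) p15_225 (sfcons (a := ((1828437918651 : ℕ), (1845031681800 : ℕ))) p15_226 (sfcons (a := ((1845031226330 : ℕ), (1875895976550 : ℕ))) p15_227 (sfcons (a := ((1875887546394 : ℕ), (1901549895270 : ℕ))) p15_228 (sfcons (a := ((1901542514604 : ℕ), (1927349277990 : ℕ))) p15_229 (sfcons (a := ((1907720085297 : ℕ), (1983924534600 : ℕ))) p15_230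 (sfcons (a := ((1983924334697 : ℕ), (2025581614920 : ℕ))) p15_231 (sfcons (a := ((1999098037864 : ℕ), (2063520318990 : ℕ))) p15_232 (sfcons (a := ((2060116490150 : ℕ), (2097190984146 : ℕ))) p15_233 (sfcons (a := ((2096071262440 : ℕ), (2131363665720 : ℕ))) p15_234 (sfcons (a := ((2127571274512 : ℕ), (2159031418830 : ℕ))) p15_235 (sfcons (a := ((2149675498718 : ℕ), (2240584678230 : ℕ))) p15_236 (sfcons (a := ((2237804668587 : ℕ), (2290460110650 : ℕ))) p15_237 (sfcons (a := ((2271750680337 : ℕ), (2330412382368 : ℕ))) p15_238 (sfcons (a := ((2330412250897 : ℕ), (2371321870650 : ℕ))) p15_239 (sfcons (a := ((2356734850104 : ℕ), (2410334865510 : ℕ))) p15_240 (sfcons (a := ((2410334751797 : ℕ), (2470405128858 : ℕ))) p15_241 (sfcons (a := ((2470404959560 : ℕ), (2539667587350 : ℕ))) p15_242 (sfcons (a := ((2539657766750 : ℕ), (2582882965242 : ℕ))) p15_243 (sfcons (a := ((2582875744801 : ℕ), (2617029758550 : ℕ))) p15_244 (sfcons (a := ((2617016154302 : ℕ), (2667256099350 : ℕ))) p15_245 (sfcons (a := ((2645090946016 : ℕ), (2694333585918 : ℕ))) p15_246 (sfcons (a := ((2694333130861 : ℕ), (2772102808254 : ℕ))) p15_247 (sfcons (a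 := ((2762593268361 : ℕ), (2792383661754 : ℕ))) p15_248 (sfcons (a := ((2792382815574 : ℕ), (2822395904016 : ℕ))) p15_249 (sfcons (a := ((2817312870993 : ℕ), (2836349700306 : ℕ))) p15_250 (sfcons (a := ((2833850347177 : ℕ), (2870359906212 : ℕ))) p15_251 (sfcons (a := ((2855253354280 : ℕ), (2909606841882 : ℕ))) p15_252 (sfcons (a := ((2881148609945 : ℕ), (2979487777878 : ℕ))) p15_253 (sfcons (a := ((2979486451830 : ℕ), (3030894811908 : ℕ))) p15_254 (sfcons (a := ((3021792683870 : ℕ), (3086623707726 : ℕ))) p15_255 (sfcons (a := ((3049543596306 : ℕ), (3174120763260 : ℕ))) p15_256 (sfcons (a := ((3164987674899 : ℕ), (3305262852654 : ℕ))) p15_257 (sfcons (a := ((3285507758182 : ℕ), (3382023764592 : ℕ))) p15_258 (sfcons (a := ((3382023407258 : ℕ), (3446802353724 : ℕ))) p15_259 (sfcons (a := ((3398341037380 : ℕ), (3454480029114 : ℕ))) p15_260 (sfcons (a := ((3454479846378 : ℕ), (3492439105284 : ℕ))) p15_261 (sfcons (a := ((3492438455931 : ℕ), (3596385945240 : ℕ))) p15_262 (sfcons (a := ((3596384570731 : ℕ), (3693040002978 : ℕ))) p15_263 (sfcons (a := ((3693039519752 : ℕ), (3799897532466 : ℕ))) p15_264 (sfcons (a := ((3788829077340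 : ℕ), (3867126638250 : ℕ))) p15_265 (sfcons (a := ((3826112229410 : ℕ), (3895829853930 : ℕ))) p15_266 (sfcons (a := ((3895828699079 : ℕ), (4114569153192 : ℕ))) p15_267 (sfcons (a := ((4114568966155 : ℕ), (4227998018832 : ℕ))) p15_268 (sfcons (a := ((4227997260860 : ℕ), (4361587013490 : ℕ))) p15_269 (sfcons (a := ((4361583104951 : ℕ), (4459533572286 : ℕ))) p15_270 (sfcons (a := ((4459530261365 : ℕ), (4603237634670 : ℕ))) p15_271 (sfcons (a := ((4603234678228 : ℕ), (4699910997252 : ℕ))) p15_272 (sfcons (a := ((4640437945400 : ℕ), (4754436641262 : ℕ))) p15_273 (sfcons (a := ((4751902904355 : ℕ), (4819470172884 : ℕ))) p15_274 (sfcons (a := ((4818510441492 : ℕ), (5026422562752 : ℕ))) p15_275 (sfcons (a := ((5026418154903 : ℕ), (5063270696640 : ℕ))) p15_276 (sfcons (a := ((5026430848986 : ℕ), (5147033607720 : ℕ))) p15_277 (sfcons (a := ((5147032568355 : ℕ), (5288771679444 : ℕ))) p15_278 (sfcons (a := ((5269110043925 : ℕ), (5428973456190 : ℕ))) p15_279 (sfcons (a := ((5428971481293 : ℕ), (5537910028650 : ℕ))) p15_280 (sfcons (a := ((5510908943820 : ℕ), (5652022750476 : ℕ))) p15_281 (sfcons (a := ((5652016497607 : ℕ), (5803769529450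 : ℕ))) p15_282 (sfcons (a := ((5803768494091 : ℕ), (5844897004812 : ℕ))) p15_283 (sfcons (a := ((5830243146206 : ℕ), (5918863697424 : ℕ))) p15_284 (sfcons (a := ((5898271879235 : ℕ), (6083712944610 : ℕ))) p15_285 (sfcons (a := ((6060113738333 : ℕ), (6183921649182 : ℕ))) p15_286 (sfcons (a := ((6161288095125 : ℕ), (6289026070932 : ℕ))) p15_287 (sfcons (a := ((6289024655214 : ℕ), (6372126728820 : ℕ))) p15_288 (sfcons (a := ((6372121167765 : ℕ), (6417937345428 : ℕ))) p15_289 (sfcons (a := ((6417932118741 : ℕ), (6511399927668 : ℕ))) p15_290 (sfcons (a := ((6511398174909 : ℕ), (6602604678324 : ℕ))) p15_291 (sfcons (a := ((6602603302134 : ℕ), (6693505395156 : ℕ))) p15_292 (sfcons (a := ((6693502108743 : ℕ), (6820536603924 : ℕ))) p15_293 (sfcons (a := ((6811924088250 : ℕ), (6968346637716 : ℕ))) p15_294 (sfcons (a := ((6968343618846 : ℕ), (7127884465812 : ℕ))) p15_295 (sfcons (a := ((7127882732898 : ℕ), (7228814224212 : ℕ))) p15_296 (sfcons (a := ((7228812948462 : ℕ), (7402456596564 : ℕ))) p15_297 (sfcons (a := ((7402453959609 : ℕ), (7522538985108 : ℕ))) p15_298 (sfcons (a := ((7522535017566 : ℕ), (7812837749268 : ℕ))) p15_299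 (sfcons (a := ((7794641275605 : ℕ), (8036321466708 : ℕ))) p15_300 (sfcons (a := ((8031548507607 : ℕ), (8393769031284 : ℕ))) p15_301 (sfcons (a := ((8393765824899 : ℕ), (8550002234340 : ℕ))) p15_302 (sfcons (a := ((8550000773424 : ℕ), (8649644516532 : ℕ))) p15_303 (sfcons (a := ((8649643114665 : ℕ), (9013626409428 : ℕ))) p15_304 (sfcons (a := ((9006753438657 : ℕ), (9552960461556 : ℕ))) p15_305 (sfcons (a := ((9552957237999 : ℕ), (9727712465220 : ℕ))) p15_306 (sfcons (a := ((9727709187636 : ℕ), (10014168664548 : ℕ))) p15_307 (sfcons (a := ((10014165785241 : ℕ), (10400330928708 : ℕ))) p15_308 (sfcons (a := ((10400328070947 : ℕ), (10582171810020 : ℕ))) p15_309 (sfcons (a := ((10582170054993 : ℕ), (10805894705556 : ℕ))) p15_310 (sfcons (a := ((10805893340706 : ℕ), (10926619010676 : ℕ))) p15_311 (sfcons (a := ((10926617564907 : ℕ), (11093405431572 : ℕ))) p15_312 (sfcons (a := ((11093403650382 : ℕ), (11296679313348 : ℕ))) p15_313 (sfcons (a := ((11296677543660 : ℕ), (11660359940676 : ℕ))) p15_314 (sfcons (a := ((11660358414960 : ℕ), (11854218482244 : ℕ))) p15_315 (sfcons (a := ((11854217165994 : ℕ), (12108957886116 : ℕ)))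 p15_316 (sfcons (a := ((12108956297220 : ℕ), (12287355344676 : ℕ))) p15_317 (sfcons (a := ((12287353622292 : ℕ), (12463880466852 : ℕ))) p15_318 (sfcons (a := ((12463878607416 : ℕ), (12662545960548 : ℕ))) p15_319 (sfcons (a := ((12662544336741 : ℕ), (12790800676260 : ℕ))) p15_320 (sfcons (a := ((12790799294643 : ℕ), (13000702303332 : ℕ))) p15_321 (sfcons (a := ((13000699006551 : ℕ), (13531777990740 : ℕ))) p15_322 (sfcons (a := ((13492852732557 : ℕ), (14099402763828 : ℕ))) p15_323 (sfcons (a := ((14099400687879 : ℕ), (14200300718388 : ℕ))) p15_324 (sfcons (a := ((14200298865675 : ℕ), (14430915152244 : ℕ))) p15_325 (sfcons (a := ((14418109873341 : ℕ), (14694262665876 : ℕ))) p15_326 sfnil))))))))))))))))))))))))))))))))))))))))))))))))))))))))))))))))))))))))))))))))))))))))))))))))))))))))))))))))))))))))))))))))))))))))))))))))))))))))))))))))))))))))))))))))))))))))))))))))))))))))))))))))))))))))))))))))))))))))))))))))))))))))))))))))))))))))))))))))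

theorem Ls15_cover : cover 180000000000 Ls15 14580000000000 = true := by decide +kernel

end Pool.Agent.Lib.MP_cfac74_al.Cov
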