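import Pool.Agent.Lib.MP_cfac74_al.S.S00
import Pool.Agent.Lib.MP_cfac74_al.S.S01
import Pool.Agent.Lib.MP_cfac74_al.S.S02
import Pool.Agent.Lib.MP_cfac74_al.S.S03
import Pool.Agent.Lib.MP_cfac74_al.S.S04
import Pool.Agent.Lib.MP_cfac74_al.S.S05
import Pool.Agent.Lib.MP_cfac74_al.S.S06
import Pool.Agent.Lib.MP_cfac74_al.S.S07
import Pool.Agent.Lib.MP_cfac74_al.S.S08
import Pool.Agent.Lib.MP_cfac74_al.S.S09
import Pool.Agent.Lib.MP_cfac74_al.S.S10
import Pool.Agent.Lib.MP_cfac74_al.S.S11
import Pool.Agent.Lib.MP_cfac74_al.S.S12
import Pool.Agent.Lib.MP_cfac74_al.S.S13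
import Pool.Agent.Lib.MP_cfac74_al.S.S14
import Pool.Agent.Lib.MP_cfac74_al.S.S15
import Pool.Agent.Lib.MP_cfac74_al.S.S16
import Pool.Agent.Lib.MP_cfac74_al.S.S17
import Pool.Agent.Lib.MP_cfac74_al.S.S18
import Pool.Agent.Lib.MP_cfac74_al.S.Ls

/-!
# MP_cfac74_al : stable windows, class 3
-/

set_option autoImplicit false
set_option maxRecDepth 1000000

namespace Pool.Agent.Lib.MP_cfac74_al.Cov

theorem p3_0 : Stab 3 54361294860 56216750526 := s862_t0

theorem sw3_0 : Win 3 54361294860 56216750526 := p3_0.win (by decide +kernel)

theorem p3_1 : Stab 3 56157332679 57872896542 := s597_t0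

theorem sw3_1 : Win 3 56157332679 57872896542 := p3_1.win (by decide +kernel)

theorem p3_2 : Stab 3 57872875339 60635743038 := s869_t0

theorem sw3_2 : Win 3 57872875339 60635743038 := p3_2.win (by decide +kernel)

theorem p3_3 : Stab 3 60635725378 61883446206 := s287_t0

theorem sw3_3 : Win 3 60635725378 61883446206 := p3_3.win (by decide +kernel)

theorem p3_4 : Stab 3 61883425033 62316315726 := s109_t0

theorem sw3_4 : Win 3 61883425033 62316315726 := p3_4.win (by decide +kernel)

theorem p3_5 : Stab 3 62316297949 62700028974 := s92_t0

theorem sw3_5 : Win 3 62316297949 62700028974 := p3_5.win (by decide +kernel)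

theorem p3_6 : Stab 3 62700010780 63126662670 := s212_t0

theorem sw3_6 : Win 3 62700010780 63126662670 := p3_6.win (by decide +kernel)

theorem p3_7 : Stab 3 63126643713 63734856078 := s37_t0

theorem sw3_7 : Win 3 63126643713 63734856078 := p3_7.win (by decide +kernel)

theorem p3_8 : Stab 3 63734839459 64527310446 := s137_t0

theorem sw3_8 : Win 3 63734839459 64527310446 := p3_8.win (by decide +kernel)

theorem p3_9 : Stab 3 64693832221 65596395726 := s237_t0

theorem sw3_9 : Win 3 64693832221 65596395726 := p3_9.win (by decide +kernel)

theorem p3_10 : Stab 3 66570253841 67470657006 := s269_t0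

theorem sw3_10 : Win 3 66570253841 67470657006 := p3_10.win (by decide +kernel)

theorem p3_11 : Stab 3 69759792816 71163949326 := s878_t0

theorem sw3_11 : Win 3 69759792816 71163949326 := p3_11.win (by decide +kernel)

theorem p3_12 : Stab 3 71163910788 72057471918 := s256_t0

theorem sw3_12 : Win 3 71163910788 72057471918 := p3_12.win (by decide +kernel)

theorem p3_13 : Stab 3 72057453681 73315925118 := s9_t0

theorem sw3_13 : Win 3 72057453681 73315925118 := p3_13.win (by decide +kernel)

theorem p3_14 : Stab 3 73543841728 74758147230 := s518_t0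

theorem sw3_14 : Win 3 73543841728 74758147230 := p3_14.win (by decide +kernel)

theorem p3_15 : Stab 3 74758130017 76054282686 := s178_t0

theorem sw3_15 : Win 3 74758130017 76054282686 := p3_15.win (by decide +kernel)

theorem p3_16 : Stab 3 76310885797 76980434862 := s669_t0

theorem sw3_16 : Win 3 76310885797 76980434862 := p3_16.win (by decide +kernel)

theorem p3_17 : Stab 3 76980412088 77824833102 := s483_t0

theorem sw3_17 : Win 3 76980412088 77824833102 := p3_17.win (by decide +kernel)

theorem p3_18 : Stab 3 77824813421 78806406702 := s306_t0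

theorem sw3_18 : Win 3 77824813421 78806406702 := p3_18.win (by decide +kernel)

theorem p3_19 : Stab 3 78806383563 79635679662 := s91_t0

theorem sw3_19 : Win 3 78806383563 79635679662 := p3_19.win (by decide +kernel)

theorem p3_20 : Stab 3 79635661216 81665389182 := s373_t0

theorem sw3_20 : Win 3 79635661216 81665389182 := p3_20.win (by decide +kernel)

theorem p3_21 : Stab 3 81665373225 82825723662 := s634_t0

theorem sw3_21 : Win 3 81665373225 82825723662 := p3_21.win (by decide +kernel)

theorem p3_22 : Stab 3 82593661959 84112584174 := s745_t0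

theorem sw3_22 : Win 3 82593661959 84112584174 := p3_22.win (by decide +kernel)

theorem p3_23 : Stab 3 83935189912 86151146622 := s746_t0

theorem sw3_23 : Win 3 83935189912 86151146622 := p3_23.win (by decide +kernel)

theorem p3_24 : Stab 3 86151115096 87574710174 := s473_t0

theorem sw3_24 : Win 3 86151115096 87574710174 := p3_24.win (by decide +kernel)

theorem p3_25 : Stab 3 87574687938 89319117246 := s136_t0

theorem sw3_25 : Win 3 87574687938 89319117246 := p3_25.win (by decide +kernel)

theorem p3_26 : Stab 3 89319098366 90843701406 := s85_t0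

theorem sw3_26 : Win 3 89319098366 90843701406 := p3_26.win (by decide +kernel)

theorem p3_27 : Stab 3 90843679990 92653027326 := s254_t0

theorem sw3_27 : Win 3 90843679990 92653027326 := p3_27.win (by decide +kernel)

theorem p3_28 : Stab 3 93845868618 94936080654 := s190_t0

theorem sw3_28 : Win 3 93845868618 94936080654 := p3_28.win (by decide +kernel)

theorem p3_29 : Stab 3 107816352118 109083939918 := s654_t0

theorem sw3_29 : Win 3 107816352118 109083939918 := p3_29.win (by decide +kernel)

theorem p3_30 : Stab 3 109083906608 110317867470 := s88_t0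

theorem sw3_30 : Win 3 109083906608 110317867470 := p3_30.win (by decide +kernel)

theorem p3_31 : Stab 3 115502168680 116996229582 := s309_t0

theorem sw3_31 : Win 3 115502168680 116996229582 := p3_31.win (by decide +kernel)

theorem p3_32 : Stab 3 116855371923 118162006110 := s216_t0

theorem sw3_32 : Win 3 116855371923 118162006110 := p3_32.win (by decide +kernel)

theorem p3_33 : Stab 3 119017854996 120639240606 := s233_t0

theorem sw3_33 : Win 3 119017854996 120639240606 := p3_33.win (by decide +kernel)

theorem p3_34 : Stab 3 120310575544 121717328670 := s839_t0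

theorem sw3_34 : Win 3 120310575544 121717328670 := p3_34.win (by decide +kernel)

theorem p3_35 : Stab 3 121717288656 122949723966 := s604_t0

theorem sw3_35 : Win 3 121717288656 122949723966 := p3_35.win (by decide +kernel)

theorem p3_36 : Stab 3 122949684682 124264668030 := s205_t0

theorem sw3_36 : Win 3 122949684682 124264668030 := p3_36.win (by decide +kernel)

theorem p3_37 : Stab 3 124264650161 125674741470 := s106_t0

theorem sw3_37 : Win 3 124264650161 125674741470 := p3_37.win (by decide +kernel)

theorem p3_38 : Stab 3 129209707613 130676051454 := s588_t0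

theorem sw3_38 : Win 3 129209707613 130676051454 := p3_38.win (by decide +kernel)

theorem p3_39 : Stab 3 130676007444 132117969630 := s262_t0

theorem sw3_39 : Win 3 130676007444 132117969630 := p3_39.win (by decide +kernel)

theorem p3_40 : Stab 3 133055502837 134730797742 := s303_t0

theorem sw3_40 : Win 3 133055502837 134730797742 := p3_40.win (by decide +kernel)

theorem p3_41 : Stab 3 135860118060 137716243566 := s490_t0

theorem sw3_41 : Win 3 135860118060 137716243566 := p3_41.win (by decide +kernel)

theorem p3_42 : Stab 3 137716178316 139745639406 := s832_t0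

theorem sw3_42 : Win 3 137716178316 139745639406 := p3_42.win (by decide +kernel)

theorem p3_43 : Stab 3 139745580294 142534023582 := s286_t0

theorem sw3_43 : Win 3 139745580294 142534023582 := p3_43.win (by decide +kernel)

theorem p3_44 : Stab 3 142534005908 143492153982 := s290_t0

theorem sw3_44 : Win 3 142534005908 143492153982 := p3_44.win (by decide +kernel)

theorem p3_45 : Stab 3 143492135102 144790795518 := s213_t0

theorem sw3_45 : Win 3 143492135102 144790795518 := p3_45.win (by decide +kernel)

theorem p3_46 : Stab 3 144790772956 147238242990 := s748_t0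

theorem sw3_46 : Win 3 144790772956 147238242990 := p3_46.win (by decide +kernel)

theorem p3_47 : Stab 3 147238222604 149503773294 := s259_t0

theorem sw3_47 : Win 3 147238222604 149503773294 := p3_47.win (by decide +kernel)

theorem p3_48 : Stab 3 149503751829 154117123086 := s546_t0

theorem sw3_48 : Win 3 149503751829 154117123086 := p3_48.win (by decide +kernel)

theorem p3_49 : Stab 3 153973873139 157552276878 := s620_t0

theorem sw3_49 : Win 3 153973873139 157552276878 := p3_49.win (by decide +kernel)

theorem p3_50 : Stab 3 157552194689 161120575758 := s34_t0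

theorem sw3_50 : Win 3 157552194689 161120575758 := p3_50.win (by decide +kernel)

theorem p3_51 : Stab 3 161120542918 164403817710 := s379_t0

theorem sw3_51 : Win 3 161120542918 164403817710 := p3_51.win (by decide +kernel)

theorem p3_52 : Stab 3 164403750306 168550350030 := s362_t0

theorem sw3_52 : Win 3 164403750306 168550350030 := p3_52.win (by decide +kernel)

theorem p3_53 : Stab 3 168550312673 173543917326 := s482_t0

theorem sw3_53 : Win 3 168550312673 173543917326 := p3_53.win (by decide +kernel)

theorem p3_54 : Stab 3 173530834476 175330214046 := s402_t0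

theorem sw3_54 : Win 3 173530834476 175330214046 := p3_54.win (by decide +kernel)

theorem p3_55 : Stab 3 175330154242 183173625966 := s527_t0

theorem sw3_55 : Win 3 175330154242 183173625966 := p3_55.win (by decide +kernel)

theorem p3_56 : Stab 3 183173607104 191945345262 := s241_t0

theorem p3_57 : Stab 3 191945322327 199869962478 := s399_t0

theorem p3_58 : Stab 3 199869889482 205456985982 := s605_t0

theorem p3_59 : Stab 3 205456895699 206052775518 := s818_t0

theorem p3_60 : Stab 3 205617929099 207728998770 := (Half.stab s371_t0 s582_t0 (by decide +kernel) : Stab 3 205617929099 207728998770)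

theorem p3_61 : Stab 3 207728800075 210530907330 := (Half.stab s462_t1 s294_t0 (by decide +kernel) : Stab 3 207728800075 210530907330)

theorem p3_62 : Stab 3 210530825035 210837900690 := (Half.stab s462_t1 s876_t0 (by decide +kernel) : Stab 3 210530825035 210837900690)

theorem p3_63 : Stab 3 210837513300 211899043170 := (Half.stab s655_t1 s876_t0 (by decide +kernel) : Stab 3 210837513300 211899043170)

theorem p3_64 : Stab 3 211898735014 213834174450 := (Half.stab s655_t1 s751_t1 (by decide +kernel) : Stab 3 211898735014 213834174450)

theorem p3_65 : Stab 3 213711550676 218681559198 := s674_t0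

theorem p3_66 : Stab 3 218681502213 221943952926 := s864_t0

theorem p3_67 : Stab 3 221943887903 224817319998 := s31_t0

theorem p3_68 : Stab 3 224817288170 227628070686 := s727_t0

theorem p3_69 : Stab 3 227628035168 230279747022 := s26_t0

theorem p3_70 : Stab 3 230279718673 232286126718 := s857_t0

theorem p3_71 : Stab 3 232286088150 235502379966 := s488_t0

theorem p3_72 : Stab 3 235502325576 244978937214 := s603_t0

theorem p3_73 : Stab 3 244978867950 249554785998 := s581_t0

theorem p3_74 : Stab 3 249428715316 259336448094 := s646_t0

theorem p3_75 : Stab 3 259336373442 261316575726 := s807_t0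

theorem p3_76 : Stab 3 261316524407 264059346030 := s627_t0

theorem p3_77 : Stab 3 264059266226 267562770654 := s616_t0

theorem p3_78 : Stab 3 267562741873 270793757262 := s357_t0

theorem p3_79 : Stab 3 270793667417 278766836526 := s60_t0

theorem p3_80 : Stab 3 278766806642 284477205294 := s853_t0

theorem p3_81 : Stab 3 284477158525 294465516798 := s834_t0

theorem p3_82 : Stab 3 294465500052 297523445694 := s640_t0

theorem p3_83 : Stab 3 297523413204 300443637912 := (Half.stab s133_t1 s193_t1 (by decide +kernel) : Stab 3 297523413204 300443637912)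

theorem p3_84 : Stab 3 300443607901 305165191566 := s118_t0

theorem p3_85 : Stab 3 305165140825 308430855486 := s658_t0

theorem p3_86 : Stab 3 308430786402 310985963928 := (Half.stab s799_t1 s531_t0 (by decide +kernel) : Stab 3 308430786402 310985963928)

theorem p3_87 : Stab 3 310985458713 315694703832 := (Half.stab s265_t1 s93_t0 (by decide +kernel) : Stab 3 310985458713 315694703832)

theorem p3_88 : Stab 3 315694244237 316638407730 := (Half.stab s265_t1 s129_t0 (by decide +kernel) : Stab 3 315694244237 316638407730)

theorem p3_89 : Stab 3 316637868633 320332756440 := (Half.stab s65_t1 s129_t0 (by decide +kernel) : Stab 3 316637868633 320332756440)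

theorem p3_90 : Stab 3 320127070282 331852463310 := s100_t0

theorem p3_91 : Stab 3 331852436868 348566208270 := s820_t0

theorem p3_92 : Stab 3 348566122651 352546982046 := s40_t0

theorem p3_93 : Stab 3 352546918989 357297272142 := s320_t0

theorem p3_94 : Stab 3 357297209753 361654957998 := s130_t0

theorem p3_95 : Stab 3 361654920980 366180448590 := s207_t0

theorem p3_96 : Stab 3 366180419195 369007820142 := s398_t0

theorem p3_97 : Stab 3 369007756694 375179195310 := s629_t0

theorem p3_98 : Stab 3 375179157762 380309979054 := s98_t0

theorem p3_99 : Stab 3 380309942828 385469855598 := s625_t0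

theorem p3_100 : Stab 3 385469821501 389791350366 := s435_t0

theorem p3_101 : Stab 3 389791247556 394870445358 := s43_t0

theorem p3_102 : Stab 3 394870409095 400967873070 := s56_t0

theorem p3_103 : Stab 3 400967851047 406586144958 := s522_t0

theorem p3_104 : Stab 3 406586123774 410657456238 := s424_t0

theorem p3_105 : Stab 3 410657406579 416497422348 := (Half.stab s141_t1 s730_t1 (by decide +kernel) : Stab 3 410657406579 416497422348)

theorem p3_106 : Stab 3 416497379076 419697767406 := s166_t0

theorem p3_107 : Stab 3 419697717729 424325751342 := s308_t0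

theorem p3_108 : Stab 3 424325699346 429937420206 := s24_t0

theorem p3_109 : Stab 3 429937394413 448116935646 := s559_t0

theorem p3_110 : Stab 3 448116913055 453833655342 := s73_t0

theorem p3_111 : Stab 3 453833634073 466085180526 := s760_t0

theorem p3_112 : Stab 3 466085160941 482066973102 := s463_t0

theorem p3_113 : Stab 3 482066911051 494082751998 := s578_t0

theorem p3_114 : Stab 3 494082700664 507933517470 := s400_t0

theorem p3_115 : Stab 3 507933490928 523405951710 := s299_t0

theorem p3_116 : Stab 3 523405907178 533451219870 := s78_t0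

theorem p3_117 : Stab 3 533451184272 547216612734 := s51_t0

theorem p3_118 : Stab 3 547216579316 560977928190 := s101_t0

theorem p3_119 : Stab 3 560977905547 563506050366 := s673_t0

theorem p3_120 : Stab 3 563506027734 570841576734 := s502_t0

theorem p3_121 : Stab 3 570841522448 577229644290 := (Half.stab s752_t1 s57_t1 (by decide +kernel) : Stab 3 570841522448 577229644290)

theorem p3_122 : Stab 3 577229606593 582500887806 := s549_t0

theorem p3_123 : Stab 3 582500851785 588683496414 := s712_t0

theorem p3_124 : Stab 3 588683465856 591864486210 := (Half.stab s437_t1 s816_t1 (by decide +kernel) : Stab 3 588683465856 591864486210)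

theorem p3_125 : Stab 3 591863831188 597525684666 := (Half.stab s437_t1 s645_t1 (by decide +kernel) : Stab 3 591863831188 597525684666)

theorem p3_126 : Stab 3 596334568813 602202795852 := (Half.stab s437_t1 s342_t1 (by decide +kernel) : Stab 3 596334568813 602202795852)

theorem p3_127 : Stab 3 602201256576 613057983678 := (Half.stab s192_t1 s342_t1 (by decide +kernel) : Stab 3 602201256576 613057983678)

theorem p3_128 : Stab 3 613057941616 617482200510 := s632_t0

theorem p3_129 : Stab 3 617482162257 626312291994 := (Half.stab s623_t1 s132_t2 (by decide +kernel) : Stab 3 617482162257 626312291994)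

theorem p3_130 : Stab 3 623889768689 636652635486 := s778_t0

theorem p3_131 : Stab 3 636652616889 645381430842 := (Half.stab s164_t1 s683_t0 (by decide +kernel) : Stab 3 636652616889 645381430842)

theorem p3_132 : Stab 3 645380973421 650094479730 := (Half.stab s164_t1 s105_t3 (by decide +kernel) : Stab 3 645380973421 650094479730)

theorem p3_133 : Stab 3 650094340416 673610379966 := (Half.stab s815_t1 s105_t3 (by decide +kernel) : Stab 3 650094340416 673610379966)

theorem p3_134 : Stab 3 673610132595 684237919170 := (Half.stab s305_t2 s801_t1 (by decide +kernel) : Stab 3 673610132595 684237919170)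

theorem p3_135 : Stab 3 681812143450 694083684138 := (Half.stab s305_t2 s283_t1 (by decide +kernel) : Stab 3 681812143450 694083684138)

theorem p3_136 : Stab 3 694083547968 704742431562 := (Half.stab s790_t2 s152_t2 (by decide +kernel) : Stab 3 694083547968 704742431562)

theorem p3_137 : Stab 3 704741275751 714801511242 := (Half.stab s790_t2 s382_t1 (by decide +kernel) : Stab 3 704741275751 714801511242)

theorem p3_138 : Stab 3 714801219042 725387447148 := (Half.stab s790_t2 s404_t1 (by decide +kernel) : Stab 3 714801219042 725387447148)

theorem p3_139 : Stab 3 725387302129 738608407650 := (Half.stab s622_t3 s404_t1 (by decide +kernel) : Stab 3 725387302129 738608407650)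

theorem p3_140 : Stab 3 738605741378 752396155398 := (Half.stab s622_t3 s474_t1 (by decide +kernel) : Stab 3 738605741378 752396155398)

theorem p3_141 : Stab 3 749635445439 773425327650 := (Half.stab s195_t3 s474_t1 (by decide +kernel) : Stab 3 749635445439 773425327650)

theorem p3_142 : Stab 3 768254272692 778682213322 := (Half.stab s195_t3 s500_t2 (by decide +kernel) : Stab 3 768254272692 778682213322)

theorem p3_143 : Stab 3 778680437052 796496446122 := (Half.stab s557_t2 s579_t2 (by decide +kernel) : Stab 3 778680437052 796496446122)

theorem p3_144 : Stab 3 796495454097 818229934314 := (Half.stab s557_t2 s53_t2 (by decide +kernel) : Stab 3 796495454097 818229934314)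

theorem p3_145 : Stab 3 818229132121 825564484332 := (Half.stab s557_t2 s48_t2 (by decide +kernel) : Stab 3 818229132121 825564484332)

theorem p3_146 : Stab 3 822148311705 840664758570 := (Half.stab s840_t1 s48_t2 (by decide +kernel) : Stab 3 822148311705 840664758570)

theorem p3_147 : Stab 3 840664602682 865421983356 := (Half.stab s840_t1 s776_t1 (by decide +kernel) : Stab 3 840664602682 865421983356)

theorem p3_148 : Stab 3 865421866732 874338420528 := (Half.stab s565_t2 s619_t1 (by decide +kernel) : Stab 3 865421866732 874338420528)

theorem p3_149 : Stab 3 872321028372 885245416560 := (Half.stab s555_t2 s619_t1 (by decide +kernel) : Stab 3 872321028372 885245416560)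

theorem p3_150 : Stab 3 885244707280 896954267718 := (Half.stab s148_t2 s138_t1 (by decide +kernel) : Stab 3 885244707280 896954267718)

theorem p3_151 : Stab 3 894195107334 909063349890 := (Half.stab s39_t4 s138_t1 (by decide +kernel) : Stab 3 894195107334 909063349890)

theorem p3_152 : Stab 3 909058395604 921576220848 := (Half.stab s667_t5 s613_t1 (by decide +kernel) : Stab 3 909058395604 921576220848)

theorem p3_153 : Stab 3 914505261939 929543110530 := (Half.stab s492_t2 s613_t1 (by decide +kernel) : Stab 3 914505261939 929543110530)

theorem p3_154 : Stab 3 929543030096 933842752332 := (Half.stab s492_t2 s302_t1 (by decide +kernel) : Stab 3 929543030096 933842752332)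

theorem p3_155 : Stab 3 933842334045 949522534740 := (Half.stab s714_t3 s302_t1 (by decide +kernel) : Stab 3 933842334045 949522534740)

theorem p3_156 : Stab 3 944272733645 953694400950 := (Half.stab s467_t1 s302_t1 (by decide +kernel) : Stab 3 944272733645 953694400950)

theorem p3_157 : Stab 3 953302975008 958689358284 := (Half.stab s467_t1 s249_t4 (by decide +kernel) : Stab 3 953302975008 958689358284)

theorem p3_158 : Stab 3 958162061332 971863901370 := (Half.stab s132_t4 s249_t4 (by decide +kernel) : Stab 3 958162061332 971863901370)

theorem p3_159 : Stab 3 966855931609 986738259060 := (Half.stab s90_t2 s249_t4 (by decide +kernel) : Stab 3 966855931609 986738259060)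

theorem p3_160 : Stab 3 986736924765 1002698147700 := (Half.stab s199_t2 s313_t3 (by decide +kernel) : Stab 3 986736924765 1002698147700)

theorem p3_161 : Stab 3 1002696833529 1021753166580 := (Half.stab s331_t3 s313_t3 (by decide +kernel) : Stab 3 1002696833529 1021753166580)

theorem p3_162 : Stab 3 1021752948561 1054471598550 := (Half.stab s838_t4 s695_t2 (by decide +kernel) : Stab 3 1021752948561 1054471598550)

theorem p3_163 : Stab 3 1053820105413 1085794691238 := (Half.stab s421_t2 s794_t1 (by decide +kernel) : Stab 3 1053820105413 1085794691238)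

theorem p3_164 : Stab 3 1085793013799 1107582005730 := (Half.stab s292_t2 s794_t1 (by decide +kernel) : Stab 3 1085793013799 1107582005730)

theorem p3_165 : Stab 3 1102178080400 1113820876998 := (Half.stab s292_t2 s715_t1 (by decide +kernel) : Stab 3 1102178080400 1113820876998)

theorem p3_166 : Stab 3 1113819660608 1138308694182 := (Half.stab s351_t3 s715_t1 (by decide +kernel) : Stab 3 1113819660608 1138308694182)

theorem p3_167 : Stab 3 1133615358763 1160753905890 := (Half.stab s436_t5 s715_t1 (by decide +kernel) : Stab 3 1133615358763 1160753905890)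

theorem p3_168 : Stab 3 1160750232738 1180969894530 := (Half.stab s436_t5 s229_t1 (by decide +kernel) : Stab 3 1160750232738 1180969894530)

theorem p3_169 : Stab 3 1180964144189 1194889890240 := (Half.stab s271_t1 s647_t3 (by decide +kernel) : Stab 3 1180964144189 1194889890240)

theorem p3_170 : Stab 3 1193467100200 1220918682582 := (Half.stab s271_t1 s191_t3 (by decide +kernel) : Stab 3 1193467100200 1220918682582)

theorem p3_171 : Stab 3 1220915659169 1223759595090 := (Half.stab s271_t1 s517_t3 (by decide +kernel) : Stab 3 1220915659169 1223759595090)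

theorem p3_172 : Stab 3 1223754418406 1252504190646 := (Half.stab s587_t1 s517_t3 (by decide +kernel) : Stab 3 1223754418406 1252504190646)

theorem p3_173 : Stab 3 1247871957364 1269818897802 := (Half.stab s587_t1 s544_t1 (by decide +kernel) : Stab 3 1247871957364 1269818897802)

theorem p3_174 : Stab 3 1269817766666 1295029623498 := (Half.stab s383_t3 s572_t3 (by decide +kernel) : Stab 3 1269817766666 1295029623498)

theorem p3_175 : Stab 3 1293434623194 1313545767324 := (Half.stab s383_t3 s822_t1 (by decide +kernel) : Stab 3 1293434623194 1313545767324)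

theorem p3_176 : Stab 3 1313545637620 1349156258346 := (Half.stab s738_t3 s454_t2 (by decide +kernel) : Stab 3 1313545637620 1349156258346)

theorem p3_177 : Stab 3 1349154377916 1383993177606 := (Half.stab s738_t3 s11_t2 (by decide +kernel) : Stab 3 1349154377916 1383993177606)

theorem p3_178 : Stab 3 1383990089652 1428590990070 := (Half.stab s29_t1 s4_t1 (by decide +kernel) : Stab 3 1383990089652 1428590990070)

theorem p3_179 : Stab 3 1428588356055 1434934980690 := (Half.stab s29_t1 s594_t2 (by decide +kernel) : Stab 3 1428588356055 1434934980690)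

theorem p3_180 : Stab 3 1434927674813 1475514819702 := (Half.stab s792_t1 s594_t2 (by decide +kernel) : Stab 3 1434927674813 1475514819702)

theorem p3_181 : Stab 3 1475513987106 1496855450130 := (Half.stab s792_t1 s677_t1 (by decide +kernel) : Stab 3 1475513987106 1496855450130)

theorem p3_182 : Stab 3 1496848719979 1528048288650 := (Half.stab s660_t1 s734_t2 (by decide +kernel) : Stab 3 1496848719979 1528048288650)

theorem p3_183 : Stab 3 1528046307067 1551324256530 := (Half.stab s660_t1 s826_t2 (by decide +kernel) : Stab 3 1528046307067 1551324256530)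

theorem p3_184 : Stab 3 1551324154346 1575383324808 := (Half.stab s372_t2 s358_t2 (by decide +kernel) : Stab 3 1551324154346 1575383324808)

theorem p3_185 : Stab 3 1575382780808 1603734281994 := (Half.stab s345_t6 s478_t2 (by decide +kernel) : Stab 3 1575382780808 1603734281994)

theorem p3_186 : Stab 3 1603733135840 1624380329130 := (Half.stab s345_t6 s296_t2 (by decide +kernel) : Stab 3 1603733135840 1624380329130)

theorem p3_187 : Stab 3 1623312990018 1653375388662 := (Half.stab s345_t6 s182_t2 (by decide +kernel) : Stab 3 1623312990018 1653375388662)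

theorem p3_188 : Stab 3 1648738750969 1663336466184 := (Half.stab s345_t6 s314_t1 (by decide +kernel) : Stab 3 1648738750969 1663336466184)

theorem p3_189 : Stab 3 1655083512194 1698927454056 := (Half.stab s564_t6 s314_t1 (by decide +kernel) : Stab 3 1655083512194 1698927454056)

theorem p3_190 : Stab 3 1698927001497 1715915603490 := (Half.stab s7_t3 s97_t1 (by decide +kernel) : Stab 3 1698927001497 1715915603490)

theorem p3_191 : Stab 3 1715910412756 1727160258210 := (Half.stab s7_t3 s765_t1 (by decide +kernel) : Stab 3 1715910412756 1727160258210)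

theorem p3_192 : Stab 3 1727160163270 1745372486172 := (Half.stab s165_t3 s556_t1 (by decide +kernel) : Stab 3 1727160163270 1745372486172)

theorem p3_193 : Stab 3 1745366554554 1760212445940 := (Half.stab s165_t3 s115_t2 (by decide +kernel) : Stab 3 1745366554554 1760212445940)

theorem p3_194 : Stab 3 1757413179236 1783567924614 := (Half.stab s20_t1 s789_t4 (by decide +kernel) : Stab 3 1757413179236 1783567924614)

theorem p3_195 : Stab 3 1783564555600 1790127036906 := (Half.stab s540_t1 s789_t4 (by decide +kernel) : Stab 3 1783564555600 1790127036906)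

theorem p3_196 : Stab 3 1790124247907 1821099189546 := (Half.stab s540_t1 s568_t4 (by decide +kernel) : Stab 3 1790124247907 1821099189546)

theorem p3_197 : Stab 3 1821096101896 1833894404838 := (Half.stab s540_t1 s124_t4 (by decide +kernel) : Stab 3 1821096101896 1833894404838)

theorem p3_198 : Stab 3 1831215867651 1865304342954 := (Half.stab s375_t2 s124_t4 (by decide +kernel) : Stab 3 1831215867651 1865304342954)

theorem p3_199 : Stab 3 1865304140854 1919148098022 := (Half.stab s811_t2 s105_t8 (by decide +kernel) : Stab 3 1865304140854 1919148098022)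

theorem p3_200 : Stab 3 1919147768244 1949947405410 := (Half.stab s19_t2 s346_t1 (by decide +kernel) : Stab 3 1919147768244 1949947405410)

theorem p3_201 : Stab 3 1949947003781 1995981724980 := (Half.stab s798_t4 s836_t5 (by decide +kernel) : Stab 3 1949947003781 1995981724980)

theorem p3_202 : Stab 3 1995892222074 2027460554712 := (Half.stab s817_t3 s836_t5 (by decide +kernel) : Stab 3 1995892222074 2027460554712)

theorem p3_203 : Stab 3 2000143039328 2055877834662 := (Half.stab s817_t3 s744_t2 (by decide +kernel) : Stab 3 2000143039328 2055877834662)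

theorem p3_204 : Stab 3 2052695811813 2082324171228 := (Half.stab s396_t3 s744_t2 (by decide +kernel) : Stab 3 2052695811813 2082324171228)

theorem p3_205 : Stab 3 2082323445931 2092011810246 := (Half.stab s396_t3 s195_t9 (by decide +kernel) : Stab 3 2082323445931 2092011810246)

theorem p3_206 : Stab 3 2083110774730 2104181706450 := (Half.stab s824_t2 s195_t9 (by decide +kernel) : Stab 3 2083110774730 2104181706450)

theorem p3_207 : Stab 3 2104020756716 2147061210282 := (Half.stab s423_t3 s195_t9 (by decide +kernel) : Stab 3 2104020756716 2147061210282)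

theorem p3_208 : Stab 3 2126600862387 2203920879750 := (Half.stab s249_t10 s195_t9 (by decide +kernel) : Stab 3 2126600862387 2203920879750)

theorem p3_209 : Stab 3 2188895742091 2248918947786 := (Half.stab s249_t10 s523_t1 (by decide +kernel) : Stab 3 2188895742091 2248918947786)

theorem p3_210 : Stab 3 2207585343305 2258842517730 := (Half.stab s157_t7 s523_t1 (by decide +kernel) : Stab 3 2207585343305 2258842517730)

theorem p3_211 : Stab 3 2258833125835 2300838085992 := (Half.stab s157_t7 s591_t1 (by decide +kernel) : Stab 3 2258833125835 2300838085992)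

theorem p3_212 : Stab 3 2300837844326 2337040130280 := (Half.stab s508_t5 s676_t3 (by decide +kernel) : Stab 3 2300837844326 2337040130280)

theorem p3_213 : Stab 3 2324459753280 2391057140580 := (Half.stab s685_t3 s676_t3 (by decide +kernel) : Stab 3 2324459753280 2391057140580)

theorem p3_214 : Stab 3 2389750963430 2433264519000 := (Half.stab s580_t3 s873_t5 (by decide +kernel) : Stab 3 2389750963430 2433264519000)

theorem p3_215 : Stab 3 2416445740764 2458175547450 := (Half.stab s108_t5 s873_t5 (by decide +kernel) : Stab 3 2416445740764 2458175547450)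

theorem p3_216 : Stab 3 2456069435036 2512971077160 := (Half.stab s108_t5 s529_t4 (by decide +kernel) : Stab 3 2456069435036 2512971077160)

theorem p3_217 : Stab 3 2483993395098 2559424782924 := (Half.stab s608_t1 s529_t4 (by decide +kernel) : Stab 3 2483993395098 2559424782924)

theorem p3_218 : Stab 3 2557471706644 2578020924570 := (Half.stab s608_t1 s557_t6 (by decide +kernel) : Stab 3 2557471706644 2578020924570)

theorem p3_219 : Stab 3 2578020365030 2663699669400 := (Half.stab s185_t8 s557_t6 (by decide +kernel) : Stab 3 2578020365030 2663699669400)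

theorem p3_220 : Stab 3 2652398446889 2719283028150 := (Half.stab s590_t4 s511_t3 (by decide +kernel) : Stab 3 2652398446889 2719283028150)

theorem p3_221 : Stab 3 2719280964710 2765284842294 := (Half.stab s313_t7 s511_t3 (by decide +kernel) : Stab 3 2719280964710 2765284842294)

theorem p3_222 : Stab 3 2757102037497 2832334388010 := (Half.stab s313_t7 s53_t9 (by decide +kernel) : Stab 3 2757102037497 2832334388010)

theorem p3_223 : Stab 3 2832333890781 2902021914120 := (Half.stab s695_t5 s372_t5 (by decide +kernel) : Stab 3 2832333890781 2902021914120)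

theorem p3_224 : Stab 3 2901148840198 2929087773750 := (Half.stab s695_t5 s345_t10 (by decide +kernel) : Stab 3 2901148840198 2929087773750)

theorem p3_225 : Stab 3 2929086776412 2980608817968 := (Half.stab s250_t3 s345_t10 (by decide +kernel) : Stab 3 2929086776412 2980608817968)

theorem p3_226 : Stab 3 2980608497681 3064040858760 := (Half.stab s527_t3 s345_t10 (by decide +kernel) : Stab 3 2980608497681 3064040858760)

theorem p3_227 : Stab 3 3016094559170 3093946880550 := (Half.stab s527_t3 s292_t5 (by decide +kernel) : Stab 3 3016094559170 3093946880550)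

theorem p3_228 : Stab 3 3093946039814 3113951641422 := (Half.stab s527_t3 s351_t5 (by decide +kernel) : Stab 3 3093946039814 3113951641422)

theorem p3_229 : Stab 3 3113948360130 3161968594950 := (Half.stab s241_t3 s351_t5 (by decide +kernel) : Stab 3 3113948360130 3161968594950)

theorem p3_230 : Stab 3 3161966884578 3250805034150 := (Half.stab s241_t3 s10_t3 (by decide +kernel) : Stab 3 3161966884578 3250805034150)

theorem p3_231 : Stab 3 3222799364998 3310966402908 := (Half.stab s35_t2 s380_t4 (by decide +kernel) : Stab 3 3222799364998 3310966402908)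

theorem p3_232 : Stab 3 3303220335728 3335331245610 := (Half.stab s278_t4 s380_t4 (by decide +kernel) : Stab 3 3303220335728 3335331245610)

theorem p3_233 : Stab 3 3326694426734 3453027563700 := (Half.stab s278_t4 s812_t7 (by decide +kernel) : Stab 3 3326694426734 3453027563700)

theorem p3_234 : Stab 3 3438344653753 3489002134908 := (Half.stab s311_t2 s812_t7 (by decide +kernel) : Stab 3 3438344653753 3489002134908)

theorem p3_235 : Stab 3 3479637739376 3603333874962 := (Half.stab s131_t4 s656_t3 (by decide +kernel) : Stab 3 3479637739376 3603333874962)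

theorem p3_236 : Stab 3 3551996748209 3662471322150 := (Half.stab s436_t14 s383_t8 (by decide +kernel) : Stab 3 3551996748209 3662471322150)

theorem p3_237 : Stab 3 3644824872098 3743996896116 := (Half.stab s436_t14 s738_t7 (by decide +kernel) : Stab 3 3644824872098 3743996896116)

theorem p3_238 : Stab 3 3696838221422 3796519868784 := (Half.stab s338_t5 s738_t7 (by decide +kernel) : Stab 3 3696838221422 3796519868784)

theorem p3_239 : Stab 3 3796516998963 3844425493350 := (Half.stab s690_t4 s738_t7 (by decide +kernel) : Stab 3 3796516998963 3844425493350)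

theorem p3_240 : Stab 3 3844422317250 3968308305750 := (Half.stab s4_t4 s135_t6 (by decide +kernel) : Stab 3 3844422317250 3968308305750)

theorem p3_241 : Stab 3 3968305701972 4003534118124 := (Half.stab s594_t4 s135_t6 (by decide +kernel) : Stab 3 3968305701972 4003534118124)

theorem p3_242 : Stab 3 4003533840718 4098652276950 := (Half.stab s594_t4 s603_t3 (by decide +kernel) : Stab 3 4003533840718 4098652276950)

theorem p3_243 : Stab 3 4069451708064 4164641932638 := (Half.stab s0_t2 s603_t3 (by decide +kernel) : Stab 3 4069451708064 4164641932638)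

theorem p3_244 : Stab 3 4164641543711 4265309173350 := (Half.stab s529_t8 s553_t1 (by decide +kernel) : Stab 3 4164641543711 4265309173350)

theorem p3_245 : Stab 3 4265306272171 4339894197132 := (Half.stab s529_t8 s95_t4 (by decide +kernel) : Stab 3 4265306272171 4339894197132)

theorem p3_246 : Stab 3 4336584068066 4431574400550 := (Half.stab s557_t11 s95_t4 (by decide +kernel) : Stab 3 4336584068066 4431574400550)

theorem p3_247 : Stab 3 4422269820482 4555422197304 := (Half.stab s557_t11 s726_t4 (by decide +kernel) : Stab 3 4422269820482 4555422197304)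

theorem p3_248 : Stab 3 4508066807532 4737978209016 := (Stab.scale s139_t0 (by decide +kernel) : Stab 3 (81 * 55655145772) (81 * 58493558136))

theorem p3_249 : Stab 3 4737977686991 4836989487756 := (Half.stab s520_t4 s365_t2 (by decide +kernel) : Stab 3 4737977686991 4836989487756)

theorem p3_250 : Stab 3 4836105527379 5005913785566 := (Half.stab s661_t4 s834_t2 (by decide +kernel) : Stab 3 4836105527379 5005913785566)

theorem p3_251 : Stab 3 4934250457048 5039430740820 := (Half.stab s661_t4 s196_t4 (by decide +kernel) : Stab 3 4934250457048 5039430740820)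

theorem p3_252 : Stab 3 5039424110699 5157760754232 := (Half.stab s61_t2 s196_t4 (by decide +kernel) : Stab 3 5039424110699 5157760754232)

theorem p3_253 : Stab 3 5157755057804 5236372559700 := (Half.stab s61_t2 s472_t4 (by decide +kernel) : Stab 3 5157755057804 5236372559700)

theorem p3_254 : Stab 3 5230762822919 5327092790136 := (Half.stab s52_t3 s472_t4 (by decide +kernel) : Stab 3 5230762822919 5327092790136)

theorem p3_255 : Stab 3 5317113779919 5384646228168 := (Stab.scale s833_t0 (by decide +kernel) : Stab 3 (81 * 65643379999) (81 * 66477113928))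

theorem p3_256 : Stab 3 5384644956306 5461999216776 := (Stab.scale s742_t0 (by decide +kernel) : Stab 3 (81 * 66477098226) (81 * 67432089096))

theorem p3_257 : Stab 3 5461997814828 5530569088968 := (Stab.scale s359_t0 (by decide +kernel) : Stab 3 (81 * 67432071788) (81 * 68278630728))

theorem p3_258 : Stab 3 5530567740237 5631269315400 := (Stab.scale s580_t0 (by decide +kernel) : Stab 3 (81 * 68278614077) (81 * 69521843400))

theorem p3_259 : Stab 3 5631267446325 5752533267144 := (Stab.scale s566_t0 (by decide +kernel) : Stab 3 (81 * 69521820325) (81 * 71018929224))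

theorem p3_260 : Stab 3 5752530083439 5893307226216 := (Stab.scale s687_t0 (by decide +kernel) : Stab 3 (81 * 71018889919) (81 * 72756879336))

theorem p3_261 : Stab 3 5893304322123 5966278306632 := (Stab.scale s664_t0 (by decide +kernel) : Stab 3 (81 * 72756843483) (81 * 73657756872))

theorem p3_262 : Stab 3 5966276926797 6164562092040 := (Stab.scale s185_t0 (by decide +kernel) : Stab 3 (81 * 73657739837) (81 * 76105704840))

theorem p3_263 : Stab 3 6145422713577 6248814982056 := (Stab.scale s460_t0 (by decide +kernel) : Stab 3 (81 * 75869416217) (81 * 77145863976))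

theorem p3_264 : Stab 3 6217554667122 6429203769240 := (Stab.scale s180_t0 (by decide +kernel) : Stab 3 (81 * 76759934162) (81 * 79372886040))

theorem p3_265 : Stab 3 6421158620172 6540367400712 := (Stab.scale s689_t0 (by decide +kernel) : Stab 3 (81 * 79273563212) (81 * 80745276552))

theorem p3_266 : Stab 3 6526760252346 6716107858392 := (Stab.scale s372_t0 (by decide +kernel) : Stab 3 (81 * 80577287066) (81 * 82914911832))

theorem p3_267 : Stab 3 6714086960475 7091065987416 := (Stab.scale s345_t0 (by decide +kernel) : Stab 3 (81 * 82889962475) (81 * 87544024536))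

theorem p3_268 : Stab 3 7055883867861 7242795988344 := (Stab.scale s564_t0 (by decide +kernel) : Stab 3 (81 * 87109677381) (81 * 89417234424))

theorem p3_269 : Stab 3 7242792946551 7387934561784 := (Stab.scale s7_t0 (by decide +kernel) : Stab 3 (81 * 89417196871) (81 * 91209068664))

theorem p3_270 : Stab 3 7387932864429 7534092436632 := (Stab.scale s252_t0 (by decide +kernel) : Stab 3 (81 * 91209047709) (81 * 93013486872))

theorem p3_271 : Stab 3 7509060028476 7680847792104 := (Stab.scale s181_t0 (by decide +kernel) : Stab 3 (81 * 92704444796) (81 * 94825281384))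

theorem p3_272 : Stab 3 7680846021687 7844128698888 := (Stab.scale s397_t0 (by decide +kernel) : Stab 3 (81 * 94825259527) (81 * 96841095048))

theorem p3_273 : Stab 3 7844126863752 7947610991496 := (Stab.scale s66_t0 (by decide +kernel) : Stab 3 (81 * 96841072392) (81 * 98118654216))

theorem p3_274 : Stab 3 7947609404949 8051822408520 := (Stab.scale s740_t0 (by decide +kernel) : Stab 3 (81 * 98118634629) (81 * 99405214920))

theorem p3_275 : Stab 3 8051820712866 8219803005288 := (Stab.scale s348_t0 (by decide +kernel) : Stab 3 (81 * 99405193986) (81 * 101479049448))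

theorem p3_276 : Stab 3 8193008027736 8340521723352 := (Stab.scale s762_t0 (by decide +kernel) : Stab 3 (81 * 101148247256) (81 * 102969403992))

theorem p3_277 : Stab 3 8312939270199 8643384470088 := (Stab.scale s836_t0 (by decide +kernel) : Stab 3 (81 * 102628879879) (81 * 106708450248))

theorem p3_278 : Stab 3 8624583156222 8825324351544 := (Stab.scale s569_t0 (by decide +kernel) : Stab 3 (81 * 106476335262) (81 * 108954621624))

theorem p3_279 : Stab 3 8825321250378 8936665730712 := (Stab.scale s548_t0 (by decide +kernel) : Stab 3 (81 * 108954583338) (81 * 110329206552))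

theorem p3_280 : Stab 3 8936662754367 9155040861096 := (Stab.scale s729_t0 (by decide +kernel) : Stab 3 (81 * 110329169807) (81 * 113025195816))

theorem p3_281 : Stab 3 9155037641427 9463654084248 := (Stab.scale s704_t0 (by decide +kernel) : Stab 3 (81 * 113025156067) (81 * 116835235608))

theorem p3_282 : Stab 3 9411290292564 9808836050808 := (Stab.scale s157_t0 (by decide +kernel) : Stab 3 (81 * 116188769044) (81 * 121096741368))

theorem p3_283 : Stab 3 9808834524444 9963171081720 := (Stab.scale s508_t0 (by decide +kernel) : Stab 3 (81 * 121096722524) (81 * 123002112120))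

theorem p3_284 : Stab 3 9959349821022 10045193904360 := (Stab.scale s670_t0 (by decide +kernel) : Stab 3 (81 * 122954936062) (81 * 124014739560))

theorem p3_285 : Stab 3 10045192048488 10263763741896 := (Stab.scale s439_t0 (by decide +kernel) : Stab 3 (81 * 124014716648) (81 * 126713132616))

theorem p3_286 : Stab 3 10255940610831 10361667057768 := (Stab.scale s621_t0 (by decide +kernel) : Stab 3 (81 * 126616550751) (81 * 127921815528))

theorem p3_287 : Stab 3 10301694738363 10713192486840 := (Stab.scale s108_t0 (by decide +kernel) : Stab 3 (81 * 127181416523) (81 * 132261635640))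

theorem p3_288 : Stab 3 10713191147748 10938140720568 := (Stab.scale s810_t0 (by decide +kernel) : Stab 3 (81 * 132261619108) (81 * 135038774328))

theorem p3_289 : Stab 3 10938138857325 11092630190616 := (Stab.scale s410_t0 (by decide +kernel) : Stab 3 (81 * 135038751325) (81 * 136946051736))

theorem p3_290 : Stab 3 11092628489778 11192147014824 := (Stab.scale s725_t0 (by decide +kernel) : Stab 3 (81 * 136946030738) (81 * 138174654504))

theorem p3_291 : Stab 3 11192143954158 11318791282056 := (Stab.scale s2_t0 (by decide +kernel) : Stab 3 (81 * 138174616718) (81 * 139738163976))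

theorem p3_292 : Stab 3 11318789437605 11509363794888 := (Stab.scale s45_t0 (by decide +kernel) : Stab 3 (81 * 139738141205) (81 * 142090911048))

theorem p3_293 : Stab 3 11509362344340 11614377512376 := (Stab.scale s757_t0 (by decide +kernel) : Stab 3 (81 * 142090893140) (81 * 143387376696))

theorem p3_294 : Stab 3 11614374134190 11876359607064 := (Stab.scale s27_t0 (by decide +kernel) : Stab 3 (81 * 143387334990) (81 * 146621723544))

theorem p3_295 : Stab 3 11728347713702 12009745084680 := (Half.stab s715_t10 s849_t2 (by decide +kernel) : Stab 3 11728347713702 12009745084680)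

theorem p3_296 : Stab 3 11986462170936 12117967034328 := (Stab.scale s391_t0 (by decide +kernel) : Stab 3 (81 * 147981014456) (81 * 149604531288))

theorem p3_297 : Stab 3 12117963746457 12279721807800 := (Stab.scale s419_t0 (by decide +kernel) : Stab 3 (81 * 149604490697) (81 * 151601503800))

theorem p3_298 : Stab 3 12279718503162 12370143530808 := (Stab.scale s611_t0 (by decide +kernel) : Stab 3 (81 * 151601463002) (81 * 152717821368))

theorem p3_299 : Stab 3 12370139930196 12499028530200 := (Stab.scale s202_t0 (by decide +kernel) : Stab 3 (81 * 152717776916) (81 * 154308994200))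

theorem p3_300 : Stab 3 12499026966171 12657859916472 := (Stab.scale s651_t0 (by decide +kernel) : Stab 3 (81 * 154308974891) (81 * 156269875512))

theorem p3_301 : Stab 3 12657858605730 12905247959928 := (Stab.scale s230_t0 (by decide +kernel) : Stab 3 (81 * 156269859330) (81 * 159324048888))

theorem p3_302 : Stab 3 12905246508570 13070256429528 := (Stab.scale s657_t0 (by decide +kernel) : Stab 3 (81 * 159324030970) (81 * 161361190488))

theorem p3_303 : Stab 3 13027478793768 13251379959288 := (Stab.scale s316_t0 (by decide +kernel) : Stab 3 (81 * 160833071528) (81 * 163597283448))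

theorem p3_304 : Stab 3 13251377787030 13372093195272 := (Stab.scale s298_t0 (by decide +kernel) : Stab 3 (81 * 163597256630) (81 * 165087570312))

theorem p3_305 : Stab 3 13268892083437 13659574989774 := (Half.stab s60_t5 s557_t16 (by decide +kernel) : Stab 3 13268892083437 13659574989774)

theorem p3_306 : Stab 3 13477310946885 14011749220554 := (Half.stab s430_t3 s557_t16 (by decide +kernel) : Stab 3 13477310946885 14011749220554)

theorem p3_307 : Stab 3 13939379198784 14315390348832 := (Half.stab s829_t4 s834_t4 (by decide +kernel) : Stab 3 13939379198784 14315390348832)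

theorem p3_308 : Stab 3 14294904201542 14428810323102 := (Half.stab s851_t1 s834_t4 (by decide +kernel) : Stab 3 14294904201542 14428810323102)

theorem p3_309 : Stab 3 14370266453922 14588776046088 := (Stab.scale s787_t0 (by decide +kernel) : Stab 3 (81 * 177410696962) (81 * 180108346248))

def Ls3 : List (ℕ × ℕ) := [(175330154242, 183173625966), (183173607104, 191945345262), (191945322327, 199869962478), (199869889482, 205456985982), (205456895699, 206052775518), (205617929099, 207728998770), (207728800075, 210530907330), (210530825035, 210837900690), (210837513300, 211899043170), (211898735014, 213834174450), (213711550676, 218681559198), (218681502213, 221943952926), (221943887903, 224817319998), (224817288170, 227628070686), (227628035168, 230279747022), (230279718673, 232286126718), (232286088150, 235502379966), (235502325576, 244978937214), (244978867950, 249554785998), (249428715316, 259336448094), (259336373442, 261316575726), (261316524407, 264059346030), (264059266226, 267562770654), (267562741873, 270793757262), (270793667417, 278766836526), (278766806642, 284477205294), (284477158525,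 294465516798), (294465500052, 297523445694), (297523413204, 300443637912), (300443607901, 305165191566), (305165140825, 308430855486), (308430786402, 310985963928), (310985458713, 315694703832), (315694244237, 316638407730), (316637868633, 320332756440), (320127070282, 331852463310), (331852436868, 348566208270), (348566122651, 352546982046), (352546918989, 357297272142), (357297209753, 361654957998), (361654920980, 366180448590), (366180419195, 369007820142), (369007756694, 375179195310), (375179157762, 380309979054), (380309942828, 385469855598), (385469821501, 389791350366), (389791247556, 394870445358), (394870409095, 400967873070), (400967851047, 406586144958), (406586123774, 410657456238), (410657406579, 416497422348), (416497379076, 419697767406), (419697717729, 424325751342), (424325699346, 429937420206), (429937394413, 448116935646), (448116913055, 453833655342), (453833634073, 466085180526), (466085160941, 482066973102), (482066911051, 494082751998), (494082700664, 507933517470), (507933490928, 523405951710), (523405907178, 533451219870), (533451184272, 547216612734), (547216579316,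 560977928190), (560977905547, 563506050366), (563506027734, 570841576734), (570841522448, 577229644290), (577229606593, 582500887806), (582500851785, 588683496414), (588683465856, 591864486210), (591863831188, 597525684666), (596334568813, 602202795852), (602201256576, 613057983678), (613057941616, 617482200510), (617482162257, 626312291994), (623889768689, 636652635486), (636652616889, 645381430842), (645380973421, 650094479730), (650094340416, 673610379966), (673610132595, 684237919170), (681812143450, 694083684138), (694083547968, 704742431562), (704741275751, 714801511242), (714801219042, 725387447148), (725387302129, 738608407650), (738605741378, 752396155398), (749635445439, 773425327650), (768254272692, 778682213322), (778680437052, 796496446122), (796495454097, 818229934314), (818229132121, 825564484332), (822148311705, 840664758570), (840664602682, 865421983356), (865421866732, 874338420528), (872321028372, 885245416560), (885244707280, 896954267718), (894195107334, 909063349890), (909058395604, 921576220848), (914505261939, 929543110530), (929543030096, 933842752332), (933842334045,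 949522534740), (944272733645, 953694400950), (953302975008, 958689358284), (958162061332, 971863901370), (966855931609, 986738259060), (986736924765, 1002698147700), (1002696833529, 1021753166580), (1021752948561, 1054471598550), (1053820105413, 1085794691238), (1085793013799, 1107582005730), (1102178080400, 1113820876998), (1113819660608, 1138308694182), (1133615358763, 1160753905890), (1160750232738, 1180969894530), (1180964144189, 1194889890240), (1193467100200, 1220918682582), (1220915659169, 1223759595090), (1223754418406, 1252504190646), (1247871957364, 1269818897802), (1269817766666, 1295029623498), (1293434623194, 1313545767324), (1313545637620, 1349156258346), (1349154377916, 1383993177606), (1383990089652, 1428590990070), (1428588356055, 1434934980690), (1434927674813, 1475514819702), (1475513987106, 1496855450130), (1496848719979, 1528048288650), (1528046307067, 1551324256530), (1551324154346, 1575383324808), (1575382780808, 1603734281994), (1603733135840, 1624380329130), (1623312990018, 1653375388662), (1648738750969, 1663336466184), (1655083512194, 1698927454056), (1698927001497,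 1715915603490), (1715910412756, 1727160258210), (1727160163270, 1745372486172), (1745366554554, 1760212445940), (1757413179236, 1783567924614), (1783564555600, 1790127036906), (1790124247907, 1821099189546), (1821096101896, 1833894404838), (1831215867651, 1865304342954), (1865304140854, 1919148098022), (1919147768244, 1949947405410), (1949947003781, 1995981724980), (1995892222074, 2027460554712), (2000143039328, 2055877834662), (2052695811813, 2082324171228), (2082323445931, 2092011810246), (2083110774730, 2104181706450), (2104020756716, 2147061210282), (2126600862387, 2203920879750), (2188895742091, 2248918947786), (2207585343305, 2258842517730), (2258833125835, 2300838085992), (2300837844326, 2337040130280), (2324459753280, 2391057140580), (2389750963430, 2433264519000), (2416445740764, 2458175547450), (2456069435036, 2512971077160), (2483993395098, 2559424782924), (2557471706644, 2578020924570), (2578020365030, 2663699669400), (2652398446889, 2719283028150), (2719280964710, 2765284842294), (2757102037497, 2832334388010), (2832333890781, 2902021914120), (2901148840198, 2929087773750), (2929086776412,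 2980608817968), (2980608497681, 3064040858760), (3016094559170, 3093946880550), (3093946039814, 3113951641422), (3113948360130, 3161968594950), (3161966884578, 3250805034150), (3222799364998, 3310966402908), (3303220335728, 3335331245610), (3326694426734, 3453027563700), (3438344653753, 3489002134908), (3479637739376, 3603333874962), (3551996748209, 3662471322150), (3644824872098, 3743996896116), (3696838221422, 3796519868784), (3796516998963, 3844425493350), (3844422317250, 3968308305750), (3968305701972, 4003534118124), (4003533840718, 4098652276950), (4069451708064, 4164641932638), (4164641543711, 4265309173350), (4265306272171, 4339894197132), (4336584068066, 4431574400550), (4422269820482, 4555422197304), (4508066807532, 4737978209016), (4737977686991, 4836989487756), (4836105527379, 5005913785566), (4934250457048, 5039430740820), (5039424110699, 5157760754232), (5157755057804, 5236372559700), (5230762822919, 5327092790136), (5317113779919, 5384646228168), (5384644956306, 5461999216776), (5461997814828, 5530569088968), (5530567740237, 5631269315400), (5631267446325, 5752533267144), (5752530083439,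 5893307226216), (5893304322123, 5966278306632), (5966276926797, 6164562092040), (6145422713577, 6248814982056), (6217554667122, 6429203769240), (6421158620172, 6540367400712), (6526760252346, 6716107858392), (6714086960475, 7091065987416), (7055883867861, 7242795988344), (7242792946551, 7387934561784), (7387932864429, 7534092436632), (7509060028476, 7680847792104), (7680846021687, 7844128698888), (7844126863752, 7947610991496), (7947609404949, 8051822408520), (8051820712866, 8219803005288), (8193008027736, 8340521723352), (8312939270199, 8643384470088), (8624583156222, 8825324351544), (8825321250378, 8936665730712), (8936662754367, 9155040861096), (9155037641427, 9463654084248), (9411290292564, 9808836050808), (9808834524444, 9963171081720), (9959349821022, 10045193904360), (10045192048488, 10263763741896), (10255940610831, 10361667057768), (10301694738363, 10713192486840), (10713191147748, 10938140720568), (10938138857325, 11092630190616), (11092628489778, 11192147014824), (11192143954158, 11318791282056), (11318789437605, 11509363794888), (11509362344340, 11614377512376), (11614374134190,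 11876359607064), (11728347713702, 12009745084680), (11986462170936, 12117967034328), (12117963746457, 12279721807800), (12279718503162, 12370143530808), (12370139930196, 12499028530200), (12499026966171, 12657859916472), (12657858605730, 12905247959928), (12905246508570, 13070256429528), (13027478793768, 13251379959288), (13251377787030, 13372093195272), (13268892083437, 13659574989774), (13477310946885, 14011749220554), (13939379198784, 14315390348832), (14294904201542, 14428810323102), (14370266453922, 14588776046088)]

theorem Ls3_spec : ∀ w ∈ Ls3, Stab 3 w.1 w.2 :=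
  (sfcons (a := ((175330154242 : ℕ), (183173625966 : ℕ))) p3_55 (sfcons (a := ((183173607104 : ℕ), (191945345262 : ℕ))) p3_56 (sfcons (a := ((191945322327 : ℕ), (199869962478 : ℕ))) p3_57 (sfcons (a := ((199869889482 : ℕ), (205456985982 : ℕ))) p3_58 (sfcons (a := ((205456895699 : ℕ), (206052775518 : ℕ))) p3_59 (sfcons (a := ((205617929099 : ℕ), (207728998770 : ℕ))) p3_60 (sfcons (a := ((207728800075 : ℕ), (210530907330 : ℕ))) p3_61 (sfcons (a := ((210530825035 : ℕ), (210837900690 : ℕ))) p3_62 (sfcons (a := ((210837513300 : ℕ), (211899043170 : ℕ))) p3_63 (sfcons (a := ((211898735014 : ℕ), (213834174450 : ℕ))) p3_64 (sfcons (a := ((213711550676 : ℕ), (218681559198 : ℕ))) p3_65 (sfcons (a := ((218681502213 : ℕ), (221943952926 : ℕ))) p3_66 (sfcons (a := ((221943887903 : ℕ), (224817319998 : ℕ))) p3_67 (sfcons (a := ((224817288170 : ℕ), (227628070686 : ℕ))) p3_68 (sfcons (a := ((227628035168 : ℕ), (230279747022 : ℕ))) p3_69 (sfcons (a := ((230279718673 : ℕ), (232286126718 : ℕ))) p3_70 (sfcons (a := ((232286088150 : ℕ), (235502379966 : ℕ))) p3_71 (sfcons (a := ((235502325576 : ℕ), (244978937214 : ℕ)))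 p3_72 (sfcons (a := ((244978867950 : ℕ), (249554785998 : ℕ))) p3_73 (sfcons (a := ((249428715316 : ℕ), (259336448094 : ℕ))) p3_74 (sfcons (a := ((259336373442 : ℕ), (261316575726 : ℕ))) p3_75 (sfcons (a := ((261316524407 : ℕ), (264059346030 : ℕ))) p3_76 (sfcons (a := ((264059266226 : ℕ), (267562770654 : ℕ))) p3_77 (sfcons (a := ((267562741873 : ℕ), (270793757262 : ℕ))) p3_78 (sfcons (a := ((270793667417 : ℕ), (278766836526 : ℕ))) p3_79 (sfcons (a := ((278766806642 : ℕ), (284477205294 : ℕ))) p3_80 (sfcons (a := ((284477158525 : ℕ), (294465516798 : ℕ))) p3_81 (sfcons (a := ((294465500052 : ℕ), (297523445694 : ℕ))) p3_82 (sfcons (a := ((297523413204 : ℕ), (300443637912 : ℕ))) p3_83 (sfcons (a := ((300443607901 : ℕ), (305165191566 : ℕ))) p3_84 (sfcons (a := ((305165140825 : ℕ), (308430855486 : ℕ))) p3_85 (sfcons (a := ((308430786402 : ℕ), (310985963928 : ℕ))) p3_86 (sfcons (a := ((310985458713 : ℕ), (315694703832 : ℕ))) p3_87 (sfcons (a := ((315694244237 : ℕ), (316638407730 : ℕ))) p3_88 (sfcons (a := ((316637868633 : ℕ), (320332756440 : ℕ))) p3_89 (sfcons (a := ((320127070282 : ℕ), (331852463310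 : ℕ))) p3_90 (sfcons (a := ((331852436868 : ℕ), (348566208270 : ℕ))) p3_91 (sfcons (a := ((348566122651 : ℕ), (352546982046 : ℕ))) p3_92 (sfcons (a := ((352546918989 : ℕ), (357297272142 : ℕ))) p3_93 (sfcons (a := ((357297209753 : ℕ), (361654957998 : ℕ))) p3_94 (sfcons (a := ((361654920980 : ℕ), (366180448590 : ℕ))) p3_95 (sfcons (a := ((366180419195 : ℕ), (369007820142 : ℕ))) p3_96 (sfcons (a := ((369007756694 : ℕ), (375179195310 : ℕ))) p3_97 (sfcons (a := ((375179157762 : ℕ), (380309979054 : ℕ))) p3_98 (sfcons (a := ((380309942828 : ℕ), (385469855598 : ℕ))) p3_99 (sfcons (a := ((385469821501 : ℕ), (389791350366 : ℕ))) p3_100 (sfcons (a := ((389791247556 : ℕ), (394870445358 : ℕ))) p3_101 (sfcons (a := ((394870409095 : ℕ), (400967873070 : ℕ))) p3_102 (sfcons (a := ((400967851047 : ℕ), (406586144958 : ℕ))) p3_103 (sfcons (a := ((406586123774 : ℕ), (410657456238 : ℕ))) p3_104 (sfcons (a := ((410657406579 : ℕ), (416497422348 : ℕ))) p3_105 (sfcons (a := ((416497379076 : ℕ), (419697767406 : ℕ))) p3_106 (sfcons (a := ((419697717729 : ℕ), (424325751342 : ℕ))) p3_107 (sfcons (a := ((424325699346 : ℕ),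 (429937420206 : ℕ))) p3_108 (sfcons (a := ((429937394413 : ℕ), (448116935646 : ℕ))) p3_109 (sfcons (a := ((448116913055 : ℕ), (453833655342 : ℕ))) p3_110 (sfcons (a := ((453833634073 : ℕ), (466085180526 : ℕ))) p3_111 (sfcons (a := ((466085160941 : ℕ), (482066973102 : ℕ))) p3_112 (sfcons (a := ((482066911051 : ℕ), (494082751998 : ℕ))) p3_113 (sfcons (a := ((494082700664 : ℕ), (507933517470 : ℕ))) p3_114 (sfcons (a := ((507933490928 : ℕ), (523405951710 : ℕ))) p3_115 (sfcons (a := ((523405907178 : ℕ), (533451219870 : ℕ))) p3_116 (sfcons (a := ((533451184272 : ℕ), (547216612734 : ℕ))) p3_117 (sfcons (a := ((547216579316 : ℕ), (560977928190 : ℕ))) p3_118 (sfcons (a := ((560977905547 : ℕ), (563506050366 : ℕ))) p3_119 (sfcons (a := ((563506027734 : ℕ), (570841576734 : ℕ))) p3_120 (sfcons (a := ((570841522448 : ℕ), (577229644290 : ℕ))) p3_121 (sfcons (a := ((577229606593 : ℕ), (582500887806 : ℕ))) p3_122 (sfcons (a := ((582500851785 : ℕ), (588683496414 : ℕ))) p3_123 (sfcons (a := ((588683465856 : ℕ), (591864486210 : ℕ))) p3_124 (sfcons (a := ((591863831188 : ℕ), (597525684666 : ℕ))) p3_125 (sfcons (a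 := ((596334568813 : ℕ), (602202795852 : ℕ))) p3_126 (sfcons (a := ((602201256576 : ℕ), (613057983678 : ℕ))) p3_127 (sfcons (a := ((613057941616 : ℕ), (617482200510 : ℕ))) p3_128 (sfcons (a := ((617482162257 : ℕ), (626312291994 : ℕ))) p3_129 (sfcons (a := ((623889768689 : ℕ), (636652635486 : ℕ))) p3_130 (sfcons (a := ((636652616889 : ℕ), (645381430842 : ℕ))) p3_131 (sfcons (a := ((645380973421 : ℕ), (650094479730 : ℕ))) p3_132 (sfcons (a := ((650094340416 : ℕ), (673610379966 : ℕ))) p3_133 (sfcons (a := ((673610132595 : ℕ), (684237919170 : ℕ))) p3_134 (sfcons (a := ((681812143450 : ℕ), (694083684138 : ℕ))) p3_135 (sfcons (a := ((694083547968 : ℕ), (704742431562 : ℕ))) p3_136 (sfcons (a := ((704741275751 : ℕ), (714801511242 : ℕ))) p3_137 (sfcons (a := ((714801219042 : ℕ), (725387447148 : ℕ))) p3_138 (sfcons (a := ((725387302129 : ℕ), (738608407650 : ℕ))) p3_139 (sfcons (a := ((738605741378 : ℕ), (752396155398 : ℕ))) p3_140 (sfcons (a := ((749635445439 : ℕ), (773425327650 : ℕ))) p3_141 (sfcons (a := ((768254272692 : ℕ), (778682213322 : ℕ))) p3_142 (sfcons (a := ((778680437052 : ℕ), (796496446122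 : ℕ))) p3_143 (sfcons (a := ((796495454097 : ℕ), (818229934314 : ℕ))) p3_144 (sfcons (a := ((818229132121 : ℕ), (825564484332 : ℕ))) p3_145 (sfcons (a := ((822148311705 : ℕ), (840664758570 : ℕ))) p3_146 (sfcons (a := ((840664602682 : ℕ), (865421983356 : ℕ))) p3_147 (sfcons (a := ((865421866732 : ℕ), (874338420528 : ℕ))) p3_148 (sfcons (a := ((872321028372 : ℕ), (885245416560 : ℕ))) p3_149 (sfcons (a := ((885244707280 : ℕ), (896954267718 : ℕ))) p3_150 (sfcons (a := ((894195107334 : ℕ), (909063349890 : ℕ))) p3_151 (sfcons (a := ((909058395604 : ℕ), (921576220848 : ℕ))) p3_152 (sfcons (a := ((914505261939 : ℕ), (929543110530 : ℕ))) p3_153 (sfcons (a := ((929543030096 : ℕ), (933842752332 : ℕ))) p3_154 (sfcons (a := ((933842334045 : ℕ), (949522534740 : ℕ))) p3_155 (sfcons (a := ((944272733645 : ℕ), (953694400950 : ℕ))) p3_156 (sfcons (a := ((953302975008 : ℕ), (958689358284 : ℕ))) p3_157 (sfcons (a := ((958162061332 : ℕ), (971863901370 : ℕ))) p3_158 (sfcons (a := ((966855931609 : ℕ), (986738259060 : ℕ))) p3_159 (sfcons (a := ((986736924765 : ℕ), (1002698147700 : ℕ))) p3_160 (sfcons (a := ((1002696833529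 : ℕ), (1021753166580 : ℕ))) p3_161 (sfcons (a := ((1021752948561 : ℕ), (1054471598550 : ℕ))) p3_162 (sfcons (a := ((1053820105413 : ℕ), (1085794691238 : ℕ))) p3_163 (sfcons (a := ((1085793013799 : ℕ), (1107582005730 : ℕ))) p3_164 (sfcons (a := ((1102178080400 : ℕ), (1113820876998 : ℕ))) p3_165 (sfcons (a := ((1113819660608 : ℕ), (1138308694182 : ℕ))) p3_166 (sfcons (a := ((1133615358763 : ℕ), (1160753905890 : ℕ))) p3_167 (sfcons (a := ((1160750232738 : ℕ), (1180969894530 : ℕ))) p3_168 (sfcons (a := ((1180964144189 : ℕ), (1194889890240 : ℕ))) p3_169 (sfcons (a := ((1193467100200 : ℕ), (1220918682582 : ℕ))) p3_170 (sfcons (a := ((1220915659169 : ℕ), (1223759595090 : ℕ))) p3_171 (sfcons (a := ((1223754418406 : ℕ), (1252504190646 : ℕ))) p3_172 (sfcons (a := ((1247871957364 : ℕ), (1269818897802 : ℕ))) p3_173 (sfcons (a := ((1269817766666 : ℕ), (1295029623498 : ℕ))) p3_174 (sfcons (a := ((1293434623194 : ℕ), (1313545767324 : ℕ))) p3_175 (sfcons (a := ((1313545637620 : ℕ), (1349156258346 : ℕ))) p3_176 (sfcons (a := ((1349154377916 : ℕ), (1383993177606 : ℕ))) p3_177 (sfcons (a := ((1383990089652 : ℕ),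 (1428590990070 : ℕ))) p3_178 (sfcons (a := ((1428588356055 : ℕ), (1434934980690 : ℕ))) p3_179 (sfcons (a := ((1434927674813 : ℕ), (1475514819702 : ℕ))) p3_180 (sfcons (a := ((1475513987106 : ℕ), (1496855450130 : ℕ))) p3_181 (sfcons (a := ((1496848719979 : ℕ), (1528048288650 : ℕ))) p3_182 (sfcons (a := ((1528046307067 : ℕ), (1551324256530 : ℕ))) p3_183 (sfcons (a := ((1551324154346 : ℕ), (1575383324808 : ℕ))) p3_184 (sfcons (a := ((1575382780808 : ℕ), (1603734281994 : ℕ))) p3_185 (sfcons (a := ((1603733135840 : ℕ), (1624380329130 : ℕ))) p3_186 (sfcons (a := ((1623312990018 : ℕ), (1653375388662 : ℕ))) p3_187 (sfcons (a := ((1648738750969 : ℕ), (1663336466184 : ℕ))) p3_188 (sfcons (a := ((1655083512194 : ℕ), (1698927454056 : ℕ))) p3_189 (sfcons (a := ((1698927001497 : ℕ), (1715915603490 : ℕ))) p3_190 (sfcons (a := ((1715910412756 : ℕ), (1727160258210 : ℕ))) p3_191 (sfcons (a := ((1727160163270 : ℕ), (1745372486172 : ℕ))) p3_192 (sfcons (a := ((1745366554554 : ℕ), (1760212445940 : ℕ))) p3_193 (sfcons (a := ((1757413179236 : ℕ), (1783567924614 : ℕ))) p3_194 (sfcons (a := ((1783564555600 : ℕ), (1790127036906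 : ℕ))) p3_195 (sfcons (a := ((1790124247907 : ℕ), (1821099189546 : ℕ))) p3_196 (sfcons (a := ((1821096101896 : ℕ), (1833894404838 : ℕ))) p3_197 (sfcons (a := ((1831215867651 : ℕ), (1865304342954 : ℕ))) p3_198 (sfcons (a := ((1865304140854 : ℕ), (1919148098022 : ℕ))) p3_199 (sfcons (a := ((1919147768244 : ℕ), (1949947405410 : ℕ))) p3_200 (sfcons (a := ((1949947003781 : ℕ), (1995981724980 : ℕ))) p3_201 (sfcons (a := ((1995892222074 : ℕ), (2027460554712 : ℕ))) p3_202 (sfcons (a := ((2000143039328 : ℕ), (2055877834662 : ℕ))) p3_203 (sfcons (a := ((2052695811813 : ℕ), (2082324171228 : ℕ))) p3_204 (sfcons (a := ((2082323445931 : ℕ), (2092011810246 : ℕ))) p3_205 (sfcons (a := ((2083110774730 : ℕ), (2104181706450 : ℕ))) p3_206 (sfcons (a := ((2104020756716 : ℕ), (2147061210282 : ℕ))) p3_207 (sfcons (a := ((2126600862387 : ℕ), (2203920879750 : ℕ))) p3_208 (sfcons (a := ((2188895742091 : ℕ), (2248918947786 : ℕ))) p3_209 (sfcons (a := ((2207585343305 : ℕ), (2258842517730 : ℕ))) p3_210 (sfcons (a := ((2258833125835 : ℕ), (2300838085992 : ℕ))) p3_211 (sfcons (a := ((2300837844326 : ℕ), (2337040130280 : ℕ)))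 p3_212 (sfcons (a := ((2324459753280 : ℕ), (2391057140580 : ℕ))) p3_213 (sfcons (a := ((2389750963430 : ℕ), (2433264519000 : ℕ))) p3_214 (sfcons (a := ((2416445740764 : ℕ), (2458175547450 : ℕ))) p3_215 (sfcons (a := ((2456069435036 : ℕ), (2512971077160 : ℕ))) p3_216 (sfcons (a := ((2483993395098 : ℕ), (2559424782924 : ℕ))) p3_217 (sfcons (a := ((2557471706644 : ℕ), (2578020924570 : ℕ))) p3_218 (sfcons (a := ((2578020365030 : ℕ), (2663699669400 : ℕ))) p3_219 (sfcons (a := ((2652398446889 : ℕ), (2719283028150 : ℕ))) p3_220 (sfcons (a := ((2719280964710 : ℕ), (2765284842294 : ℕ))) p3_221 (sfcons (a := ((2757102037497 : ℕ), (2832334388010 : ℕ))) p3_222 (sfcons (a := ((2832333890781 : ℕ), (2902021914120 : ℕ))) p3_223 (sfcons (a := ((2901148840198 : ℕ), (2929087773750 : ℕ))) p3_224 (sfcons (a := ((2929086776412 : ℕ), (2980608817968 : ℕ))) p3_225 (sfcons (a := ((2980608497681 : ℕ), (3064040858760 : ℕ))) p3_226 (sfcons (a := ((3016094559170 : ℕ), (3093946880550 : ℕ))) p3_227 (sfcons (a := ((3093946039814 : ℕ), (3113951641422 : ℕ))) p3_228 (sfcons (a := ((3113948360130 : ℕ), (3161968594950 : ℕ))) p3_229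 (sfcons (a := ((3161966884578 : ℕ), (3250805034150 : ℕ))) p3_230 (sfcons (a := ((3222799364998 : ℕ), (3310966402908 : ℕ))) p3_231 (sfcons (a := ((3303220335728 : ℕ), (3335331245610 : ℕ))) p3_232 (sfcons (a := ((3326694426734 : ℕ), (3453027563700 : ℕ))) p3_233 (sfcons (a := ((3438344653753 : ℕ), (3489002134908 : ℕ))) p3_234 (sfcons (a := ((3479637739376 : ℕ), (3603333874962 : ℕ))) p3_235 (sfcons (a := ((3551996748209 : ℕ), (3662471322150 : ℕ))) p3_236 (sfcons (a := ((3644824872098 : ℕ), (3743996896116 : ℕ))) p3_237 (sfcons (a := ((3696838221422 : ℕ), (3796519868784 : ℕ))) p3_238 (sfcons (a := ((3796516998963 : ℕ), (3844425493350 : ℕ))) p3_239 (sfcons (a := ((3844422317250 : ℕ), (3968308305750 : ℕ))) p3_240 (sfcons (a := ((3968305701972 : ℕ), (4003534118124 : ℕ))) p3_241 (sfcons (a := ((4003533840718 : ℕ), (4098652276950 : ℕ))) p3_242 (sfcons (a := ((4069451708064 : ℕ), (4164641932638 : ℕ))) p3_243 (sfcons (a := ((4164641543711 : ℕ), (4265309173350 : ℕ))) p3_244 (sfcons (a := ((4265306272171 : ℕ), (4339894197132 : ℕ))) p3_245 (sfcons (a := ((4336584068066 : ℕ), (4431574400550 : ℕ))) p3_246 (sfcons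 (a := ((4422269820482 : ℕ), (4555422197304 : ℕ))) p3_247 (sfcons (a := ((4508066807532 : ℕ), (4737978209016 : ℕ))) p3_248 (sfcons (a := ((4737977686991 : ℕ), (4836989487756 : ℕ))) p3_249 (sfcons (a := ((4836105527379 : ℕ), (5005913785566 : ℕ))) p3_250 (sfcons (a := ((4934250457048 : ℕ), (5039430740820 : ℕ))) p3_251 (sfcons (a := ((5039424110699 : ℕ), (5157760754232 : ℕ))) p3_252 (sfcons (a := ((5157755057804 : ℕ), (5236372559700 : ℕ))) p3_253 (sfcons (a := ((5230762822919 : ℕ), (5327092790136 : ℕ))) p3_254 (sfcons (a := ((5317113779919 : ℕ), (5384646228168 : ℕ))) p3_255 (sfcons (a := ((5384644956306 : ℕ), (5461999216776 : ℕ))) p3_256 (sfcons (a := ((5461997814828 : ℕ), (5530569088968 : ℕ))) p3_257 (sfcons (a := ((5530567740237 : ℕ), (5631269315400 : ℕ))) p3_258 (sfcons (a := ((5631267446325 : ℕ), (5752533267144 : ℕ))) p3_259 (sfcons (a := ((5752530083439 : ℕ), (5893307226216 : ℕ))) p3_260 (sfcons (a := ((5893304322123 : ℕ), (5966278306632 : ℕ))) p3_261 (sfcons (a := ((5966276926797 : ℕ), (6164562092040 : ℕ))) p3_262 (sfcons (a := ((6145422713577 : ℕ), (6248814982056 : ℕ))) p3_263 (sfcons (a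 := ((6217554667122 : ℕ), (6429203769240 : ℕ))) p3_264 (sfcons (a := ((6421158620172 : ℕ), (6540367400712 : ℕ))) p3_265 (sfcons (a := ((6526760252346 : ℕ), (6716107858392 : ℕ))) p3_266 (sfcons (a := ((6714086960475 : ℕ), (7091065987416 : ℕ))) p3_267 (sfcons (a := ((7055883867861 : ℕ), (7242795988344 : ℕ))) p3_268 (sfcons (a := ((7242792946551 : ℕ), (7387934561784 : ℕ))) p3_269 (sfcons (a := ((7387932864429 : ℕ), (7534092436632 : ℕ))) p3_270 (sfcons (a := ((7509060028476 : ℕ), (7680847792104 : ℕ))) p3_271 (sfcons (a := ((7680846021687 : ℕ), (7844128698888 : ℕ))) p3_272 (sfcons (a := ((7844126863752 : ℕ), (7947610991496 : ℕ))) p3_273 (sfcons (a := ((7947609404949 : ℕ), (8051822408520 : ℕ))) p3_274 (sfcons (a := ((8051820712866 : ℕ), (8219803005288 : ℕ))) p3_275 (sfcons (a := ((8193008027736 : ℕ), (8340521723352 : ℕ))) p3_276 (sfcons (a := ((8312939270199 : ℕ), (8643384470088 : ℕ))) p3_277 (sfcons (a := ((8624583156222 : ℕ), (8825324351544 : ℕ))) p3_278 (sfcons (a := ((8825321250378 : ℕ), (8936665730712 : ℕ))) p3_279 (sfcons (a := ((8936662754367 : ℕ), (9155040861096 : ℕ))) p3_280 (sfcons (a :=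 ((9155037641427 : ℕ), (9463654084248 : ℕ))) p3_281 (sfcons (a := ((9411290292564 : ℕ), (9808836050808 : ℕ))) p3_282 (sfcons (a := ((9808834524444 : ℕ), (9963171081720 : ℕ))) p3_283 (sfcons (a := ((9959349821022 : ℕ), (10045193904360 : ℕ))) p3_284 (sfcons (a := ((10045192048488 : ℕ), (10263763741896 : ℕ))) p3_285 (sfcons (a := ((10255940610831 : ℕ), (10361667057768 : ℕ))) p3_286 (sfcons (a := ((10301694738363 : ℕ), (10713192486840 : ℕ))) p3_287 (sfcons (a := ((10713191147748 : ℕ), (10938140720568 : ℕ))) p3_288 (sfcons (a := ((10938138857325 : ℕ), (11092630190616 : ℕ))) p3_289 (sfcons (a := ((11092628489778 : ℕ), (11192147014824 : ℕ))) p3_290 (sfcons (a := ((11192143954158 : ℕ), (11318791282056 : ℕ))) p3_291 (sfcons (a := ((11318789437605 : ℕ), (11509363794888 : ℕ))) p3_292 (sfcons (a := ((11509362344340 : ℕ), (11614377512376 : ℕ))) p3_293 (sfcons (a := ((11614374134190 : ℕ), (11876359607064 : ℕ))) p3_294 (sfcons (a := ((11728347713702 : ℕ), (12009745084680 : ℕ))) p3_295 (sfcons (a := ((11986462170936 : ℕ), (12117967034328 : ℕ))) p3_296 (sfcons (a := ((12117963746457 : ℕ), (12279721807800 : ℕ)))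 p3_297 (sfcons (a := ((12279718503162 : ℕ), (12370143530808 : ℕ))) p3_298 (sfcons (a := ((12370139930196 : ℕ), (12499028530200 : ℕ))) p3_299 (sfcons (a := ((12499026966171 : ℕ), (12657859916472 : ℕ))) p3_300 (sfcons (a := ((12657858605730 : ℕ), (12905247959928 : ℕ))) p3_301 (sfcons (a := ((12905246508570 : ℕ), (13070256429528 : ℕ))) p3_302 (sfcons (a := ((13027478793768 : ℕ), (13251379959288 : ℕ))) p3_303 (sfcons (a := ((13251377787030 : ℕ), (13372093195272 : ℕ))) p3_304 (sfcons (a := ((13268892083437 : ℕ), (13659574989774 : ℕ))) p3_305 (sfcons (a := ((13477310946885 : ℕ), (14011749220554 : ℕ))) p3_306 (sfcons (a := ((13939379198784 : ℕ), (14315390348832 : ℕ))) p3_307 (sfcons (a := ((14294904201542 : ℕ), (14428810323102 : ℕ))) p3_308 (sfcons (a := ((14370266453922 : ℕ), (14588776046088 : ℕ))) p3_309 sfnil)))))))))))))))))))))))))))))))))))))))))))))))))))))))))))))))))))))))))))))))))))))))))))))))))))))))))))))))))))))))))))))))))))))))))))))))))))))))))))))))))))))))))))))))))))))))))))))))))))))))))))))))))))))))))))))))))))))))))))))))))))))))))))))))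

theorem Ls3_cover : cover 180000000000 Ls3 14580000000000 = true := by decide +kernel

end Pool.Agent.Lib.MP_cfac74_al.Cov
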