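import Pool.Agent.Lib.MP_cfac74_al.S.S00
import Pool.Agent.Lib.MP_cfac74_al.S.S01
import Pool.Agent.Lib.MP_cfac74_al.S.S02
import Pool.Agent.Lib.MP_cfac74_al.S.S03
import Pool.Agent.Lib.MP_cfac74_al.S.S04
import Pool.Agent.Lib.MP_cfac74_al.S.S05
import Pool.Agent.Lib.MP_cfac74_al.S.S06
import Pool.Agent.Lib.MP_cfac74_al.S.S07
import Pool.Agent.Lib.MP_cfac74_al.S.S08
import Pool.Agent.Lib.MP_cfac74_al.S.S09
import Pool.Agent.Lib.MP_cfac74_al.S.S10
import Pool.Agent.Lib.MP_cfac74_al.S.S11
import Pool.Agent.Lib.MP_cfac74_al.S.S12
import Pool.Agent.Lib.MP_cfac74_al.S.S13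
import Pool.Agent.Lib.MP_cfac74_al.S.S14
import Pool.Agent.Lib.MP_cfac74_al.S.S15
import Pool.Agent.Lib.MP_cfac74_al.S.S16
import Pool.Agent.Lib.MP_cfac74_al.S.S17
import Pool.Agent.Lib.MP_cfac74_al.S.S18
import Pool.Agent.Lib.MP_cfac74_al.S.Ls

/-!
# MP_cfac74_al : stable windows, class 5
-/

set_option autoImplicit false
set_option maxRecDepth 1000000

namespace Pool.Agent.Lib.MP_cfac74_al.Cov

theorem p5_0 : Stab 5 58665467955 59499631764 := s141_t0

theorem sw5_0 : Win 5 58665467955 59499631764 := p5_0.win (by decide +kernel)

theorem p5_1 : Stab 5 63543611955 65293477524 := s340_t0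

theorem sw5_1 : Win 5 63543611955 65293477524 := p5_1.win (by decide +kernel)

theorem p5_2 : Stab 5 76065285125 77642297172 := s242_t0

theorem sw5_2 : Win 5 76065285125 77642297172 := p5_2.win (by decide +kernel)

theorem p5_3 : Stab 5 77642279694 78668231220 := s785_t0

theorem sw5_3 : Win 5 77642279694 78668231220 := p5_3.win (by decide +kernel)

theorem p5_4 : Stab 5 78668162565 79233794388 := s547_t0

theorem sw5_4 : Win 5 78668162565 79233794388 := p5_4.win (by decide +kernel)

theorem p5_5 : Stab 5 79233729861 80387653428 := s429_t0

theorem sw5_5 : Win 5 79233729861 80387653428 := p5_5.win (by decide +kernel)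

theorem p5_6 : Stab 5 80387631789 81513638004 := s200_t0

theorem sw5_6 : Win 5 80387631789 81513638004 := p5_6.win (by decide +kernel)

theorem p5_7 : Stab 5 81513621014 82635869076 := s752_t0

theorem sw5_7 : Win 5 81513621014 82635869076 := p5_7.win (by decide +kernel)

theorem p5_8 : Stab 5 82635828503 84204155604 := s59_t0

theorem sw5_8 : Win 5 82635828503 84204155604 := p5_8.win (by decide +kernel)

theorem p5_9 : Stab 5 84097828250 86028970836 := s437_t0

theorem sw5_9 : Win 5 84097828250 86028970836 := p5_9.win (by decide +kernel)

theorem p5_10 : Stab 5 86028933566 87998573652 := s192_t0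

theorem sw5_10 : Win 5 86028933566 87998573652 := p5_10.win (by decide +kernel)

theorem p5_11 : Stab 5 87998552258 89244620052 := s589_t0

theorem sw5_11 : Win 5 87998552258 89244620052 := p5_11.win (by decide +kernel)

theorem p5_12 : Stab 5 89244604302 91388353044 := s25_t0

theorem sw5_12 : Win 5 89244604302 91388353044 := p5_12.win (by decide +kernel)

theorem p5_13 : Stab 5 91388320489 92870851668 := s550_t0

theorem sw5_13 : Win 5 91388320489 92870851668 := p5_13.win (by decide +kernel)

theorem p5_14 : Stab 5 92870802686 96454787028 := s815_t0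

theorem sw5_14 : Win 5 92870802686 96454787028 := p5_14.win (by decide +kernel)

theorem p5_15 : Stab 5 96230139205 99213845268 := s305_t0

theorem sw5_15 : Win 5 96230139205 99213845268 := p5_15.win (by decide +kernel)

theorem p5_16 : Stab 5 99154919847 103626778164 := s790_t0

theorem sw5_16 : Win 5 99154919847 103626778164 := p5_16.win (by decide +kernel)

theorem p5_17 : Stab 5 103626738579 105555583140 := s870_t0

theorem sw5_17 : Win 5 103626738579 105555583140 := p5_17.win (by decide +kernel)

theorem p5_18 : Stab 5 105555565104 106785734772 := s615_t0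

theorem sw5_18 : Win 5 105555565104 106785734772 := p5_18.win (by decide +kernel)

theorem p5_19 : Stab 5 106785717465 111279338388 := s529_t0

theorem sw5_19 : Win 5 106785717465 111279338388 := p5_19.win (by decide +kernel)

theorem p5_20 : Stab 5 111194486897 117937783476 := s557_t0

theorem sw5_20 : Win 5 111194486897 117937783476 := p5_20.win (by decide +kernel)

theorem p5_21 : Stab 5 117937743679 120095215620 := s861_t0

theorem sw5_21 : Win 5 117937743679 120095215620 := p5_21.win (by decide +kernel)

theorem p5_22 : Stab 5 120095175156 123631711908 := s776_t0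

theorem sw5_22 : Win 5 120095175156 123631711908 := p5_22.win (by decide +kernel)

theorem p5_23 : Stab 5 123631676361 128399147268 := s619_t0

theorem sw5_23 : Win 5 123631676361 128399147268 := p5_23.win (by decide +kernel)

theorem p5_24 : Stab 5 128399111987 130644096420 := s194_t0

theorem sw5_24 : Win 5 128399111987 130644096420 := p5_24.win (by decide +kernel)

theorem p5_25 : Stab 5 130644074753 133406107476 := s492_t0

theorem sw5_25 : Win 5 130644074753 133406107476 := p5_25.win (by decide +kernel)

theorem p5_26 : Stab 5 133406090626 134896530996 := s327_t0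

theorem sw5_26 : Win 5 133406090626 134896530996 := p5_26.win (by decide +kernel)

theorem p5_27 : Stab 5 134896513147 136955622612 := s467_t0

theorem sw5_27 : Win 5 134896513147 136955622612 := p5_27.win (by decide +kernel)

theorem p5_28 : Stab 5 136955600622 139465176708 := s360_t0

theorem sw5_28 : Win 5 136955600622 139465176708 := p5_28.win (by decide +kernel)

theorem p5_29 : Stab 5 139465154860 143955060996 := s35_t0

theorem sw5_29 : Win 5 139465154860 143955060996 := p5_29.win (by decide +kernel)

theorem p5_30 : Stab 5 143955042160 146348376324 := s542_t0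

theorem sw5_30 : Win 5 143955042160 146348376324 := p5_30.win (by decide +kernel)

theorem p5_31 : Stab 5 146348360074 149493307236 := s800_t0

theorem sw5_31 : Win 5 146348360074 149493307236 := p5_31.win (by decide +kernel)

theorem p5_32 : Stab 5 149493287620 151695744996 := s311_t0

theorem sw5_32 : Win 5 149493287620 151695744996 := p5_32.win (by decide +kernel)

theorem p5_33 : Stab 5 151695723732 153875067492 := s211_t0

theorem sw5_33 : Win 5 151695723732 153875067492 := p5_33.win (by decide +kernel)

theorem p5_34 : Stab 5 153875044536 156327727908 := s151_t0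

theorem sw5_34 : Win 5 153875044536 156327727908 := p5_34.win (by decide +kernel)

theorem p5_35 : Stab 5 156327707861 157911119460 := s356_t0

theorem sw5_35 : Win 5 156327707861 157911119460 := p5_35.win (by decide +kernel)

theorem p5_36 : Stab 5 157911102403 160502497572 := s732_t0

theorem sw5_36 : Win 5 157911102403 160502497572 := p5_36.win (by decide +kernel)

theorem p5_37 : Stab 5 160502456871 167058987540 := s456_t0

theorem sw5_37 : Win 5 160502456871 167058987540 := p5_37.win (by decide +kernel)

theorem p5_38 : Stab 5 166578428797 174066700788 := s135_t0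

theorem sw5_38 : Win 5 166578428797 174066700788 := p5_38.win (by decide +kernel)

theorem p5_39 : Stab 5 174066675159 175312354548 := s21_t0

theorem sw5_39 : Win 5 174066675159 175312354548 := p5_39.win (by decide +kernel)

theorem p5_40 : Stab 5 175312331675 178159446324 := s393_t0

theorem sw5_40 : Win 5 175312331675 178159446324 := p5_40.win (by decide +kernel)

theorem p5_41 : Stab 5 178001356461 181410650196 := s156_t0

theorem sw5_41 : Win 5 178001356461 181410650196 := p5_41.win (by decide +kernel)

theorem p5_42 : Stab 5 181410627098 184776976116 := s214_t0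

theorem p5_43 : Stab 5 184776955344 187649395332 := s822_t0

theorem p5_44 : Stab 5 187649355995 189435743364 := s219_t0

theorem p5_45 : Stab 5 189435726672 192888532260 := s598_t0

theorem p5_46 : Stab 5 192888488989 197274177060 := s121_t0

theorem p5_47 : Stab 5 197274156202 201908076660 := s504_t0

theorem p5_48 : Stab 5 201908054536 205999211940 := s378_t0

theorem p5_49 : Stab 5 205999167778 210303890772 := s365_t0

theorem p5_50 : Stab 5 210303855018 215044797828 := s631_t0

theorem p5_51 : Stab 5 215044778000 220064671764 := s167_t0

theorem p5_52 : Stab 5 220064655627 224998460148 := s87_t0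

theorem p5_53 : Stab 5 224998438384 229219474548 := s297_t0

theorem p5_54 : Stab 5 229219454687 236030411412 := s441_t0

theorem p5_55 : Stab 5 236030374186 241367275956 := s599_t0

theorem p5_56 : Stab 5 241367256451 246737877300 := s804_t0

theorem p5_57 : Stab 5 246737857265 249338926596 := s556_t0

theorem p5_58 : Stab 5 249338839357 253064447556 := s115_t0

theorem p5_59 : Stab 5 253064404020 256894776708 := s333_t0

theorem p5_60 : Stab 5 256894755257 259620106068 := s821_t0

theorem p5_61 : Stab 5 259620087731 263680966404 := s273_t0

theorem p5_62 : Stab 5 263680933370 267508174308 := s449_t0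

theorem p5_63 : Stab 5 267508122074 271926298836 := s210_t0

theorem p5_64 : Stab 5 271926276794 275823392916 := s8_t0

theorem p5_65 : Stab 5 274855741685 279437388324 := s255_t0

theorem p5_66 : Stab 5 279437344898 285735715908 := s394_t0

theorem p5_67 : Stab 5 285735617690 297474881604 := s744_t0

theorem p5_68 : Stab 5 297474806144 307626158148 := s858_t0

theorem p5_69 : Stab 5 307626121771 318953637924 := s140_t0

theorem p5_70 : Stab 5 318953608399 329304249636 := s364_t0

theorem p5_71 : Stab 5 328215932842 332385569640 := (Half.stab s833_t1 s159_t0 (by decide +kernel) : Stab 5 328215932842 332385569640)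

theorem p5_72 : Stab 5 332384556422 336031060050 := (Half.stab s742_t1 s352_t0 (by decide +kernel) : Stab 5 332384556422 336031060050)

theorem p5_73 : Stab 5 335555279910 337160445480 := (Half.stab s742_t1 s512_t1 (by decide +kernel) : Stab 5 335555279910 337160445480)

theorem p5_74 : Stab 5 337159496746 341136193050 := (Half.stab s359_t1 s512_t1 (by decide +kernel) : Stab 5 337159496746 341136193050)

theorem p5_75 : Stab 5 338668236500 341393153640 := (Half.stab s359_t1 s528_t2 (by decide +kernel) : Stab 5 338668236500 341393153640)

theorem p5_76 : Stab 5 341392247421 343721279610 := (Half.stab s580_t1 s528_t2 (by decide +kernel) : Stab 5 341392247421 343721279610)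

theorem p5_77 : Stab 5 343720867741 347609217000 := (Half.stab s580_t1 s16_t2 (by decide +kernel) : Stab 5 343720867741 347609217000)

theorem p5_78 : Stab 5 347608156038 349356048570 := (Half.stab s566_t1 s16_t2 (by decide +kernel) : Stab 5 347608156038 349356048570)

theorem p5_79 : Stab 5 348498512797 355094646120 := (Half.stab s566_t1 s300_t0 (by decide +kernel) : Stab 5 348498512797 355094646120)

theorem p5_80 : Stab 5 355094389945 359028989676 := (Half.stab s687_t1 s847_t0 (by decide +kernel) : Stab 5 355094389945 359028989676)

theorem p5_81 : Stab 5 359028790488 363784396680 := (Half.stab s687_t1 s835_t0 (by decide +kernel) : Stab 5 359028790488 363784396680)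

theorem p5_82 : Stab 5 363783666246 368288784360 := (Half.stab s664_t1 s110_t1 (by decide +kernel) : Stab 5 363783666246 368288784360)

theorem p5_83 : Stab 5 368287876221 372305143692 := (Half.stab s185_t1 s110_t1 (by decide +kernel) : Stab 5 368287876221 372305143692)

theorem p5_84 : Stab 5 372304404420 380528524200 := (Half.stab s185_t1 s18_t1 (by decide +kernel) : Stab 5 372304404420 380528524200)

theorem p5_85 : Stab 5 380528363838 385729319880 := (Half.stab s460_t1 s862_t1 (by decide +kernel) : Stab 5 380528363838 385729319880)

theorem p5_86 : Stab 5 385729229662 390429888450 := (Half.stab s272_t0 s862_t1 (by decide +kernel) : Stab 5 385729229662 390429888450)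

theorem p5_87 : Stab 5 390429802086 393517253682 := (Half.stab s595_t0 s862_t1 (by decide +kernel) : Stab 5 390429802086 393517253682)

theorem p5_88 : Stab 5 393100684734 396367103880 := (Half.stab s595_t0 s597_t2 (by decide +kernel) : Stab 5 393100684734 396367103880)

theorem p5_89 : Stab 5 396367002250 403726382760 := (Half.stab s689_t1 s597_t2 (by decide +kernel) : Stab 5 396367002250 403726382760)

theorem p5_90 : Stab 5 402660441166 416684473332 := s633_t0

theorem p5_91 : Stab 5 416684443146 420977758032 := (Half.stab s565_t1 s345_t1 (by decide +kernel) : Stab 5 416684443146 420977758032)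

theorem p5_92 : Stab 5 420006236248 426229274640 := (Half.stab s555_t1 s345_t1 (by decide +kernel) : Stab 5 420006236248 426229274640)

theorem p5_93 : Stab 5 425739981860 428507183202 := (Half.stab s432_t0 s345_t1 (by decide +kernel) : Stab 5 425739981860 428507183202)

theorem p5_94 : Stab 5 428506915710 433184260194 := (Half.stab s772_t1 s345_t1 (by decide +kernel) : Stab 5 428506915710 433184260194)

theorem p5_95 : Stab 5 433183388458 436214210082 := (Half.stab s109_t1 s345_t1 (by decide +kernel) : Stab 5 433183388458 436214210082)

theorem p5_96 : Stab 5 436214002212 443721884112 := (Half.stab s667_t1 s564_t1 (by decide +kernel) : Stab 5 436214002212 443721884112)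

theorem p5_97 : Stab 5 443353606159 447086172120 := (Half.stab s576_t0 s564_t1 (by decide +kernel) : Stab 5 443353606159 447086172120)

theorem p5_98 : Stab 5 447084771311 449681880330 := (Half.stab s576_t0 s7_t1 (by decide +kernel) : Stab 5 447084771311 449681880330)

theorem p5_99 : Stab 5 448460516182 456045343320 := (Half.stab s506_t1 s7_t1 (by decide +kernel) : Stab 5 448460516182 456045343320)

theorem p5_100 : Stab 5 456044035713 461337362928 := (Half.stab s392_t1 s252_t1 (by decide +kernel) : Stab 5 456044035713 461337362928)

theorem p5_101 : Stab 5 461336791823 465067434360 := (Half.stab s231_t1 s252_t1 (by decide +kernel) : Stab 5 461336791823 465067434360)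

theorem p5_102 : Stab 5 465067367935 470445827172 := s446_t0

theorem p5_103 : Stab 5 470445779962 477852572292 := s248_t0

theorem p5_104 : Stab 5 477852486641 488989936644 := s257_t0

theorem p5_105 : Stab 5 488989901531 491628286020 := s802_t0

theorem p5_106 : Stab 5 491628251013 498147645282 := (Half.stab s878_t1 s808_t1 (by decide +kernel) : Stab 5 491628251013 498147645282)

theorem p5_107 : Stab 5 497119723461 499375301742 := (Half.stab s334_t1 s808_t1 (by decide +kernel) : Stab 5 497119723461 499375301742)

theorem p5_108 : Stab 5 499374517481 507520561614 := (Half.stab s334_t1 s777_t2 (by decide +kernel) : Stab 5 499374517481 507520561614)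

theorem p5_109 : Stab 5 505739381286 509897729052 := (Half.stab s334_t1 s762_t1 (by decide +kernel) : Stab 5 505739381286 509897729052)

theorem p5_110 : Stab 5 509896964384 514847019960 := (Half.stab s763_t1 s762_t1 (by decide +kernel) : Stab 5 509896964384 514847019960)

theorem p5_111 : Stab 5 514805812042 523305981756 := (Half.stab s763_t1 s518_t2 (by decide +kernel) : Stab 5 514805812042 523305981756)

theorem p5_112 : Stab 5 523305821655 532379978802 := (Half.stab s5_t2 s178_t2 (by decide +kernel) : Stab 5 523305821655 532379978802)

theorem p5_113 : Stab 5 532379878854 540182683836 := (Half.stab s5_t2 s569_t1 (by decide +kernel) : Stab 5 532379878854 540182683836)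

theorem p5_114 : Stab 5 538862185719 544773108120 := (Half.stab s483_t2 s569_t1 (by decide +kernel) : Stab 5 538862185719 544773108120)

theorem p5_115 : Stab 5 544773012650 551644846914 := (Half.stab s306_t2 s548_t1 (by decide +kernel) : Stab 5 544773012650 551644846914)

theorem p5_116 : Stab 5 551644750936 557448942336 := (Half.stab s729_t1 s675_t1 (by decide +kernel) : Stab 5 551644750936 557448942336)

theorem p5_117 : Stab 5 557448548458 565125979080 := (Half.stab s729_t1 s373_t1 (by decide +kernel) : Stab 5 557448548458 565125979080)

theorem p5_118 : Stab 5 565125695910 569713097052 := (Half.stab s567_t1 s704_t1 (by decide +kernel) : Stab 5 565125695910 569713097052)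

theorem p5_119 : Stab 5 569712899539 580114262556 := (Half.stab s50_t2 s704_t1 (by decide +kernel) : Stab 5 569712899539 580114262556)

theorem p5_120 : Stab 5 578155033278 584176178040 := (Half.stab s745_t2 s704_t1 (by decide +kernel) : Stab 5 578155033278 584176178040)

theorem p5_121 : Stab 5 580942103764 588788089218 := (Half.stab s745_t2 s157_t1 (by decide +kernel) : Stab 5 580942103764 588788089218)

theorem p5_122 : Stab 5 588787646686 597924027330 := (Half.stab s319_t1 s157_t1 (by decide +kernel) : Stab 5 588787646686 597924027330)

theorem p5_123 : Stab 5 597923737572 600628660674 := (Half.stab s628_t1 s157_t1 (by decide +kernel) : Stab 5 597923737572 600628660674)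

theorem p5_124 : Stab 5 600628522351 605483706840 := (Half.stab s531_t1 s157_t1 (by decide +kernel) : Stab 5 600628522351 605483706840)

theorem p5_125 : Stab 5 605483114229 614773896936 := (Half.stab s93_t2 s508_t1 (by decide +kernel) : Stab 5 605483114229 614773896936)

theorem p5_126 : Stab 5 614773815366 620073697800 := (Half.stab s670_t1 s136_t1 (by decide +kernel) : Stab 5 614773815366 620073697800)

theorem p5_127 : Stab 5 620072441112 625233820722 := (Half.stab s439_t1 s136_t1 (by decide +kernel) : Stab 5 620072441112 625233820722)

theorem p5_128 : Stab 5 625232682078 633565663080 := (Half.stab s439_t1 s85_t1 (by decide +kernel) : Stab 5 625232682078 633565663080)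

theorem p5_129 : Stab 5 633081633706 635905909842 := (Half.stab s621_t1 s85_t1 (by decide +kernel) : Stab 5 633081633706 635905909842)

theorem p5_130 : Stab 5 635905800102 639609077640 := (Half.stab s621_t1 s108_t1 (by decide +kernel) : Stab 5 635905800102 639609077640)

theorem p5_131 : Stab 5 639608635663 647191568520 := (Half.stab s126_t0 s108_t1 (by decide +kernel) : Stab 5 639608635663 647191568520)

theorem p5_132 : Stab 5 647191527029 651138482532 := s854_t0

theorem p5_133 : Stab 5 651138441318 656920483332 := s719_t0

theorem p5_134 : Stab 5 656920415185 664552564578 := (Half.stab s190_t1 s153_t3 (by decide +kernel) : Stab 5 656920415185 664552564578)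

theorem p5_135 : Stab 5 664552490415 673275173316 := s218_t0

theorem p5_136 : Stab 5 673275107739 679155159972 := s326_t0

theorem p5_137 : Stab 5 679155103657 684729115188 := s390_t0

theorem p5_138 : Stab 5 684729045578 690873272520 := (Half.stab s725_t1 s436_t3 (by decide +kernel) : Stab 5 684729045578 690873272520)

theorem p5_139 : Stab 5 690872016436 698690819880 := (Half.stab s2_t1 s436_t3 (by decide +kernel) : Stab 5 690872016436 698690819880)

theorem p5_140 : Stab 5 698689625272 710454555240 := (Half.stab s45_t1 s436_t3 (by decide +kernel) : Stab 5 698689625272 710454555240)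

theorem p5_141 : Stab 5 707422382013 716288818128 := (Half.stab s232_t2 s436_t3 (by decide +kernel) : Stab 5 707422382013 716288818128)

theorem p5_142 : Stab 5 716288008677 716935575852 := (Half.stab s291_t2 s436_t3 (by decide +kernel) : Stab 5 716288008677 716935575852)

theorem p5_143 : Stab 5 716935303494 725584470000 := (Half.stab s291_t2 s27_t1 (by decide +kernel) : Stab 5 716935303494 725584470000)

theorem p5_144 : Stab 5 725584297269 732898863216 := (Half.stab s434_t1 s183_t2 (by decide +kernel) : Stab 5 725584297269 732898863216)

theorem p5_145 : Stab 5 731773993538 738572344236 := (Half.stab s117_t2 s183_t2 (by decide +kernel) : Stab 5 731773993538 738572344236)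

theorem p5_146 : Stab 5 738572045889 741966910380 := (Half.stab s301_t2 s696_t1 (by decide +kernel) : Stab 5 738572045889 741966910380)

theorem p5_147 : Stab 5 739902724998 748022656440 := (Half.stab s301_t2 s391_t1 (by decide +kernel) : Stab 5 739902724998 748022656440)

theorem p5_148 : Stab 5 748022258062 758006043600 := (Half.stab s64_t1 s419_t1 (by decide +kernel) : Stab 5 748022258062 758006043600)

theorem p5_149 : Stab 5 758005943599 763587579426 := (Half.stab s654_t1 s611_t1 (by decide +kernel) : Stab 5 758005943599 763587579426)

theorem p5_150 : Stab 5 763587461258 771544971000 := (Half.stab s756_t3 s202_t1 (by decide +kernel) : Stab 5 763587461258 771544971000)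

theorem p5_151 : Stab 5 771542924070 780041739984 := (Half.stab s96_t2 s651_t1 (by decide +kernel) : Stab 5 771542924070 780041739984)

theorem p5_152 : Stab 5 778909366300 781349377560 := (Half.stab s79_t2 s651_t1 (by decide +kernel) : Stab 5 778909366300 781349377560)

theorem p5_153 : Stab 5 781348980316 789370195326 := (Half.stab s371_t2 s230_t1 (by decide +kernel) : Stab 5 781348980316 789370195326)

theorem p5_154 : Stab 5 789072447086 796620244440 := (Half.stab s462_t3 s230_t1 (by decide +kernel) : Stab 5 789072447086 796620244440)

theorem p5_155 : Stab 5 796617854095 801184022622 := (Half.stab s462_t3 s657_t1 (by decide +kernel) : Stab 5 796617854095 801184022622)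

theorem p5_156 : Stab 5 801183392395 806805952440 := (Half.stab s655_t3 s657_t1 (by decide +kernel) : Stab 5 801183392395 806805952440)

theorem p5_157 : Stab 5 806805845508 817986417240 := (Half.stab s342_t3 s316_t1 (by decide +kernel) : Stab 5 806805845508 817986417240)

theorem p5_158 : Stab 5 817986300049 827134042770 := (Half.stab s342_t3 s216_t1 (by decide +kernel) : Stab 5 817986300049 827134042770)

theorem p5_159 : Stab 5 825343058550 834412280208 := (Half.stab s54_t1 s193_t7 (by decide +kernel) : Stab 5 825343058550 834412280208)

theorem p5_160 : Stab 5 834411574072 840114543216 := (Half.stab s176_t1 s233_t1 (by decide +kernel) : Stab 5 834411574072 840114543216)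

theorem p5_161 : Stab 5 837703985318 844474684242 := (Half.stab s433_t3 s233_t1 (by decide +kernel) : Stab 5 837703985318 844474684242)

theorem p5_162 : Stab 5 842172832983 852020162748 := (Half.stab s433_t3 s839_t1 (by decide +kernel) : Stab 5 842172832983 852020162748)

theorem p5_163 : Stab 5 852019849534 860648067762 := (Half.stab s537_t3 s604_t1 (by decide +kernel) : Stab 5 852019849534 860648067762)

theorem p5_164 : Stab 5 860646593681 865057150332 := (Half.stab s537_t3 s205_t2 (by decide +kernel) : Stab 5 860646593681 865057150332)

theorem p5_165 : Stab 5 865056018453 869852676210 := (Half.stab s321_t2 s205_t2 (by decide +kernel) : Stab 5 865056018453 869852676210)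

theorem p5_166 : Stab 5 869851326212 872557282908 := (Half.stab s321_t2 s106_t2 (by decide +kernel) : Stab 5 869851326212 872557282908)

theorem p5_167 : Stab 5 872556930103 873163074882 := (Half.stab s476_t0 s106_t2 (by decide +kernel) : Stab 5 872556930103 873163074882)

theorem p5_168 : Stab 5 873162745860 885735915624 := (Half.stab s105_t5 s236_t0 (by decide +kernel) : Stab 5 873162745860 885735915624)

theorem p5_169 : Stab 5 880621064247 893559794280 := (Half.stab s105_t5 s129_t4 (by decide +kernel) : Stab 5 880621064247 893559794280)

theorem p5_170 : Stab 5 893559461622 908642258478 := (Half.stab s105_t5 s172_t1 (by decide +kernel) : Stab 5 893559461622 908642258478)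

theorem p5_171 : Stab 5 904466656983 914732360178 := (Half.stab s753_t1 s588_t2 (by decide +kernel) : Stab 5 904466656983 914732360178)

theorem p5_172 : Stab 5 914732204582 924825787410 := (Half.stab s125_t1 s262_t1 (by decide +kernel) : Stab 5 914732204582 924825787410)

theorem p5_173 : Stab 5 924825375487 929527591086 := (Half.stab s125_t1 s577_t0 (by decide +kernel) : Stab 5 924825375487 929527591086)

theorem p5_174 : Stab 5 929527203999 937356263400 := (Half.stab s125_t1 s565_t3 (by decide +kernel) : Stab 5 929527203999 937356263400)

theorem p5_175 : Stab 5 937352604257 939104229456 := (Half.stab s445_t1 s565_t3 (by decide +kernel) : Stab 5 937352604257 939104229456)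

theorem p5_176 : Stab 5 939103561286 956785691400 := (Half.stab s445_t1 s841_t2 (by decide +kernel) : Stab 5 939103561286 956785691400)

theorem p5_177 : Stab 5 956785421799 968966281800 := (Half.stab s71_t1 s222_t1 (by decide +kernel) : Stab 5 956785421799 968966281800)

theorem p5_178 : Stab 5 968965778120 978218569200 := (Half.stab s832_t2 s636_t1 (by decide +kernel) : Stab 5 968965778120 978218569200)

theorem p5_179 : Stab 5 978217856983 997738165074 := (Half.stab s770_t1 s286_t2 (by decide +kernel) : Stab 5 978217856983 997738165074)

theorem p5_180 : Stab 5 992114523667 1010298270636 := (Half.stab s770_t1 s261_t1 (by decide +kernel) : Stab 5 992114523667 1010298270636)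

theorem p5_181 : Stab 5 1004443575454 1013535568626 := (Half.stab s770_t1 s213_t1 (by decide +kernel) : Stab 5 1004443575454 1013535568626)

theorem p5_182 : Stab 5 1013535475937 1029137194224 := (Half.stab s74_t1 s392_t2 (by decide +kernel) : Stab 5 1013535475937 1029137194224)

theorem p5_183 : Stab 5 1025274770965 1036297363788 := (Half.stab s74_t1 s643_t2 (by decide +kernel) : Stab 5 1025274770965 1036297363788)

theorem p5_184 : Stab 5 1036295154973 1056127467564 := (Half.stab s74_t1 s165_t2 (by decide +kernel) : Stab 5 1036295154973 1056127467564)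

theorem p5_185 : Stab 5 1051407107168 1061979497160 := (Half.stab s74_t1 s512_t6 (by decide +kernel) : Stab 5 1051407107168 1061979497160)

theorem p5_186 : Stab 5 1061975884202 1077815055564 := (Half.stab s698_t1 s350_t2 (by decide +kernel) : Stab 5 1061975884202 1077815055564)

theorem p5_187 : Stab 5 1077814912465 1088113760172 := (Half.stab s620_t2 s318_t2 (by decide +kernel) : Stab 5 1077814912465 1088113760172)

theorem p5_188 : Stab 5 1080240884174 1102865938146 := (Half.stab s620_t2 s340_t2 (by decide +kernel) : Stab 5 1080240884174 1102865938146)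

theorem p5_189 : Stab 5 1102865730923 1127523894156 := (Half.stab s34_t2 s855_t3 (by decide +kernel) : Stab 5 1102865730923 1127523894156)

theorem p5_190 : Stab 5 1123078615809 1147655329290 := (Half.stab s602_t1 s781_t3 (by decide +kernel) : Stab 5 1123078615809 1147655329290)

theorem p5_191 : Stab 5 1147569361258 1163755835400 := (Half.stab s215_t1 s637_t3 (by decide +kernel) : Stab 5 1147569361258 1163755835400)

theorem p5_192 : Stab 5 1163753498790 1170379380720 := (Half.stab s726_t1 s637_t3 (by decide +kernel) : Stab 5 1163753498790 1170379380720)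

theorem p5_193 : Stab 5 1164310319488 1197589034988 := (Half.stab s726_t1 s798_t3 (by decide +kernel) : Stab 5 1164310319488 1197589034988)

theorem p5_194 : Stab 5 1197588680550 1214807421282 := (Half.stab s482_t2 s668_t1 (by decide +kernel) : Stab 5 1197588680550 1214807421282)

theorem p5_195 : Stab 5 1208979986557 1225252420920 := (Half.stab s622_t5 s668_t1 (by decide +kernel) : Stab 5 1208979986557 1225252420920)

theorem p5_196 : Stab 5 1220257452430 1241820671724 := (Half.stab s622_t5 s545_t3 (by decide +kernel) : Stab 5 1220257452430 1241820671724)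

theorem p5_197 : Stab 5 1241819025298 1253993592330 := (Half.stab s622_t5 s175_t3 (by decide +kernel) : Stab 5 1241819025298 1253993592330)

theorem p5_198 : Stab 5 1249393396564 1268627799900 := (Half.stab s195_t5 s506_t5 (by decide +kernel) : Stab 5 1249393396564 1268627799900)

theorem p5_199 : Stab 5 1267473342046 1287311556492 := (Half.stab s195_t5 s459_t1 (by decide +kernel) : Stab 5 1267473342046 1287311556492)

theorem p5_200 : Stab 5 1287311098318 1306214163072 := (Half.stab s195_t5 s361_t2 (by decide +kernel) : Stab 5 1287311098318 1306214163072)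

theorem p5_201 : Stab 5 1306212962082 1323532134912 := (Half.stab s196_t1 s443_t3 (by decide +kernel) : Stab 5 1306212962082 1323532134912)

theorem p5_202 : Stab 5 1323530416016 1346619010464 := (Half.stab s196_t1 s521_t3 (by decide +kernel) : Stab 5 1323530416016 1346619010464)

theorem p5_203 : Stab 5 1346617667523 1357305461640 := (Half.stab s196_t1 s524_t3 (by decide +kernel) : Stab 5 1346617667523 1357305461640)

theorem p5_204 : Stab 5 1357299021309 1401860928000 := (Half.stab s472_t1 s524_t3 (by decide +kernel) : Stab 5 1357299021309 1401860928000)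

theorem p5_205 : Stab 5 1401860555174 1438198901874 := (Half.stab s440_t1 s605_t1 (by decide +kernel) : Stab 5 1401860555174 1438198901874)

theorem p5_206 : Stab 5 1434632716153 1462491139068 := (Half.stab s830_t2 s437_t4 (by decide +kernel) : Stab 5 1434632716153 1462491139068)

theorem p5_207 : Stab 5 1462490682953 1475409027600 := (Half.stab s555_t4 s192_t4 (by decide +kernel) : Stab 5 1462490682953 1475409027600)

theorem p5_208 : Stab 5 1475329153966 1495975752084 := (Half.stab s759_t3 s192_t4 (by decide +kernel) : Stab 5 1475329153966 1495975752084)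

theorem p5_209 : Stab 5 1495975626391 1500605093340 := (Half.stab s759_t3 s674_t1 (by decide +kernel) : Stab 5 1495975626391 1500605093340)

theorem p5_210 : Stab 5 1500601367563 1518272395164 := (Half.stab s485_t1 s674_t1 (by decide +kernel) : Stab 5 1500601367563 1518272395164)

theorem p5_211 : Stab 5 1518272116617 1537766950512 := (Half.stab s188_t3 s25_t4 (by decide +kernel) : Stab 5 1518272116617 1537766950512)

theorem p5_212 : Stab 5 1537766771877 1553602001748 := (Half.stab s842_t2 s25_t4 (by decide +kernel) : Stab 5 1537766771877 1553602001748)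

theorem p5_213 : Stab 5 1553601772183 1571881255452 := (Half.stab s842_t2 s31_t1 (by decide +kernel) : Stab 5 1553601772183 1571881255452)

theorem p5_214 : Stab 5 1571877841207 1595606610726 := (Half.stab s468_t2 s749_t2 (by decide +kernel) : Stab 5 1571877841207 1595606610726)

theorem p5_215 : Stab 5 1595605788696 1604366185356 := (Half.stab s500_t3 s749_t2 (by decide +kernel) : Stab 5 1595605788696 1604366185356)

theorem p5_216 : Stab 5 1601740341247 1617263058438 := (Half.stab s500_t3 s812_t3 (by decide +kernel) : Stab 5 1601740341247 1617263058438)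

theorem p5_217 : Stab 5 1617260527815 1654261849638 := (Half.stab s579_t4 s812_t3 (by decide +kernel) : Stab 5 1617260527815 1654261849638)

theorem p5_218 : Stab 5 1654260741737 1699400632806 := (Half.stab s53_t6 s603_t1 (by decide +kernel) : Stab 5 1654260741737 1699400632806)

theorem p5_219 : Stab 5 1699400083096 1745996037030 := (Half.stab s48_t4 s695_t3 (by decide +kernel) : Stab 5 1699400083096 1745996037030)

theorem p5_220 : Stab 5 1745995883434 1802204621694 := (Half.stab s142_t6 s646_t1 (by decide +kernel) : Stab 5 1745995883434 1802204621694)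

theorem p5_221 : Stab 5 1779958039039 1815355136658 := (Half.stab s338_t3 s646_t1 (by decide +kernel) : Stab 5 1779958039039 1815355136658)

theorem p5_222 : Stab 5 1815355024331 1856368128330 := (Half.stab s292_t3 s529_t3 (by decide +kernel) : Stab 5 1815355024331 1856368128330)

theorem p5_223 : Stab 5 1845683793259 1890304847388 := (Half.stab s203_t1 s529_t3 (by decide +kernel) : Stab 5 1845683793259 1890304847388)

theorem p5_224 : Stab 5 1890304532495 1991487710700 := (Half.stab s436_t9 s557_t4 (by decide +kernel) : Stab 5 1890304532495 1991487710700)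

theorem p5_225 : Stab 5 1981930354256 2071816538220 := (Half.stab s249_t9 s278_t3 (by decide +kernel) : Stab 5 1981930354256 2071816538220)

theorem p5_226 : Stab 5 2071809871866 2157504270876 := (Half.stab s653_t1 s139_t4 (by decide +kernel) : Stab 5 2071809871866 2157504270876)

theorem p5_227 : Stab 5 2128913805123 2163640288986 := (Stab.scale s777_t0 (by decide +kernel) : Stab 5 (81 * 26282886483) (81 * 26711608506))

theorem p5_228 : Stab 5 2163638722388 2190136304700 := (Half.stab s671_t4 s79_t3 (by decide +kernel) : Stab 5 2163638722388 2190136304700)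

theorem p5_229 : Stab 5 2190135662476 2257042965138 := (Half.stab s671_t4 s597_t4 (by decide +kernel) : Stab 5 2190135662476 2257042965138)

theorem p5_230 : Stab 5 2240880517073 2267903827092 := (Half.stab s100_t2 s492_t3 (by decide +kernel) : Stab 5 2240880517073 2267903827092)

theorem p5_231 : Stab 5 2264882956299 2306653564986 := (Stab.scale s825_t0 (by decide +kernel) : Stab 5 (81 * 27961517979) (81 * 28477204506))

theorem p5_232 : Stab 5 2306652239489 2322967243170 := (Half.stab s100_t2 s4_t3 (by decide +kernel) : Stab 5 2306652239489 2322967243170)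

theorem p5_233 : Stab 5 2322959019434 2380984983450 := (Half.stab s820_t2 s4_t3 (by decide +kernel) : Stab 5 2322959019434 2380984983450)

theorem p5_234 : Stab 5 2380982237414 2439963457890 := (Half.stab s820_t2 s594_t3 (by decide +kernel) : Stab 5 2380982237414 2439963457890)

theorem p5_235 : Stab 5 2419284892899 2459191366170 := (Half.stab s164_t5 s594_t3 (by decide +kernel) : Stab 5 2419284892899 2459191366170)

theorem p5_236 : Stab 5 2459191121437 2470359022974 := (Half.stab s164_t5 s366_t3 (by decide +kernel) : Stab 5 2459191121437 2470359022974)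

theorem p5_237 : Stab 5 2469048650644 2518517673984 := (Half.stab s780_t1 s366_t3 (by decide +kernel) : Stab 5 2469048650644 2518517673984)

theorem p5_238 : Stab 5 2517887876815 2557734950700 := (Half.stab s780_t1 s206_t2 (by decide +kernel) : Stab 5 2517887876815 2557734950700)

theorem p5_239 : Stab 5 2540984125945 2559182379720 := (Half.stab s780_t1 s801_t3 (by decide +kernel) : Stab 5 2540984125945 2559182379720)

theorem p5_240 : Stab 5 2559182300788 2600104092846 := (Half.stab s95_t3 s801_t3 (by decide +kernel) : Stab 5 2559182300788 2600104092846)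

theorem p5_241 : Stab 5 2578152583530 2641613495040 := (Half.stab s95_t3 s368_t2 (by decide +kernel) : Stab 5 2578152583530 2641613495040)

theorem p5_242 : Stab 5 2634564185036 2658944640330 := (Half.stab s95_t3 s53_t8 (by decide +kernel) : Stab 5 2634564185036 2658944640330)

theorem p5_243 : Stab 5 2657570078669 2684489030820 := (Half.stab s356_t2 s53_t8 (by decide +kernel) : Stab 5 2657570078669 2684489030820)

theorem p5_244 : Stab 5 2678921825376 2706452859654 := (Half.stab s169_t2 s53_t8 (by decide +kernel) : Stab 5 2678921825376 2706452859654)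

theorem p5_245 : Stab 5 2698277371479 2728539452562 := (Half.stab s169_t2 s435_t1 (by decide +kernel) : Stab 5 2698277371479 2728539452562)

theorem p5_246 : Stab 5 2728538829860 2815911079080 := (Half.stab s185_t9 s456_t3 (by decide +kernel) : Stab 5 2728538829860 2815911079080)

theorem p5_247 : Stab 5 2802092054444 2840002788180 := (Half.stab s11_t4 s456_t3 (by decide +kernel) : Stab 5 2802092054444 2840002788180)

theorem p5_248 : Stab 5 2831830582009 2901664275750 := (Half.stab s11_t4 s135_t4 (by decide +kernel) : Stab 5 2831830582009 2901664275750)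

theorem p5_249 : Stab 5 2901662478594 2988617221062 := (Half.stab s458_t2 s661_t3 (by decide +kernel) : Stab 5 2901662478594 2988617221062)

theorem p5_250 : Stab 5 2988616300929 3023658444492 := (Half.stab s871_t3 s661_t3 (by decide +kernel) : Stab 5 2988616300929 3023658444492)

theorem p5_251 : Stab 5 3009550456759 3124177563102 := (Half.stab s871_t3 s559_t2 (by decide +kernel) : Stab 5 3009550456759 3124177563102)

theorem p5_252 : Stab 5 3108842557871 3198580163370 := (Half.stab s811_t4 s345_t11 (by decide +kernel) : Stab 5 3108842557871 3198580163370)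

theorem p5_253 : Stab 5 3180451855946 3262596263682 := (Half.stab s760_t1 s142_t9 (by decide +kernel) : Stab 5 3180451855946 3262596263682)

theorem p5_254 : Stab 5 3262582629226 3319850618910 := (Half.stab s463_t2 s142_t9 (by decide +kernel) : Stab 5 3262582629226 3319850618910)

theorem p5_255 : Stab 5 3304212024768 3363941742030 := (Half.stab s463_t2 s837_t1 (by decide +kernel) : Stab 5 3304212024768 3363941742030)

theorem p5_256 : Stab 5 3363941424726 3415573991178 := (Stab.scale s462_t0 (by decide +kernel) : Stab 5 (81 * 41530141046) (81 * 42167580138))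

theorem p5_257 : Stab 5 3415572449748 3464113626090 := (Stab.scale s655_t0 (by decide +kernel) : Stab 5 (81 * 42167561108) (81 * 42766834890))

theorem p5_258 : Stab 5 3432765671262 3497995878138 := (Stab.scale s751_t0 (by decide +kernel) : Stab 5 (81 * 42379823102) (81 * 43185134298))

theorem p5_259 : Stab 5 3495180341519 3520755477960 := (Half.stab s662_t1 s400_t2 (by decide +kernel) : Stab 5 3495180341519 3520755477960)

theorem p5_260 : Stab 5 3506935442312 3555534622290 := (Half.stab s703_t1 s400_t2 (by decide +kernel) : Stab 5 3506935442312 3555534622290)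

theorem p5_261 : Stab 5 3555524740126 3573116654652 := (Half.stab s703_t1 s299_t2 (by decide +kernel) : Stab 5 3555524740126 3573116654652)

theorem p5_262 : Stab 5 3573116486800 3663841661970 := (Half.stab s812_t8 s299_t2 (by decide +kernel) : Stab 5 3573116486800 3663841661970)

theorem p5_263 : Stab 5 3653073308640 3764996159040 := (Half.stab s812_t8 s495_t4 (by decide +kernel) : Stab 5 3653073308640 3764996159040)

theorem p5_264 : Stab 5 3756744588214 3824973822516 := (Half.stab s343_t5 s87_t4 (by decide +kernel) : Stab 5 3756744588214 3824973822516)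

theorem p5_265 : Stab 5 3824969402320 3896731067316 := (Half.stab s343_t5 s297_t4 (by decide +kernel) : Stab 5 3824969402320 3896731067316)

theorem p5_266 : Stab 5 3879208964917 3926905569984 := (Half.stab s343_t5 s198_t2 (by decide +kernel) : Stab 5 3879208964917 3926905569984)

theorem p5_267 : Stab 5 3914770369387 3999071346510 := (Half.stab s195_t14 s198_t2 (by decide +kernel) : Stab 5 3914770369387 3999071346510)

theorem p5_268 : Stab 5 3999066790820 4143371253930 := (Half.stab s195_t14 s794_t6 (by decide +kernel) : Stab 5 3999066790820 4143371253930)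

theorem p5_269 : Stab 5 4140732107009 4208811621774 := (Half.stab s707_t2 s794_t6 (by decide +kernel) : Stab 5 4140732107009 4208811621774)

theorem p5_270 : Stab 5 4188289743239 4256254382886 := (Half.stab s707_t2 s715_t7 (by decide +kernel) : Stab 5 4188289743239 4256254382886)

theorem p5_271 : Stab 5 4238755223737 4302095608452 := (Half.stab s115_t3 s715_t7 (by decide +kernel) : Stab 5 4238755223737 4302095608452)

theorem p5_272 : Stab 5 4302091225822 4367211204036 := (Half.stab s333_t1 s715_t7 (by decide +kernel) : Stab 5 4302091225822 4367211204036)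

theorem p5_273 : Stab 5 4367211088945 4456568448402 := (Half.stab s249_t17 s778_t1 (by decide +kernel) : Stab 5 4367211088945 4456568448402)

theorem p5_274 : Stab 5 4420668629551 4575386824806 := (Half.stab s249_t17 s511_t4 (by decide +kernel) : Stab 5 4420668629551 4575386824806)

theorem p5_275 : Stab 5 4560323874912 4606451843850 := (Stab.scale s824_t0 (by decide +kernel) : Stab 5 (81 * 56300294752) (81 * 56869775850))

theorem p5_276 : Stab 5 4606450539507 4665715150410 := (Stab.scale s46_t0 (by decide +kernel) : Stab 5 (81 * 56869759747) (81 * 57601421610))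

theorem p5_277 : Stab 5 4650281263313 4824232221264 := (Half.stab s587_t5 s438_t3 (by decide +kernel) : Stab 5 4650281263313 4824232221264)

theorem p5_278 : Stab 5 4819887072270 4876480924362 := (Stab.scale s133_t0 (by decide +kernel) : Stab 5 (81 * 59504778670) (81 * 60203468202))

theorem p5_279 : Stab 5 4857499945531 5057072987268 := (Half.stab s744_t4 s671_t9 (by decide +kernel) : Stab 5 4857499945531 5057072987268)

theorem p5_280 : Stab 5 5037972253029 5129542205226 := (Stab.scale s265_t0 (by decide +kernel) : Stab 5 (81 * 62197188309) (81 * 63327681546))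

theorem p5_281 : Stab 5 5129540724546 5202226413450 := (Stab.scale s65_t0 (by decide +kernel) : Stab 5 (81 * 63327663266) (81 * 64225017450))

theorem p5_282 : Stab 5 5170256425034 5356805312922 := (Half.stab s474_t7 s313_t11 (by decide +kernel) : Stab 5 5170256425034 5356805312922)

theorem p5_283 : Stab 5 5324789639004 5413977293550 := (Half.stab s474_t7 s695_t7 (by decide +kernel) : Stab 5 5324789639004 5413977293550)

theorem p5_284 : Stab 5 5413976607294 5477261756634 := (Stab.scale s42_t0 (by decide +kernel) : Stab 5 (81 * 66839217374) (81 * 67620515514))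

theorem p5_285 : Stab 5 5452746600987 5688050710494 := (Half.stab s792_t6 s557_t13 (by decide +kernel) : Stab 5 5452746600987 5688050710494)

theorem p5_286 : Stab 5 5650603986402 5740434224730 := (Stab.scale s761_t0 (by decide +kernel) : Stab 5 (81 * 69760543042) (81 * 70869558330))

theorem p5_287 : Stab 5 5740432344153 5829433802874 := (Stab.scale s23_t0 (by decide +kernel) : Stab 5 (81 * 70869535113) (81 * 71968318554))

theorem p5_288 : Stab 5 5829433080609 5964738306162 := (Half.stab s646_t2 s343_t6 (by decide +kernel) : Stab 5 5829433080609 5964738306162)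

theorem p5_289 : Stab 5 5944499598627 6093474160320 := (Half.stab s10_t4 s343_t6 (by decide +kernel) : Stab 5 5944499598627 6093474160320)

theorem p5_290 : Stab 5 6088295219152 6337663231296 := (Half.stab s13_t4 s142_t11 (by decide +kernel) : Stab 5 6088295219152 6337663231296)

theorem p5_291 : Stab 5 6337659231111 6524955935742 := (Half.stab s28_t5 s131_t5 (by decide +kernel) : Stab 5 6337659231111 6524955935742)

theorem p5_292 : Stab 5 6520474646885 6563208981198 := (Half.stab s28_t5 s765_t2 (by decide +kernel) : Stab 5 6520474646885 6563208981198)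

theorem p5_293 : Stab 5 6555778091611 6734661767046 := (Half.stab s834_t3 s53_t10 (by decide +kernel) : Stab 5 6555778091611 6734661767046)

theorem p5_294 : Stab 5 6689194972461 6789399778026 := (Stab.scale s377_t0 (by decide +kernel) : Stab 5 (81 * 82582653981) (81 * 83819750346))

theorem p5_295 : Stab 5 6789395786832 6862130957178 := (Stab.scale s317_t0 (by decide +kernel) : Stab 5 (81 * 83819701072) (81 * 84717666138))

theorem p5_296 : Stab 5 6852274485040 7083636046644 := (Half.stab s738_t10 s633_t3 (by decide +kernel) : Stab 5 6852274485040 7083636046644)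

theorem p5_297 : Stab 5 7072681509057 7174294404270 := (Half.stab s738_t10 s111_t2 (by decide +kernel) : Stab 5 7072681509057 7174294404270)

theorem p5_298 : Stab 5 7174293516096 7227519927498 := (Half.stab s738_t10 s743_t3 (by decide +kernel) : Stab 5 7174293516096 7227519927498)

theorem p5_299 : Stab 5 7213596911757 7421090758506 := (Stab.scale s315_t0 (by decide +kernel) : Stab 5 (81 * 89056751997) (81 * 91618404426))

theorem p5_300 : Stab 5 7360474851981 7683082860906 := (Stab.scale s142_t0 (by decide +kernel) : Stab 5 (81 * 90870059901) (81 * 94852874826))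

theorem p5_301 : Stab 5 7617584903427 7888379564106 := (Stab.scale s131_t0 (by decide +kernel) : Stab 5 (81 * 94044258067) (81 * 97387402026))

theorem p5_302 : Stab 5 7888377820986 7983148327722 := (Stab.scale s747_t0 (by decide +kernel) : Stab 5 (81 * 97387380506) (81 * 98557386762))

theorem p5_303 : Stab 5 7983146493963 8229400950762 := (Stab.scale s49_t0 (by decide +kernel) : Stab 5 (81 * 98557364123) (81 * 101597542602))

theorem p5_304 : Stab 5 8162342167825 8399051234700 := (Half.stab s661_t5 s135_t10 (by decide +kernel) : Stab 5 8162342167825 8399051234700)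

theorem p5_305 : Stab 5 8268219870363 8507760701130 := (Stab.scale s253_t0 (by decide +kernel) : Stab 5 (81 * 102076788523) (81 * 105034082730))

theorem p5_306 : Stab 5 8489876870781 8705473564842 := (Stab.scale s86_t0 (by decide +kernel) : Stab 5 (81 * 104813294701) (81 * 107474982282))

theorem p5_307 : Stab 5 8611790897519 8871085331592 := (Half.stab s726_t5 s587_t7 (by decide +kernel) : Stab 5 8611790897519 8871085331592)

theorem p5_308 : Stab 5 8833823593797 8976096848670 := (Half.stab s796_t3 s587_t7 (by decide +kernel) : Stab 5 8833823593797 8976096848670)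

theorem p5_309 : Stab 5 8976096171882 9120104099370 := (Stab.scale s701_t0 (by decide +kernel) : Stab 5 (81 * 110816002122) (81 * 112593877770))

theorem p5_310 : Stab 5 9120097255599 9195046784586 := (Stab.scale s186_t0 (by decide +kernel) : Stab 5 (81 * 112593793279) (81 * 113519096106))

theorem p5_311 : Stab 5 9195043190130 9280472279850 := (Stab.scale s554_t0 (by decide +kernel) : Stab 5 (81 * 113519051730) (81 * 114573731850))

theorem p5_312 : Stab 5 9247655882583 9351120237498 := (Stab.scale s57_t0 (by decide +kernel) : Stab 5 (81 * 114168591143) (81 * 115445928858))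

theorem p5_313 : Stab 5 9351118854585 9484250252490 := (Stab.scale s486_t0 (by decide +kernel) : Stab 5 (81 * 115445911785) (81 * 117089509290))

theorem p5_314 : Stab 5 9484248473892 9588204676602 := (Stab.scale s816_t0 (by decide +kernel) : Stab 5 (81 * 117089487332) (81 * 118372897242))

theorem p5_315 : Stab 5 9588200394618 9781168997610 := (Stab.scale s642_t0 (by decide +kernel) : Stab 5 (81 * 118372844378) (81 * 120755172810))

theorem p5_316 : Stab 5 9781167331845 9997635590442 := (Stab.scale s539_t0 (by decide +kernel) : Stab 5 (81 * 120755152245) (81 * 123427599882))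

theorem p5_317 : Stab 5 9997630395264 10157878981674 := (Stab.scale s623_t0 (by decide +kernel) : Stab 5 (81 * 123427535744) (81 * 125405913354))

theorem p5_318 : Stab 5 10157875241985 10313803458090 := (Stab.scale s450_t0 (by decide +kernel) : Stab 5 (81 * 125405867185) (81 * 127330906890))

theorem p5_319 : Stab 5 10313799575679 10531530571626 := (Stab.scale s164_t0 (by decide +kernel) : Stab 5 (81 * 127330858959) (81 * 130018895946))

theorem p5_320 : Stab 5 10524015082368 10832629748778 := (Stab.scale s600_t0 (by decide +kernel) : Stab 5 (81 * 129926112128) (81 * 133736169738))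

theorem p5_321 : Stab 5 10832625298638 11084654290554 := (Stab.scale s801_t0 (by decide +kernel) : Stab 5 (81 * 133736114798) (81 * 136847583834))

theorem p5_322 : Stab 5 11084649248790 11262442791114 := (Stab.scale s84_t0 (by decide +kernel) : Stab 5 (81 * 136847521590) (81 * 139042503594))

theorem p5_323 : Stab 5 11262440434419 11579827431690 := (Stab.scale s201_t0 (by decide +kernel) : Stab 5 (81 * 139042474499) (81 * 142960832490))

theorem p5_324 : Stab 5 11579826017025 11965456203930 := (Stab.scale s404_t0 (by decide +kernel) : Stab 5 (81 * 142960815025) (81 * 147721681530))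

theorem p5_325 : Stab 5 11965454318817 12529490307930 := (Stab.scale s474_t0 (by decide +kernel) : Stab 5 (81 * 147721658257) (81 * 154685065530))

theorem p5_326 : Stab 5 12517588729827 12740958538506 := (Stab.scale s72_t0 (by decide +kernel) : Stab 5 (81 * 154538132467) (81 * 157295784426))

theorem p5_327 : Stab 5 12740957179731 13318862242698 := (Stab.scale s871_t0 (by decide +kernel) : Stab 5 (81 * 157295767651) (81 * 164430398058))

theorem p5_328 : Stab 5 13318858959849 14086390650858 := (Stab.scale s840_t0 (by decide +kernel) : Stab 5 (81 * 164430357529) (81 * 173906057418))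

theorem p5_329 : Stab 5 14086387803303 14341014794970 := (Stab.scale s837_t0 (by decide +kernel) : Stab 5 (81 * 173906022263) (81 * 177049565370))

theorem p5_330 : Stab 5 14341011961428 14726826268218 := (Stab.scale s138_t0 (by decide +kernel) : Stab 5 (81 * 177049530388) (81 * 181812669978))

def Ls5 : List (ℕ × ℕ) := [(178001356461, 181410650196), (181410627098, 184776976116), (184776955344, 187649395332), (187649355995, 189435743364), (189435726672, 192888532260), (192888488989, 197274177060), (197274156202, 201908076660), (201908054536, 205999211940), (205999167778, 210303890772), (210303855018, 215044797828), (215044778000, 220064671764), (220064655627, 224998460148), (224998438384, 229219474548), (229219454687, 236030411412), (236030374186, 241367275956), (241367256451, 246737877300), (246737857265, 249338926596), (249338839357, 253064447556), (253064404020, 256894776708), (256894755257, 259620106068), (259620087731, 263680966404), (263680933370, 267508174308), (267508122074, 271926298836), (271926276794, 275823392916), (274855741685, 279437388324), (279437344898, 285735715908), (285735617690,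 297474881604), (297474806144, 307626158148), (307626121771, 318953637924), (318953608399, 329304249636), (328215932842, 332385569640), (332384556422, 336031060050), (335555279910, 337160445480), (337159496746, 341136193050), (338668236500, 341393153640), (341392247421, 343721279610), (343720867741, 347609217000), (347608156038, 349356048570), (348498512797, 355094646120), (355094389945, 359028989676), (359028790488, 363784396680), (363783666246, 368288784360), (368287876221, 372305143692), (372304404420, 380528524200), (380528363838, 385729319880), (385729229662, 390429888450), (390429802086, 393517253682), (393100684734, 396367103880), (396367002250, 403726382760), (402660441166, 416684473332), (416684443146, 420977758032), (420006236248, 426229274640), (425739981860, 428507183202), (428506915710, 433184260194), (433183388458, 436214210082), (436214002212, 443721884112), (443353606159, 447086172120), (447084771311, 449681880330), (448460516182, 456045343320), (456044035713, 461337362928), (461336791823, 465067434360), (465067367935, 470445827172), (470445779962, 477852572292), (477852486641,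 488989936644), (488989901531, 491628286020), (491628251013, 498147645282), (497119723461, 499375301742), (499374517481, 507520561614), (505739381286, 509897729052), (509896964384, 514847019960), (514805812042, 523305981756), (523305821655, 532379978802), (532379878854, 540182683836), (538862185719, 544773108120), (544773012650, 551644846914), (551644750936, 557448942336), (557448548458, 565125979080), (565125695910, 569713097052), (569712899539, 580114262556), (578155033278, 584176178040), (580942103764, 588788089218), (588787646686, 597924027330), (597923737572, 600628660674), (600628522351, 605483706840), (605483114229, 614773896936), (614773815366, 620073697800), (620072441112, 625233820722), (625232682078, 633565663080), (633081633706, 635905909842), (635905800102, 639609077640), (639608635663, 647191568520), (647191527029, 651138482532), (651138441318, 656920483332), (656920415185, 664552564578), (664552490415, 673275173316), (673275107739, 679155159972), (679155103657, 684729115188), (684729045578, 690873272520), (690872016436, 698690819880), (698689625272, 710454555240), (707422382013,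 716288818128), (716288008677, 716935575852), (716935303494, 725584470000), (725584297269, 732898863216), (731773993538, 738572344236), (738572045889, 741966910380), (739902724998, 748022656440), (748022258062, 758006043600), (758005943599, 763587579426), (763587461258, 771544971000), (771542924070, 780041739984), (778909366300, 781349377560), (781348980316, 789370195326), (789072447086, 796620244440), (796617854095, 801184022622), (801183392395, 806805952440), (806805845508, 817986417240), (817986300049, 827134042770), (825343058550, 834412280208), (834411574072, 840114543216), (837703985318, 844474684242), (842172832983, 852020162748), (852019849534, 860648067762), (860646593681, 865057150332), (865056018453, 869852676210), (869851326212, 872557282908), (872556930103, 873163074882), (873162745860, 885735915624), (880621064247, 893559794280), (893559461622, 908642258478), (904466656983, 914732360178), (914732204582, 924825787410), (924825375487, 929527591086), (929527203999, 937356263400), (937352604257, 939104229456), (939103561286, 956785691400), (956785421799, 968966281800), (968965778120,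 978218569200), (978217856983, 997738165074), (992114523667, 1010298270636), (1004443575454, 1013535568626), (1013535475937, 1029137194224), (1025274770965, 1036297363788), (1036295154973, 1056127467564), (1051407107168, 1061979497160), (1061975884202, 1077815055564), (1077814912465, 1088113760172), (1080240884174, 1102865938146), (1102865730923, 1127523894156), (1123078615809, 1147655329290), (1147569361258, 1163755835400), (1163753498790, 1170379380720), (1164310319488, 1197589034988), (1197588680550, 1214807421282), (1208979986557, 1225252420920), (1220257452430, 1241820671724), (1241819025298, 1253993592330), (1249393396564, 1268627799900), (1267473342046, 1287311556492), (1287311098318, 1306214163072), (1306212962082, 1323532134912), (1323530416016, 1346619010464), (1346617667523, 1357305461640), (1357299021309, 1401860928000), (1401860555174, 1438198901874), (1434632716153, 1462491139068), (1462490682953, 1475409027600), (1475329153966, 1495975752084), (1495975626391, 1500605093340), (1500601367563, 1518272395164), (1518272116617, 1537766950512), (1537766771877, 1553602001748), (1553601772183,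 1571881255452), (1571877841207, 1595606610726), (1595605788696, 1604366185356), (1601740341247, 1617263058438), (1617260527815, 1654261849638), (1654260741737, 1699400632806), (1699400083096, 1745996037030), (1745995883434, 1802204621694), (1779958039039, 1815355136658), (1815355024331, 1856368128330), (1845683793259, 1890304847388), (1890304532495, 1991487710700), (1981930354256, 2071816538220), (2071809871866, 2157504270876), (2128913805123, 2163640288986), (2163638722388, 2190136304700), (2190135662476, 2257042965138), (2240880517073, 2267903827092), (2264882956299, 2306653564986), (2306652239489, 2322967243170), (2322959019434, 2380984983450), (2380982237414, 2439963457890), (2419284892899, 2459191366170), (2459191121437, 2470359022974), (2469048650644, 2518517673984), (2517887876815, 2557734950700), (2540984125945, 2559182379720), (2559182300788, 2600104092846), (2578152583530, 2641613495040), (2634564185036, 2658944640330), (2657570078669, 2684489030820), (2678921825376, 2706452859654), (2698277371479, 2728539452562), (2728538829860, 2815911079080), (2802092054444, 2840002788180), (2831830582009,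 2901664275750), (2901662478594, 2988617221062), (2988616300929, 3023658444492), (3009550456759, 3124177563102), (3108842557871, 3198580163370), (3180451855946, 3262596263682), (3262582629226, 3319850618910), (3304212024768, 3363941742030), (3363941424726, 3415573991178), (3415572449748, 3464113626090), (3432765671262, 3497995878138), (3495180341519, 3520755477960), (3506935442312, 3555534622290), (3555524740126, 3573116654652), (3573116486800, 3663841661970), (3653073308640, 3764996159040), (3756744588214, 3824973822516), (3824969402320, 3896731067316), (3879208964917, 3926905569984), (3914770369387, 3999071346510), (3999066790820, 4143371253930), (4140732107009, 4208811621774), (4188289743239, 4256254382886), (4238755223737, 4302095608452), (4302091225822, 4367211204036), (4367211088945, 4456568448402), (4420668629551, 4575386824806), (4560323874912, 4606451843850), (4606450539507, 4665715150410), (4650281263313, 4824232221264), (4819887072270, 4876480924362), (4857499945531, 5057072987268), (5037972253029, 5129542205226), (5129540724546, 5202226413450), (5170256425034, 5356805312922), (5324789639004,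 5413977293550), (5413976607294, 5477261756634), (5452746600987, 5688050710494), (5650603986402, 5740434224730), (5740432344153, 5829433802874), (5829433080609, 5964738306162), (5944499598627, 6093474160320), (6088295219152, 6337663231296), (6337659231111, 6524955935742), (6520474646885, 6563208981198), (6555778091611, 6734661767046), (6689194972461, 6789399778026), (6789395786832, 6862130957178), (6852274485040, 7083636046644), (7072681509057, 7174294404270), (7174293516096, 7227519927498), (7213596911757, 7421090758506), (7360474851981, 7683082860906), (7617584903427, 7888379564106), (7888377820986, 7983148327722), (7983146493963, 8229400950762), (8162342167825, 8399051234700), (8268219870363, 8507760701130), (8489876870781, 8705473564842), (8611790897519, 8871085331592), (8833823593797, 8976096848670), (8976096171882, 9120104099370), (9120097255599, 9195046784586), (9195043190130, 9280472279850), (9247655882583, 9351120237498), (9351118854585, 9484250252490), (9484248473892, 9588204676602), (9588200394618, 9781168997610), (9781167331845, 9997635590442), (9997630395264, 10157878981674), (10157875241985,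 10313803458090), (10313799575679, 10531530571626), (10524015082368, 10832629748778), (10832625298638, 11084654290554), (11084649248790, 11262442791114), (11262440434419, 11579827431690), (11579826017025, 11965456203930), (11965454318817, 12529490307930), (12517588729827, 12740958538506), (12740957179731, 13318862242698), (13318858959849, 14086390650858), (14086387803303, 14341014794970), (14341011961428, 14726826268218)]

theorem Ls5_spec : ∀ w ∈ Ls5, Stab 5 w.1 w.2 :=
  (sfcons (a := ((178001356461 : ℕ), (181410650196 : ℕ))) p5_41 (sfcons (a := ((181410627098 : ℕ), (184776976116 : ℕ))) p5_42 (sfcons (a := ((184776955344 : ℕ), (187649395332 : ℕ))) p5_43 (sfcons (a := ((187649355995 : ℕ), (189435743364 : ℕ))) p5_44 (sfcons (a := ((189435726672 : ℕ), (192888532260 : ℕ))) p5_45 (sfcons (a := ((192888488989 : ℕ), (197274177060 : ℕ))) p5_46 (sfcons (a := ((197274156202 : ℕ), (201908076660 : ℕ))) p5_47 (sfcons (a := ((201908054536 : ℕ), (205999211940 : ℕ))) p5_48 (sfcons (a := ((205999167778 : ℕ), (210303890772 : ℕ))) p5_49 (sfcons (a := ((210303855018 : ℕ), (215044797828 : ℕ))) p5_50 (sfcons (a :=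 ((215044778000 : ℕ), (220064671764 : ℕ))) p5_51 (sfcons (a := ((220064655627 : ℕ), (224998460148 : ℕ))) p5_52 (sfcons (a := ((224998438384 : ℕ), (229219474548 : ℕ))) p5_53 (sfcons (a := ((229219454687 : ℕ), (236030411412 : ℕ))) p5_54 (sfcons (a := ((236030374186 : ℕ), (241367275956 : ℕ))) p5_55 (sfcons (a := ((241367256451 : ℕ), (246737877300 : ℕ))) p5_56 (sfcons (a := ((246737857265 : ℕ), (249338926596 : ℕ))) p5_57 (sfcons (a := ((249338839357 : ℕ), (253064447556 : ℕ))) p5_58 (sfcons (a := ((253064404020 : ℕ), (256894776708 : ℕ))) p5_59 (sfcons (a := ((256894755257 : ℕ), (259620106068 : ℕ))) p5_60 (sfcons (a := ((259620087731 : ℕ), (263680966404 : ℕ))) p5_61 (sfcons (a := ((263680933370 : ℕ), (267508174308 : ℕ))) p5_62 (sfcons (a := ((267508122074 : ℕ), (271926298836 : ℕ))) p5_63 (sfcons (a := ((271926276794 : ℕ), (275823392916 : ℕ))) p5_64 (sfcons (a := ((274855741685 : ℕ), (279437388324 : ℕ))) p5_65 (sfcons (a := ((279437344898 : ℕ), (285735715908 : ℕ))) p5_66 (sfcons (a := ((285735617690 : ℕ), (297474881604 : ℕ))) p5_67 (sfcons (a := ((297474806144 : ℕ), (307626158148 : ℕ))) p5_68 (sfcons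 (a := ((307626121771 : ℕ), (318953637924 : ℕ))) p5_69 (sfcons (a := ((318953608399 : ℕ), (329304249636 : ℕ))) p5_70 (sfcons (a := ((328215932842 : ℕ), (332385569640 : ℕ))) p5_71 (sfcons (a := ((332384556422 : ℕ), (336031060050 : ℕ))) p5_72 (sfcons (a := ((335555279910 : ℕ), (337160445480 : ℕ))) p5_73 (sfcons (a := ((337159496746 : ℕ), (341136193050 : ℕ))) p5_74 (sfcons (a := ((338668236500 : ℕ), (341393153640 : ℕ))) p5_75 (sfcons (a := ((341392247421 : ℕ), (343721279610 : ℕ))) p5_76 (sfcons (a := ((343720867741 : ℕ), (347609217000 : ℕ))) p5_77 (sfcons (a := ((347608156038 : ℕ), (349356048570 : ℕ))) p5_78 (sfcons (a := ((348498512797 : ℕ), (355094646120 : ℕ))) p5_79 (sfcons (a := ((355094389945 : ℕ), (359028989676 : ℕ))) p5_80 (sfcons (a := ((359028790488 : ℕ), (363784396680 : ℕ))) p5_81 (sfcons (a := ((363783666246 : ℕ), (368288784360 : ℕ))) p5_82 (sfcons (a := ((368287876221 : ℕ), (372305143692 : ℕ))) p5_83 (sfcons (a := ((372304404420 : ℕ), (380528524200 : ℕ))) p5_84 (sfcons (a := ((380528363838 : ℕ), (385729319880 : ℕ))) p5_85 (sfcons (a := ((385729229662 : ℕ), (390429888450 : ℕ))) p5_86 (sfcons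 (a := ((390429802086 : ℕ), (393517253682 : ℕ))) p5_87 (sfcons (a := ((393100684734 : ℕ), (396367103880 : ℕ))) p5_88 (sfcons (a := ((396367002250 : ℕ), (403726382760 : ℕ))) p5_89 (sfcons (a := ((402660441166 : ℕ), (416684473332 : ℕ))) p5_90 (sfcons (a := ((416684443146 : ℕ), (420977758032 : ℕ))) p5_91 (sfcons (a := ((420006236248 : ℕ), (426229274640 : ℕ))) p5_92 (sfcons (a := ((425739981860 : ℕ), (428507183202 : ℕ))) p5_93 (sfcons (a := ((428506915710 : ℕ), (433184260194 : ℕ))) p5_94 (sfcons (a := ((433183388458 : ℕ), (436214210082 : ℕ))) p5_95 (sfcons (a := ((436214002212 : ℕ), (443721884112 : ℕ))) p5_96 (sfcons (a := ((443353606159 : ℕ), (447086172120 : ℕ))) p5_97 (sfcons (a := ((447084771311 : ℕ), (449681880330 : ℕ))) p5_98 (sfcons (a := ((448460516182 : ℕ), (456045343320 : ℕ))) p5_99 (sfcons (a := ((456044035713 : ℕ), (461337362928 : ℕ))) p5_100 (sfcons (a := ((461336791823 : ℕ), (465067434360 : ℕ))) p5_101 (sfcons (a := ((465067367935 : ℕ), (470445827172 : ℕ))) p5_102 (sfcons (a := ((470445779962 : ℕ), (477852572292 : ℕ))) p5_103 (sfcons (a := ((477852486641 : ℕ), (488989936644 : ℕ))) p5_104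 (sfcons (a := ((488989901531 : ℕ), (491628286020 : ℕ))) p5_105 (sfcons (a := ((491628251013 : ℕ), (498147645282 : ℕ))) p5_106 (sfcons (a := ((497119723461 : ℕ), (499375301742 : ℕ))) p5_107 (sfcons (a := ((499374517481 : ℕ), (507520561614 : ℕ))) p5_108 (sfcons (a := ((505739381286 : ℕ), (509897729052 : ℕ))) p5_109 (sfcons (a := ((509896964384 : ℕ), (514847019960 : ℕ))) p5_110 (sfcons (a := ((514805812042 : ℕ), (523305981756 : ℕ))) p5_111 (sfcons (a := ((523305821655 : ℕ), (532379978802 : ℕ))) p5_112 (sfcons (a := ((532379878854 : ℕ), (540182683836 : ℕ))) p5_113 (sfcons (a := ((538862185719 : ℕ), (544773108120 : ℕ))) p5_114 (sfcons (a := ((544773012650 : ℕ), (551644846914 : ℕ))) p5_115 (sfcons (a := ((551644750936 : ℕ), (557448942336 : ℕ))) p5_116 (sfcons (a := ((557448548458 : ℕ), (565125979080 : ℕ))) p5_117 (sfcons (a := ((565125695910 : ℕ), (569713097052 : ℕ))) p5_118 (sfcons (a := ((569712899539 : ℕ), (580114262556 : ℕ))) p5_119 (sfcons (a := ((578155033278 : ℕ), (584176178040 : ℕ))) p5_120 (sfcons (a := ((580942103764 : ℕ), (588788089218 : ℕ))) p5_121 (sfcons (a := ((588787646686 : ℕ), (597924027330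 : ℕ))) p5_122 (sfcons (a := ((597923737572 : ℕ), (600628660674 : ℕ))) p5_123 (sfcons (a := ((600628522351 : ℕ), (605483706840 : ℕ))) p5_124 (sfcons (a := ((605483114229 : ℕ), (614773896936 : ℕ))) p5_125 (sfcons (a := ((614773815366 : ℕ), (620073697800 : ℕ))) p5_126 (sfcons (a := ((620072441112 : ℕ), (625233820722 : ℕ))) p5_127 (sfcons (a := ((625232682078 : ℕ), (633565663080 : ℕ))) p5_128 (sfcons (a := ((633081633706 : ℕ), (635905909842 : ℕ))) p5_129 (sfcons (a := ((635905800102 : ℕ), (639609077640 : ℕ))) p5_130 (sfcons (a := ((639608635663 : ℕ), (647191568520 : ℕ))) p5_131 (sfcons (a := ((647191527029 : ℕ), (651138482532 : ℕ))) p5_132 (sfcons (a := ((651138441318 : ℕ), (656920483332 : ℕ))) p5_133 (sfcons (a := ((656920415185 : ℕ), (664552564578 : ℕ))) p5_134 (sfcons (a := ((664552490415 : ℕ), (673275173316 : ℕ))) p5_135 (sfcons (a := ((673275107739 : ℕ), (679155159972 : ℕ))) p5_136 (sfcons (a := ((679155103657 : ℕ), (684729115188 : ℕ))) p5_137 (sfcons (a := ((684729045578 : ℕ), (690873272520 : ℕ))) p5_138 (sfcons (a := ((690872016436 : ℕ), (698690819880 : ℕ))) p5_139 (sfcons (a := ((698689625272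 : ℕ), (710454555240 : ℕ))) p5_140 (sfcons (a := ((707422382013 : ℕ), (716288818128 : ℕ))) p5_141 (sfcons (a := ((716288008677 : ℕ), (716935575852 : ℕ))) p5_142 (sfcons (a := ((716935303494 : ℕ), (725584470000 : ℕ))) p5_143 (sfcons (a := ((725584297269 : ℕ), (732898863216 : ℕ))) p5_144 (sfcons (a := ((731773993538 : ℕ), (738572344236 : ℕ))) p5_145 (sfcons (a := ((738572045889 : ℕ), (741966910380 : ℕ))) p5_146 (sfcons (a := ((739902724998 : ℕ), (748022656440 : ℕ))) p5_147 (sfcons (a := ((748022258062 : ℕ), (758006043600 : ℕ))) p5_148 (sfcons (a := ((758005943599 : ℕ), (763587579426 : ℕ))) p5_149 (sfcons (a := ((763587461258 : ℕ), (771544971000 : ℕ))) p5_150 (sfcons (a := ((771542924070 : ℕ), (780041739984 : ℕ))) p5_151 (sfcons (a := ((778909366300 : ℕ), (781349377560 : ℕ))) p5_152 (sfcons (a := ((781348980316 : ℕ), (789370195326 : ℕ))) p5_153 (sfcons (a := ((789072447086 : ℕ), (796620244440 : ℕ))) p5_154 (sfcons (a := ((796617854095 : ℕ), (801184022622 : ℕ))) p5_155 (sfcons (a := ((801183392395 : ℕ), (806805952440 : ℕ))) p5_156 (sfcons (a := ((806805845508 : ℕ), (817986417240 : ℕ))) p5_157 (sfcons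 (a := ((817986300049 : ℕ), (827134042770 : ℕ))) p5_158 (sfcons (a := ((825343058550 : ℕ), (834412280208 : ℕ))) p5_159 (sfcons (a := ((834411574072 : ℕ), (840114543216 : ℕ))) p5_160 (sfcons (a := ((837703985318 : ℕ), (844474684242 : ℕ))) p5_161 (sfcons (a := ((842172832983 : ℕ), (852020162748 : ℕ))) p5_162 (sfcons (a := ((852019849534 : ℕ), (860648067762 : ℕ))) p5_163 (sfcons (a := ((860646593681 : ℕ), (865057150332 : ℕ))) p5_164 (sfcons (a := ((865056018453 : ℕ), (869852676210 : ℕ))) p5_165 (sfcons (a := ((869851326212 : ℕ), (872557282908 : ℕ))) p5_166 (sfcons (a := ((872556930103 : ℕ), (873163074882 : ℕ))) p5_167 (sfcons (a := ((873162745860 : ℕ), (885735915624 : ℕ))) p5_168 (sfcons (a := ((880621064247 : ℕ), (893559794280 : ℕ))) p5_169 (sfcons (a := ((893559461622 : ℕ), (908642258478 : ℕ))) p5_170 (sfcons (a := ((904466656983 : ℕ), (914732360178 : ℕ))) p5_171 (sfcons (a := ((914732204582 : ℕ), (924825787410 : ℕ))) p5_172 (sfcons (a := ((924825375487 : ℕ), (929527591086 : ℕ))) p5_173 (sfcons (a := ((929527203999 : ℕ), (937356263400 : ℕ))) p5_174 (sfcons (a := ((937352604257 : ℕ), (939104229456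 : ℕ))) p5_175 (sfcons (a := ((939103561286 : ℕ), (956785691400 : ℕ))) p5_176 (sfcons (a := ((956785421799 : ℕ), (968966281800 : ℕ))) p5_177 (sfcons (a := ((968965778120 : ℕ), (978218569200 : ℕ))) p5_178 (sfcons (a := ((978217856983 : ℕ), (997738165074 : ℕ))) p5_179 (sfcons (a := ((992114523667 : ℕ), (1010298270636 : ℕ))) p5_180 (sfcons (a := ((1004443575454 : ℕ), (1013535568626 : ℕ))) p5_181 (sfcons (a := ((1013535475937 : ℕ), (1029137194224 : ℕ))) p5_182 (sfcons (a := ((1025274770965 : ℕ), (1036297363788 : ℕ))) p5_183 (sfcons (a := ((1036295154973 : ℕ), (1056127467564 : ℕ))) p5_184 (sfcons (a := ((1051407107168 : ℕ), (1061979497160 : ℕ))) p5_185 (sfcons (a := ((1061975884202 : ℕ), (1077815055564 : ℕ))) p5_186 (sfcons (a := ((1077814912465 : ℕ), (1088113760172 : ℕ))) p5_187 (sfcons (a := ((1080240884174 : ℕ), (1102865938146 : ℕ))) p5_188 (sfcons (a := ((1102865730923 : ℕ), (1127523894156 : ℕ))) p5_189 (sfcons (a := ((1123078615809 : ℕ), (1147655329290 : ℕ))) p5_190 (sfcons (a := ((1147569361258 : ℕ), (1163755835400 : ℕ))) p5_191 (sfcons (a := ((1163753498790 : ℕ), (1170379380720 : ℕ))) p5_192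 (sfcons (a := ((1164310319488 : ℕ), (1197589034988 : ℕ))) p5_193 (sfcons (a := ((1197588680550 : ℕ), (1214807421282 : ℕ))) p5_194 (sfcons (a := ((1208979986557 : ℕ), (1225252420920 : ℕ))) p5_195 (sfcons (a := ((1220257452430 : ℕ), (1241820671724 : ℕ))) p5_196 (sfcons (a := ((1241819025298 : ℕ), (1253993592330 : ℕ))) p5_197 (sfcons (a := ((1249393396564 : ℕ), (1268627799900 : ℕ))) p5_198 (sfcons (a := ((1267473342046 : ℕ), (1287311556492 : ℕ))) p5_199 (sfcons (a := ((1287311098318 : ℕ), (1306214163072 : ℕ))) p5_200 (sfcons (a := ((1306212962082 : ℕ), (1323532134912 : ℕ))) p5_201 (sfcons (a := ((1323530416016 : ℕ), (1346619010464 : ℕ))) p5_202 (sfcons (a := ((1346617667523 : ℕ), (1357305461640 : ℕ))) p5_203 (sfcons (a := ((1357299021309 : ℕ), (1401860928000 : ℕ))) p5_204 (sfcons (a := ((1401860555174 : ℕ), (1438198901874 : ℕ))) p5_205 (sfcons (a := ((1434632716153 : ℕ), (1462491139068 : ℕ))) p5_206 (sfcons (a := ((1462490682953 : ℕ), (1475409027600 : ℕ))) p5_207 (sfcons (a := ((1475329153966 : ℕ), (1495975752084 : ℕ))) p5_208 (sfcons (a := ((1495975626391 : ℕ), (1500605093340 : ℕ))) p5_209 (sfcons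 (a := ((1500601367563 : ℕ), (1518272395164 : ℕ))) p5_210 (sfcons (a := ((1518272116617 : ℕ), (1537766950512 : ℕ))) p5_211 (sfcons (a := ((1537766771877 : ℕ), (1553602001748 : ℕ))) p5_212 (sfcons (a := ((1553601772183 : ℕ), (1571881255452 : ℕ))) p5_213 (sfcons (a := ((1571877841207 : ℕ), (1595606610726 : ℕ))) p5_214 (sfcons (a := ((1595605788696 : ℕ), (1604366185356 : ℕ))) p5_215 (sfcons (a := ((1601740341247 : ℕ), (1617263058438 : ℕ))) p5_216 (sfcons (a := ((1617260527815 : ℕ), (1654261849638 : ℕ))) p5_217 (sfcons (a := ((1654260741737 : ℕ), (1699400632806 : ℕ))) p5_218 (sfcons (a := ((1699400083096 : ℕ), (1745996037030 : ℕ))) p5_219 (sfcons (a := ((1745995883434 : ℕ), (1802204621694 : ℕ))) p5_220 (sfcons (a := ((1779958039039 : ℕ), (1815355136658 : ℕ))) p5_221 (sfcons (a := ((1815355024331 : ℕ), (1856368128330 : ℕ))) p5_222 (sfcons (a := ((1845683793259 : ℕ), (1890304847388 : ℕ))) p5_223 (sfcons (a := ((1890304532495 : ℕ), (1991487710700 : ℕ))) p5_224 (sfcons (a := ((1981930354256 : ℕ), (2071816538220 : ℕ))) p5_225 (sfcons (a := ((2071809871866 : ℕ), (2157504270876 : ℕ))) p5_226 (sfcons (a :=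 ((2128913805123 : ℕ), (2163640288986 : ℕ))) p5_227 (sfcons (a := ((2163638722388 : ℕ), (2190136304700 : ℕ))) p5_228 (sfcons (a := ((2190135662476 : ℕ), (2257042965138 : ℕ))) p5_229 (sfcons (a := ((2240880517073 : ℕ), (2267903827092 : ℕ))) p5_230 (sfcons (a := ((2264882956299 : ℕ), (2306653564986 : ℕ))) p5_231 (sfcons (a := ((2306652239489 : ℕ), (2322967243170 : ℕ))) p5_232 (sfcons (a := ((2322959019434 : ℕ), (2380984983450 : ℕ))) p5_233 (sfcons (a := ((2380982237414 : ℕ), (2439963457890 : ℕ))) p5_234 (sfcons (a := ((2419284892899 : ℕ), (2459191366170 : ℕ))) p5_235 (sfcons (a := ((2459191121437 : ℕ), (2470359022974 : ℕ))) p5_236 (sfcons (a := ((2469048650644 : ℕ), (2518517673984 : ℕ))) p5_237 (sfcons (a := ((2517887876815 : ℕ), (2557734950700 : ℕ))) p5_238 (sfcons (a := ((2540984125945 : ℕ), (2559182379720 : ℕ))) p5_239 (sfcons (a := ((2559182300788 : ℕ), (2600104092846 : ℕ))) p5_240 (sfcons (a := ((2578152583530 : ℕ), (2641613495040 : ℕ))) p5_241 (sfcons (a := ((2634564185036 : ℕ), (2658944640330 : ℕ))) p5_242 (sfcons (a := ((2657570078669 : ℕ), (2684489030820 : ℕ))) p5_243 (sfcons (a := ((2678921825376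 : ℕ), (2706452859654 : ℕ))) p5_244 (sfcons (a := ((2698277371479 : ℕ), (2728539452562 : ℕ))) p5_245 (sfcons (a := ((2728538829860 : ℕ), (2815911079080 : ℕ))) p5_246 (sfcons (a := ((2802092054444 : ℕ), (2840002788180 : ℕ))) p5_247 (sfcons (a := ((2831830582009 : ℕ), (2901664275750 : ℕ))) p5_248 (sfcons (a := ((2901662478594 : ℕ), (2988617221062 : ℕ))) p5_249 (sfcons (a := ((2988616300929 : ℕ), (3023658444492 : ℕ))) p5_250 (sfcons (a := ((3009550456759 : ℕ), (3124177563102 : ℕ))) p5_251 (sfcons (a := ((3108842557871 : ℕ), (3198580163370 : ℕ))) p5_252 (sfcons (a := ((3180451855946 : ℕ), (3262596263682 : ℕ))) p5_253 (sfcons (a := ((3262582629226 : ℕ), (3319850618910 : ℕ))) p5_254 (sfcons (a := ((3304212024768 : ℕ), (3363941742030 : ℕ))) p5_255 (sfcons (a := ((3363941424726 : ℕ), (3415573991178 : ℕ))) p5_256 (sfcons (a := ((3415572449748 : ℕ), (3464113626090 : ℕ))) p5_257 (sfcons (a := ((3432765671262 : ℕ), (3497995878138 : ℕ))) p5_258 (sfcons (a := ((3495180341519 : ℕ), (3520755477960 : ℕ))) p5_259 (sfcons (a := ((3506935442312 : ℕ), (3555534622290 : ℕ))) p5_260 (sfcons (a := ((3555524740126 : ℕ),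 (3573116654652 : ℕ))) p5_261 (sfcons (a := ((3573116486800 : ℕ), (3663841661970 : ℕ))) p5_262 (sfcons (a := ((3653073308640 : ℕ), (3764996159040 : ℕ))) p5_263 (sfcons (a := ((3756744588214 : ℕ), (3824973822516 : ℕ))) p5_264 (sfcons (a := ((3824969402320 : ℕ), (3896731067316 : ℕ))) p5_265 (sfcons (a := ((3879208964917 : ℕ), (3926905569984 : ℕ))) p5_266 (sfcons (a := ((3914770369387 : ℕ), (3999071346510 : ℕ))) p5_267 (sfcons (a := ((3999066790820 : ℕ), (4143371253930 : ℕ))) p5_268 (sfcons (a := ((4140732107009 : ℕ), (4208811621774 : ℕ))) p5_269 (sfcons (a := ((4188289743239 : ℕ), (4256254382886 : ℕ))) p5_270 (sfcons (a := ((4238755223737 : ℕ), (4302095608452 : ℕ))) p5_271 (sfcons (a := ((4302091225822 : ℕ), (4367211204036 : ℕ))) p5_272 (sfcons (a := ((4367211088945 : ℕ), (4456568448402 : ℕ))) p5_273 (sfcons (a := ((4420668629551 : ℕ), (4575386824806 : ℕ))) p5_274 (sfcons (a := ((4560323874912 : ℕ), (4606451843850 : ℕ))) p5_275 (sfcons (a := ((4606450539507 : ℕ), (4665715150410 : ℕ))) p5_276 (sfcons (a := ((4650281263313 : ℕ), (4824232221264 : ℕ))) p5_277 (sfcons (a := ((4819887072270 : ℕ), (4876480924362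 : ℕ))) p5_278 (sfcons (a := ((4857499945531 : ℕ), (5057072987268 : ℕ))) p5_279 (sfcons (a := ((5037972253029 : ℕ), (5129542205226 : ℕ))) p5_280 (sfcons (a := ((5129540724546 : ℕ), (5202226413450 : ℕ))) p5_281 (sfcons (a := ((5170256425034 : ℕ), (5356805312922 : ℕ))) p5_282 (sfcons (a := ((5324789639004 : ℕ), (5413977293550 : ℕ))) p5_283 (sfcons (a := ((5413976607294 : ℕ), (5477261756634 : ℕ))) p5_284 (sfcons (a := ((5452746600987 : ℕ), (5688050710494 : ℕ))) p5_285 (sfcons (a := ((5650603986402 : ℕ), (5740434224730 : ℕ))) p5_286 (sfcons (a := ((5740432344153 : ℕ), (5829433802874 : ℕ))) p5_287 (sfcons (a := ((5829433080609 : ℕ), (5964738306162 : ℕ))) p5_288 (sfcons (a := ((5944499598627 : ℕ), (6093474160320 : ℕ))) p5_289 (sfcons (a := ((6088295219152 : ℕ), (6337663231296 : ℕ))) p5_290 (sfcons (a := ((6337659231111 : ℕ), (6524955935742 : ℕ))) p5_291 (sfcons (a := ((6520474646885 : ℕ), (6563208981198 : ℕ))) p5_292 (sfcons (a := ((6555778091611 : ℕ), (6734661767046 : ℕ))) p5_293 (sfcons (a := ((6689194972461 : ℕ), (6789399778026 : ℕ))) p5_294 (sfcons (a := ((6789395786832 : ℕ), (6862130957178 : ℕ)))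 p5_295 (sfcons (a := ((6852274485040 : ℕ), (7083636046644 : ℕ))) p5_296 (sfcons (a := ((7072681509057 : ℕ), (7174294404270 : ℕ))) p5_297 (sfcons (a := ((7174293516096 : ℕ), (7227519927498 : ℕ))) p5_298 (sfcons (a := ((7213596911757 : ℕ), (7421090758506 : ℕ))) p5_299 (sfcons (a := ((7360474851981 : ℕ), (7683082860906 : ℕ))) p5_300 (sfcons (a := ((7617584903427 : ℕ), (7888379564106 : ℕ))) p5_301 (sfcons (a := ((7888377820986 : ℕ), (7983148327722 : ℕ))) p5_302 (sfcons (a := ((7983146493963 : ℕ), (8229400950762 : ℕ))) p5_303 (sfcons (a := ((8162342167825 : ℕ), (8399051234700 : ℕ))) p5_304 (sfcons (a := ((8268219870363 : ℕ), (8507760701130 : ℕ))) p5_305 (sfcons (a := ((8489876870781 : ℕ), (8705473564842 : ℕ))) p5_306 (sfcons (a := ((8611790897519 : ℕ), (8871085331592 : ℕ))) p5_307 (sfcons (a := ((8833823593797 : ℕ), (8976096848670 : ℕ))) p5_308 (sfcons (a := ((8976096171882 : ℕ), (9120104099370 : ℕ))) p5_309 (sfcons (a := ((9120097255599 : ℕ), (9195046784586 : ℕ))) p5_310 (sfcons (a := ((9195043190130 : ℕ), (9280472279850 : ℕ))) p5_311 (sfcons (a := ((9247655882583 : ℕ), (9351120237498 : ℕ))) p5_312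 (sfcons (a := ((9351118854585 : ℕ), (9484250252490 : ℕ))) p5_313 (sfcons (a := ((9484248473892 : ℕ), (9588204676602 : ℕ))) p5_314 (sfcons (a := ((9588200394618 : ℕ), (9781168997610 : ℕ))) p5_315 (sfcons (a := ((9781167331845 : ℕ), (9997635590442 : ℕ))) p5_316 (sfcons (a := ((9997630395264 : ℕ), (10157878981674 : ℕ))) p5_317 (sfcons (a := ((10157875241985 : ℕ), (10313803458090 : ℕ))) p5_318 (sfcons (a := ((10313799575679 : ℕ), (10531530571626 : ℕ))) p5_319 (sfcons (a := ((10524015082368 : ℕ), (10832629748778 : ℕ))) p5_320 (sfcons (a := ((10832625298638 : ℕ), (11084654290554 : ℕ))) p5_321 (sfcons (a := ((11084649248790 : ℕ), (11262442791114 : ℕ))) p5_322 (sfcons (a := ((11262440434419 : ℕ), (11579827431690 : ℕ))) p5_323 (sfcons (a := ((11579826017025 : ℕ), (11965456203930 : ℕ))) p5_324 (sfcons (a := ((11965454318817 : ℕ), (12529490307930 : ℕ))) p5_325 (sfcons (a := ((12517588729827 : ℕ), (12740958538506 : ℕ))) p5_326 (sfcons (a := ((12740957179731 : ℕ), (13318862242698 : ℕ))) p5_327 (sfcons (a := ((13318858959849 : ℕ), (14086390650858 : ℕ))) p5_328 (sfcons (a := ((14086387803303 : ℕ), (14341014794970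 : ℕ))) p5_329 (sfcons (a := ((14341011961428 : ℕ), (14726826268218 : ℕ))) p5_330 sfnil))))))))))))))))))))))))))))))))))))))))))))))))))))))))))))))))))))))))))))))))))))))))))))))))))))))))))))))))))))))))))))))))))))))))))))))))))))))))))))))))))))))))))))))))))))))))))))))))))))))))))))))))))))))))))))))))))))))))))))))))))))))))))))))))))))))))))))))))))))))))))))))))))

theorem Ls5_cover : cover 180000000000 Ls5 14580000000000 = true := by decide +kernel

end Pool.Agent.Lib.MP_cfac74_al.Cov
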