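import Pool.Agent.Lib.MP_cfac74_al.S.S00
import Pool.Agent.Lib.MP_cfac74_al.S.S01
import Pool.Agent.Lib.MP_cfac74_al.S.S02
import Pool.Agent.Lib.MP_cfac74_al.S.S03
import Pool.Agent.Lib.MP_cfac74_al.S.S04
import Pool.Agent.Lib.MP_cfac74_al.S.S05
import Pool.Agent.Lib.MP_cfac74_al.S.S06
import Pool.Agent.Lib.MP_cfac74_al.S.S07
import Pool.Agent.Lib.MP_cfac74_al.S.S08
import Pool.Agent.Lib.MP_cfac74_al.S.S09
import Pool.Agent.Lib.MP_cfac74_al.S.S10
import Pool.Agent.Lib.MP_cfac74_al.S.S11
import Pool.Agent.Lib.MP_cfac74_al.S.S12
import Pool.Agent.Lib.MP_cfac74_al.S.S13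
import Pool.Agent.Lib.MP_cfac74_al.S.S14
import Pool.Agent.Lib.MP_cfac74_al.S.S15
import Pool.Agent.Lib.MP_cfac74_al.S.S16
import Pool.Agent.Lib.MP_cfac74_al.S.S17
import Pool.Agent.Lib.MP_cfac74_al.S.S18
import Pool.Agent.Lib.MP_cfac74_al.S.Ls

/-!
# MP_cfac74_al : stable windows, class 7
-/

set_option autoImplicit false
set_option maxRecDepth 1000000

namespace Pool.Agent.Lib.MP_cfac74_al.Cov

theorem p7_0 : Stab 7 56300294752 56869775850 := s824_t0

theorem sw7_0 : Win 7 56300294752 56869775850 := p7_0.win (by decide +kernel)

theorem p7_1 : Stab 7 56869759747 57601421610 := s46_t0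

theorem sw7_1 : Win 7 56869759747 57601421610 := p7_1.win (by decide +kernel)

theorem p7_2 : Stab 7 59313441624 59716144890 := s268_t0

theorem sw7_2 : Win 7 59313441624 59716144890 := p7_2.win (by decide +kernel)

theorem p7_3 : Stab 7 59504778670 60203468202 := s133_t0

theorem sw7_3 : Win 7 59504778670 60203468202 := p7_3.win (by decide +kernel)

theorem p7_4 : Stab 7 61542934701 62197226346 := s799_t0

theorem sw7_4 : Win 7 61542934701 62197226346 := p7_4.win (by decide +kernel)

theorem p7_5 : Stab 7 62197188309 63327681546 := s265_t0

theorem sw7_5 : Win 7 62197188309 63327681546 := p7_5.win (by decide +kernel)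

theorem p7_6 : Stab 7 63327663266 64225017450 := s65_t0

theorem sw7_6 : Win 7 63327663266 64225017450 := p7_6.win (by decide +kernel)

theorem p7_7 : Stab 7 66371560028 66839240634 := s680_t0

theorem sw7_7 : Win 7 66371560028 66839240634 := p7_7.win (by decide +kernel)

theorem p7_8 : Stab 7 66839217374 67620515514 := s42_t0

theorem sw7_8 : Win 7 66839217374 67620515514 := p7_8.win (by decide +kernel)

theorem p7_9 : Stab 7 67620497388 68399159418 := s204_t0

theorem sw7_9 : Win 7 67620497388 68399159418 := p7_9.win (by decide +kernel)

theorem p7_10 : Stab 7 69760543042 70869558330 := s761_t0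

theorem sw7_10 : Win 7 69760543042 70869558330 := p7_10.win (by decide +kernel)

theorem p7_11 : Stab 7 70869535113 71968318554 := s23_t0

theorem sw7_11 : Win 7 70869535113 71968318554 := p7_11.win (by decide +kernel)

theorem p7_12 : Stab 7 82005439731 83299504698 := s730_t0

theorem sw7_12 : Win 7 82005439731 83299504698 := p7_12.win (by decide +kernel)

theorem p7_13 : Stab 7 82582653981 83819750346 := s377_t0

theorem sw7_13 : Win 7 82582653981 83819750346 := p7_13.win (by decide +kernel)

theorem p7_14 : Stab 7 83819701072 84717666138 := s317_t0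

theorem sw7_14 : Win 7 83819701072 84717666138 := p7_14.win (by decide +kernel)

theorem p7_15 : Stab 7 85867286323 87232845354 := s189_t0

theorem sw7_15 : Win 7 85867286323 87232845354 := p7_15.win (by decide +kernel)

theorem p7_16 : Stab 7 87232806067 88301094186 := s258_t0

theorem sw7_16 : Win 7 87232806067 88301094186 := p7_16.win (by decide +kernel)

theorem p7_17 : Stab 7 89056751997 91618404426 := s315_t0

theorem sw7_17 : Win 7 89056751997 91618404426 := p7_17.win (by decide +kernel)

theorem p7_18 : Stab 7 90870059901 94852874826 := s142_t0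

theorem sw7_18 : Win 7 90870059901 94852874826 := p7_18.win (by decide +kernel)

theorem p7_19 : Stab 7 94044258067 97387402026 := s131_t0

theorem sw7_19 : Win 7 94044258067 97387402026 := p7_19.win (by decide +kernel)

theorem p7_20 : Stab 7 97387380506 98557386762 := s747_t0

theorem sw7_20 : Win 7 97387380506 98557386762 := p7_20.win (by decide +kernel)

theorem p7_21 : Stab 7 98557364123 101597542602 := s49_t0

theorem sw7_21 : Win 7 98557364123 101597542602 := p7_21.win (by decide +kernel)

theorem p7_22 : Stab 7 102076788523 105034082730 := s253_t0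

theorem sw7_22 : Win 7 102076788523 105034082730 := p7_22.win (by decide +kernel)

theorem p7_23 : Stab 7 104813294701 107474982282 := s86_t0

theorem sw7_23 : Win 7 104813294701 107474982282 := p7_23.win (by decide +kernel)

theorem p7_24 : Stab 7 110816002122 112593877770 := s701_t0

theorem sw7_24 : Win 7 110816002122 112593877770 := p7_24.win (by decide +kernel)

theorem p7_25 : Stab 7 112593793279 113519096106 := s186_t0

theorem sw7_25 : Win 7 112593793279 113519096106 := p7_25.win (by decide +kernel)

theorem p7_26 : Stab 7 113519051730 114573731850 := s554_t0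

theorem sw7_26 : Win 7 113519051730 114573731850 := p7_26.win (by decide +kernel)

theorem p7_27 : Stab 7 114168591143 115445928858 := s57_t0

theorem sw7_27 : Win 7 114168591143 115445928858 := p7_27.win (by decide +kernel)

theorem p7_28 : Stab 7 115445911785 117089509290 := s486_t0

theorem sw7_28 : Win 7 115445911785 117089509290 := p7_28.win (by decide +kernel)

theorem p7_29 : Stab 7 117089487332 118372897242 := s816_t0

theorem sw7_29 : Win 7 117089487332 118372897242 := p7_29.win (by decide +kernel)

theorem p7_30 : Stab 7 118372844378 120755172810 := s642_t0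

theorem sw7_30 : Win 7 118372844378 120755172810 := p7_30.win (by decide +kernel)

theorem p7_31 : Stab 7 120755152245 123427599882 := s539_t0

theorem sw7_31 : Win 7 120755152245 123427599882 := p7_31.win (by decide +kernel)

theorem p7_32 : Stab 7 123427535744 125405913354 := s623_t0

theorem sw7_32 : Win 7 123427535744 125405913354 := p7_32.win (by decide +kernel)

theorem p7_33 : Stab 7 125405867185 127330906890 := s450_t0

theorem sw7_33 : Win 7 125405867185 127330906890 := p7_33.win (by decide +kernel)

theorem p7_34 : Stab 7 127330858959 130018895946 := s164_t0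

theorem sw7_34 : Win 7 127330858959 130018895946 := p7_34.win (by decide +kernel)

theorem p7_35 : Stab 7 129926112128 133736169738 := s600_t0

theorem sw7_35 : Win 7 129926112128 133736169738 := p7_35.win (by decide +kernel)

theorem p7_36 : Stab 7 133736114798 136847583834 := s801_t0

theorem sw7_36 : Win 7 133736114798 136847583834 := p7_36.win (by decide +kernel)

theorem p7_37 : Stab 7 136847521590 139042503594 := s84_t0

theorem sw7_37 : Win 7 136847521590 139042503594 := p7_37.win (by decide +kernel)

theorem p7_38 : Stab 7 139042474499 142960832490 := s201_t0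

theorem sw7_38 : Win 7 139042474499 142960832490 := p7_38.win (by decide +kernel)

theorem p7_39 : Stab 7 142960815025 147721681530 := s404_t0

theorem sw7_39 : Win 7 142960815025 147721681530 := p7_39.win (by decide +kernel)

theorem p7_40 : Stab 7 147721658257 154685065530 := s474_t0

theorem sw7_40 : Win 7 147721658257 154685065530 := p7_40.win (by decide +kernel)

theorem p7_41 : Stab 7 154538132467 157295784426 := s72_t0

theorem sw7_41 : Win 7 154538132467 157295784426 := p7_41.win (by decide +kernel)

theorem p7_42 : Stab 7 157295767651 164430398058 := s871_t0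

theorem sw7_42 : Win 7 157295767651 164430398058 := p7_42.win (by decide +kernel)

theorem p7_43 : Stab 7 164430357529 173906057418 := s840_t0

theorem sw7_43 : Win 7 164430357529 173906057418 := p7_43.win (by decide +kernel)

theorem p7_44 : Stab 7 173906022263 177049565370 := s837_t0

theorem sw7_44 : Win 7 173906022263 177049565370 := p7_44.win (by decide +kernel)

theorem p7_45 : Stab 7 177049530388 181812669978 := s138_t0

theorem sw7_45 : Win 7 177049530388 181812669978 := p7_45.win (by decide +kernel)

theorem p7_46 : Stab 7 181812648318 185908622106 := s613_t0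

theorem p7_47 : Stab 7 185908587619 189717334266 := s47_t0

theorem p7_48 : Stab 7 189717312795 192267238266 := s173_t0

theorem p7_49 : Stab 7 192267214317 198316024794 := s495_t0

theorem p7_50 : Stab 7 198315981749 200889559818 := s709_t0

theorem p7_51 : Stab 7 200889522277 204169109946 := s491_t0

theorem p7_52 : Stab 7 204169052678 210477439290 := s198_t0

theorem p7_53 : Stab 7 210477419317 221516401146 := s794_t0

theorem p7_54 : Stab 7 220436506951 232150781178 := s715_t0

theorem p7_55 : Stab 7 232150735703 236193978906 := s229_t0

theorem p7_56 : Stab 7 236193960278 244751919018 := s271_t0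

theorem p7_57 : Stab 7 244751897496 256459909962 := s587_t0

theorem p7_58 : Stab 7 256459873696 260585618058 := s144_t0

theorem p7_59 : Stab 7 260585595260 264068778954 := s336_t0

theorem p7_60 : Stab 7 264068759082 267815760234 := s764_t0

theorem p7_61 : Stab 7 267815744282 274489458762 := s481_t0

theorem p7_62 : Stab 7 274489420842 286986996138 := s29_t0

theorem p7_63 : Stab 7 286986975849 299371090026 := s792_t0

theorem p7_64 : Stab 7 299371050009 310264851306 := s660_t0

theorem p7_65 : Stab 7 310264814547 312371590842 := s403_t0

theorem p7_66 : Stab 7 312371573089 317251314714 := s679_t0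

theorem p7_67 : Stab 7 317251264387 323289649098 := s850_t0

theorem p7_68 : Stab 7 323289633204 329749111770 := s466_t0

theorem p7_69 : Stab 7 329749092802 339786391770 := s314_t0

theorem p7_70 : Stab 7 339786371689 343183120698 := s97_t0

theorem p7_71 : Stab 7 343183096155 345432051642 := s765_t0

theorem p7_72 : Stab 7 345112806658 349801415514 := s739_t0

theorem p7_73 : Stab 7 349801396661 355431877914 := s44_t0

theorem p7_74 : Stab 7 355431861599 359431334682 := s880_t0

theorem p7_75 : Stab 7 359431313793 363694930104 := (Half.stab s516_t1 s193_t2 (by decide +kernel) : Stab 7 359431313793 363694930104)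

theorem p7_76 : Stab 7 363694890277 366822242874 := s507_t0

theorem p7_77 : Stab 7 366822204645 369424884750 := (Half.stab s143_t0 s354_t1 (by decide +kernel) : Stab 7 366822204645 369424884750)

theorem p7_78 : Stab 7 369424160344 372246796350 := (Half.stab s143_t0 s284_t1 (by decide +kernel) : Stab 7 369424160344 372246796350)

theorem p7_79 : Stab 7 372246750595 377594442330 := s111_t0

theorem p7_80 : Stab 7 377594421300 383831114346 := s497_t0

theorem p7_81 : Stab 7 383831056955 389989481082 := s346_t0

theorem p7_82 : Stab 7 389989450515 396410900154 := s793_t0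

theorem p7_83 : Stab 7 396410863466 402100965978 := s692_t0

theorem p7_84 : Stab 7 402100919370 408588989754 := s448_t0

theorem p7_85 : Stab 7 408588947320 413068644990 := (Half.stab s103_t0 s622_t1 (by decide +kernel) : Stab 7 408588947320 413068644990)

theorem p7_86 : Stab 7 413068604713 420982251930 := s208_t0

theorem p7_87 : Stab 7 420982203652 432869983770 := s469_t0

theorem p7_88 : Stab 7 432869941166 437781314430 := (Half.stab s328_t0 s195_t1 (by decide +kernel) : Stab 7 432869941166 437781314430)

theorem p7_89 : Stab 7 437781258700 451768503546 := s523_t0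

theorem p7_90 : Stab 7 451768460230 467306230266 := s591_t0

theorem p7_91 : Stab 7 467306186572 472023710202 := s452_t0

theorem p7_92 : Stab 7 472023647842 477950415096 := (Half.stab s359_t2 s283_t0 (by decide +kernel) : Stab 7 472023647842 477950415096)

theorem p7_93 : Stab 7 473467303836 480519473634 := (Half.stab s160_t1 s283_t0 (by decide +kernel) : Stab 7 473467303836 480519473634)

theorem p7_94 : Stab 7 479285102829 482147887230 := (Half.stab s160_t1 s152_t1 (by decide +kernel) : Stab 7 479285102829 482147887230)

theorem p7_95 : Stab 7 482146143525 487898606466 := (Half.stab s127_t1 s152_t1 (by decide +kernel) : Stab 7 482146143525 487898606466)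

theorem p7_96 : Stab 7 487898450165 497132504568 := (Half.stab s566_t2 s300_t1 (by decide +kernel) : Stab 7 487898450165 497132504568)

theorem p7_97 : Stab 7 493526481672 498307926510 := (Half.stab s105_t2 s148_t1 (by decide +kernel) : Stab 7 493526481672 498307926510)

theorem p7_98 : Stab 7 498305479740 504343320750 := (Half.stab s105_t2 s220_t1 (by decide +kernel) : Stab 7 498305479740 504343320750)

theorem p7_99 : Stab 7 503323918958 511986789360 := (Half.stab s105_t2 s667_t2 (by decide +kernel) : Stab 7 503323918958 511986789360)

theorem p7_100 : Stab 7 509297370331 515603490498 := (Half.stab s664_t2 s501_t1 (by decide +kernel) : Stab 7 509297370331 515603490498)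

theorem p7_101 : Stab 7 515603345941 522007404066 := (Half.stab s185_t2 s177_t1 (by decide +kernel) : Stab 7 515603345941 522007404066)

theorem p7_102 : Stab 7 522006844682 531868870242 := (Half.stab s185_t2 s468_t1 (by decide +kernel) : Stab 7 522006844682 531868870242)

theorem p7_103 : Stab 7 531868100851 539087686146 := (Half.stab s590_t1 s500_t1 (by decide +kernel) : Stab 7 531868100851 539087686146)

theorem p7_104 : Stab 7 539086141699 543856605630 := (Half.stab s590_t1 s579_t1 (by decide +kernel) : Stab 7 539086141699 543856605630)

theorem p7_105 : Stab 7 543854421166 551420616546 := (Half.stab s313_t1 s579_t1 (by decide +kernel) : Stab 7 543854421166 551420616546)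

theorem p7_106 : Stab 7 551419638169 566466877602 := (Half.stab s313_t1 s53_t1 (by decide +kernel) : Stab 7 551419638169 566466877602)

theorem p7_107 : Stab 7 566466126602 581998679010 := (Half.stab s695_t1 s48_t1 (by decide +kernel) : Stab 7 566466126602 581998679010)

theorem p7_108 : Stab 7 580228995547 585817554750 := (Half.stab s695_t1 s345_t2 (by decide +kernel) : Stab 7 580228995547 585817554750)

theorem p7_109 : Stab 7 585817470026 588297869280 := (Half.stab s453_t1 s345_t2 (by decide +kernel) : Stab 7 585817470026 588297869280)

theorem p7_110 : Stab 7 588297592595 595618960320 := (Half.stab s30_t3 s345_t2 (by decide +kernel) : Stab 7 588297592595 595618960320)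

theorem p7_111 : Stab 7 595618681249 602036807040 := (Half.stab s62_t3 s345_t2 (by decide +kernel) : Stab 7 595618681249 602036807040)

theorem p7_112 : Stab 7 602036459786 607613469120 := (Half.stab s243_t3 s345_t2 (by decide +kernel) : Stab 7 602036459786 607613469120)

theorem p7_113 : Stab 7 607327861134 612808171752 := (Half.stab s193_t5 s345_t2 (by decide +kernel) : Stab 7 607327861134 612808171752)

theorem p7_114 : Stab 7 609767074702 616700098872 := (Half.stab s193_t5 s564_t2 (by decide +kernel) : Stab 7 609767074702 616700098872)

theorem p7_115 : Stab 7 613611971186 624057682950 := (Half.stab s352_t2 s564_t2 (by decide +kernel) : Stab 7 613611971186 624057682950)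

theorem p7_116 : Stab 7 619057715440 631025874738 := (Half.stab s39_t3 s351_t1 (by decide +kernel) : Stab 7 619057715440 631025874738)

theorem p7_117 : Stab 7 631025494344 632393718990 := (Half.stab s737_t0 s351_t1 (by decide +kernel) : Stab 7 631025494344 632393718990)

theorem p7_118 : Stab 7 632391855265 635721168966 := (Half.stab s737_t0 s10_t1 (by decide +kernel) : Stab 7 632391855265 635721168966)

theorem p7_119 : Stab 7 635720474387 643210318080 := (Half.stab s675_t2 s10_t1 (by decide +kernel) : Stab 7 635720474387 643210318080)

theorem p7_120 : Stab 7 643209370318 650161006830 := (Half.stab s163_t3 s10_t1 (by decide +kernel) : Stab 7 643209370318 650161006830)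

theorem p7_121 : Stab 7 650159907896 663039091950 := (Half.stab s181_t1 s652_t1 (by decide +kernel) : Stab 7 650159907896 663039091950)

theorem p7_122 : Stab 7 663036030803 678288156990 := (Half.stab s191_t1 s249_t3 (by decide +kernel) : Stab 7 663036030803 678288156990)

theorem p7_123 : Stab 7 678285115617 695835661470 := (Half.stab s517_t1 s249_t3 (by decide +kernel) : Stab 7 678285115617 695835661470)

theorem p7_124 : Stab 7 695835579067 703714944996 := (Half.stab s348_t1 s159_t3 (by decide +kernel) : Stab 7 695835579067 703714944996)

theorem p7_125 : Stab 7 703243256289 710353346136 := (Half.stab s348_t1 s383_t1 (by decide +kernel) : Stab 7 703243256289 710353346136)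

theorem p7_126 : Stab 7 707367060601 732494264430 := (Half.stab s838_t3 s383_t1 (by decide +kernel) : Stab 7 707367060601 732494264430)

theorem p7_127 : Stab 7 728962440513 746959151736 := (Half.stab s836_t1 s738_t1 (by decide +kernel) : Stab 7 728962440513 746959151736)

theorem p7_128 : Stab 7 740977318325 762882066450 := (Half.stab s873_t3 s738_t1 (by decide +kernel) : Stab 7 740977318325 762882066450)

theorem p7_129 : Stab 7 762880933950 768885098670 := (Half.stab s844_t3 s738_t1 (by decide +kernel) : Stab 7 762880933950 768885098670)

theorem p7_130 : Stab 7 765803021255 785977525572 := (Half.stab s844_t3 s110_t3 (by decide +kernel) : Stab 7 765803021255 785977525572)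

theorem p7_131 : Stab 7 785976632456 805216568676 := (Half.stab s844_t3 s18_t3 (by decide +kernel) : Stab 7 785976632456 805216568676)

theorem p7_132 : Stab 7 793659172600 817846649256 := (Half.stab s594_t1 s704_t2 (by decide +kernel) : Stab 7 793659172600 817846649256)

theorem p7_133 : Stab 7 817846324996 834289994610 := (Half.stab s515_t2 s157_t2 (by decide +kernel) : Stab 7 817846324996 834289994610)

theorem p7_134 : Stab 7 834289100451 847677189576 := (Half.stab s41_t2 s157_t2 (by decide +kernel) : Stab 7 834289100451 847677189576)

theorem p7_135 : Stab 7 847674562990 850669545906 := (Half.stab s41_t2 s508_t2 (by decide +kernel) : Stab 7 847674562990 850669545906)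

theorem p7_136 : Stab 7 850668595910 861014784840 := (Half.stab s344_t2 s508_t2 (by decide +kernel) : Stab 7 850668595910 861014784840)

theorem p7_137 : Stab 7 860683711074 868103176920 := (Half.stab s670_t2 s95_t1 (by decide +kernel) : Stab 7 860683711074 868103176920)

theorem p7_138 : Stab 7 868101894152 886314880110 := (Half.stab s439_t2 s95_t1 (by decide +kernel) : Stab 7 868101894152 886314880110)

theorem p7_139 : Stab 7 886314719816 895452708696 := (Half.stab s621_t2 s572_t2 (by decide +kernel) : Stab 7 886314719816 895452708696)

theorem p7_140 : Stab 7 895452556155 906068195928 := (Half.stab s126_t1 s108_t2 (by decide +kernel) : Stab 7 895452556155 906068195928)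

theorem p7_141 : Stab 7 901839399923 918541882590 := (Half.stab s182_t1 s108_t2 (by decide +kernel) : Stab 7 901839399923 918541882590)

theorem p7_142 : Stab 7 918539211708 925831449480 := (Half.stab s367_t1 s108_t2 (by decide +kernel) : Stab 7 918539211708 925831449480)

theorem p7_143 : Stab 7 925830410568 934029468030 := (Half.stab s367_t1 s810_t1 (by decide +kernel) : Stab 7 925830410568 934029468030)

theorem p7_144 : Stab 7 934029374436 946751327028 := (Half.stab s797_t1 s11_t1 (by decide +kernel) : Stab 7 934029374436 946751327028)

theorem p7_145 : Stab 7 946750962998 964157127924 := (Half.stab s506_t3 s11_t1 (by decide +kernel) : Stab 7 946750962998 964157127924)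

theorem p7_146 : Stab 7 958621124206 967221425250 := (Half.stab s725_t2 s11_t1 (by decide +kernel) : Stab 7 958621124206 967221425250)

theorem p7_147 : Stab 7 967221278446 978167147832 := (Half.stab s2_t2 s458_t1 (by decide +kernel) : Stab 7 967221278446 978167147832)

theorem p7_148 : Stab 7 978165892162 994636377336 := (Half.stab s45_t2 s458_t1 (by decide +kernel) : Stab 7 978165892162 994636377336)

theorem p7_149 : Stab 7 994635782685 996205740354 := (Half.stab s171_t0 s458_t1 (by decide +kernel) : Stab 7 994635782685 996205740354)

theorem p7_150 : Stab 7 996204657428 999388018068 := (Half.stab s171_t0 s36_t2 (by decide +kernel) : Stab 7 996204657428 999388018068)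

theorem p7_151 : Stab 7 999387682273 1004783846004 := (Half.stab s447_t0 s36_t2 (by decide +kernel) : Stab 7 999387682273 1004783846004)

theorem p7_152 : Stab 7 1004783491323 1017340884162 := (Half.stab s499_t1 s36_t2 (by decide +kernel) : Stab 7 1004783491323 1017340884162)

theorem p7_153 : Stab 7 1017340801125 1036279019988 := (Half.stab s499_t1 s375_t1 (by decide +kernel) : Stab 7 1017340801125 1036279019988)

theorem p7_154 : Stab 7 1036278604517 1061650059366 := (Half.stab s373_t2 s811_t1 (by decide +kernel) : Stab 7 1036278604517 1061650059366)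

theorem p7_155 : Stab 7 1049475723662 1066193387790 := (Half.stab s334_t2 s811_t1 (by decide +kernel) : Stab 7 1049475723662 1066193387790)

theorem p7_156 : Stab 7 1066190314629 1076450761332 := (Half.stab s334_t2 s19_t1 (by decide +kernel) : Stab 7 1066190314629 1076450761332)

theorem p7_157 : Stab 7 1076449818578 1093535229870 := (Half.stab s763_t2 s19_t1 (by decide +kernel) : Stab 7 1076449818578 1093535229870)

theorem p7_158 : Stab 7 1093463376027 1104757072596 := (Half.stab s763_t2 s319_t3 (by decide +kernel) : Stab 7 1093463376027 1104757072596)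

theorem p7_159 : Stab 7 1098206520666 1110430336470 := (Half.stab s5_t3 s319_t3 (by decide +kernel) : Stab 7 1098206520666 1110430336470)

theorem p7_160 : Stab 7 1108827770990 1140385665876 := (Half.stab s5_t3 s817_t1 (by decide +kernel) : Stab 7 1108827770990 1140385665876)

theorem p7_161 : Stab 7 1140385565738 1161148524198 := (Half.stab s136_t3 s396_t1 (by decide +kernel) : Stab 7 1140385565738 1161148524198)

theorem p7_162 : Stab 7 1158388238993 1162228783470 := (Half.stab s831_t2 s396_t1 (by decide +kernel) : Stab 7 1158388238993 1162228783470)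

theorem p7_163 : Stab 7 1162227924497 1180261854702 := (Half.stab s639_t1 s149_t2 (by decide +kernel) : Stab 7 1162227924497 1180261854702)

theorem p7_164 : Stab 7 1180261252970 1187162964510 := (Half.stab s639_t1 s795_t1 (by decide +kernel) : Stab 7 1180261252970 1187162964510)

theorem p7_165 : Stab 7 1187160272833 1202728544004 := (Half.stab s479_t1 s714_t4 (by decide +kernel) : Stab 7 1187160272833 1202728544004)

theorem p7_166 : Stab 7 1202727762896 1204781766750 := (Half.stab s479_t1 s123_t2 (by decide +kernel) : Stab 7 1202727762896 1204781766750)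

theorem p7_167 : Stab 7 1204781595177 1219417740900 := (Half.stab s23_t3 s123_t2 (by decide +kernel) : Stab 7 1204781595177 1219417740900)

theorem p7_168 : Stab 7 1216669754132 1223461415418 := (Half.stab s23_t3 s789_t3 (by decide +kernel) : Stab 7 1216669754132 1223461415418)

theorem p7_169 : Stab 7 1223461303658 1239318717858 := (Half.stab s750_t1 s789_t3 (by decide +kernel) : Stab 7 1223461303658 1239318717858)

theorem p7_170 : Stab 7 1239315792406 1251352954110 := (Half.stab s750_t1 s568_t3 (by decide +kernel) : Stab 7 1239315792406 1251352954110)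

theorem p7_171 : Stab 7 1241870866683 1260758423736 := (Half.stab s787_t1 s568_t3 (by decide +kernel) : Stab 7 1241870866683 1260758423736)

theorem p7_172 : Stab 7 1260758027243 1280630331288 := (Half.stab s753_t2 s124_t3 (by decide +kernel) : Stab 7 1260758027243 1280630331288)

theorem p7_173 : Stab 7 1280626673422 1291364545122 := (Half.stab s125_t2 s124_t3 (by decide +kernel) : Stab 7 1280626673422 1291364545122)

theorem p7_174 : Stab 7 1291364466382 1312298768760 := (Half.stab s125_t2 s685_t1 (by decide +kernel) : Stab 7 1291364466382 1312298768760)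

theorem p7_175 : Stab 7 1312295124398 1332020488110 := (Half.stab s445_t2 s685_t1 (by decide +kernel) : Stab 7 1312295124398 1332020488110)

theorem p7_176 : Stab 7 1332013386542 1358088725316 := (Half.stab s724_t1 s644_t4 (by decide +kernel) : Stab 7 1332013386542 1358088725316)

theorem p7_177 : Stab 7 1358088397678 1375080861600 := (Half.stab s1_t3 s153_t5 (by decide +kernel) : Stab 7 1358088397678 1375080861600)

theorem p7_178 : Stab 7 1367031480891 1405199083044 := (Half.stab s770_t2 s153_t5 (by decide +kernel) : Stab 7 1367031480891 1405199083044)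

theorem p7_179 : Stab 7 1403626474015 1418954889240 := (Half.stab s770_t2 s733_t4 (by decide +kernel) : Stab 7 1403626474015 1418954889240)

theorem p7_180 : Stab 7 1418951144750 1444875258180 := (Half.stab s74_t2 s733_t4 (by decide +kernel) : Stab 7 1418951144750 1444875258180)

theorem p7_181 : Stab 7 1435912971404 1486771296024 := (Half.stab s74_t2 s436_t7 (by decide +kernel) : Stab 7 1435912971404 1486771296024)

theorem p7_182 : Stab 7 1473551688869 1513530660132 := (Half.stab s511_t1 s436_t7 (by decide +kernel) : Stab 7 1473551688869 1513530660132)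

theorem p7_183 : Stab 7 1501593449607 1526146708482 := (Half.stab s511_t1 s743_t2 (by decide +kernel) : Stab 7 1501593449607 1526146708482)

theorem p7_184 : Stab 7 1513963795247 1536269356830 := (Half.stab s511_t1 s315_t4 (by decide +kernel) : Stab 7 1513963795247 1536269356830)

theorem p7_185 : Stab 7 1531722923676 1557512875242 := (Half.stab s53_t5 s315_t4 (by decide +kernel) : Stab 7 1531722923676 1557512875242)

theorem p7_186 : Stab 7 1553789742940 1612498872042 := (Half.stab s524_t4 s142_t5 (by decide +kernel) : Stab 7 1553789742940 1612498872042)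

theorem p7_187 : Stab 7 1598751351484 1617531840000 := (Half.stab s524_t4 s131_t3 (by decide +kernel) : Stab 7 1598751351484 1617531840000)

theorem p7_188 : Stab 7 1617531594094 1645547159550 := (Half.stab s122_t1 s131_t3 (by decide +kernel) : Stab 7 1617531594094 1645547159550)

theorem p7_189 : Stab 7 1637976214676 1678313441112 := (Half.stab s726_t2 s509_t2 (by decide +kernel) : Stab 7 1637976214676 1678313441112)

theorem p7_190 : Stab 7 1678313096534 1712338774560 := (Half.stab s779_t2 s869_t3 (by decide +kernel) : Stab 7 1678313096534 1712338774560)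

theorem p7_191 : Stab 7 1712337725450 1754677323360 := (Half.stab s716_t2 s869_t3 (by decide +kernel) : Stab 7 1712337725450 1754677323360)

theorem p7_192 : Stab 7 1754676991477 1785579406410 := (Half.stab s828_t1 s253_t2 (by decide +kernel) : Stab 7 1754676991477 1785579406410)

theorem p7_193 : Stab 7 1773150889649 1796209671480 := (Half.stab s828_t1 s146_t3 (by decide +kernel) : Stab 7 1773150889649 1796209671480)

theorem p7_194 : Stab 7 1796203598907 1817883604824 := (Half.stab s349_t1 s146_t3 (by decide +kernel) : Stab 7 1796203598907 1817883604824)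

theorem p7_195 : Stab 7 1817878424885 1830263124834 := (Half.stab s196_t2 s146_t3 (by decide +kernel) : Stab 7 1817878424885 1830263124834)

theorem p7_196 : Stab 7 1823291732347 1857141360696 := (Half.stab s196_t2 s689_t3 (by decide +kernel) : Stab 7 1823291732347 1857141360696)

theorem p7_197 : Stab 7 1850917670606 1900227646296 := (Half.stab s196_t2 s499_t2 (by decide +kernel) : Stab 7 1850917670606 1900227646296)

theorem p7_198 : Stab 7 1900221125448 1914095922090 := (Half.stab s472_t2 s701_t2 (by decide +kernel) : Stab 7 1900221125448 1914095922090)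

theorem p7_199 : Stab 7 1914095582412 1943549052822 := (Half.stab s472_t2 s259_t1 (by decide +kernel) : Stab 7 1914095582412 1943549052822)

theorem p7_200 : Stab 7 1943546232407 2003522476830 := (Half.stab s656_t1 s546_t2 (by decide +kernel) : Stab 7 1943546232407 2003522476830)

theorem p7_201 : Stab 7 2003522320915 2048179599414 := (Half.stab s564_t7 s620_t3 (by decide +kernel) : Stab 7 2003522320915 2048179599414)

theorem p7_202 : Stab 7 2048177080945 2056596391752 := (Half.stab s564_t7 s34_t3 (by decide +kernel) : Stab 7 2048177080945 2056596391752)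

theorem p7_203 : Stab 7 2056594370173 2094567484854 := (Half.stab s7_t4 s34_t3 (by decide +kernel) : Stab 7 2056594370173 2094567484854)

theorem p7_204 : Stab 7 2094466549632 2097808579272 := (Half.stab s7_t4 s261_t2 (by decide +kernel) : Stab 7 2094466549632 2097808579272)

theorem p7_205 : Stab 7 2097807154347 2132851904676 := (Half.stab s252_t2 s261_t2 (by decide +kernel) : Stab 7 2097807154347 2132851904676)

theorem p7_206 : Stab 7 2119115315809 2139310198056 := (Half.stab s252_t2 s844_t5 (by decide +kernel) : Stab 7 2119115315809 2139310198056)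

theorem p7_207 : Stab 7 2139309762199 2170466642556 := (Half.stab s429_t2 s844_t5 (by decide +kernel) : Stab 7 2139309762199 2170466642556)

theorem p7_208 : Stab 7 2170464778780 2200868226108 := (Half.stab s200_t2 s844_t5 (by decide +kernel) : Stab 7 2170464778780 2200868226108)

theorem p7_209 : Stab 7 2200866864179 2231168465052 := (Half.stab s752_t3 s844_t5 (by decide +kernel) : Stab 7 2200866864179 2231168465052)

theorem p7_210 : Stab 7 2231167654862 2273512201308 := (Half.stab s59_t3 s380_t3 (by decide +kernel) : Stab 7 2231167654862 2273512201308)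

theorem p7_211 : Stab 7 2273511897823 2309075477730 := (Half.stab s801_t2 s380_t3 (by decide +kernel) : Stab 7 2273511897823 2309075477730)

theorem p7_212 : Stab 7 2309070952082 2326408925178 := (Half.stab s801_t2 s33_t3 (by decide +kernel) : Stab 7 2309070952082 2326408925178)

theorem p7_213 : Stab 7 2326408574189 2368296291816 := (Half.stab s762_t3 s33_t3 (by decide +kernel) : Stab 7 2326408574189 2368296291816)

theorem p7_214 : Stab 7 2368295851201 2401945986198 := (Half.stab s634_t3 s33_t3 (by decide +kernel) : Stab 7 2368295851201 2401945986198)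

theorem p7_215 : Stab 7 2401944693205 2430332203320 := (Half.stab s376_t1 s241_t2 (by decide +kernel) : Stab 7 2401944693205 2430332203320)

theorem p7_216 : Stab 7 2430331289445 2495289488406 := (Half.stab s404_t4 s241_t2 (by decide +kernel) : Stab 7 2430331289445 2495289488406)

theorem p7_217 : Stab 7 2495289209706 2511268586010 := (Half.stab s404_t4 s671_t5 (by decide +kernel) : Stab 7 2495289209706 2511268586010)

theorem p7_218 : Stab 7 2495799735086 2588524626660 := (Half.stab s153_t7 s671_t5 (by decide +kernel) : Stab 7 2495799735086 2588524626660)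

theorem p7_219 : Stab 7 2587347544142 2608143715800 := (Half.stab s805_t1 s671_t5 (by decide +kernel) : Stab 7 2587347544142 2608143715800)

theorem p7_220 : Stab 7 2594529196161 2627146800720 := (Half.stab s11_t3 s671_t5 (by decide +kernel) : Stab 7 2594529196161 2627146800720)

theorem p7_221 : Stab 7 2627146541604 2674028335242 := (Half.stab s11_t3 s72_t2 (by decide +kernel) : Stab 7 2627146541604 2674028335242)

theorem p7_222 : Stab 7 2674024886236 2788082794980 := (Half.stab s436_t11 s871_t2 (by decide +kernel) : Stab 7 2674024886236 2788082794980)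

theorem p7_223 : Stab 7 2778245116043 2795316766986 := (Half.stab s674_t3 s871_t2 (by decide +kernel) : Stab 7 2778245116043 2795316766986)

theorem p7_224 : Stab 7 2795313151417 2842860269574 := (Half.stab s674_t3 s840_t4 (by decide +kernel) : Stab 7 2795313151417 2842860269574)

theorem p7_225 : Stab 7 2842859608443 2895111232434 := (Half.stab s162_t1 s840_t4 (by decide +kernel) : Stab 7 2842859608443 2895111232434)

theorem p7_226 : Stab 7 2883212593213 2956402976106 := (Half.stab s529_t5 s840_t4 (by decide +kernel) : Stab 7 2883212593213 2956402976106)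

theorem p7_227 : Stab 7 2926345475166 2982153959280 := (Half.stab s529_t5 s682_t2 (by decide +kernel) : Stab 7 2926345475166 2982153959280)

theorem p7_228 : Stab 7 2982153125990 3004542136476 := (Half.stab s529_t5 s622_t10 (by decide +kernel) : Stab 7 2982153125990 3004542136476)

theorem p7_229 : Stab 7 3000048764427 3025422986508 := (Stab.scale s717_t0 (by decide +kernel) : Stab 7 (81 * 37037639067) (81 * 37350901068))

theorem p7_230 : Stab 7 3025421073389 3093184194414 := (Half.stab s461_t3 s622_t10 (by decide +kernel) : Stab 7 3025421073389 3093184194414)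

theorem p7_231 : Stab 7 3081839910836 3128779620306 := (Half.stab s461_t3 s195_t11 (by decide +kernel) : Stab 7 3081839910836 3128779620306)

theorem p7_232 : Stab 7 3122609489692 3220789205970 := (Half.stab s329_t2 s195_t11 (by decide +kernel) : Stab 7 3122609489692 3220789205970)

theorem p7_233 : Stab 7 3220780571130 3261802902030 := (Half.stab s879_t2 s195_t11 (by decide +kernel) : Stab 7 3220780571130 3261802902030)

theorem p7_234 : Stab 7 3228830302146 3264742386024 := (Half.stab s879_t2 s480_t1 (by decide +kernel) : Stab 7 3228830302146 3264742386024)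

theorem p7_235 : Stab 7 3264741850059 3350746293228 := (Stab.scale s110_t0 (by decide +kernel) : Stab 7 (81 * 40305454939) (81 * 41367238188))

theorem p7_236 : Stab 7 3350744842113 3432765371724 := (Stab.scale s18_t0 (by decide +kernel) : Stab 7 (81 * 41367220273) (81 * 42379819404))

theorem p7_237 : Stab 7 3432764951251 3478316018502 := (Half.stab s616_t1 s304_t2 (by decide +kernel) : Stab 7 3432764951251 3478316018502)

theorem p7_238 : Stab 7 3478307912509 3520318844406 := (Half.stab s198_t1 s357_t1 (by decide +kernel) : Stab 7 3478307912509 3520318844406)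

theorem p7_239 : Stab 7 3520312648882 3578116467930 := (Half.stab s198_t1 s60_t2 (by decide +kernel) : Stab 7 3520312648882 3578116467930)

theorem p7_240 : Stab 7 3578111775867 3623968874838 := (Half.stab s794_t5 s60_t2 (by decide +kernel) : Stab 7 3578111775867 3623968874838)

theorem p7_241 : Stab 7 3622328673208 3716715461040 := (Half.stab s794_t5 s786_t2 (by decide +kernel) : Stab 7 3622328673208 3716715461040)

theorem p7_242 : Stab 7 3716715143507 3765778819482 := (Half.stab s794_t5 s745_t4 (by decide +kernel) : Stab 7 3716715143507 3765778819482)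

theorem p7_243 : Stab 7 3747416481114 3785066287830 := (Half.stab s715_t6 s745_t4 (by decide +kernel) : Stab 7 3747416481114 3785066287830)

theorem p7_244 : Stab 7 3785065235182 3860128498320 := (Half.stab s715_t6 s612_t2 (by decide +kernel) : Stab 7 3785065235182 3860128498320)

theorem p7_245 : Stab 7 3860127675605 3883740595938 := (Half.stab s715_t6 s425_t1 (by decide +kernel) : Stab 7 3860127675605 3883740595938)

theorem p7_246 : Stab 7 3881514767562 3907415113710 := (Half.stab s715_t6 s534_t1 (by decide +kernel) : Stab 7 3881514767562 3907415113710)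

theorem p7_247 : Stab 7 3905759000770 3946563280026 := (Half.stab s715_t6 s118_t1 (by decide +kernel) : Stab 7 3905759000770 3946563280026)

theorem p7_248 : Stab 7 3946559609522 3967147490358 := (Half.stab s229_t2 s118_t1 (by decide +kernel) : Stab 7 3946559609522 3967147490358)

theorem p7_249 : Stab 7 3967145659710 4036150394172 := (Stab.scale s797_t0 (by decide +kernel) : Stab 7 (81 * 48977106910) (81 * 49829017212))

theorem p7_250 : Stab 7 4024536957653 4160782623306 := (Half.stab s313_t10 s271_t4 (by decide +kernel) : Stab 7 4024536957653 4160782623306)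

theorem p7_251 : Stab 7 4160777375746 4217059501662 := (Half.stab s313_t10 s587_t4 (by decide +kernel) : Stab 7 4160777375746 4217059501662)

theorem p7_252 : Stab 7 4179873375893 4359818469354 := (Half.stab s249_t16 s587_t4 (by decide +kernel) : Stab 7 4179873375893 4359818469354)

theorem p7_253 : Stab 7 4348463443036 4474083706002 := (Half.stab s848_t1 s820_t4 (by decide +kernel) : Stab 7 4348463443036 4474083706002)

theorem p7_254 : Stab 7 4474083207717 4589079561468 := (Stab.scale s334_t0 (by decide +kernel) : Stab 7 (81 * 55235595157) (81 * 56655303228))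

theorem p7_255 : Stab 7 4589078188194 4709753835804 := (Stab.scale s763_t0 (by decide +kernel) : Stab 7 (81 * 56655286274) (81 * 58145109084))

theorem p7_256 : Stab 7 4681829507976 4861644154524 := (Stab.scale s5_t0 (by decide +kernel) : Stab 7 (81 * 57800364296) (81 * 60020298204))

theorem p7_257 : Stab 7 4861642541652 4877847207900 := (Stab.scale s514_t0 (by decide +kernel) : Stab 7 (81 * 60020278292) (81 * 60220335900))

theorem p7_258 : Stab 7 4877845893837 4938394923036 := (Stab.scale s150_t0 (by decide +kernel) : Stab 7 (81 * 60220319677) (81 * 60967838556))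

theorem p7_259 : Stab 7 4938393516876 5006858497308 := (Stab.scale s831_t0 (by decide +kernel) : Stab 7 (81 * 60967821196) (81 * 61813067868))

theorem p7_260 : Stab 7 5006856739689 5086131185916 := (Stab.scale s819_t0 (by decide +kernel) : Stab 7 (81 * 61813046169) (81 * 62791743036))

theorem p7_261 : Stab 7 5042755561905 5127421687596 := (Stab.scale s714_t0 (by decide +kernel) : Stab 7 (81 * 62256241505) (81 * 63301502316))

theorem p7_262 : Stab 7 5127420163419 5221028363004 := (Stab.scale s50_t0 (by decide +kernel) : Stab 7 (81 * 63301483499) (81 * 64457140284))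

theorem p7_263 : Stab 7 5221027034442 5328386598924 := (Stab.scale s90_t0 (by decide +kernel) : Stab 7 (81 * 64457123882) (81 * 65782550604))

theorem p7_264 : Stab 7 5328385164657 5414569997580 := (Stab.scale s199_t0 (by decide +kernel) : Stab 7 (81 * 65782532897) (81 * 66846543180))

theorem p7_265 : Stab 7 5414568351498 5517467099532 := (Stab.scale s331_t0 (by decide +kernel) : Stab 7 (81 * 66846522858) (81 * 68116877772))

theorem p7_266 : Stab 7 5517465280920 5582178030636 := (Stab.scale s551_t0 (by decide +kernel) : Stab 7 (81 * 68116855320) (81 * 68915778156))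

theorem p7_267 : Stab 7 5582176346241 5649603221196 := (Stab.scale s686_t0 (by decide +kernel) : Stab 7 (81 * 68915757361) (81 * 69748187916))

theorem p7_268 : Stab 7 5649599952522 5789746671084 := (Stab.scale s644_t0 (by decide +kernel) : Stab 7 (81 * 69748147562) (81 * 71478353964))

theorem p7_269 : Stab 7 5775994571436 5990585564556 := (Stab.scale s153_t0 (by decide +kernel) : Stab 7 (81 * 71308574956) (81 * 73957846476))

theorem p7_270 : Stab 7 5983884690597 6159731363820 := (Stab.scale s733_t0 (by decide +kernel) : Stab 7 (81 * 73875119637) (81 * 76046066220))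

theorem p7_271 : Stab 7 6121526291865 6452420182668 := (Stab.scale s436_t0 (by decide +kernel) : Stab 7 (81 * 75574398665) (81 * 79659508428))

theorem p7_272 : Stab 7 6452417015082 6551760697740 := (Stab.scale s533_t0 (by decide +kernel) : Stab 7 (81 * 79659469322) (81 * 80885934540))

theorem p7_273 : Stab 7 6530268187062 6647151098124 := (Stab.scale s183_t0 (by decide +kernel) : Stab 7 (81 * 80620594902) (81 * 82063593804))

theorem p7_274 : Stab 7 6647149309158 6677702193420 := (Stab.scale s696_t0 (by decide +kernel) : Stab 7 (81 * 82063571718) (81 * 82440767820))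

theorem p7_275 : Stab 7 6677700854085 6757306610076 := (Stab.scale s158_t0 (by decide +kernel) : Stab 7 (81 * 82440751285) (81 * 83423538396))

theorem p7_276 : Stab 7 6757304940261 6800664225276 := (Stab.scale s541_t0 (by decide +kernel) : Stab 7 (81 * 83423517781) (81 * 83958817596))

theorem p7_277 : Stab 7 6800662590534 6872295609756 := (Stab.scale s860_t0 (by decide +kernel) : Stab 7 (81 * 83958797414) (81 * 84843155676))

theorem p7_278 : Stab 7 6872294327607 6949474198236 := (Stab.scale s756_t0 (by decide +kernel) : Stab 7 (81 * 84843139847) (81 * 85795977756))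

theorem p7_279 : Stab 7 6934853641819 7113815965542 := (Half.stab s51_t1 s456_t8 (by decide +kernel) : Stab 7 6934853641819 7113815965542)

theorem p7_280 : Stab 7 7113806586251 7183536464220 := (Half.stab s101_t2 s456_t8 (by decide +kernel) : Stab 7 7113806586251 7183536464220)

theorem p7_281 : Stab 7 7162870943556 7292713066470 := (Half.stab s101_t2 s135_t9 (by decide +kernel) : Stab 7 7162870943556 7292713066470)

theorem p7_282 : Stab 7 7238360729294 7484868133884 := (Half.stab s474_t8 s135_t9 (by decide +kernel) : Stab 7 7238360729294 7484868133884)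

theorem p7_283 : Stab 7 7332444610936 7539343664334 := (Half.stab s474_t8 s540_t2 (by decide +kernel) : Stab 7 7332444610936 7539343664334)

theorem p7_284 : Stab 7 7539342939576 7668181464732 := (Stab.scale s433_t0 (by decide +kernel) : Stab 7 (81 * 93078307896) (81 * 94668906972))

theorem p7_285 : Stab 7 7668178505721 7785514352988 := (Stab.scale s537_t0 (by decide +kernel) : Stab 7 (81 * 94668870441) (81 * 96117461148))

theorem p7_286 : Stab 7 7785511094358 7853015546172 := (Stab.scale s321_t0 (by decide +kernel) : Stab 7 (81 * 96117420918) (81 * 96950809212))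

theorem p7_287 : Stab 7 7853014507582 8084238259254 := (Half.stab s60_t4 s671_t10 (by decide +kernel) : Stab 7 7853014507582 8084238259254)

theorem p7_288 : Stab 7 8042402011568 8231726642256 := (Half.stab s536_t1 s671_t10 (by decide +kernel) : Stab 7 8042402011568 8231726642256)

theorem p7_289 : Stab 7 8205342032456 8294203229748 := (Half.stab s536_t1 s817_t4 (by decide +kernel) : Stab 7 8205342032456 8294203229748)

theorem p7_290 : Stab 7 8294202064932 8451942209166 := (Half.stab s121_t3 s817_t4 (by decide +kernel) : Stab 7 8294202064932 8451942209166)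

theorem p7_291 : Stab 7 8451941546808 8611079718636 := (Stab.scale s841_t0 (by decide +kernel) : Stab 7 (81 * 104344957368) (81 * 106309626156))

theorem p7_292 : Stab 7 8611076495484 8733613436748 := (Stab.scale s222_t0 (by decide +kernel) : Stab 7 (81 * 106309586364) (81 * 107822388108))

theorem p7_293 : Stab 7 8673934628714 8915385038244 := (Half.stab s798_t6 s329_t5 (by decide +kernel) : Stab 7 8673934628714 8915385038244)

theorem p7_294 : Stab 7 8915382462921 8946636683250 := (Half.stab s451_t1 s329_t5 (by decide +kernel) : Stab 7 8915382462921 8946636683250)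

theorem p7_295 : Stab 7 8929045467387 9092684435724 := (Stab.scale s261_t0 (by decide +kernel) : Stab 7 (81 * 110235129227) (81 * 112255363404))

theorem p7_296 : Stab 7 9042454015315 9227482309650 := (Half.stab s95_t6 s879_t3 (by decide +kernel) : Stab 7 9042454015315 9227482309650)

theorem p7_297 : Stab 7 9227481445782 9326676274092 := (Stab.scale s643_t0 (by decide +kernel) : Stab 7 (81 * 113919524022) (81 * 115144151532))

theorem p7_298 : Stab 7 9326673073620 9505147208076 := (Stab.scale s165_t0 (by decide +kernel) : Stab 7 (81 * 115144112020) (81 * 117347496396))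

theorem p7_299 : Stab 7 9462779415314 9674933786364 := (Half.stab s495_t5 s87_t6 (by decide +kernel) : Stab 7 9462779415314 9674933786364)

theorem p7_300 : Stab 7 9674932279995 9793023841548 := (Stab.scale s318_t0 (by decide +kernel) : Stab 7 (81 * 119443608395) (81 * 120901528908))

theorem p7_301 : Stab 7 9793022131557 9925808162796 := (Stab.scale s788_t0 (by decide +kernel) : Stab 7 (81 * 120901507797) (81 * 122540841516))

theorem p7_302 : Stab 7 9925806872142 10147715047404 := (Stab.scale s855_t0 (by decide +kernel) : Stab 7 (81 * 122540825582) (81 * 125280432684))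

theorem p7_303 : Stab 7 10102755868209 10389528880812 := (Stab.scale s781_t0 (by decide +kernel) : Stab 7 (81 * 124725381089) (81 * 128265788652))

theorem p7_304 : Stab 7 10389525124680 10493975416860 := (Stab.scale s381_t0 (by decide +kernel) : Stab 7 (81 * 128265742280) (81 * 129555252060))

theorem p7_305 : Stab 7 10478805705999 10778301314892 := (Stab.scale s798_t0 (by decide +kernel) : Stab 7 (81 * 129367971679) (81 * 133065448332))

theorem p7_306 : Stab 7 10740361901067 10982328150636 := (Stab.scale s420_t0 (by decide +kernel) : Stab 7 (81 * 132597060507) (81 * 135584298156))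

theorem p7_307 : Stab 7 10982325196809 11176386045516 := (Stab.scale s545_t0 (by decide +kernel) : Stab 7 (81 * 135584261689) (81 * 137980074636))

theorem p7_308 : Stab 7 11176382794824 11324406202380 := (Stab.scale s175_t0 (by decide +kernel) : Stab 7 (81 * 137980034504) (81 * 139807483980))

theorem p7_309 : Stab 7 11305763569377 11759818326300 := (Stab.scale s535_t0 (by decide +kernel) : Stab 7 (81 * 139577328017) (81 * 145182942300))

theorem p7_310 : Stab 7 11759813142867 11854941434460 := (Stab.scale s650_t0 (by decide +kernel) : Stab 7 (81 * 145182878307) (81 * 146357301660))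

theorem p7_311 : Stab 7 11854937180097 12169786931100 := (Stab.scale s562_t0 (by decide +kernel) : Stab 7 (81 * 146357249137) (81 * 150244283100))

theorem p7_312 : Stab 7 12169785177693 12424533061212 := (Stab.scale s773_t0 (by decide +kernel) : Stab 7 (81 * 150244261453) (81 * 153389297052))

theorem p7_313 : Stab 7 12424530248244 12911708559132 := (Stab.scale s676_t0 (by decide +kernel) : Stab 7 (81 * 153389262324) (81 * 159403809372))

theorem p7_314 : Stab 7 12911705037333 13162420251612 := (Stab.scale s830_t0 (by decide +kernel) : Stab 7 (81 * 159403765893) (81 * 162499015452))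

theorem p7_315 : Stab 7 13162418917947 13277984881356 := (Stab.scale s575_t0 (by decide +kernel) : Stab 7 (81 * 162498998987) (81 * 163925739276))

theorem p7_316 : Stab 7 13277978609769 13505445840060 := (Stab.scale s759_t0 (by decide +kernel) : Stab 7 (81 * 163925661849) (81 * 166733899260))

theorem p7_317 : Stab 7 13505441375502 13664451556476 := (Stab.scale s485_t0 (by decide +kernel) : Stab 7 (81 * 166733844142) (81 * 168696932796))

theorem p7_318 : Stab 7 13664446833366 13839941961324 := (Stab.scale s767_t0 (by decide +kernel) : Stab 7 (81 * 168696874486) (81 * 170863481004))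

theorem p7_319 : Stab 7 13839937775973 14146931299068 := (Stab.scale s842_t0 (by decide +kernel) : Stab 7 (81 * 170863429333) (81 * 174653472828))

theorem p7_320 : Stab 7 14146927374942 14439295668204 := (Stab.scale s749_t0 (by decide +kernel) : Stab 7 (81 * 174653424382) (81 * 178262909484))

theorem p7_321 : Stab 7 14439289363407 14553505267740 := (Stab.scale s197_t0 (by decide +kernel) : Stab 7 (81 * 178262831647) (81 * 179672904540))

theorem p7_322 : Stab 7 14553501546681 14836369192236 := (Stab.scale s14_t0 (by decide +kernel) : Stab 7 (81 * 179672858601) (81 * 183165051756))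

def Ls7 : List (ℕ × ℕ) := [(177049530388, 181812669978), (181812648318, 185908622106), (185908587619, 189717334266), (189717312795, 192267238266), (192267214317, 198316024794), (198315981749, 200889559818), (200889522277, 204169109946), (204169052678, 210477439290), (210477419317, 221516401146), (220436506951, 232150781178), (232150735703, 236193978906), (236193960278, 244751919018), (244751897496, 256459909962), (256459873696, 260585618058), (260585595260, 264068778954), (264068759082, 267815760234), (267815744282, 274489458762), (274489420842, 286986996138), (286986975849, 299371090026), (299371050009, 310264851306), (310264814547, 312371590842), (312371573089, 317251314714), (317251264387, 323289649098), (323289633204, 329749111770), (329749092802, 339786391770), (339786371689, 343183120698), (343183096155, 345432051642), (345112806658, 349801415514), (349801396661, 355431877914), (355431861599, 359431334682), (359431313793, 363694930104), (363694890277, 366822242874), (366822204645, 369424884750), (369424160344, 372246796350), (372246750595, 377594442330), (377594421300, 383831114346),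 (383831056955, 389989481082), (389989450515, 396410900154), (396410863466, 402100965978), (402100919370, 408588989754), (408588947320, 413068644990), (413068604713, 420982251930), (420982203652, 432869983770), (432869941166, 437781314430), (437781258700, 451768503546), (451768460230, 467306230266), (467306186572, 472023710202), (472023647842, 477950415096), (473467303836, 480519473634), (479285102829, 482147887230), (482146143525, 487898606466), (487898450165, 497132504568), (493526481672, 498307926510), (498305479740, 504343320750), (503323918958, 511986789360), (509297370331, 515603490498), (515603345941, 522007404066), (522006844682, 531868870242), (531868100851, 539087686146), (539086141699, 543856605630), (543854421166, 551420616546), (551419638169, 566466877602), (566466126602, 581998679010), (580228995547, 585817554750), (585817470026, 588297869280), (588297592595, 595618960320), (595618681249, 602036807040), (602036459786, 607613469120), (607327861134, 612808171752), (609767074702, 616700098872), (613611971186, 624057682950), (619057715440, 631025874738), (631025494344, 632393718990),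 (632391855265, 635721168966), (635720474387, 643210318080), (643209370318, 650161006830), (650159907896, 663039091950), (663036030803, 678288156990), (678285115617, 695835661470), (695835579067, 703714944996), (703243256289, 710353346136), (707367060601, 732494264430), (728962440513, 746959151736), (740977318325, 762882066450), (762880933950, 768885098670), (765803021255, 785977525572), (785976632456, 805216568676), (793659172600, 817846649256), (817846324996, 834289994610), (834289100451, 847677189576), (847674562990, 850669545906), (850668595910, 861014784840), (860683711074, 868103176920), (868101894152, 886314880110), (886314719816, 895452708696), (895452556155, 906068195928), (901839399923, 918541882590), (918539211708, 925831449480), (925830410568, 934029468030), (934029374436, 946751327028), (946750962998, 964157127924), (958621124206, 967221425250), (967221278446, 978167147832), (978165892162, 994636377336), (994635782685, 996205740354), (996204657428, 999388018068), (999387682273, 1004783846004), (1004783491323, 1017340884162), (1017340801125, 1036279019988), (1036278604517, 1061650059366),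 (1049475723662, 1066193387790), (1066190314629, 1076450761332), (1076449818578, 1093535229870), (1093463376027, 1104757072596), (1098206520666, 1110430336470), (1108827770990, 1140385665876), (1140385565738, 1161148524198), (1158388238993, 1162228783470), (1162227924497, 1180261854702), (1180261252970, 1187162964510), (1187160272833, 1202728544004), (1202727762896, 1204781766750), (1204781595177, 1219417740900), (1216669754132, 1223461415418), (1223461303658, 1239318717858), (1239315792406, 1251352954110), (1241870866683, 1260758423736), (1260758027243, 1280630331288), (1280626673422, 1291364545122), (1291364466382, 1312298768760), (1312295124398, 1332020488110), (1332013386542, 1358088725316), (1358088397678, 1375080861600), (1367031480891, 1405199083044), (1403626474015, 1418954889240), (1418951144750, 1444875258180), (1435912971404, 1486771296024), (1473551688869, 1513530660132), (1501593449607, 1526146708482), (1513963795247, 1536269356830), (1531722923676, 1557512875242), (1553789742940, 1612498872042), (1598751351484, 1617531840000), (1617531594094, 1645547159550), (1637976214676, 1678313441112),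 (1678313096534, 1712338774560), (1712337725450, 1754677323360), (1754676991477, 1785579406410), (1773150889649, 1796209671480), (1796203598907, 1817883604824), (1817878424885, 1830263124834), (1823291732347, 1857141360696), (1850917670606, 1900227646296), (1900221125448, 1914095922090), (1914095582412, 1943549052822), (1943546232407, 2003522476830), (2003522320915, 2048179599414), (2048177080945, 2056596391752), (2056594370173, 2094567484854), (2094466549632, 2097808579272), (2097807154347, 2132851904676), (2119115315809, 2139310198056), (2139309762199, 2170466642556), (2170464778780, 2200868226108), (2200866864179, 2231168465052), (2231167654862, 2273512201308), (2273511897823, 2309075477730), (2309070952082, 2326408925178), (2326408574189, 2368296291816), (2368295851201, 2401945986198), (2401944693205, 2430332203320), (2430331289445, 2495289488406), (2495289209706, 2511268586010), (2495799735086, 2588524626660), (2587347544142, 2608143715800), (2594529196161, 2627146800720), (2627146541604, 2674028335242), (2674024886236, 2788082794980), (2778245116043, 2795316766986), (2795313151417, 2842860269574),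 (2842859608443, 2895111232434), (2883212593213, 2956402976106), (2926345475166, 2982153959280), (2982153125990, 3004542136476), (3000048764427, 3025422986508), (3025421073389, 3093184194414), (3081839910836, 3128779620306), (3122609489692, 3220789205970), (3220780571130, 3261802902030), (3228830302146, 3264742386024), (3264741850059, 3350746293228), (3350744842113, 3432765371724), (3432764951251, 3478316018502), (3478307912509, 3520318844406), (3520312648882, 3578116467930), (3578111775867, 3623968874838), (3622328673208, 3716715461040), (3716715143507, 3765778819482), (3747416481114, 3785066287830), (3785065235182, 3860128498320), (3860127675605, 3883740595938), (3881514767562, 3907415113710), (3905759000770, 3946563280026), (3946559609522, 3967147490358), (3967145659710, 4036150394172), (4024536957653, 4160782623306), (4160777375746, 4217059501662), (4179873375893, 4359818469354), (4348463443036, 4474083706002), (4474083207717, 4589079561468), (4589078188194, 4709753835804), (4681829507976, 4861644154524), (4861642541652, 4877847207900), (4877845893837, 4938394923036), (4938393516876, 5006858497308),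 (5006856739689, 5086131185916), (5042755561905, 5127421687596), (5127420163419, 5221028363004), (5221027034442, 5328386598924), (5328385164657, 5414569997580), (5414568351498, 5517467099532), (5517465280920, 5582178030636), (5582176346241, 5649603221196), (5649599952522, 5789746671084), (5775994571436, 5990585564556), (5983884690597, 6159731363820), (6121526291865, 6452420182668), (6452417015082, 6551760697740), (6530268187062, 6647151098124), (6647149309158, 6677702193420), (6677700854085, 6757306610076), (6757304940261, 6800664225276), (6800662590534, 6872295609756), (6872294327607, 6949474198236), (6934853641819, 7113815965542), (7113806586251, 7183536464220), (7162870943556, 7292713066470), (7238360729294, 7484868133884), (7332444610936, 7539343664334), (7539342939576, 7668181464732), (7668178505721, 7785514352988), (7785511094358, 7853015546172), (7853014507582, 8084238259254), (8042402011568, 8231726642256), (8205342032456, 8294203229748), (8294202064932, 8451942209166), (8451941546808, 8611079718636), (8611076495484, 8733613436748), (8673934628714, 8915385038244), (8915382462921, 8946636683250),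 (8929045467387, 9092684435724), (9042454015315, 9227482309650), (9227481445782, 9326676274092), (9326673073620, 9505147208076), (9462779415314, 9674933786364), (9674932279995, 9793023841548), (9793022131557, 9925808162796), (9925806872142, 10147715047404), (10102755868209, 10389528880812), (10389525124680, 10493975416860), (10478805705999, 10778301314892), (10740361901067, 10982328150636), (10982325196809, 11176386045516), (11176382794824, 11324406202380), (11305763569377, 11759818326300), (11759813142867, 11854941434460), (11854937180097, 12169786931100), (12169785177693, 12424533061212), (12424530248244, 12911708559132), (12911705037333, 13162420251612), (13162418917947, 13277984881356), (13277978609769, 13505445840060), (13505441375502, 13664451556476), (13664446833366, 13839941961324), (13839937775973, 14146931299068), (14146927374942, 14439295668204), (14439289363407, 14553505267740), (14553501546681, 14836369192236)]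

theorem Ls7_spec : ∀ w ∈ Ls7, Stab 7 w.1 w.2 :=
  (sfcons (a := ((177049530388 : ℕ), (181812669978 : ℕ))) p7_45 (sfcons (a := ((181812648318 : ℕ), (185908622106 : ℕ))) p7_46 (sfcons (a := ((185908587619 : ℕ), (189717334266 : ℕ))) p7_47 (sfcons (a := ((189717312795 : ℕ), (192267238266 : ℕ))) p7_48 (sfcons (a := ((192267214317 : ℕ), (198316024794 : ℕ))) p7_49 (sfcons (a := ((198315981749 : ℕ), (200889559818 : ℕ))) p7_50 (sfcons (a := ((200889522277 : ℕ), (204169109946 : ℕ))) p7_51 (sfcons (a := ((204169052678 : ℕ), (210477439290 : ℕ))) p7_52 (sfcons (a := ((210477419317 : ℕ), (221516401146 : ℕ))) p7_53 (sfcons (a := ((220436506951 : ℕ), (232150781178 : ℕ))) p7_54 (sfcons (a := ((232150735703 : ℕ), (236193978906 : ℕ))) p7_55 (sfcons (a := ((236193960278 : ℕ), (244751919018 : ℕ))) p7_56 (sfcons (a := ((244751897496 : ℕ), (256459909962 : ℕ))) p7_57 (sfcons (a := ((256459873696 : ℕ), (260585618058 : ℕ))) p7_58 (sfcons (a := ((260585595260 : ℕ), (264068778954 : ℕ))) p7_59 (sfcons (a := ((264068759082 : ℕ), (267815760234 : ℕ))) p7_60 (sfcons (a := ((267815744282 : ℕ), (274489458762 : ℕ))) p7_61 (sfcons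 (a := ((274489420842 : ℕ), (286986996138 : ℕ))) p7_62 (sfcons (a := ((286986975849 : ℕ), (299371090026 : ℕ))) p7_63 (sfcons (a := ((299371050009 : ℕ), (310264851306 : ℕ))) p7_64 (sfcons (a := ((310264814547 : ℕ), (312371590842 : ℕ))) p7_65 (sfcons (a := ((312371573089 : ℕ), (317251314714 : ℕ))) p7_66 (sfcons (a := ((317251264387 : ℕ), (323289649098 : ℕ))) p7_67 (sfcons (a := ((323289633204 : ℕ), (329749111770 : ℕ))) p7_68 (sfcons (a := ((329749092802 : ℕ), (339786391770 : ℕ))) p7_69 (sfcons (a := ((339786371689 : ℕ), (343183120698 : ℕ))) p7_70 (sfcons (a := ((343183096155 : ℕ), (345432051642 : ℕ))) p7_71 (sfcons (a := ((345112806658 : ℕ), (349801415514 : ℕ))) p7_72 (sfcons (a := ((349801396661 : ℕ), (355431877914 : ℕ))) p7_73 (sfcons (a := ((355431861599 : ℕ), (359431334682 : ℕ))) p7_74 (sfcons (a := ((359431313793 : ℕ), (363694930104 : ℕ))) p7_75 (sfcons (a := ((363694890277 : ℕ), (366822242874 : ℕ))) p7_76 (sfcons (a := ((366822204645 : ℕ), (369424884750 : ℕ))) p7_77 (sfcons (a := ((369424160344 : ℕ), (372246796350 : ℕ))) p7_78 (sfcons (a := ((372246750595 : ℕ), (377594442330 : ℕ))) p7_79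 (sfcons (a := ((377594421300 : ℕ), (383831114346 : ℕ))) p7_80 (sfcons (a := ((383831056955 : ℕ), (389989481082 : ℕ))) p7_81 (sfcons (a := ((389989450515 : ℕ), (396410900154 : ℕ))) p7_82 (sfcons (a := ((396410863466 : ℕ), (402100965978 : ℕ))) p7_83 (sfcons (a := ((402100919370 : ℕ), (408588989754 : ℕ))) p7_84 (sfcons (a := ((408588947320 : ℕ), (413068644990 : ℕ))) p7_85 (sfcons (a := ((413068604713 : ℕ), (420982251930 : ℕ))) p7_86 (sfcons (a := ((420982203652 : ℕ), (432869983770 : ℕ))) p7_87 (sfcons (a := ((432869941166 : ℕ), (437781314430 : ℕ))) p7_88 (sfcons (a := ((437781258700 : ℕ), (451768503546 : ℕ))) p7_89 (sfcons (a := ((451768460230 : ℕ), (467306230266 : ℕ))) p7_90 (sfcons (a := ((467306186572 : ℕ), (472023710202 : ℕ))) p7_91 (sfcons (a := ((472023647842 : ℕ), (477950415096 : ℕ))) p7_92 (sfcons (a := ((473467303836 : ℕ), (480519473634 : ℕ))) p7_93 (sfcons (a := ((479285102829 : ℕ), (482147887230 : ℕ))) p7_94 (sfcons (a := ((482146143525 : ℕ), (487898606466 : ℕ))) p7_95 (sfcons (a := ((487898450165 : ℕ), (497132504568 : ℕ))) p7_96 (sfcons (a := ((493526481672 : ℕ), (498307926510 : ℕ)))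 p7_97 (sfcons (a := ((498305479740 : ℕ), (504343320750 : ℕ))) p7_98 (sfcons (a := ((503323918958 : ℕ), (511986789360 : ℕ))) p7_99 (sfcons (a := ((509297370331 : ℕ), (515603490498 : ℕ))) p7_100 (sfcons (a := ((515603345941 : ℕ), (522007404066 : ℕ))) p7_101 (sfcons (a := ((522006844682 : ℕ), (531868870242 : ℕ))) p7_102 (sfcons (a := ((531868100851 : ℕ), (539087686146 : ℕ))) p7_103 (sfcons (a := ((539086141699 : ℕ), (543856605630 : ℕ))) p7_104 (sfcons (a := ((543854421166 : ℕ), (551420616546 : ℕ))) p7_105 (sfcons (a := ((551419638169 : ℕ), (566466877602 : ℕ))) p7_106 (sfcons (a := ((566466126602 : ℕ), (581998679010 : ℕ))) p7_107 (sfcons (a := ((580228995547 : ℕ), (585817554750 : ℕ))) p7_108 (sfcons (a := ((585817470026 : ℕ), (588297869280 : ℕ))) p7_109 (sfcons (a := ((588297592595 : ℕ), (595618960320 : ℕ))) p7_110 (sfcons (a := ((595618681249 : ℕ), (602036807040 : ℕ))) p7_111 (sfcons (a := ((602036459786 : ℕ), (607613469120 : ℕ))) p7_112 (sfcons (a := ((607327861134 : ℕ), (612808171752 : ℕ))) p7_113 (sfcons (a := ((609767074702 : ℕ), (616700098872 : ℕ))) p7_114 (sfcons (a := ((613611971186 :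 ℕ), (624057682950 : ℕ))) p7_115 (sfcons (a := ((619057715440 : ℕ), (631025874738 : ℕ))) p7_116 (sfcons (a := ((631025494344 : ℕ), (632393718990 : ℕ))) p7_117 (sfcons (a := ((632391855265 : ℕ), (635721168966 : ℕ))) p7_118 (sfcons (a := ((635720474387 : ℕ), (643210318080 : ℕ))) p7_119 (sfcons (a := ((643209370318 : ℕ), (650161006830 : ℕ))) p7_120 (sfcons (a := ((650159907896 : ℕ), (663039091950 : ℕ))) p7_121 (sfcons (a := ((663036030803 : ℕ), (678288156990 : ℕ))) p7_122 (sfcons (a := ((678285115617 : ℕ), (695835661470 : ℕ))) p7_123 (sfcons (a := ((695835579067 : ℕ), (703714944996 : ℕ))) p7_124 (sfcons (a := ((703243256289 : ℕ), (710353346136 : ℕ))) p7_125 (sfcons (a := ((707367060601 : ℕ), (732494264430 : ℕ))) p7_126 (sfcons (a := ((728962440513 : ℕ), (746959151736 : ℕ))) p7_127 (sfcons (a := ((740977318325 : ℕ), (762882066450 : ℕ))) p7_128 (sfcons (a := ((762880933950 : ℕ), (768885098670 : ℕ))) p7_129 (sfcons (a := ((765803021255 : ℕ), (785977525572 : ℕ))) p7_130 (sfcons (a := ((785976632456 : ℕ), (805216568676 : ℕ))) p7_131 (sfcons (a := ((793659172600 : ℕ), (817846649256 : ℕ))) p7_132 (sfcons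 (a := ((817846324996 : ℕ), (834289994610 : ℕ))) p7_133 (sfcons (a := ((834289100451 : ℕ), (847677189576 : ℕ))) p7_134 (sfcons (a := ((847674562990 : ℕ), (850669545906 : ℕ))) p7_135 (sfcons (a := ((850668595910 : ℕ), (861014784840 : ℕ))) p7_136 (sfcons (a := ((860683711074 : ℕ), (868103176920 : ℕ))) p7_137 (sfcons (a := ((868101894152 : ℕ), (886314880110 : ℕ))) p7_138 (sfcons (a := ((886314719816 : ℕ), (895452708696 : ℕ))) p7_139 (sfcons (a := ((895452556155 : ℕ), (906068195928 : ℕ))) p7_140 (sfcons (a := ((901839399923 : ℕ), (918541882590 : ℕ))) p7_141 (sfcons (a := ((918539211708 : ℕ), (925831449480 : ℕ))) p7_142 (sfcons (a := ((925830410568 : ℕ), (934029468030 : ℕ))) p7_143 (sfcons (a := ((934029374436 : ℕ), (946751327028 : ℕ))) p7_144 (sfcons (a := ((946750962998 : ℕ), (964157127924 : ℕ))) p7_145 (sfcons (a := ((958621124206 : ℕ), (967221425250 : ℕ))) p7_146 (sfcons (a := ((967221278446 : ℕ), (978167147832 : ℕ))) p7_147 (sfcons (a := ((978165892162 : ℕ), (994636377336 : ℕ))) p7_148 (sfcons (a := ((994635782685 : ℕ), (996205740354 : ℕ))) p7_149 (sfcons (a := ((996204657428 : ℕ), (999388018068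 : ℕ))) p7_150 (sfcons (a := ((999387682273 : ℕ), (1004783846004 : ℕ))) p7_151 (sfcons (a := ((1004783491323 : ℕ), (1017340884162 : ℕ))) p7_152 (sfcons (a := ((1017340801125 : ℕ), (1036279019988 : ℕ))) p7_153 (sfcons (a := ((1036278604517 : ℕ), (1061650059366 : ℕ))) p7_154 (sfcons (a := ((1049475723662 : ℕ), (1066193387790 : ℕ))) p7_155 (sfcons (a := ((1066190314629 : ℕ), (1076450761332 : ℕ))) p7_156 (sfcons (a := ((1076449818578 : ℕ), (1093535229870 : ℕ))) p7_157 (sfcons (a := ((1093463376027 : ℕ), (1104757072596 : ℕ))) p7_158 (sfcons (a := ((1098206520666 : ℕ), (1110430336470 : ℕ))) p7_159 (sfcons (a := ((1108827770990 : ℕ), (1140385665876 : ℕ))) p7_160 (sfcons (a := ((1140385565738 : ℕ), (1161148524198 : ℕ))) p7_161 (sfcons (a := ((1158388238993 : ℕ), (1162228783470 : ℕ))) p7_162 (sfcons (a := ((1162227924497 : ℕ), (1180261854702 : ℕ))) p7_163 (sfcons (a := ((1180261252970 : ℕ), (1187162964510 : ℕ))) p7_164 (sfcons (a := ((1187160272833 : ℕ), (1202728544004 : ℕ))) p7_165 (sfcons (a := ((1202727762896 : ℕ), (1204781766750 : ℕ))) p7_166 (sfcons (a := ((1204781595177 : ℕ), (1219417740900 :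 ℕ))) p7_167 (sfcons (a := ((1216669754132 : ℕ), (1223461415418 : ℕ))) p7_168 (sfcons (a := ((1223461303658 : ℕ), (1239318717858 : ℕ))) p7_169 (sfcons (a := ((1239315792406 : ℕ), (1251352954110 : ℕ))) p7_170 (sfcons (a := ((1241870866683 : ℕ), (1260758423736 : ℕ))) p7_171 (sfcons (a := ((1260758027243 : ℕ), (1280630331288 : ℕ))) p7_172 (sfcons (a := ((1280626673422 : ℕ), (1291364545122 : ℕ))) p7_173 (sfcons (a := ((1291364466382 : ℕ), (1312298768760 : ℕ))) p7_174 (sfcons (a := ((1312295124398 : ℕ), (1332020488110 : ℕ))) p7_175 (sfcons (a := ((1332013386542 : ℕ), (1358088725316 : ℕ))) p7_176 (sfcons (a := ((1358088397678 : ℕ), (1375080861600 : ℕ))) p7_177 (sfcons (a := ((1367031480891 : ℕ), (1405199083044 : ℕ))) p7_178 (sfcons (a := ((1403626474015 : ℕ), (1418954889240 : ℕ))) p7_179 (sfcons (a := ((1418951144750 : ℕ), (1444875258180 : ℕ))) p7_180 (sfcons (a := ((1435912971404 : ℕ), (1486771296024 : ℕ))) p7_181 (sfcons (a := ((1473551688869 : ℕ), (1513530660132 : ℕ))) p7_182 (sfcons (a := ((1501593449607 : ℕ), (1526146708482 : ℕ))) p7_183 (sfcons (a := ((1513963795247 : ℕ), (1536269356830 : ℕ)))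 p7_184 (sfcons (a := ((1531722923676 : ℕ), (1557512875242 : ℕ))) p7_185 (sfcons (a := ((1553789742940 : ℕ), (1612498872042 : ℕ))) p7_186 (sfcons (a := ((1598751351484 : ℕ), (1617531840000 : ℕ))) p7_187 (sfcons (a := ((1617531594094 : ℕ), (1645547159550 : ℕ))) p7_188 (sfcons (a := ((1637976214676 : ℕ), (1678313441112 : ℕ))) p7_189 (sfcons (a := ((1678313096534 : ℕ), (1712338774560 : ℕ))) p7_190 (sfcons (a := ((1712337725450 : ℕ), (1754677323360 : ℕ))) p7_191 (sfcons (a := ((1754676991477 : ℕ), (1785579406410 : ℕ))) p7_192 (sfcons (a := ((1773150889649 : ℕ), (1796209671480 : ℕ))) p7_193 (sfcons (a := ((1796203598907 : ℕ), (1817883604824 : ℕ))) p7_194 (sfcons (a := ((1817878424885 : ℕ), (1830263124834 : ℕ))) p7_195 (sfcons (a := ((1823291732347 : ℕ), (1857141360696 : ℕ))) p7_196 (sfcons (a := ((1850917670606 : ℕ), (1900227646296 : ℕ))) p7_197 (sfcons (a := ((1900221125448 : ℕ), (1914095922090 : ℕ))) p7_198 (sfcons (a := ((1914095582412 : ℕ), (1943549052822 : ℕ))) p7_199 (sfcons (a := ((1943546232407 : ℕ), (2003522476830 : ℕ))) p7_200 (sfcons (a := ((2003522320915 : ℕ), (2048179599414 : ℕ))) p7_201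 (sfcons (a := ((2048177080945 : ℕ), (2056596391752 : ℕ))) p7_202 (sfcons (a := ((2056594370173 : ℕ), (2094567484854 : ℕ))) p7_203 (sfcons (a := ((2094466549632 : ℕ), (2097808579272 : ℕ))) p7_204 (sfcons (a := ((2097807154347 : ℕ), (2132851904676 : ℕ))) p7_205 (sfcons (a := ((2119115315809 : ℕ), (2139310198056 : ℕ))) p7_206 (sfcons (a := ((2139309762199 : ℕ), (2170466642556 : ℕ))) p7_207 (sfcons (a := ((2170464778780 : ℕ), (2200868226108 : ℕ))) p7_208 (sfcons (a := ((2200866864179 : ℕ), (2231168465052 : ℕ))) p7_209 (sfcons (a := ((2231167654862 : ℕ), (2273512201308 : ℕ))) p7_210 (sfcons (a := ((2273511897823 : ℕ), (2309075477730 : ℕ))) p7_211 (sfcons (a := ((2309070952082 : ℕ), (2326408925178 : ℕ))) p7_212 (sfcons (a := ((2326408574189 : ℕ), (2368296291816 : ℕ))) p7_213 (sfcons (a := ((2368295851201 : ℕ), (2401945986198 : ℕ))) p7_214 (sfcons (a := ((2401944693205 : ℕ), (2430332203320 : ℕ))) p7_215 (sfcons (a := ((2430331289445 : ℕ), (2495289488406 : ℕ))) p7_216 (sfcons (a := ((2495289209706 : ℕ), (2511268586010 : ℕ))) p7_217 (sfcons (a := ((2495799735086 : ℕ), (2588524626660 : ℕ))) p7_218 (sfcons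 (a := ((2587347544142 : ℕ), (2608143715800 : ℕ))) p7_219 (sfcons (a := ((2594529196161 : ℕ), (2627146800720 : ℕ))) p7_220 (sfcons (a := ((2627146541604 : ℕ), (2674028335242 : ℕ))) p7_221 (sfcons (a := ((2674024886236 : ℕ), (2788082794980 : ℕ))) p7_222 (sfcons (a := ((2778245116043 : ℕ), (2795316766986 : ℕ))) p7_223 (sfcons (a := ((2795313151417 : ℕ), (2842860269574 : ℕ))) p7_224 (sfcons (a := ((2842859608443 : ℕ), (2895111232434 : ℕ))) p7_225 (sfcons (a := ((2883212593213 : ℕ), (2956402976106 : ℕ))) p7_226 (sfcons (a := ((2926345475166 : ℕ), (2982153959280 : ℕ))) p7_227 (sfcons (a := ((2982153125990 : ℕ), (3004542136476 : ℕ))) p7_228 (sfcons (a := ((3000048764427 : ℕ), (3025422986508 : ℕ))) p7_229 (sfcons (a := ((3025421073389 : ℕ), (3093184194414 : ℕ))) p7_230 (sfcons (a := ((3081839910836 : ℕ), (3128779620306 : ℕ))) p7_231 (sfcons (a := ((3122609489692 : ℕ), (3220789205970 : ℕ))) p7_232 (sfcons (a := ((3220780571130 : ℕ), (3261802902030 : ℕ))) p7_233 (sfcons (a := ((3228830302146 : ℕ), (3264742386024 : ℕ))) p7_234 (sfcons (a := ((3264741850059 : ℕ), (3350746293228 : ℕ))) p7_235 (sfcons (a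 := ((3350744842113 : ℕ), (3432765371724 : ℕ))) p7_236 (sfcons (a := ((3432764951251 : ℕ), (3478316018502 : ℕ))) p7_237 (sfcons (a := ((3478307912509 : ℕ), (3520318844406 : ℕ))) p7_238 (sfcons (a := ((3520312648882 : ℕ), (3578116467930 : ℕ))) p7_239 (sfcons (a := ((3578111775867 : ℕ), (3623968874838 : ℕ))) p7_240 (sfcons (a := ((3622328673208 : ℕ), (3716715461040 : ℕ))) p7_241 (sfcons (a := ((3716715143507 : ℕ), (3765778819482 : ℕ))) p7_242 (sfcons (a := ((3747416481114 : ℕ), (3785066287830 : ℕ))) p7_243 (sfcons (a := ((3785065235182 : ℕ), (3860128498320 : ℕ))) p7_244 (sfcons (a := ((3860127675605 : ℕ), (3883740595938 : ℕ))) p7_245 (sfcons (a := ((3881514767562 : ℕ), (3907415113710 : ℕ))) p7_246 (sfcons (a := ((3905759000770 : ℕ), (3946563280026 : ℕ))) p7_247 (sfcons (a := ((3946559609522 : ℕ), (3967147490358 : ℕ))) p7_248 (sfcons (a := ((3967145659710 : ℕ), (4036150394172 : ℕ))) p7_249 (sfcons (a := ((4024536957653 : ℕ), (4160782623306 : ℕ))) p7_250 (sfcons (a := ((4160777375746 : ℕ), (4217059501662 : ℕ))) p7_251 (sfcons (a := ((4179873375893 : ℕ), (4359818469354 : ℕ))) p7_252 (sfcons (a :=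 ((4348463443036 : ℕ), (4474083706002 : ℕ))) p7_253 (sfcons (a := ((4474083207717 : ℕ), (4589079561468 : ℕ))) p7_254 (sfcons (a := ((4589078188194 : ℕ), (4709753835804 : ℕ))) p7_255 (sfcons (a := ((4681829507976 : ℕ), (4861644154524 : ℕ))) p7_256 (sfcons (a := ((4861642541652 : ℕ), (4877847207900 : ℕ))) p7_257 (sfcons (a := ((4877845893837 : ℕ), (4938394923036 : ℕ))) p7_258 (sfcons (a := ((4938393516876 : ℕ), (5006858497308 : ℕ))) p7_259 (sfcons (a := ((5006856739689 : ℕ), (5086131185916 : ℕ))) p7_260 (sfcons (a := ((5042755561905 : ℕ), (5127421687596 : ℕ))) p7_261 (sfcons (a := ((5127420163419 : ℕ), (5221028363004 : ℕ))) p7_262 (sfcons (a := ((5221027034442 : ℕ), (5328386598924 : ℕ))) p7_263 (sfcons (a := ((5328385164657 : ℕ), (5414569997580 : ℕ))) p7_264 (sfcons (a := ((5414568351498 : ℕ), (5517467099532 : ℕ))) p7_265 (sfcons (a := ((5517465280920 : ℕ), (5582178030636 : ℕ))) p7_266 (sfcons (a := ((5582176346241 : ℕ), (5649603221196 : ℕ))) p7_267 (sfcons (a := ((5649599952522 : ℕ), (5789746671084 : ℕ))) p7_268 (sfcons (a := ((5775994571436 : ℕ), (5990585564556 : ℕ))) p7_269 (sfcons (a := ((5983884690597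 : ℕ), (6159731363820 : ℕ))) p7_270 (sfcons (a := ((6121526291865 : ℕ), (6452420182668 : ℕ))) p7_271 (sfcons (a := ((6452417015082 : ℕ), (6551760697740 : ℕ))) p7_272 (sfcons (a := ((6530268187062 : ℕ), (6647151098124 : ℕ))) p7_273 (sfcons (a := ((6647149309158 : ℕ), (6677702193420 : ℕ))) p7_274 (sfcons (a := ((6677700854085 : ℕ), (6757306610076 : ℕ))) p7_275 (sfcons (a := ((6757304940261 : ℕ), (6800664225276 : ℕ))) p7_276 (sfcons (a := ((6800662590534 : ℕ), (6872295609756 : ℕ))) p7_277 (sfcons (a := ((6872294327607 : ℕ), (6949474198236 : ℕ))) p7_278 (sfcons (a := ((6934853641819 : ℕ), (7113815965542 : ℕ))) p7_279 (sfcons (a := ((7113806586251 : ℕ), (7183536464220 : ℕ))) p7_280 (sfcons (a := ((7162870943556 : ℕ), (7292713066470 : ℕ))) p7_281 (sfcons (a := ((7238360729294 : ℕ), (7484868133884 : ℕ))) p7_282 (sfcons (a := ((7332444610936 : ℕ), (7539343664334 : ℕ))) p7_283 (sfcons (a := ((7539342939576 : ℕ), (7668181464732 : ℕ))) p7_284 (sfcons (a := ((7668178505721 : ℕ), (7785514352988 : ℕ))) p7_285 (sfcons (a := ((7785511094358 : ℕ), (7853015546172 : ℕ))) p7_286 (sfcons (a := ((7853014507582 :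 ℕ), (8084238259254 : ℕ))) p7_287 (sfcons (a := ((8042402011568 : ℕ), (8231726642256 : ℕ))) p7_288 (sfcons (a := ((8205342032456 : ℕ), (8294203229748 : ℕ))) p7_289 (sfcons (a := ((8294202064932 : ℕ), (8451942209166 : ℕ))) p7_290 (sfcons (a := ((8451941546808 : ℕ), (8611079718636 : ℕ))) p7_291 (sfcons (a := ((8611076495484 : ℕ), (8733613436748 : ℕ))) p7_292 (sfcons (a := ((8673934628714 : ℕ), (8915385038244 : ℕ))) p7_293 (sfcons (a := ((8915382462921 : ℕ), (8946636683250 : ℕ))) p7_294 (sfcons (a := ((8929045467387 : ℕ), (9092684435724 : ℕ))) p7_295 (sfcons (a := ((9042454015315 : ℕ), (9227482309650 : ℕ))) p7_296 (sfcons (a := ((9227481445782 : ℕ), (9326676274092 : ℕ))) p7_297 (sfcons (a := ((9326673073620 : ℕ), (9505147208076 : ℕ))) p7_298 (sfcons (a := ((9462779415314 : ℕ), (9674933786364 : ℕ))) p7_299 (sfcons (a := ((9674932279995 : ℕ), (9793023841548 : ℕ))) p7_300 (sfcons (a := ((9793022131557 : ℕ), (9925808162796 : ℕ))) p7_301 (sfcons (a := ((9925806872142 : ℕ), (10147715047404 : ℕ))) p7_302 (sfcons (a := ((10102755868209 : ℕ), (10389528880812 : ℕ))) p7_303 (sfcons (a := ((10389525124680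 : ℕ), (10493975416860 : ℕ))) p7_304 (sfcons (a := ((10478805705999 : ℕ), (10778301314892 : ℕ))) p7_305 (sfcons (a := ((10740361901067 : ℕ), (10982328150636 : ℕ))) p7_306 (sfcons (a := ((10982325196809 : ℕ), (11176386045516 : ℕ))) p7_307 (sfcons (a := ((11176382794824 : ℕ), (11324406202380 : ℕ))) p7_308 (sfcons (a := ((11305763569377 : ℕ), (11759818326300 : ℕ))) p7_309 (sfcons (a := ((11759813142867 : ℕ), (11854941434460 : ℕ))) p7_310 (sfcons (a := ((11854937180097 : ℕ), (12169786931100 : ℕ))) p7_311 (sfcons (a := ((12169785177693 : ℕ), (12424533061212 : ℕ))) p7_312 (sfcons (a := ((12424530248244 : ℕ), (12911708559132 : ℕ))) p7_313 (sfcons (a := ((12911705037333 : ℕ), (13162420251612 : ℕ))) p7_314 (sfcons (a := ((13162418917947 : ℕ), (13277984881356 : ℕ))) p7_315 (sfcons (a := ((13277978609769 : ℕ), (13505445840060 : ℕ))) p7_316 (sfcons (a := ((13505441375502 : ℕ), (13664451556476 : ℕ))) p7_317 (sfcons (a := ((13664446833366 : ℕ), (13839941961324 : ℕ))) p7_318 (sfcons (a := ((13839937775973 : ℕ), (14146931299068 : ℕ))) p7_319 (sfcons (a := ((14146927374942 : ℕ), (14439295668204 : ℕ))) p7_320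 (sfcons (a := ((14439289363407 : ℕ), (14553505267740 : ℕ))) p7_321 (sfcons (a := ((14553501546681 : ℕ), (14836369192236 : ℕ))) p7_322 sfnil))))))))))))))))))))))))))))))))))))))))))))))))))))))))))))))))))))))))))))))))))))))))))))))))))))))))))))))))))))))))))))))))))))))))))))))))))))))))))))))))))))))))))))))))))))))))))))))))))))))))))))))))))))))))))))))))))))))))))))))))))))))))))))))))))))))))))))))))))))))

theorem Ls7_cover : cover 180000000000 Ls7 14580000000000 = true := by decide +kernel

end Pool.Agent.Lib.MP_cfac74_al.Cov
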