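import Pool.Agent.Lib.MP_cfac74_al.S.S00
import Pool.Agent.Lib.MP_cfac74_al.S.S01
import Pool.Agent.Lib.MP_cfac74_al.S.S02
import Pool.Agent.Lib.MP_cfac74_al.S.S03
import Pool.Agent.Lib.MP_cfac74_al.S.S04
import Pool.Agent.Lib.MP_cfac74_al.S.S05
import Pool.Agent.Lib.MP_cfac74_al.S.S06
import Pool.Agent.Lib.MP_cfac74_al.S.S07
import Pool.Agent.Lib.MP_cfac74_al.S.S08
import Pool.Agent.Lib.MP_cfac74_al.S.S09
import Pool.Agent.Lib.MP_cfac74_al.S.S10
import Pool.Agent.Lib.MP_cfac74_al.S.S11
import Pool.Agent.Lib.MP_cfac74_al.S.S12
import Pool.Agent.Lib.MP_cfac74_al.S.S13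
import Pool.Agent.Lib.MP_cfac74_al.S.S14
import Pool.Agent.Lib.MP_cfac74_al.S.S15
import Pool.Agent.Lib.MP_cfac74_al.S.S16
import Pool.Agent.Lib.MP_cfac74_al.S.S17
import Pool.Agent.Lib.MP_cfac74_al.S.S18
import Pool.Agent.Lib.MP_cfac74_al.S.Ls

/-!
# MP_cfac74_al : stable windows, class 9
-/

set_option autoImplicit false
set_option maxRecDepth 1000000

namespace Pool.Agent.Lib.MP_cfac74_al.Cov

theorem p9_0 : Stab 9 54417147984 55099139856 := s232_t0

theorem sw9_0 : Win 9 54417147984 55099139856 := p9_0.win (by decide +kernel)

theorem p9_1 : Stab 9 55099116526 55814190000 := s291_t0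

theorem sw9_1 : Win 9 55099116526 55814190000 := p9_1.win (by decide +kernel)

theorem p9_2 : Stab 9 55814168228 56376835632 := s434_t0

theorem sw9_2 : Win 9 55814168228 56376835632 := p9_2.win (by decide +kernel)

theorem p9_3 : Stab 9 56290348228 56848965744 := s117_t0

theorem sw9_3 : Win 9 56290348228 56848965744 := p9_3.win (by decide +kernel)

theorem p9_4 : Stab 9 56813272268 57540233232 := s301_t0

theorem sw9_4 : Win 9 56813272268 57540233232 := p9_4.win (by decide +kernel)

theorem p9_5 : Stab 9 57540210341 58308157200 := s64_t0

theorem sw9_5 : Win 9 57540210341 58308157200 := p9_5.win (by decide +kernel)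

theorem p9_6 : Stab 9 59110201944 60003210768 := s96_t0

theorem sw9_6 : Win 9 59110201944 60003210768 := p9_6.win (by decide +kernel)

theorem p9_7 : Stab 9 62262656881 63450084240 := s682_t0

theorem sw9_7 : Win 9 62262656881 63450084240 := p9_7.win (by decide +kernel)

theorem p9_8 : Stab 9 63248476013 64185560016 := s54_t0

theorem sw9_8 : Win 9 63248476013 64185560016 := p9_8.win (by decide +kernel)

theorem p9_9 : Stab 9 64185542485 64624195632 := s176_t0

theorem sw9_9 : Win 9 64185542485 64624195632 := p9_9.win (by decide +kernel)

theorem p9_10 : Stab 9 80551844167 81521371056 := s245_t0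

theorem sw9_10 : Win 9 80551844167 81521371056 := p9_10.win (by decide +kernel)

theorem p9_11 : Stab 9 81378487109 81990920880 := s416_t0

theorem sw9_11 : Win 9 81378487109 81990920880 := p9_11.win (by decide +kernel)

theorem p9_12 : Stab 9 81990898859 83038685808 := s161_t0

theorem sw9_12 : Win 9 81990898859 83038685808 := p9_12.win (by decide +kernel)

theorem p9_13 : Stab 9 83038669528 83882458128 := s275_t0

theorem sw9_13 : Win 9 83038669528 83882458128 := p9_13.win (by decide +kernel)

theorem p9_14 : Stab 9 83882439789 84805409424 := s155_t0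

theorem sw9_14 : Win 9 83882439789 84805409424 := p9_14.win (by decide +kernel)

theorem p9_15 : Stab 9 85170523912 86158122288 := s337_t0

theorem sw9_15 : Win 9 85170523912 86158122288 := p9_15.win (by decide +kernel)

theorem p9_16 : Stab 9 87259341278 88278440352 := s868_t0

theorem sw9_16 : Win 9 87259341278 88278440352 := p9_16.win (by decide +kernel)

theorem p9_17 : Stab 9 88278357570 89221676736 := s369_t0

theorem sw9_17 : Win 9 88278357570 89221676736 := p9_17.win (by decide +kernel)

theorem p9_18 : Stab 9 88760627808 89692099680 := s505_t0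

theorem sw9_18 : Win 9 88760627808 89692099680 := p9_18.win (by decide +kernel)

theorem p9_19 : Stab 9 89692038206 90539326752 := s693_t0

theorem sw9_19 : Win 9 89692038206 90539326752 := p9_19.win (by decide +kernel)

theorem p9_20 : Stab 9 90539298409 91672057440 := s1_t0

theorem sw9_20 : Win 9 90539298409 91672057440 := p9_20.win (by decide +kernel)

theorem p9_21 : Stab 9 91672030132 92292491616 := s407_t0

theorem sw9_21 : Win 9 91672030132 92292491616 := p9_21.win (by decide +kernel)

theorem p9_22 : Stab 9 91760659757 92682916800 := s610_t0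

theorem sw9_22 : Win 9 91760659757 92682916800 := p9_22.win (by decide +kernel)

theorem p9_23 : Stab 9 92682889067 94406734128 := s814_t0

theorem sw9_23 : Win 9 92682889067 94406734128 := p9_23.win (by decide +kernel)

theorem p9_24 : Stab 9 94406715375 95771435568 := s713_t0

theorem sw9_24 : Win 9 94406715375 95771435568 := p9_24.win (by decide +kernel)

theorem p9_25 : Stab 9 95771417205 97121889696 := s465_t0

theorem sw9_25 : Win 9 95771417205 97121889696 := p9_25.win (by decide +kernel)

theorem p9_26 : Stab 9 97121860690 98368433520 := s3_t0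

theorem sw9_26 : Win 9 97121860690 98368433520 := p9_26.win (by decide +kernel)

theorem p9_27 : Stab 9 98368417112 99034920624 := s414_t0

theorem sw9_27 : Win 9 98368417112 99034920624 := p9_27.win (by decide +kernel)

theorem p9_28 : Stab 9 99024037829 100478012544 := s361_t0

theorem sw9_28 : Win 9 99024037829 100478012544 := p9_28.win (by decide +kernel)

theorem p9_29 : Stab 9 100477989604 101810164224 := s443_t0

theorem sw9_29 : Win 9 100477989604 101810164224 := p9_29.win (by decide +kernel)

theorem p9_30 : Stab 9 101810089527 103586077728 := s521_t0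

theorem sw9_30 : Win 9 101810089527 103586077728 := p9_30.win (by decide +kernel)

theorem p9_31 : Stab 9 103586025405 107835456000 := s524_t0

theorem sw9_31 : Win 9 103586025405 107835456000 := p9_31.win (by decide +kernel)

theorem p9_32 : Stab 9 106867756501 108484751664 := s570_t0

theorem sw9_32 : Win 9 106867756501 108484751664 := p9_32.win (by decide +kernel)

theorem p9_33 : Stab 9 108484711680 110392919184 := s250_t0

theorem sw9_33 : Win 9 108484711680 110392919184 := p9_33.win (by decide +kernel)

theorem p9_34 : Stab 9 110083741864 111753646416 := s347_t0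

theorem sw9_34 : Win 9 110083741864 111753646416 := p9_34.win (by decide +kernel)

theorem p9_35 : Stab 9 111191870300 114155918304 := s779_t0

theorem sw9_35 : Win 9 111191870300 114155918304 := p9_35.win (by decide +kernel)

theorem p9_36 : Stab 9 114155898014 116978488224 := s716_t0

theorem sw9_36 : Win 9 114155898014 116978488224 := p9_36.win (by decide +kernel)

theorem p9_37 : Stab 9 116790296113 118289765424 := s188_t0

theorem sw9_37 : Win 9 116790296113 118289765424 := p9_37.win (by decide +kernel)

theorem p9_38 : Stab 9 118289728876 119313188304 := s17_t0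

theorem sw9_38 : Win 9 118289728876 119313188304 := p9_38.win (by decide +kernel)

theorem p9_39 : Stab 9 119313151748 120501812592 := s234_t0

theorem sw9_39 : Win 9 119313151748 120501812592 := p9_39.win (by decide +kernel)

theorem p9_40 : Stab 9 120501781344 121408057392 := s684_t0

theorem sw9_40 : Win 9 120501781344 121408057392 := p9_40.win (by decide +kernel)

theorem p9_41 : Stab 9 121407993627 122712865392 := s385_t0

theorem sw9_41 : Win 9 121407993627 122712865392 := p9_41.win (by decide +kernel)

theorem p9_42 : Stab 9 122712834305 123801814032 := s771_t0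

theorem sw9_42 : Win 9 122712834305 123801814032 := p9_42.win (by decide +kernel)

theorem p9_43 : Stab 9 123210969810 129827453760 := s812_t0

theorem sw9_43 : Win 9 123210969810 129827453760 := p9_43.win (by decide +kernel)

theorem p9_44 : Stab 9 129542969435 135410536896 := s343_t0

theorem sw9_44 : Win 9 129542969435 135410536896 := p9_44.win (by decide +kernel)

theorem p9_45 : Stab 9 135410503008 137103303120 := s519_t0

theorem sw9_45 : Win 9 135410503008 137103303120 := p9_45.win (by decide +kernel)

theorem p9_46 : Stab 9 136919977794 140611846992 := s338_t0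

theorem sw9_46 : Win 9 136919977794 140611846992 := p9_46.win (by decide +kernel)

theorem p9_47 : Stab 9 140611828361 142802643216 := s690_t0

theorem sw9_47 : Win 9 140611828361 142802643216 := p9_47.win (by decide +kernel)

theorem p9_48 : Stab 9 142764407609 147044511504 := s107_t0

theorem sw9_48 : Win 9 142764407609 147044511504 := p9_48.win (by decide +kernel)

theorem p9_49 : Stab 9 147044487351 150720535152 := s464_t0

theorem sw9_49 : Win 9 147044487351 150720535152 := p9_49.win (by decide +kernel)

theorem p9_50 : Stab 9 150720518863 154461018768 := s0_t0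

theorem sw9_50 : Win 9 150720518863 154461018768 := p9_50.win (by decide +kernel)

theorem p9_51 : Stab 9 154461000605 158398116624 := s706_t0

theorem sw9_51 : Win 9 154461000605 158398116624 := p9_51.win (by decide +kernel)

theorem p9_52 : Stab 9 158398081272 166352835216 := s438_t0

theorem sw9_52 : Win 9 158398081272 166352835216 := p9_52.win (by decide +kernel)

theorem p9_53 : Stab 9 166352795064 175143120048 := s671_t0

theorem sw9_53 : Win 9 166352795064 175143120048 := p9_53.win (by decide +kernel)

theorem p9_54 : Stab 9 175143070453 179595002112 := s170_t0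

theorem sw9_54 : Win 9 175143070453 179595002112 := p9_54.win (by decide +kernel)

theorem p9_55 : Stab 9 179594982489 184963082784 := s179_t0

theorem sw9_55 : Win 9 179594982489 184963082784 := p9_55.win (by decide +kernel)

theorem p9_56 : Stab 9 184963063684 189169005600 := s408_t0

theorem p9_57 : Stab 9 189168982800 193732128768 := s366_t0

theorem p9_58 : Stab 9 193732110286 198319821840 := s52_t0

theorem p9_59 : Stab 9 198319802666 203201038080 := s368_t0

theorem p9_60 : Stab 9 203200977218 206370370848 := s859_t0

theorem p9_61 : Stab 9 206370312767 209500719792 := s477_t0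

theorem p9_62 : Stab 9 209500678115 218540111424 := s13_t0

theorem p9_63 : Stab 9 218540089016 228660924288 := s28_t0

theorem p9_64 : Stab 9 228660905927 233190110928 := s304_t0

theorem p9_65 : Stab 9 233190092345 237216825168 := s721_t0

theorem p9_66 : Stab 9 237216804696 241488771936 := s422_t0

theorem p9_67 : Stab 9 241488728120 247781030736 := s786_t0

theorem p9_68 : Stab 9 247780991017 252337904352 := s558_t0

theorem p9_69 : Stab 9 252337866780 257341899888 := s612_t0

theorem p9_70 : Stab 9 257341877268 261411635856 := s754_t0

theorem p9_71 : Stab 9 261411613496 265993201344 := s120_t0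

theorem p9_72 : Stab 9 265993181534 269827014960 := s457_t0

theorem p9_73 : Stab 9 269826997308 274488350736 := s260_t0

theorem p9_74 : Stab 9 274488328302 280117409184 := s274_t0

theorem p9_75 : Stab 9 280117386945 286500460368 := s406_t0

theorem p9_76 : Stab 9 286500442394 291366491520 := s246_t0

theorem p9_77 : Stab 9 291366468690 297130187520 := s415_t0

theorem p9_78 : Stab 9 297130170314 302486879328 := s174_t0

theorem p9_79 : Stab 9 302486860377 306926598048 := s238_t0

theorem p9_80 : Stab 9 306926578389 319687469376 := s312_t0

theorem p9_81 : Stab 9 319687451026 332916054624 := s829_t0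

theorem p9_82 : Stab 9 332915995096 336677189040 := s606_t0

theorem p9_83 : Stab 9 336677121341 346926368592 := s223_t0

theorem p9_84 : Stab 9 346926352399 351603553632 := s388_t0

theorem p9_85 : Stab 9 351603532890 358518160656 := s277_t0

theorem p9_86 : Stab 9 358518107808 362391178128 := s728_t0

theorem p9_87 : Stab 9 362391128461 372547636656 := s702_t0

theorem p9_88 : Stab 9 372547600841 376140741360 := s496_t0

theorem p9_89 : Stab 9 376140659360 379602897552 := s846_t0

theorem p9_90 : Stab 9 379602860011 385295268624 := s81_t0

theorem p9_91 : Stab 9 385295247414 389458482000 := s705_t0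

theorem p9_92 : Stab 9 389458463742 395072499600 := s69_t0

theorem p9_93 : Stab 9 395072460808 398412242544 := s782_t0

theorem p9_94 : Stab 9 398412199860 404999453808 := s586_t0

theorem p9_95 : Stab 9 404999416235 412762249872 := s386_t0

theorem p9_96 : Stab 9 412762231896 421178275248 := s113_t0

theorem p9_97 : Stab 9 421178253742 436927258320 := s663_t0

theorem p9_98 : Stab 9 436927241597 450829885152 := s723_t0

theorem p9_99 : Stab 9 450829799830 459470656320 := s251_t0

theorem p9_100 : Stab 9 459470605390 467348073600 := s471_t0

theorem p9_101 : Stab 9 467347960552 473359680144 := s659_t0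

theorem p9_102 : Stab 9 473359613023 481489172892 := (Half.stab s159_t1 s626_t2 (by decide +kernel) : Stab 9 473359613023 481489172892)

theorem p9_103 : Stab 9 481489057638 490797902574 := (Half.stab s39_t2 s305_t1 (by decide +kernel) : Stab 9 481489057638 490797902574)

theorem p9_104 : Stab 9 490797692345 496069226340 := (Half.stab s710_t0 s305_t1 (by decide +kernel) : Stab 9 490797692345 496069226340)

theorem p9_105 : Stab 9 496068987910 505187649564 := (Half.stab s573_t0 s790_t1 (by decide +kernel) : Stab 9 496068987910 505187649564)

theorem p9_106 : Stab 9 505187349225 513316568700 := (Half.stab s384_t0 s790_t1 (by decide +kernel) : Stab 9 505187349225 513316568700)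

theorem p9_107 : Stab 9 513316289401 518597429532 := (Half.stab s847_t1 s249_t2 (by decide +kernel) : Stab 9 513316289401 518597429532)

theorem p9_108 : Stab 9 518131799982 527777915700 := (Half.stab s870_t1 s249_t2 (by decide +kernel) : Stab 9 518131799982 527777915700)

theorem p9_109 : Stab 9 523970279496 537774096444 := (Half.stab s110_t2 s249_t2 (by decide +kernel) : Stab 9 523970279496 537774096444)

theorem p9_110 : Stab 9 537773246662 550937652252 := (Half.stab s18_t2 s529_t1 (by decide +kernel) : Stab 9 537773246662 550937652252)

theorem p9_111 : Stab 9 550174076588 556396691940 := (Half.stab s838_t2 s529_t1 (by decide +kernel) : Stab 9 550174076588 556396691940)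

theorem p9_112 : Stab 9 555970418053 570588305070 := (Half.stab s838_t2 s557_t1 (by decide +kernel) : Stab 9 555970418053 570588305070)

theorem p9_113 : Stab 9 570433840697 580251694608 := (Half.stab s667_t3 s557_t1 (by decide +kernel) : Stab 9 570433840697 580251694608)

theorem p9_114 : Stab 9 576315469126 589688917380 := (Half.stab s873_t2 s557_t1 (by decide +kernel) : Stab 9 576315469126 589688917380)

theorem p9_115 : Stab 9 587796941229 603999716976 := s697_t0

theorem p9_116 : Stab 9 603999684676 614045147490 := (Half.stab s844_t2 s512_t4 (by decide +kernel) : Stab 9 603999684676 614045147490)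

theorem p9_117 : Stab 9 609602974832 618698303298 := (Half.stab s844_t2 s528_t4 (by decide +kernel) : Stab 9 609602974832 618698303298)

theorem p9_118 : Stab 9 618697761779 626444777742 := (Half.stab s844_t2 s16_t4 (by decide +kernel) : Stab 9 618697761779 626444777742)

theorem p9_119 : Stab 9 625695502103 628840887426 := (Half.stab s566_t3 s16_t4 (by decide +kernel) : Stab 9 625695502103 628840887426)

theorem p9_120 : Stab 9 627298423085 639170363016 := (Half.stab s566_t3 s300_t2 (by decide +kernel) : Stab 9 627298423085 639170363016)

theorem p9_121 : Stab 9 639169047622 647777014470 := (Half.stab s687_t2 s751_t4 (by decide +kernel) : Stab 9 639169047622 647777014470)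

theorem p9_122 : Stab 9 647776699357 654811914024 := (Half.stab s687_t2 s506_t2 (by decide +kernel) : Stab 9 647776699357 654811914024)

theorem p9_123 : Stab 9 654811092305 662919811848 := (Half.stab s664_t3 s492_t1 (by decide +kernel) : Stab 9 654811092305 662919811848)

theorem p9_124 : Stab 9 662918837613 667030537380 := (Half.stab s185_t3 s492_t1 (by decide +kernel) : Stab 9 662918837613 667030537380)

theorem p9_125 : Stab 9 666491637151 684951343560 := (Half.stab s185_t3 s342_t2 (by decide +kernel) : Stab 9 666491637151 684951343560)

theorem p9_126 : Stab 9 684776157266 697323643422 := (Half.stab s360_t1 s572_t1 (by decide +kernel) : Stab 9 684776157266 697323643422)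

theorem p9_127 : Stab 9 697323517097 707294804958 := (Half.stab s35_t1 s426_t1 (by decide +kernel) : Stab 9 697323517097 707294804958)

theorem p9_128 : Stab 9 707292880658 719775304980 := (Half.stab s35_t1 s454_t1 (by decide +kernel) : Stab 9 707292880658 719775304980)

theorem p9_129 : Stab 9 719774040174 726468754494 := (Half.stab s542_t1 s454_t1 (by decide +kernel) : Stab 9 719774040174 726468754494)

theorem p9_130 : Stab 9 721308207007 731741881620 := (Half.stab s542_t1 s105_t4 (by decide +kernel) : Stab 9 721308207007 731741881620)

theorem p9_131 : Stab 9 731740583520 747466536180 := (Half.stab s800_t1 s105_t4 (by decide +kernel) : Stab 9 731740583520 747466536180)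

theorem p9_132 : Stab 9 747464358624 758478724980 := (Half.stab s311_t1 s345_t3 (by decide +kernel) : Stab 9 747464358624 758478724980)

theorem p9_133 : Stab 9 758476577074 769375337460 := (Half.stab s211_t1 s345_t3 (by decide +kernel) : Stab 9 758476577074 769375337460)

theorem p9_134 : Stab 9 769373149093 781638639540 := (Half.stab s151_t1 s345_t3 (by decide +kernel) : Stab 9 769373149093 781638639540)

theorem p9_135 : Stab 9 781637119319 787896220824 := (Half.stab s356_t1 s345_t3 (by decide +kernel) : Stab 9 781637119319 787896220824)

theorem p9_136 : Stab 9 783986551543 789555597300 := (Half.stab s356_t1 s564_t3 (by decide +kernel) : Stab 9 783986551543 789555597300)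

theorem p9_137 : Stab 9 789553458044 802512487860 := (Half.stab s732_t1 s564_t3 (by decide +kernel) : Stab 9 789553458044 802512487860)

theorem p9_138 : Stab 9 802508960210 809427384594 := (Half.stab s576_t2 s456_t1 (by decide +kernel) : Stab 9 802508960210 809427384594)

theorem p9_139 : Stab 9 809329935356 822919530108 := (Half.stab s714_t2 s456_t1 (by decide +kernel) : Stab 9 809329935356 822919530108)

theorem p9_140 : Stab 9 822918629933 834338454300 := (Half.stab s123_t1 s456_t1 (by decide +kernel) : Stab 9 822918629933 834338454300)

theorem p9_141 : Stab 9 834338290437 853427532456 := (Half.stab s181_t2 s135_t1 (by decide +kernel) : Stab 9 834338290437 853427532456)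

theorem p9_142 : Stab 9 853425614184 870333503940 := (Half.stab s397_t1 s135_t1 (by decide +kernel) : Stab 9 853425614184 870333503940)

theorem p9_143 : Stab 9 870330668800 876561772740 := (Half.stab s331_t2 s21_t1 (by decide +kernel) : Stab 9 870330668800 876561772740)

theorem p9_144 : Stab 9 876560129815 885519411036 := (Half.stab s331_t2 s393_t1 (by decide +kernel) : Stab 9 876560129815 885519411036)

theorem p9_145 : Stab 9 883066189367 890797231620 := (Half.stab s740_t1 s393_t1 (by decide +kernel) : Stab 9 883066189367 890797231620)

theorem p9_146 : Stab 9 890004304782 894646934280 := (Half.stab s740_t1 s156_t1 (by decide +kernel) : Stab 9 890004304782 894646934280)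

theorem p9_147 : Stab 9 894646020958 907053250980 := (Half.stab s348_t2 s156_t1 (by decide +kernel) : Stab 9 894646020958 907053250980)

theorem p9_148 : Stab 9 907050817970 923884880580 := (Half.stab s644_t2 s214_t1 (by decide +kernel) : Stab 9 907050817970 923884880580)

theorem p9_149 : Stab 9 923658197352 926724635928 := (Half.stab s836_t2 s762_t2 (by decide +kernel) : Stab 9 923658197352 926724635928)

theorem p9_150 : Stab 9 925292656677 932957891784 := (Half.stab s836_t2 s531_t2 (by decide +kernel) : Stab 9 925292656677 932957891784)

theorem p9_151 : Stab 9 932771395467 947084111496 := (Half.stab s836_t2 s93_t3 (by decide +kernel) : Stab 9 932771395467 947084111496)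

theorem p9_152 : Stab 9 946298129004 960376052232 := (Half.stab s836_t2 s789_t2 (by decide +kernel) : Stab 9 946298129004 960376052232)

theorem p9_153 : Stab 9 960375673665 963914558334 := (Half.stab s733_t2 s789_t2 (by decide +kernel) : Stab 9 960375673665 963914558334)

theorem p9_154 : Stab 9 963911692191 980591871294 := (Half.stab s733_t2 s568_t2 (by decide +kernel) : Stab 9 963911692191 980591871294)

theorem p9_155 : Stab 9 980589016620 988598860860 := (Half.stab s733_t2 s124_t2 (by decide +kernel) : Stab 9 980589016620 988598860860)

theorem p9_156 : Stab 9 982466537915 1004394646206 := (Half.stab s436_t4 s124_t2 (by decide +kernel) : Stab 9 982466537915 1004394646206)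

theorem p9_157 : Stab 9 1003410515986 1022579223582 := (Half.stab s436_t4 s867_t2 (by decide +kernel) : Stab 9 1003410515986 1022579223582)

theorem p9_158 : Stab 9 1017224389959 1035573609564 := (Half.stab s436_t4 s704_t3 (by decide +kernel) : Stab 9 1017224389959 1035573609564)

theorem p9_159 : Stab 9 1035572187591 1051517120472 := (Half.stab s533_t2 s704_t3 (by decide +kernel) : Stab 9 1035572187591 1051517120472)

theorem p9_160 : Stab 9 1051516849888 1075223989140 := (Half.stab s631_t1 s157_t3 (by decide +kernel) : Stab 9 1051516849888 1075223989140)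

theorem p9_161 : Stab 9 1075223582301 1089870672312 := (Half.stab s54_t2 s157_t3 (by decide +kernel) : Stab 9 1075223582301 1089870672312)

theorem p9_162 : Stab 9 1089867934341 1102337047956 := (Half.stab s582_t4 s508_t3 (by decide +kernel) : Stab 9 1089867934341 1102337047956)

theorem p9_163 : Stab 9 1102336294095 1116131978772 := (Half.stab s374_t1 s87_t1 (by decide +kernel) : Stab 9 1102336294095 1116131978772)

theorem p9_164 : Stab 9 1116131297848 1124992300740 := (Half.stab s439_t3 s87_t1 (by decide +kernel) : Stab 9 1116131297848 1124992300740)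

theorem p9_165 : Stab 9 1124987760604 1140418193544 := (Half.stab s439_t3 s297_t1 (by decide +kernel) : Stab 9 1124987760604 1140418193544)

theorem p9_166 : Stab 9 1136793432314 1146097372740 := (Half.stab s193_t8 s297_t1 (by decide +kernel) : Stab 9 1136793432314 1146097372740)

theorem p9_167 : Stab 9 1144631435153 1154336082504 := (Half.stab s193_t8 s108_t3 (by decide +kernel) : Stab 9 1144631435153 1154336082504)

theorem p9_168 : Stab 9 1151296455144 1164944823336 := (Half.stab s126_t2 s108_t3 (by decide +kernel) : Stab 9 1151296455144 1164944823336)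

theorem p9_169 : Stab 9 1163091285223 1175785849098 := (Half.stab s772_t3 s108_t3 (by decide +kernel) : Stab 9 1163091285223 1175785849098)

theorem p9_170 : Stab 9 1175784559310 1184009998794 := (Half.stab s109_t2 s108_t3 (by decide +kernel) : Stab 9 1175784559310 1184009998794)

theorem p9_171 : Stab 9 1184009150124 1190354720760 := (Half.stab s92_t2 s108_t3 (by decide +kernel) : Stab 9 1184009150124 1190354720760)

theorem p9_172 : Stab 9 1190353821039 1200897974094 := (Half.stab s470_t2 s810_t2 (by decide +kernel) : Stab 9 1190353821039 1200897974094)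

theorem p9_173 : Stab 9 1200894751801 1215348968952 := (Half.stab s411_t2 s810_t2 (by decide +kernel) : Stab 9 1200894751801 1215348968952)

theorem p9_174 : Stab 9 1215343695257 1226018898474 := (Half.stab s137_t2 s768_t1 (by decide +kernel) : Stab 9 1215343695257 1226018898474)

theorem p9_175 : Stab 9 1224841327850 1246851994302 := (Half.stab s152_t3 s768_t1 (by decide +kernel) : Stab 9 1224841327850 1246851994302)

theorem p9_176 : Stab 9 1246688960800 1252072378494 := (Half.stab s115_t1 s768_t1 (by decide +kernel) : Stab 9 1246688960800 1252072378494)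

theorem p9_177 : Stab 9 1252070464025 1265322237780 := (Half.stab s115_t1 s270_t2 (by decide +kernel) : Stab 9 1252070464025 1265322237780)

theorem p9_178 : Stab 9 1264115688769 1273983765726 := (Half.stab s758_t2 s270_t2 (by decide +kernel) : Stab 9 1264115688769 1273983765726)

theorem p9_179 : Stab 9 1273980880748 1284195432414 := (Half.stab s758_t2 s509_t1 (by decide +kernel) : Stab 9 1273980880748 1284195432414)

theorem p9_180 : Stab 9 1284194629523 1301133486174 := (Half.stab s76_t1 s509_t1 (by decide +kernel) : Stab 9 1284194629523 1301133486174)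

theorem p9_181 : Stab 9 1298097689102 1307989081854 := (Half.stab s273_t1 s509_t1 (by decide +kernel) : Stab 9 1298097689102 1307989081854)

theorem p9_182 : Stab 9 1307986312159 1318404832020 := (Half.stab s273_t1 s387_t1 (by decide +kernel) : Stab 9 1307986312159 1318404832020)

theorem p9_183 : Stab 9 1318398342894 1337536887582 := (Half.stab s449_t1 s387_t1 (by decide +kernel) : Stab 9 1318398342894 1337536887582)

theorem p9_184 : Stab 9 1337536652882 1359631494180 := (Half.stab s315_t3 s210_t1 (by decide +kernel) : Stab 9 1337536652882 1359631494180)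

theorem p9_185 : Stab 9 1359627280082 1374276066390 := (Half.stab s315_t3 s8_t1 (by decide +kernel) : Stab 9 1359627280082 1374276066390)

theorem p9_186 : Stab 9 1363049868887 1379116964580 := (Half.stab s142_t4 s8_t1 (by decide +kernel) : Stab 9 1363049868887 1379116964580)

theorem p9_187 : Stab 9 1379116825087 1422793122390 := (Half.stab s142_t4 s146_t2 (by decide +kernel) : Stab 9 1379116825087 1422793122390)

theorem p9_188 : Stab 9 1422792997810 1428678579540 := (Half.stab s394_t1 s877_t2 (by decide +kernel) : Stab 9 1422792997810 1428678579540)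

theorem p9_189 : Stab 9 1428671764494 1447496097726 := (Half.stab s744_t1 s877_t2 (by decide +kernel) : Stab 9 1428671764494 1447496097726)

theorem p9_190 : Stab 9 1447495988024 1472375551032 := (Half.stab s744_t1 s316_t2 (by decide +kernel) : Stab 9 1447495988024 1472375551032)

theorem p9_191 : Stab 9 1466253217728 1487367858312 := (Half.stab s744_t1 s236_t2 (by decide +kernel) : Stab 9 1466253217728 1487367858312)

theorem p9_192 : Stab 9 1487367712110 1500733485984 := (Half.stab s858_t1 s868_t3 (by decide +kernel) : Stab 9 1487367712110 1500733485984)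

theorem p9_193 : Stab 9 1500730756291 1516768504512 := (Half.stab s858_t1 s369_t3 (by decide +kernel) : Stab 9 1500730756291 1516768504512)

theorem p9_194 : Stab 9 1513076828448 1538130790740 := (Half.stab s858_t1 s373_t3 (by decide +kernel) : Stab 9 1513076828448 1538130790740)

theorem p9_195 : Stab 9 1538124838917 1551642394458 := (Half.stab s140_t1 s373_t3 (by decide +kernel) : Stab 9 1538124838917 1551642394458)

theorem p9_196 : Stab 9 1550170494252 1579023338964 := (Half.stab s140_t1 s582_t5 (by decide +kernel) : Stab 9 1550170494252 1579023338964)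

theorem p9_197 : Stab 9 1579022374706 1594768189620 := (Half.stab s140_t1 s374_t2 (by decide +kernel) : Stab 9 1579022374706 1594768189620)

theorem p9_198 : Stab 9 1594767803797 1636871785818 := (Half.stab s364_t1 s746_t3 (by decide +kernel) : Stab 9 1594767803797 1636871785818)

theorem p9_199 : Stab 9 1636870643765 1646521248180 := (Half.stab s364_t1 s473_t2 (by decide +kernel) : Stab 9 1636870643765 1646521248180)

theorem p9_200 : Stab 9 1646521107383 1663919493306 := (Half.stab s125_t3 s473_t2 (by decide +kernel) : Stab 9 1646521107383 1663919493306)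

theorem p9_201 : Stab 9 1653828702361 1684659992190 := (Half.stab s125_t3 s324_t1 (by decide +kernel) : Stab 9 1653828702361 1684659992190)

theorem p9_202 : Stab 9 1684655234450 1687241274120 := (Half.stab s125_t3 s827_t1 (by decide +kernel) : Stab 9 1684655234450 1687241274120)

theorem p9_203 : Stab 9 1686614115404 1706965015518 := (Half.stab s249_t8 s827_t1 (by decide +kernel) : Stab 9 1686614115404 1706965015518)

theorem p9_204 : Stab 9 1706964722862 1738046085000 := (Half.stab s249_t8 s580_t2 (by decide +kernel) : Stab 9 1706964722862 1738046085000)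

theorem p9_205 : Stab 9 1735351508818 1783625372382 := (Half.stab s249_t8 s380_t2 (by decide +kernel) : Stab 9 1735351508818 1783625372382)

theorem p9_206 : Stab 9 1757613136926 1795947593790 := (Half.stab s770_t3 s380_t2 (by decide +kernel) : Stab 9 1757613136926 1795947593790)

theorem p9_207 : Stab 9 1795942906873 1824370571880 := (Half.stab s770_t3 s33_t2 (by decide +kernel) : Stab 9 1795942906873 1824370571880)

theorem p9_208 : Stab 9 1824366773116 1873621478526 := (Half.stab s74_t3 s33_t2 (by decide +kernel) : Stab 9 1824366773116 1873621478526)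

theorem p9_209 : Stab 9 1841442866862 1902642621000 := (Half.stab s74_t3 s185_t6 (by decide +kernel) : Stab 9 1841442866862 1902642621000)

theorem p9_210 : Stab 9 1902642347590 1911563094888 := (Half.stab s74_t3 s562_t2 (by decide +kernel) : Stab 9 1902642347590 1911563094888)

theorem p9_211 : Stab 9 1911559675916 1953175680300 := (Half.stab s698_t2 s562_t2 (by decide +kernel) : Stab 9 1911559675916 1953175680300)

theorem p9_212 : Stab 9 1953174419606 1973633792328 := (Half.stab s698_t2 s773_t3 (by decide +kernel) : Stab 9 1953174419606 1973633792328)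

theorem p9_213 : Stab 9 1965506306738 1994060861676 := (Half.stab s597_t3 s773_t3 (by decide +kernel) : Stab 9 1965506306738 1994060861676)

theorem p9_214 : Stab 9 1994059094079 2025551378970 := (Half.stab s597_t3 s676_t2 (by decide +kernel) : Stab 9 1994059094079 2025551378970)

theorem p9_215 : Stab 9 2014430917161 2072249521836 := (Half.stab s372_t3 s676_t2 (by decide +kernel) : Stab 9 2014430917161 2072249521836)

theorem p9_216 : Stab 9 2072248822396 2144777547804 := (Half.stab s345_t7 s153_t6 (by decide +kernel) : Stab 9 2072248822396 2144777547804)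

theorem p9_217 : Stab 9 2144409778725 2188600613400 := (Half.stab s345_t7 s404_t3 (by decide +kernel) : Stab 9 2144409778725 2188600613400)

theorem p9_218 : Stab 9 2176165298195 2215825222950 := (Half.stab s622_t9 s404_t3 (by decide +kernel) : Stab 9 2176165298195 2215825222950)

theorem p9_219 : Stab 9 2215822652293 2257188466194 := (Half.stab s622_t9 s474_t4 (by decide +kernel) : Stab 9 2215822652293 2257188466194)

theorem p9_220 : Stab 9 2248909711997 2320275982950 := (Half.stab s195_t10 s474_t4 (by decide +kernel) : Stab 9 2248909711997 2320275982950)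

theorem p9_221 : Stab 9 2312627434169 2336044755354 := (Half.stab s195_t10 s604_t3 (by decide +kernel) : Stab 9 2312627434169 2336044755354)

theorem p9_222 : Stab 9 2336043497972 2380234550130 := (Half.stab s195_t10 s579_t5 (by decide +kernel) : Stab 9 2336043497972 2380234550130)

theorem p9_223 : Stab 9 2353103682687 2389489338366 := (Half.stab s461_t2 s579_t5 (by decide +kernel) : Stab 9 2353103682687 2389489338366)

theorem p9_224 : Stab 9 2389488326579 2433495260238 := (Half.stab s461_t2 s53_t7 (by decide +kernel) : Stab 9 2389488326579 2433495260238)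

theorem p9_225 : Stab 9 2428693621106 2454689802942 := (Half.stab s329_t1 s53_t7 (by decide +kernel) : Stab 9 2428693621106 2454689802942)

theorem p9_226 : Stab 9 2454689108297 2505058271310 := (Half.stab s329_t1 s48_t5 (by decide +kernel) : Stab 9 2454689108297 2505058271310)

theorem p9_227 : Stab 9 2505057631100 2575624458654 := (Half.stab s879_t1 s99_t2 (by decide +kernel) : Stab 9 2505057631100 2575624458654)

theorem p9_228 : Stab 9 2565720425609 2601012276648 := (Half.stab s440_t2 s836_t6 (by decide +kernel) : Stab 9 2565720425609 2601012276648)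

theorem p9_229 : Stab 9 2595786965127 2638628583102 := (Half.stab s852_t2 s836_t6 (by decide +kernel) : Stab 9 2595786965127 2638628583102)

theorem p9_230 : Stab 9 2638626611430 2667711256200 := (Half.stab s734_t3 s836_t6 (by decide +kernel) : Stab 9 2638626611430 2667711256200)

theorem p9_231 : Stab 9 2655740163182 2703470049150 := (Half.stab s734_t3 s138_t2 (by decide +kernel) : Stab 9 2655740163182 2703470049150)

theorem p9_232 : Stab 9 2692764375144 2727190049670 := (Half.stab s438_t2 s138_t2 (by decide +kernel) : Stab 9 2692764375144 2727190049670)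

theorem p9_233 : Stab 9 2727185461948 2788629331590 := (Half.stab s438_t2 s613_t2 (by decide +kernel) : Stab 9 2727185461948 2788629331590)

theorem p9_234 : Stab 9 2788627273271 2827998198672 := (Half.stab s438_t2 s47_t2 (by decide +kernel) : Stab 9 2788627273271 2827998198672)

theorem p9_235 : Stab 9 2827994863928 2845760013990 := (Half.stab s671_t6 s47_t2 (by decide +kernel) : Stab 9 2827994863928 2845760013990)

theorem p9_236 : Stab 9 2841360630138 2921040981054 := (Stab.scale s342_t0 (by decide +kernel) : Stab 9 (81 * 35078526298) (81 * 36062234334))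

theorem p9_237 : Stab 9 2904718007392 2974740371910 := (Half.stab s157_t8 s495_t3 (by decide +kernel) : Stab 9 2904718007392 2974740371910)

theorem p9_238 : Stab 9 2936823521273 3027418534200 := (Half.stab s157_t8 s313_t8 (by decide +kernel) : Stab 9 2936823521273 3027418534200)

theorem p9_239 : Stab 9 3027415329079 3075052803000 := (Half.stab s508_t6 s313_t8 (by decide +kernel) : Stab 9 3027415329079 3075052803000)

theorem p9_240 : Stab 9 3075052322682 3209555339838 := (Stab.scale s105_t0 (by decide +kernel) : Stab 9 (81 * 37963608922) (81 * 39624139998))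

theorem p9_241 : Stab 9 3208886110213 3322746017190 := (Half.stab s153_t9 s794_t4 (by decide +kernel) : Stab 9 3208886110213 3322746017190)

theorem p9_242 : Stab 9 3322745443447 3366375866580 := (Half.stab s218_t1 s715_t5 (by decide +kernel) : Stab 9 3322745443447 3366375866580)

theorem p9_243 : Stab 9 3331269114164 3480298893354 := (Half.stab s527_t4 s715_t5 (by decide +kernel) : Stab 9 3331269114164 3480298893354)

theorem p9_244 : Stab 9 3480295573536 3594781631346 := (Half.stab s241_t4 s622_t11 (by decide +kernel) : Stab 9 3480295573536 3594781631346)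

theorem p9_245 : Stab 9 3581597928200 3646961559978 := (Half.stab s241_t4 s195_t13 (by decide +kernel) : Stab 9 3581597928200 3646961559978)

theorem p9_246 : Stab 9 3646957859403 3790743913170 := (Half.stab s399_t2 s195_t13 (by decide +kernel) : Stab 9 3646957859403 3790743913170)

theorem p9_247 : Stab 9 3715177151208 3797529287082 := (Half.stab s399_t2 s28_t3 (by decide +kernel) : Stab 9 3715177151208 3797529287082)

theorem p9_248 : Stab 9 3797528920712 3887235712896 := (Half.stab s383_t9 s28_t3 (by decide +kernel) : Stab 9 3797528920712 3887235712896)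

theorem p9_249 : Stab 9 3869555030184 3955469027922 := (Half.stab s383_t9 s169_t3 (by decide +kernel) : Stab 9 3869555030184 3955469027922)

theorem p9_250 : Stab 9 3951070030799 4117335520356 := (Half.stab s738_t8 s529_t7 (by decide +kernel) : Stab 9 3951070030799 4117335520356)

theorem p9_251 : Stab 9 4117334591310 4304804942070 := (Half.stab s29_t5 s557_t10 (by decide +kernel) : Stab 9 4117334591310 4304804942070)

theorem p9_252 : Stab 9 4304798314295 4426544459106 := (Half.stab s792_t5 s594_t5 (by decide +kernel) : Stab 9 4304798314295 4426544459106)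

theorem p9_253 : Stab 9 4403264883660 4553556792606 := (Stab.scale s862_t0 (by decide +kernel) : Stab 9 (81 * 54361294860) (81 * 56216750526))

theorem p9_254 : Stab 9 4548743946999 4687704619902 := (Stab.scale s597_t0 (by decide +kernel) : Stab 9 (81 * 56157332679) (81 * 57872896542))

theorem p9_255 : Stab 9 4687702902459 4911495186078 := (Stab.scale s869_t0 (by decide +kernel) : Stab 9 (81 * 57872875339) (81 * 60635743038))

theorem p9_256 : Stab 9 4911493755618 5012559142686 := (Stab.scale s287_t0 (by decide +kernel) : Stab 9 (81 * 60635725378) (81 * 61883446206))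

theorem p9_257 : Stab 9 5012557427673 5047621573806 := (Stab.scale s109_t0 (by decide +kernel) : Stab 9 (81 * 61883425033) (81 * 62316315726))

theorem p9_258 : Stab 9 5047620133869 5078702346894 := (Stab.scale s92_t0 (by decide +kernel) : Stab 9 (81 * 62316297949) (81 * 62700028974))

theorem p9_259 : Stab 9 5078700873180 5113259676270 := (Stab.scale s212_t0 (by decide +kernel) : Stab 9 (81 * 62700010780) (81 * 63126662670))

theorem p9_260 : Stab 9 5113258140753 5162523342318 := (Stab.scale s37_t0 (by decide +kernel) : Stab 9 (81 * 63126643713) (81 * 63734856078))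

theorem p9_261 : Stab 9 5162521996179 5226712146126 := (Stab.scale s137_t0 (by decide +kernel) : Stab 9 (81 * 63734839459) (81 * 64527310446))

theorem p9_262 : Stab 9 5217744475689 5296569893994 := (Half.stab s60_t3 s312_t1 (by decide +kernel) : Stab 9 5217744475689 5296569893994)

theorem p9_263 : Stab 9 5296565964860 5405066900586 := (Half.stab s853_t1 s312_t1 (by decide +kernel) : Stab 9 5296565964860 5405066900586)

theorem p9_264 : Stab 9 5392190561121 5465123217486 := (Stab.scale s269_t0 (by decide +kernel) : Stab 9 (81 * 66570253841) (81 * 67470657006))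

theorem p9_265 : Stab 9 5434679539771 5535311402910 := (Half.stab s324_t2 s829_t3 (by decide +kernel) : Stab 9 5434679539771 5535311402910)

theorem p9_266 : Stab 9 5535306501820 5608599336702 := (Half.stab s827_t2 s829_t3 (by decide +kernel) : Stab 9 5535306501820 5608599336702)

theorem p9_267 : Stab 9 5595920325921 5659572928608 := (Half.stab s811_t5 s829_t3 (by decide +kernel) : Stab 9 5595920325921 5659572928608)

theorem p9_268 : Stab 9 5650543218096 5764279895406 := (Stab.scale s878_t0 (by decide +kernel) : Stab 9 (81 * 69759792816) (81 * 71163949326))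

theorem p9_269 : Stab 9 5764276773828 5836655225358 := (Stab.scale s256_t0 (by decide +kernel) : Stab 9 (81 * 71163910788) (81 * 72057471918))

theorem p9_270 : Stab 9 5836653748161 5938589934558 := (Stab.scale s9_t0 (by decide +kernel) : Stab 9 (81 * 72057453681) (81 * 73315925118))

theorem p9_271 : Stab 9 5938589080364 6181182538980 := (Half.stab s557_t14 s456_t7 (by decide +kernel) : Stab 9 5938589080364 6181182538980)

theorem p9_272 : Stab 9 6181181749557 6235415223822 := (Stab.scale s669_t0 (by decide +kernel) : Stab 9 (81 * 76310885797) (81 * 76980434862))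

theorem p9_273 : Stab 9 6235413379128 6303811481262 := (Stab.scale s483_t0 (by decide +kernel) : Stab 9 (81 * 76980412088) (81 * 77824833102))

theorem p9_274 : Stab 9 6303809887101 6383318942862 := (Stab.scale s306_t0 (by decide +kernel) : Stab 9 (81 * 77824813421) (81 * 78806406702))

theorem p9_275 : Stab 9 6383317068603 6450490052622 := (Stab.scale s91_t0 (by decide +kernel) : Stab 9 (81 * 78806383563) (81 * 79635679662))

theorem p9_276 : Stab 9 6450488558496 6614896523742 := (Stab.scale s373_t0 (by decide +kernel) : Stab 9 (81 * 79635661216) (81 * 81665389182))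

theorem p9_277 : Stab 9 6614895231225 6708883616622 := (Stab.scale s634_t0 (by decide +kernel) : Stab 9 (81 * 81665373225) (81 * 82825723662))

theorem p9_278 : Stab 9 6690086618679 6813119318094 := (Stab.scale s745_t0 (by decide +kernel) : Stab 9 (81 * 82593661959) (81 * 84112584174))

theorem p9_279 : Stab 9 6798750382872 6978242876382 := (Stab.scale s746_t0 (by decide +kernel) : Stab 9 (81 * 83935189912) (81 * 86151146622))

theorem p9_280 : Stab 9 6978240322776 7093551524094 := (Stab.scale s473_t0 (by decide +kernel) : Stab 9 (81 * 86151115096) (81 * 87574710174))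

theorem p9_281 : Stab 9 7093549722978 7234848496926 := (Stab.scale s136_t0 (by decide +kernel) : Stab 9 (81 * 87574687938) (81 * 89319117246))

theorem p9_282 : Stab 9 7234846967646 7358339813886 := (Stab.scale s85_t0 (by decide +kernel) : Stab 9 (81 * 89319098366) (81 * 90843701406))

theorem p9_283 : Stab 9 7358338079190 7504895213406 := (Stab.scale s254_t0 (by decide +kernel) : Stab 9 (81 * 90843679990) (81 * 92653027326))

theorem p9_284 : Stab 9 7451989561932 7622307968946 := (Half.stab s608_t2 s95_t5 (by decide +kernel) : Stab 9 7451989561932 7622307968946)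

theorem p9_285 : Stab 9 7601515358058 7689822532974 := (Stab.scale s190_t0 (by decide +kernel) : Stab 9 (81 * 93845868618) (81 * 94936080654))

theorem p9_286 : Stab 9 7689821951976 7734062773710 := (Half.stab s608_t2 s783_t1 (by decide +kernel) : Stab 9 7689821951976 7734062773710)

theorem p9_287 : Stab 9 7728226280907 7980019663842 := (Half.stab s840_t7 s783_t1 (by decide +kernel) : Stab 9 7728226280907 7980019663842)

theorem p9_288 : Stab 9 7980019192896 8173584698646 := (Half.stab s840_t7 s329_t4 (by decide +kernel) : Stab 9 7980019192896 8173584698646)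

theorem p9_289 : Stab 9 8168800225868 8514221777274 := (Half.stab s671_t11 s559_t3 (by decide +kernel) : Stab 9 8168800225868 8514221777274)

theorem p9_290 : Stab 9 8514219447045 8733125222244 := (Half.stab s535_t3 s441_t2 (by decide +kernel) : Stab 9 8514219447045 8733125222244)

theorem p9_291 : Stab 9 8733124521558 8835799133358 := (Stab.scale s654_t0 (by decide +kernel) : Stab 9 (81 * 107816352118) (81 * 109083939918))

theorem p9_292 : Stab 9 8835796435248 8935747265070 := (Stab.scale s88_t0 (by decide +kernel) : Stab 9 (81 * 109083906608) (81 * 110317867470))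

theorem p9_293 : Stab 9 8912352095288 9225535141764 := (Half.stab s135_t11 s195_t16 (by decide +kernel) : Stab 9 8912352095288 9225535141764)

theorem p9_294 : Stab 9 9225533505016 9363384559572 := (Half.stab s115_t4 s195_t16 (by decide +kernel) : Stab 9 9225533505016 9363384559572)

theorem p9_295 : Stab 9 9355675663080 9476694596142 := (Stab.scale s309_t0 (by decide +kernel) : Stab 9 (81 * 115502168680) (81 * 116996229582))

theorem p9_296 : Stab 9 9465285125763 9571122494910 := (Stab.scale s216_t0 (by decide +kernel) : Stab 9 (81 * 116855371923) (81 * 118162006110))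

theorem p9_297 : Stab 9 9535938444761 9745159128390 := (Half.stab s474_t9 s817_t5 (by decide +kernel) : Stab 9 9535938444761 9745159128390)

theorem p9_298 : Stab 9 9745156619064 9859103622270 := (Stab.scale s839_t0 (by decide +kernel) : Stab 9 (81 * 120310575544) (81 * 121717328670))

theorem p9_299 : Stab 9 9859100381136 9958927641246 := (Stab.scale s604_t0 (by decide +kernel) : Stab 9 (81 * 121717288656) (81 * 122949723966))

theorem p9_300 : Stab 9 9958924459242 10065438110430 := (Stab.scale s205_t0 (by decide +kernel) : Stab 9 (81 * 122949684682) (81 * 124264668030))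

theorem p9_301 : Stab 9 10065436663041 10179654059070 := (Stab.scale s106_t0 (by decide +kernel) : Stab 9 (81 * 124264650161) (81 * 125674741470))

theorem p9_302 : Stab 9 10123645143781 10438748237502 := (Half.stab s648_t1 s33_t6 (by decide +kernel) : Stab 9 10123645143781 10438748237502)

theorem p9_303 : Stab 9 10438747514666 10584758873004 := (Half.stab s648_t1 s656_t4 (by decide +kernel) : Stab 9 10438747514666 10584758873004)

theorem p9_304 : Stab 9 10584756602964 10701555540030 := (Stab.scale s262_t0 (by decide +kernel) : Stab 9 (81 * 130676007444) (81 * 132117969630))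

theorem p9_305 : Stab 9 10688899080783 10819021374882 := (Half.stab s430_t2 s656_t4 (by decide +kernel) : Stab 9 10688899080783 10819021374882)

theorem p9_306 : Stab 9 10777495729797 10913194617102 := (Stab.scale s303_t0 (by decide +kernel) : Stab 9 (81 * 133055502837) (81 * 134730797742))

theorem p9_307 : Stab 9 10911084958267 11101117008582 := (Half.stab s430_t2 s229_t3 (by decide +kernel) : Stab 9 10911084958267 11101117008582)

theorem p9_308 : Stab 9 11004669562860 11155015728846 := (Stab.scale s490_t0 (by decide +kernel) : Stab 9 (81 * 135860118060) (81 * 137716243566))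

theorem p9_309 : Stab 9 11155010443596 11319396791886 := (Stab.scale s832_t0 (by decide +kernel) : Stab 9 (81 * 137716178316) (81 * 139745639406))

theorem p9_310 : Stab 9 11319392003814 11545255910142 := (Stab.scale s286_t0 (by decide +kernel) : Stab 9 (81 * 139745580294) (81 * 142534023582))

theorem p9_311 : Stab 9 11545254478548 11622864472542 := (Stab.scale s290_t0 (by decide +kernel) : Stab 9 (81 * 142534005908) (81 * 143492153982))

theorem p9_312 : Stab 9 11622862943262 11728054436958 := (Stab.scale s213_t0 (by decide +kernel) : Stab 9 (81 * 143492135102) (81 * 144790795518))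

theorem p9_313 : Stab 9 11728052609436 11926297682190 := (Stab.scale s748_t0 (by decide +kernel) : Stab 9 (81 * 144790772956) (81 * 147238242990))

theorem p9_314 : Stab 9 11926296030924 12109805636814 := (Stab.scale s259_t0 (by decide +kernel) : Stab 9 (81 * 147238222604) (81 * 149503773294))

theorem p9_315 : Stab 9 12109803898149 12483486969966 := (Stab.scale s546_t0 (by decide +kernel) : Stab 9 (81 * 149503751829) (81 * 154117123086))

theorem p9_316 : Stab 9 12471883724259 12761734427118 := (Stab.scale s620_t0 (by decide +kernel) : Stab 9 (81 * 153973873139) (81 * 157552276878))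

theorem p9_317 : Stab 9 12761727769809 13050766636398 := (Stab.scale s34_t0 (by decide +kernel) : Stab 9 (81 * 157552194689) (81 * 161120575758))

theorem p9_318 : Stab 9 13050763976358 13316709234510 := (Stab.scale s379_t0 (by decide +kernel) : Stab 9 (81 * 161120542918) (81 * 164403817710))

theorem p9_319 : Stab 9 13316703774786 13652578352430 := (Stab.scale s362_t0 (by decide +kernel) : Stab 9 (81 * 164403750306) (81 * 168550350030))

theorem p9_320 : Stab 9 13652575326513 14057057303406 := (Stab.scale s482_t0 (by decide +kernel) : Stab 9 (81 * 168550312673) (81 * 173543917326))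

theorem p9_321 : Stab 9 14055997592556 14201747337726 := (Stab.scale s402_t0 (by decide +kernel) : Stab 9 (81 * 173530834476) (81 * 175330214046))

theorem p9_322 : Stab 9 14201742493602 14837063703246 := (Stab.scale s527_t0 (by decide +kernel) : Stab 9 (81 * 175330154242) (81 * 183173625966))

def Ls9 : List (ℕ × ℕ) := [(179594982489, 184963082784), (184963063684, 189169005600), (189168982800, 193732128768), (193732110286, 198319821840), (198319802666, 203201038080), (203200977218, 206370370848), (206370312767, 209500719792), (209500678115, 218540111424), (218540089016, 228660924288), (228660905927, 233190110928), (233190092345, 237216825168), (237216804696, 241488771936), (241488728120, 247781030736), (247780991017, 252337904352), (252337866780, 257341899888), (257341877268, 261411635856), (261411613496, 265993201344), (265993181534, 269827014960), (269826997308, 274488350736), (274488328302, 280117409184), (280117386945, 286500460368), (286500442394, 291366491520), (291366468690, 297130187520), (297130170314, 302486879328), (302486860377, 306926598048), (306926578389, 319687469376), (319687451026,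 332916054624), (332915995096, 336677189040), (336677121341, 346926368592), (346926352399, 351603553632), (351603532890, 358518160656), (358518107808, 362391178128), (362391128461, 372547636656), (372547600841, 376140741360), (376140659360, 379602897552), (379602860011, 385295268624), (385295247414, 389458482000), (389458463742, 395072499600), (395072460808, 398412242544), (398412199860, 404999453808), (404999416235, 412762249872), (412762231896, 421178275248), (421178253742, 436927258320), (436927241597, 450829885152), (450829799830, 459470656320), (459470605390, 467348073600), (467347960552, 473359680144), (473359613023, 481489172892), (481489057638, 490797902574), (490797692345, 496069226340), (496068987910, 505187649564), (505187349225, 513316568700), (513316289401, 518597429532), (518131799982, 527777915700), (523970279496, 537774096444), (537773246662, 550937652252), (550174076588, 556396691940), (555970418053, 570588305070), (570433840697, 580251694608), (576315469126, 589688917380), (587796941229, 603999716976), (603999684676, 614045147490), (609602974832, 618698303298), (618697761779,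 626444777742), (625695502103, 628840887426), (627298423085, 639170363016), (639169047622, 647777014470), (647776699357, 654811914024), (654811092305, 662919811848), (662918837613, 667030537380), (666491637151, 684951343560), (684776157266, 697323643422), (697323517097, 707294804958), (707292880658, 719775304980), (719774040174, 726468754494), (721308207007, 731741881620), (731740583520, 747466536180), (747464358624, 758478724980), (758476577074, 769375337460), (769373149093, 781638639540), (781637119319, 787896220824), (783986551543, 789555597300), (789553458044, 802512487860), (802508960210, 809427384594), (809329935356, 822919530108), (822918629933, 834338454300), (834338290437, 853427532456), (853425614184, 870333503940), (870330668800, 876561772740), (876560129815, 885519411036), (883066189367, 890797231620), (890004304782, 894646934280), (894646020958, 907053250980), (907050817970, 923884880580), (923658197352, 926724635928), (925292656677, 932957891784), (932771395467, 947084111496), (946298129004, 960376052232), (960375673665, 963914558334), (963911692191, 980591871294), (980589016620,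 988598860860), (982466537915, 1004394646206), (1003410515986, 1022579223582), (1017224389959, 1035573609564), (1035572187591, 1051517120472), (1051516849888, 1075223989140), (1075223582301, 1089870672312), (1089867934341, 1102337047956), (1102336294095, 1116131978772), (1116131297848, 1124992300740), (1124987760604, 1140418193544), (1136793432314, 1146097372740), (1144631435153, 1154336082504), (1151296455144, 1164944823336), (1163091285223, 1175785849098), (1175784559310, 1184009998794), (1184009150124, 1190354720760), (1190353821039, 1200897974094), (1200894751801, 1215348968952), (1215343695257, 1226018898474), (1224841327850, 1246851994302), (1246688960800, 1252072378494), (1252070464025, 1265322237780), (1264115688769, 1273983765726), (1273980880748, 1284195432414), (1284194629523, 1301133486174), (1298097689102, 1307989081854), (1307986312159, 1318404832020), (1318398342894, 1337536887582), (1337536652882, 1359631494180), (1359627280082, 1374276066390), (1363049868887, 1379116964580), (1379116825087, 1422793122390), (1422792997810, 1428678579540), (1428671764494, 1447496097726), (1447495988024,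 1472375551032), (1466253217728, 1487367858312), (1487367712110, 1500733485984), (1500730756291, 1516768504512), (1513076828448, 1538130790740), (1538124838917, 1551642394458), (1550170494252, 1579023338964), (1579022374706, 1594768189620), (1594767803797, 1636871785818), (1636870643765, 1646521248180), (1646521107383, 1663919493306), (1653828702361, 1684659992190), (1684655234450, 1687241274120), (1686614115404, 1706965015518), (1706964722862, 1738046085000), (1735351508818, 1783625372382), (1757613136926, 1795947593790), (1795942906873, 1824370571880), (1824366773116, 1873621478526), (1841442866862, 1902642621000), (1902642347590, 1911563094888), (1911559675916, 1953175680300), (1953174419606, 1973633792328), (1965506306738, 1994060861676), (1994059094079, 2025551378970), (2014430917161, 2072249521836), (2072248822396, 2144777547804), (2144409778725, 2188600613400), (2176165298195, 2215825222950), (2215822652293, 2257188466194), (2248909711997, 2320275982950), (2312627434169, 2336044755354), (2336043497972, 2380234550130), (2353103682687, 2389489338366), (2389488326579, 2433495260238), (2428693621106,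 2454689802942), (2454689108297, 2505058271310), (2505057631100, 2575624458654), (2565720425609, 2601012276648), (2595786965127, 2638628583102), (2638626611430, 2667711256200), (2655740163182, 2703470049150), (2692764375144, 2727190049670), (2727185461948, 2788629331590), (2788627273271, 2827998198672), (2827994863928, 2845760013990), (2841360630138, 2921040981054), (2904718007392, 2974740371910), (2936823521273, 3027418534200), (3027415329079, 3075052803000), (3075052322682, 3209555339838), (3208886110213, 3322746017190), (3322745443447, 3366375866580), (3331269114164, 3480298893354), (3480295573536, 3594781631346), (3581597928200, 3646961559978), (3646957859403, 3790743913170), (3715177151208, 3797529287082), (3797528920712, 3887235712896), (3869555030184, 3955469027922), (3951070030799, 4117335520356), (4117334591310, 4304804942070), (4304798314295, 4426544459106), (4403264883660, 4553556792606), (4548743946999, 4687704619902), (4687702902459, 4911495186078), (4911493755618, 5012559142686), (5012557427673, 5047621573806), (5047620133869, 5078702346894), (5078700873180, 5113259676270), (5113258140753,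 5162523342318), (5162521996179, 5226712146126), (5217744475689, 5296569893994), (5296565964860, 5405066900586), (5392190561121, 5465123217486), (5434679539771, 5535311402910), (5535306501820, 5608599336702), (5595920325921, 5659572928608), (5650543218096, 5764279895406), (5764276773828, 5836655225358), (5836653748161, 5938589934558), (5938589080364, 6181182538980), (6181181749557, 6235415223822), (6235413379128, 6303811481262), (6303809887101, 6383318942862), (6383317068603, 6450490052622), (6450488558496, 6614896523742), (6614895231225, 6708883616622), (6690086618679, 6813119318094), (6798750382872, 6978242876382), (6978240322776, 7093551524094), (7093549722978, 7234848496926), (7234846967646, 7358339813886), (7358338079190, 7504895213406), (7451989561932, 7622307968946), (7601515358058, 7689822532974), (7689821951976, 7734062773710), (7728226280907, 7980019663842), (7980019192896, 8173584698646), (8168800225868, 8514221777274), (8514219447045, 8733125222244), (8733124521558, 8835799133358), (8835796435248, 8935747265070), (8912352095288, 9225535141764), (9225533505016, 9363384559572), (9355675663080,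 9476694596142), (9465285125763, 9571122494910), (9535938444761, 9745159128390), (9745156619064, 9859103622270), (9859100381136, 9958927641246), (9958924459242, 10065438110430), (10065436663041, 10179654059070), (10123645143781, 10438748237502), (10438747514666, 10584758873004), (10584756602964, 10701555540030), (10688899080783, 10819021374882), (10777495729797, 10913194617102), (10911084958267, 11101117008582), (11004669562860, 11155015728846), (11155010443596, 11319396791886), (11319392003814, 11545255910142), (11545254478548, 11622864472542), (11622862943262, 11728054436958), (11728052609436, 11926297682190), (11926296030924, 12109805636814), (12109803898149, 12483486969966), (12471883724259, 12761734427118), (12761727769809, 13050766636398), (13050763976358, 13316709234510), (13316703774786, 13652578352430), (13652575326513, 14057057303406), (14055997592556, 14201747337726), (14201742493602, 14837063703246)]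

theorem Ls9_spec : ∀ w ∈ Ls9, Stab 9 w.1 w.2 :=
  (sfcons (a := ((179594982489 : ℕ), (184963082784 : ℕ))) p9_55 (sfcons (a := ((184963063684 : ℕ), (189169005600 : ℕ))) p9_56 (sfcons (a := ((189168982800 : ℕ), (193732128768 : ℕ))) p9_57 (sfcons (a := ((193732110286 : ℕ), (198319821840 : ℕ))) p9_58 (sfcons (a := ((198319802666 : ℕ), (203201038080 : ℕ))) p9_59 (sfcons (a := ((203200977218 : ℕ), (206370370848 : ℕ))) p9_60 (sfcons (a := ((206370312767 : ℕ), (209500719792 : ℕ))) p9_61 (sfcons (a := ((209500678115 : ℕ), (218540111424 : ℕ))) p9_62 (sfcons (a := ((218540089016 : ℕ), (228660924288 : ℕ))) p9_63 (sfcons (a := ((228660905927 : ℕ), (233190110928 : ℕ))) p9_64 (sfcons (a := ((233190092345 : ℕ), (237216825168 : ℕ))) p9_65 (sfcons (a := ((237216804696 : ℕ), (241488771936 : ℕ))) p9_66 (sfcons (a := ((241488728120 : ℕ), (247781030736 : ℕ))) p9_67 (sfcons (a := ((247780991017 : ℕ), (252337904352 : ℕ))) p9_68 (sfcons (a := ((252337866780 : ℕ), (257341899888 : ℕ))) p9_69 (sfcons (a := ((257341877268 : ℕ), (261411635856 : ℕ))) p9_70 (sfcons (a := ((261411613496 : ℕ), (265993201344 : ℕ))) p9_71 (sfcons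 (a := ((265993181534 : ℕ), (269827014960 : ℕ))) p9_72 (sfcons (a := ((269826997308 : ℕ), (274488350736 : ℕ))) p9_73 (sfcons (a := ((274488328302 : ℕ), (280117409184 : ℕ))) p9_74 (sfcons (a := ((280117386945 : ℕ), (286500460368 : ℕ))) p9_75 (sfcons (a := ((286500442394 : ℕ), (291366491520 : ℕ))) p9_76 (sfcons (a := ((291366468690 : ℕ), (297130187520 : ℕ))) p9_77 (sfcons (a := ((297130170314 : ℕ), (302486879328 : ℕ))) p9_78 (sfcons (a := ((302486860377 : ℕ), (306926598048 : ℕ))) p9_79 (sfcons (a := ((306926578389 : ℕ), (319687469376 : ℕ))) p9_80 (sfcons (a := ((319687451026 : ℕ), (332916054624 : ℕ))) p9_81 (sfcons (a := ((332915995096 : ℕ), (336677189040 : ℕ))) p9_82 (sfcons (a := ((336677121341 : ℕ), (346926368592 : ℕ))) p9_83 (sfcons (a := ((346926352399 : ℕ), (351603553632 : ℕ))) p9_84 (sfcons (a := ((351603532890 : ℕ), (358518160656 : ℕ))) p9_85 (sfcons (a := ((358518107808 : ℕ), (362391178128 : ℕ))) p9_86 (sfcons (a := ((362391128461 : ℕ), (372547636656 : ℕ))) p9_87 (sfcons (a := ((372547600841 : ℕ), (376140741360 : ℕ))) p9_88 (sfcons (a := ((376140659360 : ℕ), (379602897552 : ℕ))) p9_89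 (sfcons (a := ((379602860011 : ℕ), (385295268624 : ℕ))) p9_90 (sfcons (a := ((385295247414 : ℕ), (389458482000 : ℕ))) p9_91 (sfcons (a := ((389458463742 : ℕ), (395072499600 : ℕ))) p9_92 (sfcons (a := ((395072460808 : ℕ), (398412242544 : ℕ))) p9_93 (sfcons (a := ((398412199860 : ℕ), (404999453808 : ℕ))) p9_94 (sfcons (a := ((404999416235 : ℕ), (412762249872 : ℕ))) p9_95 (sfcons (a := ((412762231896 : ℕ), (421178275248 : ℕ))) p9_96 (sfcons (a := ((421178253742 : ℕ), (436927258320 : ℕ))) p9_97 (sfcons (a := ((436927241597 : ℕ), (450829885152 : ℕ))) p9_98 (sfcons (a := ((450829799830 : ℕ), (459470656320 : ℕ))) p9_99 (sfcons (a := ((459470605390 : ℕ), (467348073600 : ℕ))) p9_100 (sfcons (a := ((467347960552 : ℕ), (473359680144 : ℕ))) p9_101 (sfcons (a := ((473359613023 : ℕ), (481489172892 : ℕ))) p9_102 (sfcons (a := ((481489057638 : ℕ), (490797902574 : ℕ))) p9_103 (sfcons (a := ((490797692345 : ℕ), (496069226340 : ℕ))) p9_104 (sfcons (a := ((496068987910 : ℕ), (505187649564 : ℕ))) p9_105 (sfcons (a := ((505187349225 : ℕ), (513316568700 : ℕ))) p9_106 (sfcons (a := ((513316289401 : ℕ), (518597429532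 : ℕ))) p9_107 (sfcons (a := ((518131799982 : ℕ), (527777915700 : ℕ))) p9_108 (sfcons (a := ((523970279496 : ℕ), (537774096444 : ℕ))) p9_109 (sfcons (a := ((537773246662 : ℕ), (550937652252 : ℕ))) p9_110 (sfcons (a := ((550174076588 : ℕ), (556396691940 : ℕ))) p9_111 (sfcons (a := ((555970418053 : ℕ), (570588305070 : ℕ))) p9_112 (sfcons (a := ((570433840697 : ℕ), (580251694608 : ℕ))) p9_113 (sfcons (a := ((576315469126 : ℕ), (589688917380 : ℕ))) p9_114 (sfcons (a := ((587796941229 : ℕ), (603999716976 : ℕ))) p9_115 (sfcons (a := ((603999684676 : ℕ), (614045147490 : ℕ))) p9_116 (sfcons (a := ((609602974832 : ℕ), (618698303298 : ℕ))) p9_117 (sfcons (a := ((618697761779 : ℕ), (626444777742 : ℕ))) p9_118 (sfcons (a := ((625695502103 : ℕ), (628840887426 : ℕ))) p9_119 (sfcons (a := ((627298423085 : ℕ), (639170363016 : ℕ))) p9_120 (sfcons (a := ((639169047622 : ℕ), (647777014470 : ℕ))) p9_121 (sfcons (a := ((647776699357 : ℕ), (654811914024 : ℕ))) p9_122 (sfcons (a := ((654811092305 : ℕ), (662919811848 : ℕ))) p9_123 (sfcons (a := ((662918837613 : ℕ), (667030537380 : ℕ))) p9_124 (sfcons (a := ((666491637151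 : ℕ), (684951343560 : ℕ))) p9_125 (sfcons (a := ((684776157266 : ℕ), (697323643422 : ℕ))) p9_126 (sfcons (a := ((697323517097 : ℕ), (707294804958 : ℕ))) p9_127 (sfcons (a := ((707292880658 : ℕ), (719775304980 : ℕ))) p9_128 (sfcons (a := ((719774040174 : ℕ), (726468754494 : ℕ))) p9_129 (sfcons (a := ((721308207007 : ℕ), (731741881620 : ℕ))) p9_130 (sfcons (a := ((731740583520 : ℕ), (747466536180 : ℕ))) p9_131 (sfcons (a := ((747464358624 : ℕ), (758478724980 : ℕ))) p9_132 (sfcons (a := ((758476577074 : ℕ), (769375337460 : ℕ))) p9_133 (sfcons (a := ((769373149093 : ℕ), (781638639540 : ℕ))) p9_134 (sfcons (a := ((781637119319 : ℕ), (787896220824 : ℕ))) p9_135 (sfcons (a := ((783986551543 : ℕ), (789555597300 : ℕ))) p9_136 (sfcons (a := ((789553458044 : ℕ), (802512487860 : ℕ))) p9_137 (sfcons (a := ((802508960210 : ℕ), (809427384594 : ℕ))) p9_138 (sfcons (a := ((809329935356 : ℕ), (822919530108 : ℕ))) p9_139 (sfcons (a := ((822918629933 : ℕ), (834338454300 : ℕ))) p9_140 (sfcons (a := ((834338290437 : ℕ), (853427532456 : ℕ))) p9_141 (sfcons (a := ((853425614184 : ℕ), (870333503940 : ℕ))) p9_142 (sfcons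 (a := ((870330668800 : ℕ), (876561772740 : ℕ))) p9_143 (sfcons (a := ((876560129815 : ℕ), (885519411036 : ℕ))) p9_144 (sfcons (a := ((883066189367 : ℕ), (890797231620 : ℕ))) p9_145 (sfcons (a := ((890004304782 : ℕ), (894646934280 : ℕ))) p9_146 (sfcons (a := ((894646020958 : ℕ), (907053250980 : ℕ))) p9_147 (sfcons (a := ((907050817970 : ℕ), (923884880580 : ℕ))) p9_148 (sfcons (a := ((923658197352 : ℕ), (926724635928 : ℕ))) p9_149 (sfcons (a := ((925292656677 : ℕ), (932957891784 : ℕ))) p9_150 (sfcons (a := ((932771395467 : ℕ), (947084111496 : ℕ))) p9_151 (sfcons (a := ((946298129004 : ℕ), (960376052232 : ℕ))) p9_152 (sfcons (a := ((960375673665 : ℕ), (963914558334 : ℕ))) p9_153 (sfcons (a := ((963911692191 : ℕ), (980591871294 : ℕ))) p9_154 (sfcons (a := ((980589016620 : ℕ), (988598860860 : ℕ))) p9_155 (sfcons (a := ((982466537915 : ℕ), (1004394646206 : ℕ))) p9_156 (sfcons (a := ((1003410515986 : ℕ), (1022579223582 : ℕ))) p9_157 (sfcons (a := ((1017224389959 : ℕ), (1035573609564 : ℕ))) p9_158 (sfcons (a := ((1035572187591 : ℕ), (1051517120472 : ℕ))) p9_159 (sfcons (a := ((1051516849888 : ℕ), (1075223989140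 : ℕ))) p9_160 (sfcons (a := ((1075223582301 : ℕ), (1089870672312 : ℕ))) p9_161 (sfcons (a := ((1089867934341 : ℕ), (1102337047956 : ℕ))) p9_162 (sfcons (a := ((1102336294095 : ℕ), (1116131978772 : ℕ))) p9_163 (sfcons (a := ((1116131297848 : ℕ), (1124992300740 : ℕ))) p9_164 (sfcons (a := ((1124987760604 : ℕ), (1140418193544 : ℕ))) p9_165 (sfcons (a := ((1136793432314 : ℕ), (1146097372740 : ℕ))) p9_166 (sfcons (a := ((1144631435153 : ℕ), (1154336082504 : ℕ))) p9_167 (sfcons (a := ((1151296455144 : ℕ), (1164944823336 : ℕ))) p9_168 (sfcons (a := ((1163091285223 : ℕ), (1175785849098 : ℕ))) p9_169 (sfcons (a := ((1175784559310 : ℕ), (1184009998794 : ℕ))) p9_170 (sfcons (a := ((1184009150124 : ℕ), (1190354720760 : ℕ))) p9_171 (sfcons (a := ((1190353821039 : ℕ), (1200897974094 : ℕ))) p9_172 (sfcons (a := ((1200894751801 : ℕ), (1215348968952 : ℕ))) p9_173 (sfcons (a := ((1215343695257 : ℕ), (1226018898474 : ℕ))) p9_174 (sfcons (a := ((1224841327850 : ℕ), (1246851994302 : ℕ))) p9_175 (sfcons (a := ((1246688960800 : ℕ), (1252072378494 : ℕ))) p9_176 (sfcons (a := ((1252070464025 : ℕ), (1265322237780 : ℕ)))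 p9_177 (sfcons (a := ((1264115688769 : ℕ), (1273983765726 : ℕ))) p9_178 (sfcons (a := ((1273980880748 : ℕ), (1284195432414 : ℕ))) p9_179 (sfcons (a := ((1284194629523 : ℕ), (1301133486174 : ℕ))) p9_180 (sfcons (a := ((1298097689102 : ℕ), (1307989081854 : ℕ))) p9_181 (sfcons (a := ((1307986312159 : ℕ), (1318404832020 : ℕ))) p9_182 (sfcons (a := ((1318398342894 : ℕ), (1337536887582 : ℕ))) p9_183 (sfcons (a := ((1337536652882 : ℕ), (1359631494180 : ℕ))) p9_184 (sfcons (a := ((1359627280082 : ℕ), (1374276066390 : ℕ))) p9_185 (sfcons (a := ((1363049868887 : ℕ), (1379116964580 : ℕ))) p9_186 (sfcons (a := ((1379116825087 : ℕ), (1422793122390 : ℕ))) p9_187 (sfcons (a := ((1422792997810 : ℕ), (1428678579540 : ℕ))) p9_188 (sfcons (a := ((1428671764494 : ℕ), (1447496097726 : ℕ))) p9_189 (sfcons (a := ((1447495988024 : ℕ), (1472375551032 : ℕ))) p9_190 (sfcons (a := ((1466253217728 : ℕ), (1487367858312 : ℕ))) p9_191 (sfcons (a := ((1487367712110 : ℕ), (1500733485984 : ℕ))) p9_192 (sfcons (a := ((1500730756291 : ℕ), (1516768504512 : ℕ))) p9_193 (sfcons (a := ((1513076828448 : ℕ), (1538130790740 : ℕ))) p9_194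 (sfcons (a := ((1538124838917 : ℕ), (1551642394458 : ℕ))) p9_195 (sfcons (a := ((1550170494252 : ℕ), (1579023338964 : ℕ))) p9_196 (sfcons (a := ((1579022374706 : ℕ), (1594768189620 : ℕ))) p9_197 (sfcons (a := ((1594767803797 : ℕ), (1636871785818 : ℕ))) p9_198 (sfcons (a := ((1636870643765 : ℕ), (1646521248180 : ℕ))) p9_199 (sfcons (a := ((1646521107383 : ℕ), (1663919493306 : ℕ))) p9_200 (sfcons (a := ((1653828702361 : ℕ), (1684659992190 : ℕ))) p9_201 (sfcons (a := ((1684655234450 : ℕ), (1687241274120 : ℕ))) p9_202 (sfcons (a := ((1686614115404 : ℕ), (1706965015518 : ℕ))) p9_203 (sfcons (a := ((1706964722862 : ℕ), (1738046085000 : ℕ))) p9_204 (sfcons (a := ((1735351508818 : ℕ), (1783625372382 : ℕ))) p9_205 (sfcons (a := ((1757613136926 : ℕ), (1795947593790 : ℕ))) p9_206 (sfcons (a := ((1795942906873 : ℕ), (1824370571880 : ℕ))) p9_207 (sfcons (a := ((1824366773116 : ℕ), (1873621478526 : ℕ))) p9_208 (sfcons (a := ((1841442866862 : ℕ), (1902642621000 : ℕ))) p9_209 (sfcons (a := ((1902642347590 : ℕ), (1911563094888 : ℕ))) p9_210 (sfcons (a := ((1911559675916 : ℕ), (1953175680300 : ℕ))) p9_211 (sfcons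 (a := ((1953174419606 : ℕ), (1973633792328 : ℕ))) p9_212 (sfcons (a := ((1965506306738 : ℕ), (1994060861676 : ℕ))) p9_213 (sfcons (a := ((1994059094079 : ℕ), (2025551378970 : ℕ))) p9_214 (sfcons (a := ((2014430917161 : ℕ), (2072249521836 : ℕ))) p9_215 (sfcons (a := ((2072248822396 : ℕ), (2144777547804 : ℕ))) p9_216 (sfcons (a := ((2144409778725 : ℕ), (2188600613400 : ℕ))) p9_217 (sfcons (a := ((2176165298195 : ℕ), (2215825222950 : ℕ))) p9_218 (sfcons (a := ((2215822652293 : ℕ), (2257188466194 : ℕ))) p9_219 (sfcons (a := ((2248909711997 : ℕ), (2320275982950 : ℕ))) p9_220 (sfcons (a := ((2312627434169 : ℕ), (2336044755354 : ℕ))) p9_221 (sfcons (a := ((2336043497972 : ℕ), (2380234550130 : ℕ))) p9_222 (sfcons (a := ((2353103682687 : ℕ), (2389489338366 : ℕ))) p9_223 (sfcons (a := ((2389488326579 : ℕ), (2433495260238 : ℕ))) p9_224 (sfcons (a := ((2428693621106 : ℕ), (2454689802942 : ℕ))) p9_225 (sfcons (a := ((2454689108297 : ℕ), (2505058271310 : ℕ))) p9_226 (sfcons (a := ((2505057631100 : ℕ), (2575624458654 : ℕ))) p9_227 (sfcons (a := ((2565720425609 : ℕ), (2601012276648 : ℕ))) p9_228 (sfcons (a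 := ((2595786965127 : ℕ), (2638628583102 : ℕ))) p9_229 (sfcons (a := ((2638626611430 : ℕ), (2667711256200 : ℕ))) p9_230 (sfcons (a := ((2655740163182 : ℕ), (2703470049150 : ℕ))) p9_231 (sfcons (a := ((2692764375144 : ℕ), (2727190049670 : ℕ))) p9_232 (sfcons (a := ((2727185461948 : ℕ), (2788629331590 : ℕ))) p9_233 (sfcons (a := ((2788627273271 : ℕ), (2827998198672 : ℕ))) p9_234 (sfcons (a := ((2827994863928 : ℕ), (2845760013990 : ℕ))) p9_235 (sfcons (a := ((2841360630138 : ℕ), (2921040981054 : ℕ))) p9_236 (sfcons (a := ((2904718007392 : ℕ), (2974740371910 : ℕ))) p9_237 (sfcons (a := ((2936823521273 : ℕ), (3027418534200 : ℕ))) p9_238 (sfcons (a := ((3027415329079 : ℕ), (3075052803000 : ℕ))) p9_239 (sfcons (a := ((3075052322682 : ℕ), (3209555339838 : ℕ))) p9_240 (sfcons (a := ((3208886110213 : ℕ), (3322746017190 : ℕ))) p9_241 (sfcons (a := ((3322745443447 : ℕ), (3366375866580 : ℕ))) p9_242 (sfcons (a := ((3331269114164 : ℕ), (3480298893354 : ℕ))) p9_243 (sfcons (a := ((3480295573536 : ℕ), (3594781631346 : ℕ))) p9_244 (sfcons (a := ((3581597928200 : ℕ), (3646961559978 : ℕ))) p9_245 (sfcons (a :=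 ((3646957859403 : ℕ), (3790743913170 : ℕ))) p9_246 (sfcons (a := ((3715177151208 : ℕ), (3797529287082 : ℕ))) p9_247 (sfcons (a := ((3797528920712 : ℕ), (3887235712896 : ℕ))) p9_248 (sfcons (a := ((3869555030184 : ℕ), (3955469027922 : ℕ))) p9_249 (sfcons (a := ((3951070030799 : ℕ), (4117335520356 : ℕ))) p9_250 (sfcons (a := ((4117334591310 : ℕ), (4304804942070 : ℕ))) p9_251 (sfcons (a := ((4304798314295 : ℕ), (4426544459106 : ℕ))) p9_252 (sfcons (a := ((4403264883660 : ℕ), (4553556792606 : ℕ))) p9_253 (sfcons (a := ((4548743946999 : ℕ), (4687704619902 : ℕ))) p9_254 (sfcons (a := ((4687702902459 : ℕ), (4911495186078 : ℕ))) p9_255 (sfcons (a := ((4911493755618 : ℕ), (5012559142686 : ℕ))) p9_256 (sfcons (a := ((5012557427673 : ℕ), (5047621573806 : ℕ))) p9_257 (sfcons (a := ((5047620133869 : ℕ), (5078702346894 : ℕ))) p9_258 (sfcons (a := ((5078700873180 : ℕ), (5113259676270 : ℕ))) p9_259 (sfcons (a := ((5113258140753 : ℕ), (5162523342318 : ℕ))) p9_260 (sfcons (a := ((5162521996179 : ℕ), (5226712146126 : ℕ))) p9_261 (sfcons (a := ((5217744475689 : ℕ), (5296569893994 : ℕ))) p9_262 (sfcons (a := ((5296565964860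 : ℕ), (5405066900586 : ℕ))) p9_263 (sfcons (a := ((5392190561121 : ℕ), (5465123217486 : ℕ))) p9_264 (sfcons (a := ((5434679539771 : ℕ), (5535311402910 : ℕ))) p9_265 (sfcons (a := ((5535306501820 : ℕ), (5608599336702 : ℕ))) p9_266 (sfcons (a := ((5595920325921 : ℕ), (5659572928608 : ℕ))) p9_267 (sfcons (a := ((5650543218096 : ℕ), (5764279895406 : ℕ))) p9_268 (sfcons (a := ((5764276773828 : ℕ), (5836655225358 : ℕ))) p9_269 (sfcons (a := ((5836653748161 : ℕ), (5938589934558 : ℕ))) p9_270 (sfcons (a := ((5938589080364 : ℕ), (6181182538980 : ℕ))) p9_271 (sfcons (a := ((6181181749557 : ℕ), (6235415223822 : ℕ))) p9_272 (sfcons (a := ((6235413379128 : ℕ), (6303811481262 : ℕ))) p9_273 (sfcons (a := ((6303809887101 : ℕ), (6383318942862 : ℕ))) p9_274 (sfcons (a := ((6383317068603 : ℕ), (6450490052622 : ℕ))) p9_275 (sfcons (a := ((6450488558496 : ℕ), (6614896523742 : ℕ))) p9_276 (sfcons (a := ((6614895231225 : ℕ), (6708883616622 : ℕ))) p9_277 (sfcons (a := ((6690086618679 : ℕ), (6813119318094 : ℕ))) p9_278 (sfcons (a := ((6798750382872 : ℕ), (6978242876382 : ℕ))) p9_279 (sfcons (a := ((6978240322776 : ℕ),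 (7093551524094 : ℕ))) p9_280 (sfcons (a := ((7093549722978 : ℕ), (7234848496926 : ℕ))) p9_281 (sfcons (a := ((7234846967646 : ℕ), (7358339813886 : ℕ))) p9_282 (sfcons (a := ((7358338079190 : ℕ), (7504895213406 : ℕ))) p9_283 (sfcons (a := ((7451989561932 : ℕ), (7622307968946 : ℕ))) p9_284 (sfcons (a := ((7601515358058 : ℕ), (7689822532974 : ℕ))) p9_285 (sfcons (a := ((7689821951976 : ℕ), (7734062773710 : ℕ))) p9_286 (sfcons (a := ((7728226280907 : ℕ), (7980019663842 : ℕ))) p9_287 (sfcons (a := ((7980019192896 : ℕ), (8173584698646 : ℕ))) p9_288 (sfcons (a := ((8168800225868 : ℕ), (8514221777274 : ℕ))) p9_289 (sfcons (a := ((8514219447045 : ℕ), (8733125222244 : ℕ))) p9_290 (sfcons (a := ((8733124521558 : ℕ), (8835799133358 : ℕ))) p9_291 (sfcons (a := ((8835796435248 : ℕ), (8935747265070 : ℕ))) p9_292 (sfcons (a := ((8912352095288 : ℕ), (9225535141764 : ℕ))) p9_293 (sfcons (a := ((9225533505016 : ℕ), (9363384559572 : ℕ))) p9_294 (sfcons (a := ((9355675663080 : ℕ), (9476694596142 : ℕ))) p9_295 (sfcons (a := ((9465285125763 : ℕ), (9571122494910 : ℕ))) p9_296 (sfcons (a := ((9535938444761 : ℕ), (9745159128390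 : ℕ))) p9_297 (sfcons (a := ((9745156619064 : ℕ), (9859103622270 : ℕ))) p9_298 (sfcons (a := ((9859100381136 : ℕ), (9958927641246 : ℕ))) p9_299 (sfcons (a := ((9958924459242 : ℕ), (10065438110430 : ℕ))) p9_300 (sfcons (a := ((10065436663041 : ℕ), (10179654059070 : ℕ))) p9_301 (sfcons (a := ((10123645143781 : ℕ), (10438748237502 : ℕ))) p9_302 (sfcons (a := ((10438747514666 : ℕ), (10584758873004 : ℕ))) p9_303 (sfcons (a := ((10584756602964 : ℕ), (10701555540030 : ℕ))) p9_304 (sfcons (a := ((10688899080783 : ℕ), (10819021374882 : ℕ))) p9_305 (sfcons (a := ((10777495729797 : ℕ), (10913194617102 : ℕ))) p9_306 (sfcons (a := ((10911084958267 : ℕ), (11101117008582 : ℕ))) p9_307 (sfcons (a := ((11004669562860 : ℕ), (11155015728846 : ℕ))) p9_308 (sfcons (a := ((11155010443596 : ℕ), (11319396791886 : ℕ))) p9_309 (sfcons (a := ((11319392003814 : ℕ), (11545255910142 : ℕ))) p9_310 (sfcons (a := ((11545254478548 : ℕ), (11622864472542 : ℕ))) p9_311 (sfcons (a := ((11622862943262 : ℕ), (11728054436958 : ℕ))) p9_312 (sfcons (a := ((11728052609436 : ℕ), (11926297682190 : ℕ))) p9_313 (sfcons (a := ((11926296030924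 : ℕ), (12109805636814 : ℕ))) p9_314 (sfcons (a := ((12109803898149 : ℕ), (12483486969966 : ℕ))) p9_315 (sfcons (a := ((12471883724259 : ℕ), (12761734427118 : ℕ))) p9_316 (sfcons (a := ((12761727769809 : ℕ), (13050766636398 : ℕ))) p9_317 (sfcons (a := ((13050763976358 : ℕ), (13316709234510 : ℕ))) p9_318 (sfcons (a := ((13316703774786 : ℕ), (13652578352430 : ℕ))) p9_319 (sfcons (a := ((13652575326513 : ℕ), (14057057303406 : ℕ))) p9_320 (sfcons (a := ((14055997592556 : ℕ), (14201747337726 : ℕ))) p9_321 (sfcons (a := ((14201742493602 : ℕ), (14837063703246 : ℕ))) p9_322 sfnil))))))))))))))))))))))))))))))))))))))))))))))))))))))))))))))))))))))))))))))))))))))))))))))))))))))))))))))))))))))))))))))))))))))))))))))))))))))))))))))))))))))))))))))))))))))))))))))))))))))))))))))))))))))))))))))))))))))))))))))))))))))))))))))))))))))))))))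

theorem Ls9_cover : cover 180000000000 Ls9 14580000000000 = true := by decide +kernel

end Pool.Agent.Lib.MP_cfac74_al.Cov
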